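import Pool.Agent.Lib.MP_c2b80f_alC.AdDefs

/-!
# Conjugations span the operators of rank one: first step (job AdA)
-/

open Matrix

namespace WCn

variable {m : ℕ}

theorem adA_comp (g h : SLC m) : (Ad g).comp (Ad h) = Ad (g * h) := by
  refine LinearMap.ext fun Y => ?_
  change g.1 * (h.1 * Y * (h⁻¹).1) * (g⁻¹).1 = (g * h).1 * Y * ((g * h)⁻¹).1
  rw [_root_.mul_inv_rev, Matrix.SpecialLinearGroup.coe_mul, Matrix.SpecialLinearGroup.coe_mul]
  simp only [Matrix.mul_assoc]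

theorem adA_trace (i j : Fin m) (Y : Matrix (Fin m) (Fin m) ℂ) : (Matrix.single i j 1 * Y).trace = Y j i := by
  rw [Matrix.trace, Finset.sum_eq_single i]
  · rw [Matrix.diag_apply, Matrix.single_mul_apply_same, one_mul]
  · intro b _ hb
    rw [Matrix.diag_apply, Matrix.single_mul_apply_of_ne _ _ _ _ _ hb]
  · intro h
    exact absurd (Finset.mem_univ i) h

/-- `Ad g ∘ Op X Z = Op (g X g⁻¹) Z`. -/
theorem Ad_comp_Op (g : SLC m) (X Z : Matrix (Fin m) (Fin m) ℂ) : (Ad g).comp (Op X Z) = Op (g.1 * X * (g⁻¹).1) Z := by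
  refine LinearMap.ext fun Y => ?_
  change g.1 * ((Z * Y).trace • X) * (g⁻¹).1 = (Z * Y).trace • (g.1 * X * (g⁻¹).1)
  rw [Matrix.mul_smul, Matrix.smul_mul]

/-- `Op X Z ∘ Ad g = Op X (g⁻¹ Z g)` (cyclicity of the trace). -/
theorem Op_comp_Ad (g : SLC m) (X Z : Matrix (Fin m) (Fin m) ℂ) : (Op X Z).comp (Ad g) = Op X ((g⁻¹).1 * Z * g.1) := by
  refine LinearMap.ext fun Y => ?_
  change (Z * (g.1 * Y * (g⁻¹).1)).trace • X = ((g⁻¹).1 * Z * g.1 * Y).trace • X
  rw [← Matrix.mul_assoc, Matrix.trace_mul_comm, ← Matrix.mul_assoc, ← Matrix.mul_assoc]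

/-- `AdS univ` is stable under composition with `Ad g` on both sides (`Ad g ∘ Ad h = Ad (g h)`). -/
theorem comp_mem_AdS (g : SLC m) {T : Matrix (Fin m) (Fin m) ℂ →ₗ[ℂ] Matrix (Fin m) (Fin m) ℂ}
    (hT : T ∈ AdS (Set.univ : Set (SLC m))) :
    (Ad g).comp T ∈ AdS (Set.univ : Set (SLC m)) ∧ T.comp (Ad g) ∈ AdS (Set.univ : Set (SLC m)) := by
  unfold AdS at hT ⊢
  induction hT using Submodule.span_induction with
  | mem x hx =>
    obtain ⟨h, -, rfl⟩ := hx
    rw [adA_comp, adA_comp]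
    exact ⟨Submodule.subset_span ⟨_, Set.mem_univ _, rfl⟩, Submodule.subset_span ⟨_, Set.mem_univ _, rfl⟩⟩
  | zero =>
    rw [LinearMap.comp_zero, LinearMap.zero_comp]
    exact ⟨Submodule.zero_mem _, Submodule.zero_mem _⟩
  | add x y _ _ h1 h2 =>
    rw [LinearMap.comp_add, LinearMap.add_comp]
    exact ⟨Submodule.add_mem _ h1.1 h2.1, Submodule.add_mem _ h1.2 h2.2⟩
  | smul c x _ h1 =>
    rw [LinearMap.comp_smul, LinearMap.smul_comp]
    exact ⟨Submodule.smul_mem _ _ h1.1, Submodule.smul_mem _ _ h1.2⟩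

/-- For `E = Matrix.single i j 1`, `i ≠ j`, the matrices `1 ± E` are in `SL_m` (`Matrix.det_transvection_of_ne`), `(1 + E)⁻¹ = 1 - E`, and `Ad (1 + E) + Ad (1 - E) - 2 Ad 1` is
`Y ↦ -2 E Y E = -2 Y j i E = -2 (Op E E) Y`. -/
theorem op_single_mem (i j : Fin m) (hij : i ≠ j) :
    Op (Matrix.single i j 1) (Matrix.single i j 1) ∈ AdS (Set.univ : Set (SLC m)) := by
  set gp : SLC m := ⟨Matrix.transvection i j 1, Matrix.det_transvection_of_ne i j hij 1⟩ with hgp
  set gm : SLC m := ⟨Matrix.transvection i j (-1), Matrix.det_transvection_of_ne i j hij (-1)⟩ with hgm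
  have h1 : gp * gm = 1 := by
    apply Subtype.ext
    change Matrix.transvection i j (1 : ℂ) * Matrix.transvection i j (-1) = 1
    rw [Matrix.transvection_mul_transvection_same i j hij, add_neg_cancel, Matrix.transvection_zero]
  have h2 : gp⁻¹ = gm := inv_eq_of_mul_eq_one_right h1
  have h3 : gm⁻¹ = gp := inv_eq_of_mul_eq_one_left h1
  have h4 : Op (Matrix.single i j 1) (Matrix.single i j 1) = (-(1 / 2) : ℂ) • (Ad gp + Ad gm - (2 : ℂ) • Ad (1 : SLC m)) := by
    refine LinearMap.ext fun Y => ?_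
    change (Matrix.single i j 1 * Y).trace • Matrix.single i j (1 : ℂ) = (-(1 / 2) : ℂ) • (gp.1 * Y * (gp⁻¹).1 + gm.1 * Y * (gm⁻¹).1 -
      (2 : ℂ) • ((1 : SLC m).1 * Y * ((1 : SLC m)⁻¹).1))
    rw [h2, h3, inv_one]
    change (Matrix.single i j 1 * Y).trace • Matrix.single i j (1 : ℂ) = (-(1 / 2) : ℂ) • (Matrix.transvection i j (1 : ℂ) * Y *
      Matrix.transvection i j (-1) + Matrix.transvection i j (-1) * Y * Matrix.transvection i j (1 : ℂ) -
      (2 : ℂ) • ((1 : Matrix (Fin m) (Fin m) ℂ) * Y * (1 : Matrix (Fin m) (Fin m) ℂ)))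
    have h5 : Matrix.single i j (-1 : ℂ) = -Matrix.single i j (1 : ℂ) := (Matrix.single_neg i j (1 : ℂ)).symm
    unfold Matrix.transvection
    rw [h5, Matrix.one_mul, Matrix.mul_one]
    have h6 : (1 + Matrix.single i j (1 : ℂ)) * Y * (1 + -Matrix.single i j (1 : ℂ)) +
        (1 + -Matrix.single i j (1 : ℂ)) * Y * (1 + Matrix.single i j (1 : ℂ)) - (2 : ℂ) • Y =
        (-2 : ℂ) • (Matrix.single i j (1 : ℂ) * Y * Matrix.single i j (1 : ℂ)) := by
      rw [two_smul, neg_smul, two_smul]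
      noncomm_ring
    rw [h6, smul_smul]
    have h7 : (-(1 / 2) : ℂ) * -2 = 1 := by norm_num
    rw [h7, one_smul]
    ext a b
    rw [Matrix.smul_apply, smul_eq_mul, adA_trace]
    by_cases hb : b = j
    · subst hb
      rw [Matrix.mul_single_apply_same, mul_one]
      by_cases ha : a = i
      · subst ha
        rw [Matrix.single_mul_apply_same, one_mul, Matrix.single_apply_same, mul_one]
      · rw [Matrix.single_mul_apply_of_ne _ _ _ _ _ ha, Matrix.single_apply_of_row_ne (Ne.symm ha), mul_zero]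
    · rw [Matrix.mul_single_apply_of_ne _ _ _ _ _ hb, Matrix.single_apply_of_col_ne _ _ (Ne.symm hb), mul_zero]
  rw [h4]
  refine Submodule.smul_mem _ _ (Submodule.sub_mem _ (Submodule.add_mem _ ?_ ?_) (Submodule.smul_mem _ _ ?_))
  · exact Submodule.subset_span ⟨_, Set.mem_univ _, rfl⟩
  · exact Submodule.subset_span ⟨_, Set.mem_univ _, rfl⟩
  · exact Submodule.subset_span ⟨_, Set.mem_univ _, rfl⟩

end WCn
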