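import Pool.Agent.Lib.MP_c2b80f_alC.AdDefs

/-!
# Zariski dense subgroups have the same span of conjugations (job AdB)
-/

open Matrix

namespace WCn

variable {m : ℕ}

/-- The elementary operators `Y ↦ Y k l • E_ij`. -/
private noncomputable def AdB_B (k l i j : Fin m) :
    Matrix (Fin m) (Fin m) ℂ →ₗ[ℂ] Matrix (Fin m) (Fin m) ℂ where
  toFun Y := Y k l • Matrix.single i j 1
  map_add' := by
    intro Y Z
    rw [Matrix.add_apply, add_smul]
  map_smul' := by
    intro c Y
    rw [Matrix.smul_apply, smul_eq_mul, mul_smul, RingHom.id_apply]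

private theorem AdB_expand (T : Matrix (Fin m) (Fin m) ℂ →ₗ[ℂ] Matrix (Fin m) (Fin m) ℂ) :
    T = ∑ k, ∑ l, ∑ i, ∑ j, (T (Matrix.single k l 1)) i j • AdB_B k l i j := by
  have h0 : ∀ Y : Matrix (Fin m) (Fin m) ℂ, Y = ∑ k, ∑ l, Y k l • Matrix.single k l 1 := by
    intro Y
    have h := Matrix.matrix_eq_sum_single Y
    refine h.trans (Finset.sum_congr rfl fun k _ => Finset.sum_congr rfl fun l _ => ?_)
    rw [Matrix.smul_single, smul_eq_mul, mul_one]
  refine LinearMap.ext fun Y => ?_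
  simp only [LinearMap.sum_apply, LinearMap.smul_apply]
  have h1 : T Y = ∑ k, ∑ l, Y k l • T (Matrix.single k l 1) := by
    have h2 := congrArg T (h0 Y)
    simp only [map_sum, map_smul] at h2
    exact h2
  rw [h1]
  refine Finset.sum_congr rfl fun k _ => Finset.sum_congr rfl fun l _ => ?_
  have h3 := congrArg (fun Z => Y k l • Z) (h0 (T (Matrix.single k l 1)))
  simp only [Finset.smul_sum] at h3
  refine h3.trans (Finset.sum_congr rfl fun i _ => Finset.sum_congr rfl fun j _ => ?_)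
  change Y k l • T (Matrix.single k l 1) i j • Matrix.single i j (1 : ℂ) =
    T (Matrix.single k l 1) i j • (Y k l • Matrix.single i j 1)
  rw [smul_comm]

/-- The generic matrix. -/
private noncomputable def AdB_G (m : ℕ) : Matrix (Fin m) (Fin m) (MvPolynomial (Fin m × Fin m) ℂ) :=
  Matrix.of fun i j => MvPolynomial.X (i, j)

/-- The generic conjugate of `Y`. -/
private noncomputable def AdB_Q (Y : Matrix (Fin m) (Fin m) ℂ) :
    Matrix (Fin m) (Fin m) (MvPolynomial (Fin m × Fin m) ℂ) :=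
  AdB_G m * Matrix.map Y (fun z => (MvPolynomial.C z : MvPolynomial (Fin m × Fin m) ℂ)) *
    (AdB_G m).adjugate

private theorem AdB_eval (g : SLC m) (Y : Matrix (Fin m) (Fin m) ℂ) (i j : Fin m) :
    MvPolynomial.eval (fun ij : Fin m × Fin m => g.1 ij.1 ij.2)
      (AdB_Q Y i j) = (Ad g Y) i j := by
  unfold AdB_Q
  set ev := (MvPolynomial.eval (fun ij : Fin m × Fin m => g.1 ij.1 ij.2) :
    MvPolynomial (Fin m × Fin m) ℂ →+* ℂ) with hev
  have h1 : ev.mapMatrix (AdB_G m) = g.1 := by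
    ext a b
    rw [RingHom.mapMatrix_apply, Matrix.map_apply]
    unfold AdB_G
    rw [Matrix.of_apply, hev, MvPolynomial.eval_X]
  have h2 : ev.mapMatrix
      (Matrix.map Y (fun z => (MvPolynomial.C z : MvPolynomial (Fin m × Fin m) ℂ))) = Y := by
    ext a b
    rw [RingHom.mapMatrix_apply, Matrix.map_apply, Matrix.map_apply, hev, MvPolynomial.eval_C]
  have h3 : ev.mapMatrix (AdB_G m *
      Matrix.map Y (fun z => (MvPolynomial.C z : MvPolynomial (Fin m × Fin m) ℂ)) *
        (AdB_G m).adjugate) = g.1 * Y * g.1.adjugate := by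
    rw [map_mul, map_mul, h1, h2, RingHom.map_adjugate, h1]
  have h4 : (Ad g Y) = g.1 * Y * g.1.adjugate := by
    change g.1 * Y * (g⁻¹).1 = _
    rfl
  rw [h4, ← h3, RingHom.mapMatrix_apply, Matrix.map_apply]

/-- Polynomial functions: for a linear functional `ℓ` on the operators there is a polynomial `P` in the entries with `ℓ (Ad g) = P(g)` for all `g ∈ SL_m(ℂ)`: `(Ad g) Y = g Y adj(g)`
(`Matrix.SpecialLinearGroup.coe_inv`), whose entries are polynomials in the entries of `g` (use the matrix `𝒢 = Matrix.of fun i j => MvPolynomial.X (i, j)` over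
`MvPolynomial (Fin m × Fin m) ℂ`, its adjugate, and `RingHom.map_adjugate`), and `Ad g = ∑ (Ad g (E_kl))_ij • (elementary operators)`. -/
theorem exists_poly_of_functional (ℓ : (Matrix (Fin m) (Fin m) ℂ →ₗ[ℂ] Matrix (Fin m) (Fin m) ℂ) →ₗ[ℂ] ℂ) :
    ∃ P : MvPolynomial (Fin m × Fin m) ℂ, ∀ g : SLC m,
      ℓ (Ad g) = MvPolynomial.eval (fun ij : Fin m × Fin m => g.1 ij.1 ij.2) P := by
  refine ⟨∑ k, ∑ l, ∑ i, ∑ j,
    AdB_Q (Matrix.single k l (1 : ℂ)) i j *
      MvPolynomial.C (ℓ (AdB_B k l i j)), fun g => ?_⟩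
  have h1 := congrArg ℓ (AdB_expand (Ad g))
  simp only [map_sum, map_smul, smul_eq_mul] at h1
  rw [h1]
  simp only [map_sum, map_mul, MvPolynomial.eval_C, AdB_eval]

/-- Proof. `≤` is clear. If `AdS Γ ≠ AdS univ` there is a linear functional `ℓ` which vanishes on `AdS Γ` but not on some `Ad g` (`Submodule.exists_le_ker_of_notMem`
or a similar lemma for a vector not in a subspace). Apply `exists_poly_of_functional` and Zariski density. -/
theorem AdS_of_zDense (Γ : Subgroup (SLC m)) (hz : ZDense Γ) :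
    AdS (Γ : Set (SLC m)) = AdS (Set.univ : Set (SLC m)) := by
  refine le_antisymm (Submodule.span_mono (Set.image_mono (Set.subset_univ _))) ?_
  refine Submodule.span_le.2 ?_
  rintro _ ⟨g, _, rfl⟩
  by_contra hg
  obtain ⟨ℓ, hℓ, hle⟩ := Submodule.exists_le_ker_of_notMem hg
  obtain ⟨P, hP⟩ := exists_poly_of_functional ℓ
  refine hℓ ?_
  rw [hP]
  refine hz P (fun γ hγ => ?_) g
  rw [← hP]
  exact hle (Submodule.subset_span ⟨γ, hγ, rfl⟩)

end WCn
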