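import Pool.Agent.Lib.MP_c2b80f_alC.AdDefs

/-!
# Conjugates of the elementary matrices span the matrices of trace zero (job AdC)
-/

open Matrix

namespace WCn

variable {m : ℕ}

theorem adC_perm (i j k l : Fin m) (hij : i ≠ j) (hkl : k ≠ l) : ∃ σ : Equiv.Perm (Fin m), σ i = k ∧ σ j = l := by
  have h1 : Equiv.swap i k j ≠ k := by
    intro h
    apply hij
    apply (Equiv.swap i k).injective
    rw [h, Equiv.swap_apply_left]
  refine ⟨Equiv.swap (Equiv.swap i k j) l * Equiv.swap i k, ?_, ?_⟩
  · rw [Equiv.Perm.mul_apply, Equiv.swap_apply_left, Equiv.swap_apply_of_ne_of_ne h1.symm hkl]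
  · rw [Equiv.Perm.mul_apply, Equiv.swap_apply_left]

theorem adC_conj (g : SLC m) (X Y : Matrix (Fin m) (Fin m) ℂ) (h : g.1 * X = Y * g.1) : g.1 * X * (g⁻¹).1 = Y := by
  have h1 : g.1 * (g⁻¹).1 = 1 := by
    change ((g * g⁻¹ : SLC m) : Matrix (Fin m) (Fin m) ℂ) = 1
    rw [mul_inv_cancel]
    rfl
  rw [h, Matrix.mul_assoc, h1, Matrix.mul_one]

/-- All elementary matrices off the diagonal are conjugate up to sign: `g E_ij g⁻¹ = ± E_kl` for some `g ∈ SL_m(ℂ)`. (Signed permutation matrices of determinant one; or in steps: for `k ≠ i, j` conjugation by the product of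
transvections `w = (1 + E_ki)(1 - E_ik)(1 + E_ki)`, which acts on the plane of `e_i, e_k` as a rotation, takes `E_ij` to `± E_kj`; similarly for the second index; and the same matrix for the
pair `i, j` exchanges `E_ij` and `E_ji` up to sign.) -/
theorem exists_conj_single (i j k l : Fin m) (hij : i ≠ j) (hkl : k ≠ l) :
    ∃ (g : SLC m) (ε : ℂ), ε ≠ 0 ∧ g.1 * Matrix.single i j 1 * (g⁻¹).1 = ε • Matrix.single k l 1 := by
  obtain ⟨σ, h1, h2⟩ := adC_perm i j k l hij hkl
  set s : ℂ := ((Equiv.Perm.sign σ : ℤ) : ℂ) with hs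
  have hss : s * s = 1 := by
    rw [hs, ← Int.cast_mul, ← Units.val_mul, Int.units_mul_self, Units.val_one, Int.cast_one]
  have hs0 : s ≠ 0 := by
    intro h
    rw [h, mul_zero] at hss
    exact zero_ne_one hss
  have hdet : (Matrix.diagonal (fun a => if a = k then s else 1) *
      (Equiv.Perm.permMatrix ℂ σ⁻¹ : Matrix (Fin m) (Fin m) ℂ)).det = 1 := by
    rw [Matrix.det_mul, Matrix.det_diagonal, Matrix.det_permutation, Equiv.Perm.sign_inv,
      Finset.prod_ite_eq' Finset.univ k (fun _ => s), if_pos (Finset.mem_univ k)]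
    exact hss
  refine ⟨⟨_, hdet⟩, s, hs0, ?_⟩
  refine adC_conj _ _ _ ?_
  change (Matrix.diagonal (fun a => if a = k then s else 1) *
      (Equiv.Perm.permMatrix ℂ σ⁻¹ : Matrix (Fin m) (Fin m) ℂ)) * Matrix.single i j 1 =
      (s • Matrix.single k l 1) * (Matrix.diagonal (fun a => if a = k then s else 1) *
      (Equiv.Perm.permMatrix ℂ σ⁻¹ : Matrix (Fin m) (Fin m) ℂ))
  have hg : ∀ a b, (Matrix.diagonal (fun a => if a = k then s else 1) *
      (Equiv.Perm.permMatrix ℂ σ⁻¹ : Matrix (Fin m) (Fin m) ℂ)) a b =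
      (if a = k then s else 1) * (if a = σ b then 1 else 0) := by
    intro a b
    rw [Matrix.diagonal_mul]
    congr 1
    rw [Equiv.Perm.permMatrix, PEquiv.toMatrix_apply]
    refine if_congr ?_ rfl rfl
    rw [Equiv.toPEquiv_apply, Option.mem_some_iff, Equiv.Perm.inv_eq_iff_eq]
  ext a b
  rw [Matrix.smul_mul, Matrix.smul_apply, smul_eq_mul]
  by_cases hb : b = j
  · subst hb
    rw [Matrix.mul_single_apply_same, mul_one, hg]
    by_cases ha : a = k
    · subst ha
      rw [Matrix.single_mul_apply_same, one_mul, hg, h1, h2, if_pos rfl, if_pos rfl, if_neg hkl.symm, if_pos rfl,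
        one_mul, mul_one]
    · rw [Matrix.single_mul_apply_of_ne _ _ _ _ _ ha, h1, if_neg ha, if_neg ha, mul_zero, mul_zero]
  · rw [Matrix.mul_single_apply_of_ne _ _ _ _ _ hb]
    by_cases ha : a = k
    · subst ha
      rw [Matrix.single_mul_apply_same, one_mul, hg]
      have h3 : l ≠ σ b := by
        intro h
        apply hb
        apply σ.injective
        rw [← h, h2]
      rw [if_neg h3, mul_zero, mul_zero]
    · rw [Matrix.single_mul_apply_of_ne _ _ _ _ _ ha, mul_zero]

/-- `(1 + E_ji) E_ij (1 - E_ji) = E_ij - E_ii + E_jj - E_ji`, so `E_ii - E_jj` is in the span of conjugates of elementary matrices. -/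
theorem slSet_subset_NilS (X : Matrix (Fin m) (Fin m) ℂ) (hX : X ∈ slSet m) : X ∈ NilS m := by
  have h0 : ∀ i j : Fin m, i ≠ j → Matrix.single i j (1 : ℂ) ∈ NilS m := by
    intro i j hij
    refine Submodule.subset_span ⟨1, i, j, hij, ?_⟩
    rw [inv_one]
    change _ = (1 : Matrix (Fin m) (Fin m) ℂ) * Matrix.single i j 1 * 1
    rw [Matrix.one_mul, Matrix.mul_one]
  rcases hX with ⟨i, j, hij, rfl⟩ | ⟨i, j, hij, rfl⟩
  · exact h0 i j hij
  · have hdet : (Matrix.transvection j i (1 : ℂ)).det = 1 := Matrix.det_transvection_of_ne j i hij.symm 1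
    have h1 : (Matrix.single i j 1 - Matrix.single i i 1 + Matrix.single j j 1 - Matrix.single j i 1 :
        Matrix (Fin m) (Fin m) ℂ) ∈ NilS m := by
      refine Submodule.subset_span ⟨⟨_, hdet⟩, i, j, hij, ?_⟩
      refine (adC_conj _ _ _ ?_).symm
      change (Matrix.transvection j i (1 : ℂ)) * Matrix.single i j 1 =
        (Matrix.single i j 1 - Matrix.single i i 1 + Matrix.single j j 1 - Matrix.single j i 1) *
          (Matrix.transvection j i (1 : ℂ))
      unfold Matrix.transvection
      rw [Matrix.add_mul, Matrix.one_mul, Matrix.mul_add, Matrix.mul_one]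
      simp only [Matrix.add_mul, Matrix.sub_mul]
      rw [Matrix.single_mul_single_same, Matrix.single_mul_single_same, Matrix.single_mul_single_same,
        Matrix.single_mul_single_of_ne _ _ _ _ hij, Matrix.single_mul_single_of_ne _ _ _ _ hij, mul_one]
      abel
    have h2 := (NilS m).sub_mem ((NilS m).sub_mem (h0 i j hij) (h0 j i hij.symm)) h1
    have h3 : (Matrix.single i j 1 - Matrix.single j i 1 -
        (Matrix.single i j 1 - Matrix.single i i 1 + Matrix.single j j 1 - Matrix.single j i 1) :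
        Matrix (Fin m) (Fin m) ℂ) = Matrix.single i i 1 - Matrix.single j j 1 := by abel
    rwa [h3] at h2

end WCn
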