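import Pool.Agent.Lib.MP_c2b80f_alC.Defs

/-!
# Conjugations and operators of rank one: definitions
-/

open Matrix

namespace WCn

variable {m : ℕ}

/-- Conjugation by `g`, as a linear map on matrices. -/
noncomputable def Ad (g : SLC m) : Matrix (Fin m) (Fin m) ℂ →ₗ[ℂ] Matrix (Fin m) (Fin m) ℂ where
  toFun Y := g.1 * Y * (g⁻¹).1
  map_add' := by
    intro Y Z
    rw [Matrix.mul_add, Matrix.add_mul]
  map_smul' := by
    intro c Y
    simp

/-- The operator `Y ↦ tr(Z Y) X`. -/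
noncomputable def Op (X Z : Matrix (Fin m) (Fin m) ℂ) : Matrix (Fin m) (Fin m) ℂ →ₗ[ℂ] Matrix (Fin m) (Fin m) ℂ where
  toFun Y := (Z * Y).trace • X
  map_add' := by
    intro Y Y'
    rw [Matrix.mul_add, Matrix.trace_add, add_smul]
  map_smul' := by
    intro c Y
    simp [smul_smul]

/-- The span of the conjugations by a set of elements. -/
noncomputable def AdS (S : Set (SLC m)) : Submodule ℂ (Matrix (Fin m) (Fin m) ℂ →ₗ[ℂ] Matrix (Fin m) (Fin m) ℂ) :=
  Submodule.span ℂ (Ad '' S)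

/-- The matrices `E_ij` (`i ≠ j`) and `E_ii - E_jj`; they span the matrices of trace zero. -/
def slSet (m : ℕ) : Set (Matrix (Fin m) (Fin m) ℂ) :=
  {X | (∃ i j, i ≠ j ∧ X = Matrix.single i j 1) ∨ (∃ i j, i ≠ j ∧ X = Matrix.single i i 1 - Matrix.single j j 1)}

/-- The span of the matrices `g E_ij g⁻¹`, `i ≠ j`. -/
noncomputable def NilS (m : ℕ) : Submodule ℂ (Matrix (Fin m) (Fin m) ℂ) :=
  Submodule.span ℂ {X | ∃ (g : SLC m) (i j : Fin m), i ≠ j ∧ X = g.1 * Matrix.single i j 1 * (g⁻¹).1}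

end WCn
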