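import Pool.Agent.Lib.MP_c2b80f_alC.AdA
import Pool.Agent.Lib.MP_c2b80f_alC.AdC

/-!
# Conjugations span the operators of rank one (job AdE)
-/

open Matrix

namespace WCn

variable {m : ℕ}

private theorem AdE_apply (X Z Y : Matrix (Fin m) (Fin m) ℂ) : Op X Z Y = (Z * Y).trace • X := rfl

private theorem AdE_add_left (X X' Z : Matrix (Fin m) (Fin m) ℂ) : Op (X + X') Z = Op X Z + Op X' Z := by
  refine LinearMap.ext fun Y => ?_
  rw [LinearMap.add_apply, AdE_apply, AdE_apply, AdE_apply, smul_add]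

private theorem AdE_smul_left (c : ℂ) (X Z : Matrix (Fin m) (Fin m) ℂ) : Op (c • X) Z = c • Op X Z := by
  refine LinearMap.ext fun Y => ?_
  rw [LinearMap.smul_apply, AdE_apply, AdE_apply, smul_comm]

private theorem AdE_zero_left (Z : Matrix (Fin m) (Fin m) ℂ) : Op 0 Z = 0 := by
  refine LinearMap.ext fun Y => ?_
  rw [LinearMap.zero_apply, AdE_apply, smul_zero]

private theorem AdE_add_right (X Z Z' : Matrix (Fin m) (Fin m) ℂ) : Op X (Z + Z') = Op X Z + Op X Z' := by
  refine LinearMap.ext fun Y => ?_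
  rw [LinearMap.add_apply, AdE_apply, AdE_apply, AdE_apply, Matrix.add_mul, Matrix.trace_add, add_smul]

private theorem AdE_smul_right (c : ℂ) (X Z : Matrix (Fin m) (Fin m) ℂ) : Op X (c • Z) = c • Op X Z := by
  refine LinearMap.ext fun Y => ?_
  rw [LinearMap.smul_apply, AdE_apply, AdE_apply, Matrix.smul_mul, Matrix.trace_smul, smul_eq_mul,
    mul_smul]

private theorem AdE_zero_right (X : Matrix (Fin m) (Fin m) ℂ) : Op X 0 = 0 := by
  refine LinearMap.ext fun Y => ?_
  rw [LinearMap.zero_apply, AdE_apply, Matrix.zero_mul, Matrix.trace_zero, zero_smul]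

private theorem AdE_conj (g h : SLC m) (i j k l : Fin m) (hij : i ≠ j) (hkl : k ≠ l) :
    Op (g.1 * Matrix.single i j 1 * (g⁻¹).1) (h.1 * Matrix.single k l 1 * (h⁻¹).1) ∈
      AdS (Set.univ : Set (SLC m)) := by
  obtain ⟨g1, ε, hε, h1⟩ := exists_conj_single i j k l hij hkl
  have h2 := (comp_mem_AdS g1⁻¹ (op_single_mem i j hij)).2
  rw [Op_comp_Ad, inv_inv, h1, AdE_smul_right] at h2
  have h3 : Op (Matrix.single i j 1) (Matrix.single k l 1) ∈ AdS (Set.univ : Set (SLC m)) := by
    have h4 := Submodule.smul_mem _ ε⁻¹ h2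
    rwa [smul_smul, inv_mul_cancel₀ hε, one_smul] at h4
  have h4 := (comp_mem_AdS g h3).1
  rw [Ad_comp_Op] at h4
  have h5 := (comp_mem_AdS h⁻¹ h4).2
  rwa [Op_comp_Ad, inv_inv] at h5

private theorem AdE_nil (X Z : Matrix (Fin m) (Fin m) ℂ) (hX : X ∈ NilS m) (hZ : Z ∈ NilS m) :
    Op X Z ∈ AdS (Set.univ : Set (SLC m)) := by
  unfold NilS at hX hZ
  induction hX using Submodule.span_induction with
  | mem X hX =>
    obtain ⟨g, i, j, hij, rfl⟩ := hX
    induction hZ using Submodule.span_induction with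
    | mem Z hZ =>
      obtain ⟨h, k, l, hkl, rfl⟩ := hZ
      exact AdE_conj g h i j k l hij hkl
    | zero =>
      rw [AdE_zero_right]
      exact Submodule.zero_mem _
    | add Z Z' _ _ h1 h2 =>
      rw [AdE_add_right]
      exact Submodule.add_mem _ h1 h2
    | smul c Z _ h1 =>
      rw [AdE_smul_right]
      exact Submodule.smul_mem _ _ h1
  | zero =>
    rw [AdE_zero_left]
    exact Submodule.zero_mem _
  | add X X' _ _ h1 h2 =>
    rw [AdE_add_left]
    exact Submodule.add_mem _ h1 h2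
  | smul c X _ h1 =>
    rw [AdE_smul_left]
    exact Submodule.smul_mem _ _ h1

/-- Proof. Let `E = E_ij` for some `i ≠ j`. By `op_single_mem`, `comp_mem_AdS`, `Ad_comp_Op`, `Op_comp_Ad` all `Op (g E g⁻¹) (h E h⁻¹)` are in `AdS univ`. By `exists_conj_single` these are, up to nonzero factors, all
`Op X Z` with `X`, `Z` conjugates of any elementary matrices, and `Op` is bilinear, so `Op X Z ∈ AdS univ` for `X Z ∈ NilS m`; use `slSet_subset_NilS`. -/
theorem op_mem_AdS (X Z : Matrix (Fin m) (Fin m) ℂ) (hX : X ∈ slSet m) (hZ : Z ∈ slSet m) :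
    Op X Z ∈ AdS (Set.univ : Set (SLC m)) :=
  AdE_nil X Z (slSet_subset_NilS X hX) (slSet_subset_NilS Z hZ)

end WCn
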