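import Pool.Agent.Lib.MP_c2b80f_alC.Defs

/-!
# Zariski dense subgroups do not have finite exponent (job AdP)
-/

open Matrix

namespace WCn

variable {m : ℕ}

/-- For `k ≥ 1` there is `g ∈ Γ` with `g ^ k ≠ 1` (`2 ≤ m`): otherwise the polynomials given by the entries of `g ^ k - 1` vanish on `Γ`, so on `SL_m(ℂ)`, but
`(1 + E_01) ^ k = 1 + k E_01 ≠ 1`. (Polynomials: entries of the `k`-th power of the matrix `Matrix.of fun i j => MvPolynomial.X (i, j)`, `RingHom.map_matrix_mul`/`Matrix.map_pow`.) -/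
theorem exists_pow_ne_one (hm : 2 ≤ m) (Γ : Subgroup (SLC m)) (hz : ZDense Γ) (k : ℕ) (hk : 0 < k) :
    ∃ g ∈ Γ, g ^ k ≠ 1 := by
  by_contra hcon
  push Not at hcon
  obtain ⟨i, hi⟩ : ∃ i : Fin m, i = ⟨0, by omega⟩ := ⟨_, rfl⟩
  obtain ⟨j, hj⟩ : ∃ j : Fin m, j = ⟨1, by omega⟩ := ⟨_, rfl⟩
  have hij : i ≠ j := by
    rw [hi, hj]
    intro h
    exact absurd (congrArg Fin.val h) (by simp)
  let P : MvPolynomial (Fin m × Fin m) ℂ := ((Matrix.of fun a b => MvPolynomial.X (a, b) : Matrix (Fin m) (Fin m) (MvPolynomial (Fin m × Fin m) ℂ)) ^ k) i j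
  have hP : ∀ g : SLC m, MvPolynomial.eval (fun ab : Fin m × Fin m => g.1 ab.1 ab.2) P = (g.1 ^ k) i j := by
    intro g
    have h1 := Matrix.map_pow (Matrix.of fun a b => MvPolynomial.X (a, b) : Matrix (Fin m) (Fin m) (MvPolynomial (Fin m × Fin m) ℂ))
      (MvPolynomial.eval (fun ab : Fin m × Fin m => g.1 ab.1 ab.2)) k
    have h2 : (Matrix.of fun a b => MvPolynomial.X (a, b) : Matrix (Fin m) (Fin m) (MvPolynomial (Fin m × Fin m) ℂ)).map
        (MvPolynomial.eval (fun ab : Fin m × Fin m => g.1 ab.1 ab.2)) = g.1 := by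
      ext a b
      simp
    rw [h2] at h1
    rw [← h1]
    rfl
  have hΓ : ∀ g ∈ Γ, MvPolynomial.eval (fun ab : Fin m × Fin m => g.1 ab.1 ab.2) P = 0 := by
    intro g hg
    have h1 := congrArg (fun t : SLC m => t.1 i j) (hcon g hg)
    change ((g ^ k : SLC m)).1 i j = (1 : Matrix (Fin m) (Fin m) ℂ) i j at h1
    rw [Matrix.one_apply_ne hij] at h1
    rw [hP, ← h1]
    exact congrArg (fun M : Matrix (Fin m) (Fin m) ℂ => M i j) (Matrix.SpecialLinearGroup.coe_pow g k).symm
  have hall := hz P hΓ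
  have hpow : ∀ l : ℕ, (Matrix.transvection i j (1 : ℂ)) ^ l = Matrix.transvection i j (l : ℂ) := by
    intro l
    induction l with
    | zero => rw [pow_zero, Nat.cast_zero, Matrix.transvection_zero]
    | succ l ih => rw [pow_succ, ih, Matrix.transvection_mul_transvection_same i j hij, Nat.cast_succ]
  have h1 := (hP ⟨Matrix.transvection i j 1, Matrix.det_transvection_of_ne i j hij 1⟩).symm.trans
    (hall ⟨Matrix.transvection i j 1, Matrix.det_transvection_of_ne i j hij 1⟩)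
  change ((Matrix.transvection i j (1 : ℂ)) ^ k) i j = 0 at h1
  rw [hpow, Matrix.transvection, Matrix.add_apply, Matrix.one_apply_ne hij, Matrix.single_apply_same, zero_add] at h1
  exact hk.ne' (Nat.cast_eq_zero.1 h1)

end WCn
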