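import Pool.Agent.Lib.MP_c2b80f_alC.CartDefs

/-!
# Local coordinates `exp Y * exp Z` (job CartC)
-/

open NormedSpace

namespace WCn

variable {𝔸 : Type*} [NormedRing 𝔸] [NormedAlgebra ℝ 𝔸] [CompleteSpace 𝔸]

/-- Let `V`, `W` be complementary closed real subspaces. The map `(Y, Z) ↦ exp Y * exp Z`, `V × W → 𝔸`, has the invertible strict derivative `(Y, Z) ↦ Y + Z` at `0`
(`hasStrictFDerivAt_exp_zero`), so it is open at `0` (`HasStrictFDerivAt.map_nhds_eq_of_equiv` or `HasStrictFDerivAt.toOpenPartialHomeomorph`): every element close to `1` is `exp Y * exp Z` with small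
`Y ∈ V`, `Z ∈ W`. -/
theorem exists_coord [FiniteDimensional ℝ 𝔸] (V W : Submodule ℝ 𝔸) (hVW : IsCompl V W) (δ : ℝ) (hδ : 0 < δ) :
    ∃ ε : ℝ, 0 < ε ∧ ∀ g : 𝔸, ‖g - 1‖ < ε → ∃ Y ∈ V, ∃ Z ∈ W, ‖Y‖ < δ ∧ ‖Z‖ < δ ∧ g = exp Y * exp Z := by
  classical
  have hfV : FiniteDimensional ℝ V := inferInstance
  have hfW : FiniteDimensional ℝ W := inferInstance
  let L : (V × W) ≃L[ℝ] 𝔸 := (Submodule.prodEquivOfIsCompl V W hVW).toContinuousLinearEquiv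
  have hL : ∀ x : V × W, L x = (x.1 : 𝔸) + (x.2 : 𝔸) := fun x => Submodule.coe_prodEquivOfIsCompl' V W hVW x
  let pV : (V × W) →L[ℝ] 𝔸 := V.subtypeL.comp (ContinuousLinearMap.fst ℝ V W)
  let pW : (V × W) →L[ℝ] 𝔸 := W.subtypeL.comp (ContinuousLinearMap.snd ℝ V W)
  have hexpV : HasStrictFDerivAt (fun x : V × W => exp (x.1 : 𝔸)) pV 0 := by
    have h1 : HasStrictFDerivAt (exp : 𝔸 → 𝔸) (1 : 𝔸 →L[ℝ] 𝔸) (pV 0) := by
      rw [map_zero]
      exact hasStrictFDerivAt_exp_zero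
    have h2 := h1.comp (0 : V × W) pV.hasStrictFDerivAt
    exact h2
  have hexpW : HasStrictFDerivAt (fun x : V × W => exp (x.2 : 𝔸)) pW 0 := by
    have h1 : HasStrictFDerivAt (exp : 𝔸 → 𝔸) (1 : 𝔸 →L[ℝ] 𝔸) (pW 0) := by
      rw [map_zero]
      exact hasStrictFDerivAt_exp_zero
    have h2 := h1.comp (0 : V × W) pW.hasStrictFDerivAt
    exact h2
  have hmul := hexpV.mul' hexpW
  have hder : HasStrictFDerivAt (fun x : V × W => exp (x.1 : 𝔸) * exp (x.2 : 𝔸)) (L : (V × W) →L[ℝ] 𝔸) 0 := by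
    refine hmul.congr_fderiv ?_
    refine ContinuousLinearMap.ext fun x => ?_
    have e1 : ((L : (V × W) →L[ℝ] 𝔸)) x = (x.1 : 𝔸) + (x.2 : 𝔸) := hL x
    rw [e1]
    simp [pV, pW, NormedSpace.exp_zero, add_comm]
  have hnh := hder.map_nhds_eq_of_equiv
  have hball : {x : V × W | ‖x.1‖ < δ ∧ ‖x.2‖ < δ} ∈ nhds (0 : V × W) := by
    have h1 : Metric.ball (0 : V × W) δ ∈ nhds (0 : V × W) := Metric.ball_mem_nhds _ hδ
    refine Filter.mem_of_superset h1 fun x hx => ?_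
    rw [Metric.mem_ball, dist_zero_right, Prod.norm_def, max_lt_iff] at hx
    exact hx
  have h3 := Filter.image_mem_map (m := fun x : V × W => exp (x.1 : 𝔸) * exp (x.2 : 𝔸)) hball
  rw [hnh] at h3
  have h4 : exp ((0 : V × W).1 : 𝔸) * exp ((0 : V × W).2 : 𝔸) = 1 := by
    simp [NormedSpace.exp_zero]
  rw [h4] at h3
  obtain ⟨ε, hε, hsub⟩ := Metric.mem_nhds_iff.1 h3
  refine ⟨ε, hε, fun g hg => ?_⟩
  have hg' : g ∈ Metric.ball (1 : 𝔸) ε := by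
    rw [Metric.mem_ball, dist_eq_norm]
    exact hg
  obtain ⟨x, ⟨hx1, hx2⟩, hxg⟩ := hsub hg'
  exact ⟨x.1, x.1.2, x.2, x.2.2, hx1, hx2, hxg.symm⟩

end WCn
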