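import Pool.Agent.Lib.MP_c2b80f_alC.CartDefs

/-!
# Limits of directions are tangent (job CartL)
-/

open NormedSpace

namespace WCn

variable {𝔸 : Type*} [NormedRing 𝔸] [NormedAlgebra ℝ 𝔸] [CompleteSpace 𝔸]

/-- `exp (-x)` lies in `S` when `exp x` does. -/
private theorem cartL_neg (S : Set 𝔸) (hS : IsUnitGroup S) (x : 𝔸) (hx : exp x ∈ S) :
    exp (-x) ∈ S := by
  let : NormedAlgebra ℚ 𝔸 := NormedAlgebra.restrictScalars ℚ ℝ 𝔸
  obtain ⟨b, hb, h1, h2⟩ := hS.inv _ hx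
  have h3 : exp x * exp (-x) = 1 := by
    rw [← exp_add_of_commute (Commute.refl x).neg_right, add_neg_cancel, exp_zero]
  have h4 : exp (-x) = b := by
    calc exp (-x) = (b * exp x) * exp (-x) := by rw [h2, one_mul]
      _ = b * (exp x * exp (-x)) := by rw [mul_assoc]
      _ = b := by rw [h3, mul_one]
  rw [h4]
  exact hb

/-- powers -/
private theorem cartL_nat (S : Set 𝔸) (hS : IsUnitGroup S) (x : 𝔸) (hx : exp x ∈ S) (n : ℕ) :
    exp (n • x) ∈ S := by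
  let : NormedAlgebra ℚ 𝔸 := NormedAlgebra.restrictScalars ℚ ℝ 𝔸
  rw [exp_nsmul]
  induction n with
  | zero => rw [pow_zero]; exact hS.one
  | succ n ih => rw [pow_succ]; exact hS.mul _ ih _ hx

/-- integer multiples -/
private theorem cartL_int (S : Set 𝔸) (hS : IsUnitGroup S) (x : 𝔸) (hx : exp x ∈ S) (n : ℤ) :
    exp ((n : ℝ) • x) ∈ S := by
  obtain ⟨m, rfl | rfl⟩ := n.eq_nat_or_neg
  · have h : (((m : ℤ) : ℝ)) • x = m • x := by
      rw [Int.cast_natCast, Nat.cast_smul_eq_nsmul]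
    rw [h]
    exact cartL_nat S hS x hx m
  · have h : (((-(m : ℤ) : ℤ) : ℝ)) • x = -(m • x) := by
      rw [Int.cast_neg, Int.cast_natCast, neg_smul, Nat.cast_smul_eq_nsmul]
    rw [h]
    exact cartL_neg S hS _ (cartL_nat S hS x hx m)

/-- Let `Z_k → 0`, `Z_k ≠ 0`, `exp Z_k ∈ S` and `Z_k / ‖Z_k‖ → Z`. Then `Z ∈ tang S`: `exp (t Z) = lim exp (N_k Z_k)` with the integers `N_k = ⌊t / ‖Z_k‖⌋` (`N_k ‖Z_k‖ → t`), and
`exp (N_k Z_k) = (exp Z_k) ^ N_k ∈ S` (negative powers: `exp (-Z_k)` is the inverse). -/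
theorem tang_of_limit (S : Set 𝔸) (hS : IsUnitGroup S) (hc : IsClosed S) (Z : ℕ → 𝔸) (Z₀ : 𝔸)
    (h0 : Filter.Tendsto Z Filter.atTop (nhds 0)) (hne : ∀ k, Z k ≠ 0) (hZ : ∀ k, exp (Z k) ∈ S)
    (hlim : Filter.Tendsto (fun k => ‖Z k‖⁻¹ • Z k) Filter.atTop (nhds Z₀)) : Z₀ ∈ tang S := by
  let : NormedAlgebra ℚ 𝔸 := NormedAlgebra.restrictScalars ℚ ℝ 𝔸
  intro t
  have hpos : ∀ k, 0 < ‖Z k‖ := fun k => norm_pos_iff.mpr (hne k)
  have hn : Filter.Tendsto (fun k => ‖Z k‖) Filter.atTop (nhds 0) := by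
    have := h0.norm
    rwa [norm_zero] at this
  -- `N_k * ‖Z_k‖ → t`
  have hN : Filter.Tendsto (fun k => ((⌊t / ‖Z k‖⌋ : ℤ) : ℝ) * ‖Z k‖) Filter.atTop (nhds t) := by
    have hlow : Filter.Tendsto (fun k => t - ‖Z k‖) Filter.atTop (nhds t) := by
      have := (tendsto_const_nhds (x := t)).sub hn
      rwa [sub_zero] at this
    refine tendsto_of_tendsto_of_tendsto_of_le_of_le hlow tendsto_const_nhds ?_ ?_
    · intro k
      have h1 : t / ‖Z k‖ - 1 ≤ ((⌊t / ‖Z k‖⌋ : ℤ) : ℝ) := (Int.sub_one_lt_floor _).le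
      have h2 := mul_le_mul_of_nonneg_right h1 (hpos k).le
      have h3 : (t / ‖Z k‖ - 1) * ‖Z k‖ = t - ‖Z k‖ := by
        rw [sub_mul, div_mul_cancel₀ _ (hpos k).ne', one_mul]
      rw [h3] at h2
      exact h2
    · intro k
      have h1 : ((⌊t / ‖Z k‖⌋ : ℤ) : ℝ) ≤ t / ‖Z k‖ := Int.floor_le _
      have h2 := mul_le_mul_of_nonneg_right h1 (hpos k).le
      rw [div_mul_cancel₀ _ (hpos k).ne'] at h2
      exact h2
  have hM : Filter.Tendsto (fun k => exp (((⌊t / ‖Z k‖⌋ : ℤ) : ℝ) • Z k)) Filter.atTop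
      (nhds (exp (t • Z₀))) := by
    have h1 : Filter.Tendsto (fun k => (((⌊t / ‖Z k‖⌋ : ℤ) : ℝ) * ‖Z k‖) • (‖Z k‖⁻¹ • Z k))
        Filter.atTop (nhds (t • Z₀)) := hN.smul hlim
    have h2 : (fun k => (((⌊t / ‖Z k‖⌋ : ℤ) : ℝ) * ‖Z k‖) • (‖Z k‖⁻¹ • Z k)) =
        fun k => ((⌊t / ‖Z k‖⌋ : ℤ) : ℝ) • Z k := by
      funext k
      rw [smul_smul, mul_assoc, mul_inv_cancel₀ (hpos k).ne', mul_one]
    rw [h2] at h1
    exact h1.exp
  exact hc.mem_of_tendsto hM (Filter.Eventually.of_forall fun k => cartL_int S hS _ (hZ k) _)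

end WCn
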