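import Pool.Agent.Lib.MP_c2b80f_alC.CartT
import Pool.Agent.Lib.MP_c2b80f_alC.CartL
import Pool.Agent.Lib.MP_c2b80f_alC.CartC

/-!
# Elements of closed subgroups near the identity (job CartD)
-/

open NormedSpace

namespace WCn

variable {𝔸 : Type*} [NormedRing 𝔸] [NormedAlgebra ℝ 𝔸] [CompleteSpace 𝔸]

/-- Proof. By `tang_add`, `tang_smul`, `tang_zero` the set `tang S` is (the carrier of) a real subspace `V`; let `W` be a complement. Suppose the claim fails; then there are `g_k ∈ S`, `g_k → 1`,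
which are not of the form `exp Y` with `Y ∈ tang S`. By `exists_coord` `g_k = exp Y_k * exp Z_k` with `Y_k ∈ V`, `Z_k ∈ W`, both tending to `0` (for large `k`), and `Z_k ≠ 0`. `exp Z_k = exp (-Y_k) g_k ∈ S`. By
compactness of the unit sphere of `W` a subsequence of `Z_k / ‖Z_k‖` converges to some `Z ∈ W` of norm one; `Z ∈ tang S = V` by `tang_of_limit`: contradiction to `V ∩ W = 0`. -/
theorem exists_tang [NormOneClass 𝔸] [FiniteDimensional ℝ 𝔸] (S : Set 𝔸) (hS : IsUnitGroup S) (hc : IsClosed S) :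
    ∃ ε : ℝ, 0 < ε ∧ ∀ g ∈ S, ‖g - 1‖ < ε → ∃ Y ∈ tang S, g = exp Y := by
  classical
  by_contra hcon
  push Not at hcon
  let V : Submodule ℝ 𝔸 :=
    { carrier := tang S
      add_mem' := fun hX hY => tang_add S hS hc hX hY
      zero_mem' := tang_zero S hS
      smul_mem' := fun c X hX => tang_smul S c hX }
  obtain ⟨W, hVW⟩ := V.exists_isCompl
  have hstep : ∀ k : ℕ, ∃ Z ∈ W, ‖Z‖ < 1 / ((k : ℝ) + 1) ∧ Z ≠ 0 ∧ exp Z ∈ S := by
    intro k
    obtain ⟨ε, hε, h⟩ := exists_coord V W hVW (1 / ((k : ℝ) + 1)) (by positivity)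
    obtain ⟨g, hgS, hg1, hgn⟩ := hcon ε hε
    obtain ⟨Y, hY, Z, hZ, hYn, hZn, hgeq⟩ := h g hg1
    refine ⟨Z, hZ, hZn, ?_, ?_⟩
    · rintro rfl
      apply hgn Y hY
      rw [hgeq, exp_zero, mul_one]
    · have hY' : Y ∈ tang S := hY
      have h1 : exp (-Y) ∈ S := by
        have := hY' (-1)
        rwa [neg_one_smul] at this
      have h2 : exp (-Y) * exp Y = (1 : 𝔸) := by
        letI : NormedAlgebra ℚ 𝔸 := NormedAlgebra.restrictScalars ℚ ℝ 𝔸
        rw [← exp_add_of_commute ((Commute.refl Y).neg_left), neg_add_cancel, exp_zero]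
      have h3 : exp Z = exp (-Y) * g := by
        rw [hgeq, ← mul_assoc, h2, one_mul]
      rw [h3]
      exact hS.mul _ h1 _ hgS
  choose Z hZW hZn hZ0 hZS using hstep
  have hZnorm : ∀ k, 0 < ‖Z k‖ := fun k => norm_pos_iff.mpr (hZ0 k)
  have hu : ∀ k, (fun k => ‖Z k‖⁻¹ • Z k) k ∈ Metric.sphere (0 : 𝔸) 1 := by
    intro k
    simp only [mem_sphere_iff_norm, sub_zero]
    rw [norm_smul, norm_inv, norm_norm]
    exact inv_mul_cancel₀ (hZnorm k).ne'
  haveI : ProperSpace 𝔸 := FiniteDimensional.proper ℝ 𝔸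
  obtain ⟨Z₀, hZ₀, φ, hφ, hlim⟩ := (isCompact_sphere (0 : 𝔸) 1).tendsto_subseq hu
  have h0 : Filter.Tendsto Z Filter.atTop (nhds 0) := by
    rw [tendsto_zero_iff_norm_tendsto_zero]
    refine squeeze_zero (fun k => norm_nonneg _) (fun k => (hZn k).le) ?_
    exact tendsto_one_div_add_atTop_nhds_zero_nat
  have hT : Z₀ ∈ tang S :=
    tang_of_limit S hS hc (fun k => Z (φ k)) Z₀ (h0.comp hφ.tendsto_atTop) (fun k => hZ0 _)
      (fun k => hZS _) hlim
  have hV : Z₀ ∈ V := hT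
  have hW : Z₀ ∈ W := by
    have hWc : IsClosed (W : Set 𝔸) := W.closed_of_finiteDimensional
    refine hWc.mem_of_tendsto hlim (Filter.Eventually.of_forall fun k => ?_)
    exact W.smul_mem _ (hZW _)
  have hz : Z₀ = 0 := by
    have := hVW.disjoint
    rw [Submodule.disjoint_def] at this
    exact this Z₀ hV hW
  rw [mem_sphere_iff_norm, sub_zero, hz, norm_zero] at hZ₀
  exact zero_ne_one hZ₀

end WCn
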