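import Pool.Agent.Lib.MP_c2b80f_alC.Defs
import Pool.Agent.Lib.MP_c2b80f_alC.CartD

/-!
# Closed subgroups of `SL_m(ℂ)` near the identity (job CartA; von Neumann, Cartan)
-/

open Matrix

namespace WCn

variable {m : ℕ}

section cartA

attribute [local instance] Matrix.linftyOpNormedRing Matrix.linftyOpNormedAlgebra
  Matrix.linftyOpNormedAddCommGroup Matrix.linftyOpNormedSpace

theorem cartA_norm_lt {m : ℕ} (hm : 0 < m) {ε : ℝ} (hε : 0 < ε) (A : Matrix (Fin m) (Fin m) ℂ)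
    (h : ∀ i j, ‖A i j‖ < ε / m) : ‖A‖ < ε := by
  have hm' : (0 : ℝ) < m := by exact_mod_cast hm
  have : Nonempty (Fin m) := ⟨⟨0, hm⟩⟩
  obtain ⟨e, he⟩ : ∃ e : NNReal, (e : ℝ) = ε := ⟨⟨ε, hε.le⟩, rfl⟩
  have he0 : 0 < e := by
    rw [← he] at hε
    exact_mod_cast hε
  rw [Matrix.linfty_opNorm_def, ← he, NNReal.coe_lt_coe, Finset.sup_lt_iff (by exact he0)]
  intro i _
  rw [← NNReal.coe_lt_coe, NNReal.coe_sum, he]
  calc ∑ j, ((‖A i j‖₊ : NNReal) : ℝ) < ∑ _j : Fin m, ε / m :=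
        Finset.sum_lt_sum_of_nonempty Finset.univ_nonempty fun j _ => h i j
    _ = ε := by
        rw [Finset.sum_const, Finset.card_univ, Fintype.card_fin, nsmul_eq_mul]
        field_simp

theorem cartA_exp_cont {m : ℕ} (Y : Matrix (Fin m) (Fin m) ℂ) :
    Continuous fun t : ℝ => NormedSpace.exp (t • Y) :=
  NormedSpace.exp_continuous.comp (continuous_id.smul continuous_const)

theorem cartA_main {m : ℕ} (hm : 0 < m) (S : Set (Matrix (Fin m) (Fin m) ℂ))
    (h1 : (1 : Matrix (Fin m) (Fin m) ℂ) ∈ S) (h2 : ∀ a ∈ S, ∀ b ∈ S, a * b ∈ S)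
    (h3 : ∀ a ∈ S, ∃ b ∈ S, a * b = 1 ∧ b * a = 1) (hc : IsClosed S) :
    ∃ ε : ℝ, 0 < ε ∧ ∀ g ∈ S, (∀ i j, ‖(g - 1) i j‖ < ε) →
      ∃ Y : Matrix (Fin m) (Fin m) ℂ, (∀ t : ℝ, NormedSpace.exp (t • Y) ∈ S) ∧
        g = NormedSpace.exp Y := by
  have : Nonempty (Fin m) := ⟨⟨0, hm⟩⟩
  have hm' : (0 : ℝ) < m := by exact_mod_cast hm
  obtain ⟨ε, hε, h⟩ := exists_tang (𝔸 := Matrix (Fin m) (Fin m) ℂ) S ⟨h1, h2, h3⟩ hc
  refine ⟨ε / m, by positivity, fun g hg hg1 => ?_⟩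
  obtain ⟨Y, hY, hgY⟩ := h g hg (cartA_norm_lt hm hε _ hg1)
  exact ⟨Y, hY, hgY⟩

end cartA

/-- Closed subgroups of `SL_m(ℂ)` are connected near the identity.
Proof. The case `m = 0` is trivial. Let `𝔸` be the algebra of complex `m × m` matrices with the norm `Matrix.linftyOpNormedRing` (local instances; `NormOneClass` for `m ≥ 1`), as a real algebra, and `S` the set of matrices of
the elements of `H`; it is a closed set (the inclusion of `SL_m(ℂ)` into the matrices is a closed embedding) and `IsUnitGroup`. Take `ε` from `exists_tang` (entrywise closeness implies closeness in norm). For `g ∈ H` close to `1`,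
`g = exp Y` with `Y ∈ tang S`, and `t ↦ exp (t Y)`, `t ∈ [0, 1]`, is a continuous path in `H` from `1` to `g` (matrices in `S` are matrices of elements of `H`). So `g` lies in the connected component of `1` (joined points,
`JoinedIn`/`pathComponent_subset_component`, or the image of the connected set `[0, 1]`). -/
theorem exists_near_component (H : Subgroup (SLC m)) (hH : IsClosed (H : Set (SLC m))) :
    ∃ ε : ℝ, 0 < ε ∧ ∀ (g : SLC m) (hg : g ∈ H), Near ε g →
      (⟨g, hg⟩ : H) ∈ connectedComponent (1 : H) := by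
  rcases Nat.eq_zero_or_pos m with rfl | hm
  · refine ⟨1, one_pos, fun g hg _ => ?_⟩
    have h1 : g = 1 := by
      ext i
      exact i.elim0
    have h2 : (⟨g, hg⟩ : H) = 1 := Subtype.ext h1
    rw [h2]
    exact mem_connectedComponent
  · obtain ⟨S, hSd⟩ : ∃ S : Set (Matrix (Fin m) (Fin m) ℂ),
        S = (Subtype.val : SLC m → Matrix (Fin m) (Fin m) ℂ) '' (H : Set (SLC m)) := ⟨_, rfl⟩
    have s1 : (1 : Matrix (Fin m) (Fin m) ℂ) ∈ S := by
      rw [hSd]
      exact ⟨(1 : SLC m), H.one_mem, rfl⟩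
    have s2 : ∀ a ∈ S, ∀ b ∈ S, a * b ∈ S := by
      rw [hSd]
      rintro _ ⟨(a : SLC m), ha, rfl⟩ _ ⟨(b : SLC m), hb, rfl⟩
      exact ⟨(a * b : SLC m), H.mul_mem ha hb, rfl⟩
    have s3 : ∀ a ∈ S, ∃ b ∈ S, a * b = 1 ∧ b * a = 1 := by
      rw [hSd]
      rintro _ ⟨(a : SLC m), ha, rfl⟩
      exact ⟨(a⁻¹ : SLC m).1, ⟨(a⁻¹ : SLC m), H.inv_mem ha, rfl⟩,
        congrArg Subtype.val (mul_inv_cancel a), congrArg Subtype.val (inv_mul_cancel a)⟩
    have hc : IsClosed S := by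
      have h1 : IsClosed {A : Matrix (Fin m) (Fin m) ℂ | A.det = 1} :=
        isClosed_eq (continuous_id.matrix_det) continuous_const
      rw [hSd]
      exact h1.isClosedEmbedding_subtypeVal.isClosedMap _ hH
    obtain ⟨ε, hε, h⟩ := cartA_main hm S s1 s2 s3 hc
    refine ⟨ε, hε, fun g hg hn => ?_⟩
    obtain ⟨Y, hY, hgY⟩ := h g.1 (by rw [hSd]; exact ⟨g, hg, rfl⟩) fun i j => hn i j
    have hdet : ∀ t : ℝ, (NormedSpace.exp (t • Y)).det = 1 := fun t => by
      have h1 := hY t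
      rw [hSd] at h1
      obtain ⟨a, _, ha⟩ := h1
      rw [← ha]
      exact a.2
    have hmem : ∀ t : ℝ, (⟨NormedSpace.exp (t • Y), hdet t⟩ : SLC m) ∈ H := fun t => by
      have h1 := hY t
      rw [hSd] at h1
      obtain ⟨a, ha, ha'⟩ := h1
      have h2 : (⟨NormedSpace.exp (t • Y), hdet t⟩ : SLC m) = a := Subtype.ext ha'.symm
      rw [h2]
      exact ha
    obtain ⟨γ, hγ⟩ : ∃ γ : ℝ → H, γ = fun t => ⟨⟨NormedSpace.exp (t • Y), hdet t⟩, hmem t⟩ :=
      ⟨_, rfl⟩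
    have hγc : Continuous γ := by
      rw [hγ]
      exact Continuous.subtype_mk (Continuous.subtype_mk (cartA_exp_cont Y) _) _
    have h0 : γ 0 = 1 := by
      rw [hγ]
      refine Subtype.ext (Subtype.ext ?_)
      show NormedSpace.exp ((0 : ℝ) • Y) = 1
      rw [zero_smul, NormedSpace.exp_zero]
    have h1 : γ 1 = ⟨g, hg⟩ := by
      rw [hγ]
      refine Subtype.ext (Subtype.ext ?_)
      show NormedSpace.exp ((1 : ℝ) • Y) = g.1
      rw [one_smul, hgY]
    rw [← h0, ← h1]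
    exact (isPreconnected_range hγc).subset_connectedComponent ⟨0, rfl⟩ ⟨1, rfl⟩

end WCn
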