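import Pool.Agent.Lib.MP_c2b80f_alC.CartA

/-!
# Elements near the identity lie in the closures of all subgroups of finite index (job CartB)
-/

open Matrix

namespace WCn

variable {m : ℕ}

/-- Proof. Let `H` be the closure of `Γ` (`Subgroup.topologicalClosure`; `SLC m` is a topological group). Take `ε` from `exists_near_component`. Let `N ≤ Γ` have finite
index. The closure `N'` of `N` is a closed subgroup of `H`, of finite index in `H` (`Γ` is a finite union of cosets `γ_i N`, so `H ⊆ ⋃ γ_i N'`), so it is open in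
`H`; an open and closed subset of `H` containing `1` contains the connected component of `1`. -/
theorem near_mem_closure (Γ : Subgroup (SLC m)) :
    ∃ ε : ℝ, 0 < ε ∧ ∀ g ∈ Γ, Near ε g → ∀ N : Subgroup (SLC m), N ≤ Γ → N.relIndex Γ ≠ 0 →
      g ∈ closure (N : Set (SLC m)) := by
  obtain ⟨ε, hε, h1⟩ := exists_near_component Γ.topologicalClosure Γ.isClosed_topologicalClosure
  refine ⟨ε, hε, fun g hg hgn N hN hidx => ?_⟩
  have hgH : g ∈ Γ.topologicalClosure := Γ.le_topologicalClosure hg
  have h2 := h1 g hgH hgn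
  let S : Subgroup Γ.topologicalClosure := N.topologicalClosure.subgroupOf Γ.topologicalClosure
  have hScl : IsClosed (S : Set Γ.topologicalClosure) :=
    N.isClosed_topologicalClosure.preimage continuous_subtype_val
  have hfi : (N.subgroupOf Γ).FiniteIndex := ⟨hidx⟩
  have hfin : Finite (Γ ⧸ N.subgroupOf Γ) := Subgroup.finite_quotient_of_finiteIndex
  -- the closure of `Γ` is a finite union of cosets of the closure of `N`
  have hcov : (Γ.topologicalClosure : Set (SLC m)) ⊆
      ⋃ q : Γ ⧸ N.subgroupOf Γ, {x | ((Quotient.out q : Γ) : SLC m)⁻¹ * x ∈ N.topologicalClosure} := by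
    rw [Subgroup.topologicalClosure_coe]
    refine closure_minimal ?_ (isClosed_iUnion_of_finite fun q => ?_)
    · intro γ hγ
      refine Set.mem_iUnion.2 ⟨QuotientGroup.mk (⟨γ, hγ⟩ : Γ), ?_⟩
      have h3 : (QuotientGroup.mk (Quotient.out (QuotientGroup.mk (⟨γ, hγ⟩ : Γ) : Γ ⧸ N.subgroupOf Γ)) :
          Γ ⧸ N.subgroupOf Γ) = QuotientGroup.mk ⟨γ, hγ⟩ := QuotientGroup.out_eq' _
      rw [QuotientGroup.eq] at h3
      exact N.le_topologicalClosure h3
    · exact N.isClosed_topologicalClosure.preimage (continuous_const.mul continuous_id)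
  have hSfin : Finite (Γ.topologicalClosure ⧸ S) := by
    let f : Γ ⧸ N.subgroupOf Γ → Γ.topologicalClosure ⧸ S := fun q =>
      QuotientGroup.mk ⟨((Quotient.out q : Γ) : SLC m), Γ.le_topologicalClosure (Quotient.out q : Γ).2⟩
    refine Finite.of_surjective f ?_
    intro y
    obtain ⟨x, rfl⟩ := QuotientGroup.mk_surjective y
    obtain ⟨q, hq⟩ := Set.mem_iUnion.1 (hcov x.2)
    refine ⟨q, QuotientGroup.eq.2 ?_⟩
    exact hq
  have hSfi : S.FiniteIndex := Subgroup.finiteIndex_of_finite_quotient
  have hSo : IsOpen (S : Set Γ.topologicalClosure) := S.isOpen_of_isClosed_of_finiteIndex hScl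
  have h3 : connectedComponent (1 : Γ.topologicalClosure) ⊆ (S : Set Γ.topologicalClosure) :=
    IsClopen.connectedComponent_subset ⟨hScl, hSo⟩ S.one_mem
  exact h3 h2

end WCn
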