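import Mathlib

/-!
# Closed subgroups of the units of a finite dimensional algebra: definitions

`𝔸` is a finite dimensional real normed algebra (later: complex `m × m` matrices with the `ℓ^∞` operator norm), `exp = NormedSpace.exp`.
`S ⊆ 𝔸` is the underlying set of a subgroup: `1 ∈ S`, `S` is closed under products and inverses.
-/

open NormedSpace

namespace WCn

/-- The tangent set of `S`: all `X` such that `exp (t X) ∈ S` for all real `t`. -/
def tang {𝔸 : Type*} [NormedRing 𝔸] [NormedAlgebra ℝ 𝔸] (S : Set 𝔸) : Set 𝔸 := {X | ∀ t : ℝ, exp (t • X) ∈ S}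

/-- `S` is a set of units closed under products and under inverses. -/
structure IsUnitGroup {𝔸 : Type*} [NormedRing 𝔸] (S : Set 𝔸) : Prop where
  one : (1 : 𝔸) ∈ S
  mul : ∀ a ∈ S, ∀ b ∈ S, a * b ∈ S
  inv : ∀ a ∈ S, ∃ b ∈ S, a * b = 1 ∧ b * a = 1

end WCn
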