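import Pool.Agent.Lib.MP_c2b80f_alC.Defs

/-!
# Elements of `SL_m(ℂ)` near the identity (job CartN)
-/

open Matrix

namespace WCn

variable {m : ℕ}

/-- The sets `{g | Near ε g}` form a basis of neighbourhoods of `1`. -/
theorem mem_nhds_one_iff (U : Set (SLC m)) : U ∈ nhds (1 : SLC m) ↔ ∃ ε : ℝ, 0 < ε ∧ ∀ g, Near ε g → g ∈ U := by
  obtain ⟨φ, hφ⟩ : ∃ φ : SLC m → (Fin m → Fin m → ℂ), ∀ g i j, φ g i j = g.1 i j :=
    ⟨fun g i j => g.1 i j, fun _ _ _ => rfl⟩
  have h1 : nhds (1 : SLC m) = Filter.comap φ (nhds (φ 1)) := by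
    have e : φ = fun g => (g.1 : Fin m → Fin m → ℂ) := by
      funext g i j
      exact hφ g i j
    rw [e]
    exact nhds_induced _ _
  have h3 := ((Metric.nhds_basis_ball (x := φ 1)).comap φ).mem_iff (t := U)
  rw [← h1] at h3
  rw [h3]
  refine exists_congr fun ε => and_congr_right fun hε => ?_
  have h2 : ∀ g, g ∈ φ ⁻¹' Metric.ball (φ 1) ε ↔ Near ε g := by
    intro g
    rw [Set.mem_preimage, Metric.mem_ball, dist_pi_lt_iff hε]
    refine forall_congr' fun i => ?_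
    rw [dist_pi_lt_iff hε]
    refine forall_congr' fun j => ?_
    rw [dist_eq_norm, hφ, hφ]
    exact Iff.rfl
  constructor
  · intro h g hg
    exact h ((h2 g).2 hg)
  · intro h g hg
    exact h g ((h2 g).1 hg)

/-- For every `k ≥ 1` elements close to `1` with `g ^ k = 1` are trivial: `g ^ k - 1 = (g - 1)(1 + g + ⋯ + g ^ (k - 1))`, and the second factor is
close to `k`, hence invertible. -/
theorem near_pow_ne_one (k : ℕ) (hk : 0 < k) : ∃ ε : ℝ, 0 < ε ∧ ∀ g : SLC m, Near ε g → g ≠ 1 → g ^ k ≠ 1 := by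
  have hc : Continuous fun g : SLC m => (∑ i ∈ Finset.range k, g.1 ^ i).det := by
    refine Continuous.matrix_det ?_
    exact continuous_finsetSum _ fun i _ => continuous_subtype_val.pow i
  have h1 : (∑ i ∈ Finset.range k, (1 : SLC m).1 ^ i).det ≠ 0 := by
    have e : ∑ i ∈ Finset.range k, (1 : SLC m).1 ^ i = (k : ℂ) • (1 : Matrix (Fin m) (Fin m) ℂ) := by
      have e1 : ∀ i ∈ Finset.range k, (1 : SLC m).1 ^ i = (1 : Matrix (Fin m) (Fin m) ℂ) := fun i _ => one_pow i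
      rw [Finset.sum_congr rfl e1, Finset.sum_const, Finset.card_range, Nat.cast_smul_eq_nsmul]
    rw [e, Matrix.det_smul, Matrix.det_one, mul_one]
    exact pow_ne_zero _ (by exact_mod_cast hk.ne')
  have h2 : {g : SLC m | (∑ i ∈ Finset.range k, g.1 ^ i).det ≠ 0} ∈ nhds (1 : SLC m) :=
    hc.continuousAt.eventually_ne h1
  obtain ⟨ε, hε, h3⟩ := (mem_nhds_one_iff _).1 h2
  refine ⟨ε, hε, fun g hg hg1 hgk => hg1 ?_⟩
  have h4 : (∑ i ∈ Finset.range k, g.1 ^ i).det ≠ 0 := h3 g hg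
  have h5 : g.1 ^ k = 1 := by
    have := congrArg Subtype.val hgk
    rw [Matrix.SpecialLinearGroup.coe_pow] at this
    exact this
  have h6 := geom_sum_mul g.1 k
  rw [h5, sub_self] at h6
  have h7 : IsUnit (∑ i ∈ Finset.range k, g.1 ^ i) := by
    rw [Matrix.isUnit_iff_isUnit_det]
    exact isUnit_iff_ne_zero.2 h4
  have h8 : g.1 - 1 = 0 := by
    obtain ⟨u, hu⟩ := h7
    rw [← hu] at h6
    have h9 := congrArg (fun x => (↑u⁻¹ : Matrix (Fin m) (Fin m) ℂ) * x) h6
    simp only [mul_zero] at h9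
    rw [← mul_assoc, Units.inv_mul, one_mul] at h9
    exact h9
  exact Subtype.ext (sub_eq_zero.1 h8)

/-- A non-discrete subgroup contains nontrivial elements arbitrarily close to `1`. -/
theorem exists_near_of_not_discrete (Γ : Subgroup (SLC m)) (h : ¬ DiscreteTopology Γ) (ε : ℝ) (hε : 0 < ε) :
    ∃ g ∈ Γ, g ≠ 1 ∧ Near ε g := by
  by_contra hcon
  push Not at hcon
  apply h
  refine discreteTopology_of_isOpen_singleton_one ?_
  rw [isOpen_iff_mem_nhds]
  intro x hx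
  rw [Set.mem_singleton_iff] at hx
  subst hx
  have h1 : {g : SLC m | Near ε g} ∈ nhds ((1 : Γ) : SLC m) := (mem_nhds_one_iff _).2 ⟨ε, hε, fun g hg => hg⟩
  have h2 : (Subtype.val : Γ → SLC m) ⁻¹' {g : SLC m | Near ε g} ∈ nhds (1 : Γ) :=
    continuous_subtype_val.continuousAt.preimage_mem_nhds h1
  refine Filter.mem_of_superset h2 ?_
  intro g hg
  rw [Set.mem_singleton_iff]
  by_contra hne
  exact hcon g.1 g.2 (fun h3 => hne (Subtype.ext h3)) hg

end WCn
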