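import Pool.Agent.Lib.MP_c2b80f_alC.CartDefs

/-!
# The tangent set is a linear subspace (job CartT: Trotter formula)
-/

open NormedSpace

namespace WCn

variable {𝔸 : Type*} [NormedRing 𝔸] [NormedAlgebra ℝ 𝔸] [CompleteSpace 𝔸]

private theorem cartT_norm_exp_le [NormOneClass 𝔸] (Z : 𝔸) : ‖exp Z‖ ≤ Real.exp ‖Z‖ := by
  rw [exp_eq_tsum ℝ, Real.exp_eq_exp_ℝ, exp_eq_tsum ℝ]
  refine (norm_tsum_le_tsum_norm (norm_expSeries_summable' (𝕂 := ℝ) Z)).trans ?_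
  refine Summable.tsum_le_tsum (fun n => ?_) (norm_expSeries_summable' (𝕂 := ℝ) Z)
    (expSeries_summable' (𝕂 := ℝ) ‖Z‖)
  rw [norm_smul, smul_eq_mul, Real.norm_of_nonneg (by positivity)]
  exact mul_le_mul_of_nonneg_left (norm_pow_le Z n) (by positivity)

private theorem cartT_exp_nsmul (n : ℕ) (Z : 𝔸) : exp (n • Z) = exp Z ^ n := by
  have := NormedAlgebra.restrictScalars ℚ ℝ 𝔸
  exact exp_nsmul n Z

private theorem cartT_pow_sub [NormOneClass 𝔸] (a b : 𝔸) (M : ℝ) (hM : 0 ≤ M) (ha : ‖a‖ ≤ M)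
    (hb : ‖b‖ ≤ M) (n : ℕ) : ‖a ^ (n + 1) - b ^ (n + 1)‖ ≤ ((n : ℝ) + 1) * M ^ n * ‖a - b‖ := by
  induction n with
  | zero => simp
  | succ n ih =>
    have h1 : a ^ (n + 1 + 1) - b ^ (n + 1 + 1) = a ^ (n + 1) * (a - b) + (a ^ (n + 1) - b ^ (n + 1)) * b := by
      rw [pow_succ a (n + 1), pow_succ b (n + 1)]; noncomm_ring
    rw [h1]
    have h2 : ‖a ^ (n + 1)‖ ≤ M ^ (n + 1) := (norm_pow_le a _).trans (pow_le_pow_left₀ (norm_nonneg _) ha _)
    calc ‖a ^ (n + 1) * (a - b) + (a ^ (n + 1) - b ^ (n + 1)) * b‖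
        ≤ ‖a ^ (n + 1)‖ * ‖a - b‖ + ‖a ^ (n + 1) - b ^ (n + 1)‖ * ‖b‖ :=
          (norm_add_le _ _).trans (add_le_add (norm_mul_le _ _) (norm_mul_le _ _))
      _ ≤ M ^ (n + 1) * ‖a - b‖ + (((n : ℝ) + 1) * M ^ n * ‖a - b‖) * M := by
          gcongr
      _ = (((n + 1 : ℕ) : ℝ) + 1) * M ^ (n + 1) * ‖a - b‖ := by
          push_cast; ring

private theorem cartT_deriv (X Y : 𝔸) :
    HasDerivAt (fun t : ℝ => exp (t • X) * exp (t • Y) - exp (t • (X + Y))) 0 0 := by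
  have hX := hasDerivAt_exp_smul_const (𝕂 := ℝ) X 0
  have hY := hasDerivAt_exp_smul_const (𝕂 := ℝ) Y 0
  have hXY := hasDerivAt_exp_smul_const (𝕂 := ℝ) (X + Y) 0
  have h := (hX.mul hY).sub hXY
  simpa [zero_smul, exp_zero] using! h

/-- Trotter formula: `(exp (X / k) exp (Y / k)) ^ k → exp (X + Y)`.
With `A_k = exp (X / k) exp (Y / k)`, `B_k = exp ((X + Y) / k)` one has `‖A_k - B_k‖ = O(k⁻²)` (both are `1 + (X + Y) / k + O(k⁻²)`), `‖A_k‖, ‖B_k‖ ≤ exp ((‖X‖ + ‖Y‖) / k)` (if `‖1‖ = 1`; in general `‖exp Z‖ ≤ ‖1‖ exp ‖Z‖` can be avoided by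
the telescoping sum with powers `A_k ^ i = (exp (X / k) exp (Y / k)) ^ i`; here we assume `NormOneClass`), and `A_k ^ k - B_k ^ k = ∑ A_k ^ i (A_k - B_k) B_k ^ (k - 1 - i)`. -/
theorem trotter [NormOneClass 𝔸] (X Y : 𝔸) :
    Filter.Tendsto (fun k : ℕ => (exp ((1 / ((k : ℝ) + 1)) • X) * exp ((1 / ((k : ℝ) + 1)) • Y)) ^ (k + 1)) Filter.atTop
      (nhds (exp (X + Y))) := by
  have hB : ∀ k : ℕ, (exp ((1 / ((k : ℝ) + 1)) • (X + Y))) ^ (k + 1) = exp (X + Y) := by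
    intro k
    rw [← cartT_exp_nsmul, ← Nat.cast_smul_eq_nsmul ℝ, smul_smul]
    have : ((k + 1 : ℕ) : ℝ) * (1 / ((k : ℝ) + 1)) = 1 := by
      push_cast
      field_simp
    rw [this, one_smul]
  have hd := cartT_deriv X Y
  have hslope : Filter.Tendsto (fun k : ℕ => ((k : ℝ) + 1) * ‖exp ((1 / ((k : ℝ) + 1)) • X) * exp ((1 / ((k : ℝ) + 1)) • Y)
      - exp ((1 / ((k : ℝ) + 1)) • (X + Y))‖) Filter.atTop (nhds 0) := by
    have h1 := hd.tendsto_slope_zero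
    have h2 : Filter.Tendsto (fun k : ℕ => 1 / ((k : ℝ) + 1)) Filter.atTop (nhdsWithin 0 {0}ᶜ) := by
      refine tendsto_nhdsWithin_iff.mpr ⟨tendsto_one_div_add_atTop_nhds_zero_nat, ?_⟩
      refine Filter.Eventually.of_forall fun k => ?_
      have : (0 : ℝ) < 1 / ((k : ℝ) + 1) := by positivity
      exact this.ne'
    have h3 := (h1.comp h2).norm
    rw [norm_zero] at h3
    refine h3.congr fun k => ?_
    simp only [Function.comp_apply, zero_add, zero_smul, exp_zero, mul_one, sub_self, sub_zero]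
    rw [norm_smul, Real.norm_of_nonneg (by positivity)]
    congr 1
    simp
  rw [tendsto_iff_norm_sub_tendsto_zero]
  have hlim : Filter.Tendsto (fun k : ℕ => Real.exp (‖X‖ + ‖Y‖) * (((k : ℝ) + 1) * ‖exp ((1 / ((k : ℝ) + 1)) • X) * exp ((1 / ((k : ℝ) + 1)) • Y)
      - exp ((1 / ((k : ℝ) + 1)) • (X + Y))‖)) Filter.atTop (nhds 0) := by
    simpa using hslope.const_mul (Real.exp (‖X‖ + ‖Y‖))
  refine squeeze_zero (fun k => norm_nonneg _) (fun k => ?_) hlim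
  rw [← hB k]
  set s : ℝ := 1 / ((k : ℝ) + 1) with hs
  have hs0 : 0 < s := by positivity
  set M : ℝ := Real.exp (s * (‖X‖ + ‖Y‖)) with hMdef
  have hM0 : 0 ≤ M := (Real.exp_pos _).le
  have hA : ‖exp (s • X) * exp (s • Y)‖ ≤ M := by
    calc ‖exp (s • X) * exp (s • Y)‖ ≤ ‖exp (s • X)‖ * ‖exp (s • Y)‖ := norm_mul_le _ _
      _ ≤ Real.exp ‖s • X‖ * Real.exp ‖s • Y‖ :=
          mul_le_mul (cartT_norm_exp_le _) (cartT_norm_exp_le _) (norm_nonneg _) (Real.exp_pos _).le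
      _ = M := by
          rw [← Real.exp_add, norm_smul, norm_smul, Real.norm_of_nonneg hs0.le, hMdef]
          congr 1; ring
  have hBn : ‖exp (s • (X + Y))‖ ≤ M := by
    refine (cartT_norm_exp_le _).trans ?_
    rw [norm_smul, Real.norm_of_nonneg hs0.le, hMdef]
    exact Real.exp_le_exp.mpr (mul_le_mul_of_nonneg_left (norm_add_le _ _) hs0.le)
  refine (cartT_pow_sub _ _ M hM0 hA hBn k).trans ?_
  have hMk : M ^ k ≤ Real.exp (‖X‖ + ‖Y‖) := by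
    rw [hMdef, ← Real.exp_nat_mul]
    apply Real.exp_le_exp.mpr
    have h1 : (k : ℝ) * s ≤ 1 := by
      rw [hs, mul_one_div, div_le_one (by positivity)]
      linarith
    have h2 : 0 ≤ ‖X‖ + ‖Y‖ := by positivity
    nlinarith
  calc ((k : ℝ) + 1) * M ^ k * ‖exp (s • X) * exp (s • Y) - exp (s • (X + Y))‖
      = M ^ k * (((k : ℝ) + 1) * ‖exp (s • X) * exp (s • Y) - exp (s • (X + Y))‖) := by ring
    _ ≤ Real.exp (‖X‖ + ‖Y‖) * (((k : ℝ) + 1) * ‖exp (s • X) * exp (s • Y) - exp (s • (X + Y))‖) :=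
        mul_le_mul_of_nonneg_right hMk (by positivity)

private theorem cartT_pow_mem (S : Set 𝔸) (hS : IsUnitGroup S) (a : 𝔸) (ha : a ∈ S) (n : ℕ) : a ^ n ∈ S := by
  induction n with
  | zero => simpa using hS.one
  | succ n ih => rw [pow_succ]; exact hS.mul _ ih _ ha

theorem tang_add [NormOneClass 𝔸] (S : Set 𝔸) (hS : IsUnitGroup S) (hc : IsClosed S) {X Y : 𝔸} (hX : X ∈ tang S) (hY : Y ∈ tang S) :
    X + Y ∈ tang S := by
  intro t
  have h := trotter (t • X) (t • Y)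
  rw [smul_add]
  refine hc.mem_of_tendsto h (Filter.Eventually.of_forall fun k => ?_)
  apply cartT_pow_mem S hS
  apply hS.mul
  · rw [smul_smul]; exact hX _
  · rw [smul_smul]; exact hY _

theorem tang_smul (S : Set 𝔸) (c : ℝ) {X : 𝔸} (hX : X ∈ tang S) : c • X ∈ tang S := by
  intro t
  rw [smul_smul]
  exact hX _

theorem tang_zero (S : Set 𝔸) (hS : IsUnitGroup S) : (0 : 𝔸) ∈ tang S := by
  intro t
  rw [smul_zero, exp_zero]
  exact hS.one

end WCn
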