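import Pool.Agent.Lib.MP_c2b80f_alC.SpecA

/-!
# Bounds for coefficients (job Coef)
-/

open Matrix Polynomial

namespace WCn

variable {m : ℕ}

private theorem coef_neg {K : Subfield ℂ} {N : ℂ → ℝ} (hN : AbsOn K N) {a : ℂ} (ha : a ∈ K) : N (-a) = N a := by
  have h1 : (-1 : ℂ) ∈ K := K.neg_mem K.one_mem
  have h2 : N (-1) * N (-1) = 1 := by
    rw [← hN.mul _ h1 _ h1, neg_mul_neg, one_mul, hN.one]
  have h3 : N (-1) = 1 := by
    have h4 := hN.nonneg (-1)
    nlinarith [h2, h4]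
  rw [← neg_one_mul, hN.mul _ h1 _ ha, h3, one_mul]

private theorem coef_zero (P : ℂ[X]) (a : ℂ) : (P * (X - C a)).coeff 0 = -(P.coeff 0 * a) := by
  rw [mul_sub, coeff_sub, coeff_mul_X_zero, coeff_mul_C, zero_sub]

private theorem coef_succ (P : ℂ[X]) (a : ℂ) (i : ℕ) :
    (P * (X - C a)).coeff (i + 1) = P.coeff i + -(P.coeff (i + 1) * a) := by
  rw [mul_sub, coeff_sub, coeff_mul_X, coeff_mul_C, sub_eq_add_neg]

private theorem coef_main {K : Subfield ℂ} {N : ℂ → ℝ} (hN : AbsOn K N) (y : Fin m → ℂ) (hy : ∀ j, y j ∈ K) (E : ℝ)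
    (hE : ∀ j, N (y j) ≤ Real.exp E) (D : ℝ) (hD : 1 ≤ D)
    (hadd : ∀ a ∈ K, ∀ b ∈ K, ∀ B : ℝ, 0 ≤ B → N a ≤ B → N b ≤ B * Real.exp E → N (a + b) ≤ B * D * Real.exp E) (s : Finset (Fin m)) :
    ∀ i : ℕ, (∏ j ∈ s, (X - C (y j))).coeff i ∈ K ∧
      N ((∏ j ∈ s, (X - C (y j))).coeff i) ≤ D ^ s.card * Real.exp (s.card * E) := by
  have hD0 : 0 ≤ D := le_trans zero_le_one hD
  induction s using Finset.induction_on with
  | empty =>
    intro i
    rw [Finset.prod_empty, Finset.card_empty, pow_zero, Nat.cast_zero, zero_mul, Real.exp_zero, one_mul]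
    rw [coeff_one]
    split_ifs with h
    · exact ⟨K.one_mem, hN.one.le⟩
    · exact ⟨K.zero_mem, hN.zero.le.trans zero_le_one⟩
  | insert a s ha ih =>
    have hB : D ^ (insert a s).card * Real.exp ((insert a s).card * E) =
        (D ^ s.card * Real.exp (s.card * E)) * D * Real.exp E := by
      rw [Finset.card_insert_of_notMem ha, pow_succ, Nat.cast_succ, add_mul, one_mul, Real.exp_add]
      ring
    have hB0 : 0 ≤ D ^ s.card * Real.exp (s.card * E) := mul_nonneg (pow_nonneg hD0 _) (Real.exp_pos _).le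
    rw [hB, Finset.prod_insert ha, mul_comm (X - C (y a))]
    intro i
    have hmulb : ∀ i, N (-((∏ j ∈ s, (X - C (y j))).coeff i * y a)) ≤
        (D ^ s.card * Real.exp (s.card * E)) * Real.exp E := by
      intro i
      rw [coef_neg hN (K.mul_mem (ih i).1 (hy a)), hN.mul _ (ih i).1 _ (hy a)]
      exact mul_le_mul (ih i).2 (hE a) (hN.nonneg _) hB0
    have hmem : ∀ i, -((∏ j ∈ s, (X - C (y j))).coeff i * y a) ∈ K := fun i =>
      K.neg_mem (K.mul_mem (ih i).1 (hy a))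
    cases i with
    | zero =>
      rw [coef_zero]
      refine ⟨hmem 0, ?_⟩
      have h1 := hadd 0 K.zero_mem _ (hmem 0) _ hB0 (by rw [hN.zero]; exact hB0) (hmulb 0)
      rw [zero_add] at h1
      exact h1
    | succ i =>
      rw [coef_succ]
      exact ⟨K.add_mem (ih i).1 (hmem (i + 1)), hadd _ (ih i).1 _ (hmem (i + 1)) _ hB0 (ih i).2 (hmulb (i + 1))⟩

/-- Induction over a finset of indices: the coefficients of `∏_{j ∈ s} (X - y j)` are in `K` and bounded by `2 ^ |s| exp (|s| E)` (sum of the bounds for two coefficients of the product over a smaller set). -/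
theorem coeff_bound_arch {K : Subfield ℂ} {N : ℂ → ℝ} (hN : AbsOn K N) (y : Fin m → ℂ) (hy : ∀ j, y j ∈ K) (E : ℝ)
    (hE0 : 0 ≤ E) (hE : ∀ j, N (y j) ≤ Real.exp E) (i : ℕ) :
    N ((∏ j, (X - C (y j))).coeff i) ≤ 2 ^ m * Real.exp (m * E) := by
  have h1 : 1 ≤ Real.exp E := Real.one_le_exp hE0
  have h2 := (coef_main hN y hy E hE 2 (by norm_num) (fun a ha b hb B hB0 hB hB' => by
    have h3 := hN.add a ha b hb
    have h4 : B ≤ B * Real.exp E := le_mul_of_one_le_right hB0 h1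
    linarith) Finset.univ i).2
  rw [Finset.card_univ, Fintype.card_fin] at h2
  exact h2

theorem coeff_bound_ultra {K : Subfield ℂ} {N : ℂ → ℝ} (hN : AbsOn K N) (hU : Ultra K N) (y : Fin m → ℂ) (hy : ∀ j, y j ∈ K)
    (E : ℝ) (hE0 : 0 ≤ E) (hE : ∀ j, N (y j) ≤ Real.exp E) (i : ℕ) :
    N ((∏ j, (X - C (y j))).coeff i) ≤ Real.exp (m * E) := by
  have h1 : 1 ≤ Real.exp E := Real.one_le_exp hE0
  have h2 := (coef_main hN y hy E hE 1 le_rfl (fun a ha b hb B hB0 hB hB' => by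
    have h3 := hU a ha b hb
    have h4 : B ≤ B * Real.exp E := le_mul_of_one_le_right hB0 h1
    rw [mul_one]
    exact h3.trans (max_le (hB.trans h4) hB')) Finset.univ i).2
  rw [Finset.card_univ, Fintype.card_fin, one_pow, one_mul] at h2
  exact h2

end WCn
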