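import Mathlib

/-!
# MP_c2b80f_al: weak commensurability and discreteness, type `A_{n-1}` over the complex numbers: definitions
-/

open Matrix

namespace WCn

/-- `SL_n(ℂ)`, with its topology as a set of complex matrices. -/
abbrev SLC (n : ℕ) : Type := Matrix.SpecialLinearGroup (Fin n) ℂ

/-- The size of a matrix: the sum of the absolute values of its entries. -/
noncomputable def size {n : ℕ} (g : SLC n) : ℝ := ∑ i, ∑ j, ‖g.1 i j‖

/-- `g = p diag(t) p⁻¹`. The maximal tori of `SL_n` over `ℂ` are the groups `p D p⁻¹`, where `p ∈ GL_n(ℂ)` and `D` is the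
group of diagonal matrices of determinant one, and their characters are the maps
`p diag(t) p⁻¹ ↦ ∏ t i ^ a i` with integers `a i`. -/
def DiagBy {n : ℕ} (g : SLC n) (p : GL (Fin n) ℂ) (t : Fin n → ℂˣ) : Prop :=
  g.1 = p.1 * Matrix.diagonal (fun i => (t i : ℂ)) * (p⁻¹).1

/-- `g` is semisimple, that is, contained in a maximal torus. -/
def IsSs {n : ℕ} (g : SLC n) : Prop := ∃ p t, DiagBy g p t

/-- Weak commensurability of `g ∈ SL_n(ℂ)` and `h ∈ SL_m(ℂ)`: some character values (of maximal tori containing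
`g` and `h`) are equal and different from one. -/
def WComm {n m : ℕ} (g : SLC n) (h : SLC m) : Prop :=
  ∃ (p : GL (Fin n) ℂ) (t : Fin n → ℂˣ) (q : GL (Fin m) ℂ) (s : Fin m → ℂˣ) (a : Fin n → ℤ) (b : Fin m → ℤ),
    DiagBy g p t ∧ DiagBy h q s ∧ ∏ i, t i ^ a i = ∏ j, s j ^ b j ∧ ∏ i, t i ^ a i ≠ 1

/-- Zariski density in `SL_n(ℂ)`: a polynomial in the entries which vanishes on `Γ` vanishes on
`SL_n(ℂ)`. -/
def ZDense {n : ℕ} (Γ : Subgroup (SLC n)) : Prop :=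
  ∀ P : MvPolynomial (Fin n × Fin n) ℂ,
    (∀ g ∈ Γ, MvPolynomial.eval (fun ij : Fin n × Fin n => g.1 ij.1 ij.2) P = 0) →
    ∀ g : SLC n, MvPolynomial.eval (fun ij : Fin n × Fin n => g.1 ij.1 ij.2) P = 0

/-- The matrix `∑ X ∈ 𝒳, c X • X` for integers `c X`. -/
def comb {n : ℕ} {R : Type*} [CommRing R] (𝒳 : Finset (Matrix (Fin n) (Fin n) R))
    (c : Matrix (Fin n) (Fin n) R → ℤ) : Matrix (Fin n) (Fin n) R := ∑ X ∈ 𝒳, c X • X

/-- The cost `1 + log (1 + ∑ X ∈ 𝒳, |c X|)` of the matrix `comb 𝒳 c`. -/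
noncomputable def cst {n : ℕ} {R : Type*} (𝒳 : Finset (Matrix (Fin n) (Fin n) R))
    (c : Matrix (Fin n) (Fin n) R → ℤ) : ℝ := 1 + Real.log (1 + ∑ X ∈ 𝒳, |(c X : ℝ)|)

/-- `Γ` has logarithmic expressions: there are a finite set `𝒳` of complex matrices and a constant `C` such that every
`g ∈ Γ` is a product `M₁ M₂ ⋯ M_r` of integral linear combinations `Mₖ = ∑ X ∈ 𝒳, c_k(X) X` of the
matrices in `𝒳`, with `∑ₖ (1 + log (1 + ∑ X, |c_k(X)|)) ≤ C (1 + log ‖g‖)`. -/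
def LogExpr {n : ℕ} (Γ : Subgroup (SLC n)) : Prop :=
  ∃ (𝒳 : Finset (Matrix (Fin n) (Fin n) ℂ)) (C : ℝ), ∀ g ∈ Γ,
    ∃ l : List (Matrix (Fin n) (Fin n) ℂ → ℤ),
      (l.map (comb 𝒳)).prod = g.1 ∧ (l.map (cst 𝒳)).sum ≤ C * (1 + Real.log (size g))

/-- `N` restricts to a (real valued) absolute value on the subfield `K` of `ℂ`. -/
structure AbsOn (K : Subfield ℂ) (N : ℂ → ℝ) : Prop where
  nonneg : ∀ z, 0 ≤ N z
  zero : N 0 = 0
  one : N 1 = 1
  mul : ∀ a ∈ K, ∀ b ∈ K, N (a * b) = N a * N b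
  add : ∀ a ∈ K, ∀ b ∈ K, N (a + b) ≤ N a + N b

/-- `N` satisfies the ultrametric inequality on `K`. -/
def Ultra (K : Subfield ℂ) (N : ℂ → ℝ) : Prop :=
  ∀ a ∈ K, ∀ b ∈ K, N (a + b) ≤ max (N a) (N b)

/-- The quantity `2 + 4 * ∑ N a` attached to a finite set of numbers. -/
noncomputable def wt (A : Finset ℂ) (N : ℂ → ℝ) : ℝ := 2 + 4 * ∑ a ∈ A, N a

/-- `K` is algebraically closed. -/
def RootClosed (K : Subfield ℂ) : Prop :=
  ∀ f : Polynomial ℂ, f.Monic → (∀ i, f.coeff i ∈ K) → ∀ z : ℂ, f.eval z = 0 → z ∈ K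

/-- All coordinates of `g` are close to those of `1`. -/
def Near {n : ℕ} (ε : ℝ) (g : SLC n) : Prop := ∀ i j, ‖g.1 i j - (1 : Matrix (Fin n) (Fin n) ℂ) i j‖ < ε

/-- `(c, d)` is a multiplicative relation between the `x i` and the `y j`. -/
def MRel {n m : ℕ} (x : Fin n → ℂˣ) (y : Fin m → ℂˣ) (c : Fin n → ℤ) (d : Fin m → ℤ) : Prop :=
  (∏ i, x i ^ c i) * ∏ j, y j ^ d j = 1

/-- The pair of permutations `(π, ρ)` preserves the multiplicative relations between the `x i` and the `y j`. -/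
def RelSym {n m : ℕ} (x : Fin n → ℂˣ) (y : Fin m → ℂˣ) (π : Equiv.Perm (Fin n)) (ρ : Equiv.Perm (Fin m)) : Prop :=
  ∀ (c : Fin n → ℤ) (d : Fin m → ℤ), MRel x y c d → MRel (x ∘ π) (y ∘ ρ) c d

/-- Real numbers `u i`, `v j` (for instance values of an absolute value of the logarithms of the `x i`, `y j`) which satisfy all
relations between the `x i` and the `y j`. -/
def Compat {n m : ℕ} (x : Fin n → ℂˣ) (y : Fin m → ℂˣ) (u : Fin n → ℝ) (v : Fin m → ℝ) : Prop :=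
  ∀ (c : Fin n → ℤ) (d : Fin m → ℤ), MRel x y c d → ∑ i, (c i : ℝ) * u i + ∑ j, (d j : ℝ) * v j = 0

end WCn
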