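import Pool.Agent.Lib.MP_c2b80f_alC.Defs

/-!
# Diagonalisation of matrices with separable characteristic polynomial (job DiagA)
-/

open Matrix Polynomial

namespace WCn

variable {m : ℕ}

theorem diagA_enum (s : Multiset ℂ) (hs : Multiset.card s = m) :
    ∃ y : Fin m → ℂ, (Finset.univ : Finset (Fin m)).val.map y = s := by
  induction s using Quotient.inductionOn with
  | h l =>
    have hl : l.length = m := hs
    subst hl
    refine ⟨l.get, ?_⟩
    rw [Fin.univ_val_map, List.ofFn_get]
    rfl

/-- Eigenvectors for different eigenvalues are linearly independent (`Module.End.eigenvectors_linearIndependent`), so they form the columns of an invertible matrix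
`p`, and `g p = p diag(y)`. The `y j` are nonzero because `det g = 1`. -/
theorem exists_diagBy (g : SLC m) (y : Fin m → ℂ) (hy : g.1.charpoly = ∏ j, (X - C (y j))) (hinj : Function.Injective y) :
    ∃ (p : GL (Fin m) ℂ) (t : Fin m → ℂˣ), DiagBy g p t ∧ ∀ j, (t j : ℂ) = y j := by
  have h1 : ∀ j, ∃ v : Fin m → ℂ, v ≠ 0 ∧ g.1 *ᵥ v = y j • v := by
    intro j
    have h2 : (Matrix.scalar (Fin m) (y j) - g.1).det = 0 := by
      rw [← Matrix.eval_charpoly, hy, Polynomial.eval_prod]
      exact Finset.prod_eq_zero (Finset.mem_univ j) (by simp)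
    obtain ⟨v, hv, h3⟩ := Matrix.exists_mulVec_eq_zero_iff.2 h2
    refine ⟨v, hv, ?_⟩
    rw [Matrix.sub_mulVec, sub_eq_zero] at h3
    rw [← h3]
    ext i
    simp [Matrix.scalar_apply, Matrix.mulVec_diagonal]
  choose v hv hgv using h1
  have hli : LinearIndependent ℂ v := by
    refine Module.End.eigenvectors_linearIndependent' (Matrix.mulVecLin g.1) y hinj v fun j => ⟨?_, hv j⟩
    rw [Module.End.mem_eigenspace_iff, Matrix.mulVecLin_apply]
    exact hgv j
  let P : Matrix (Fin m) (Fin m) ℂ := Matrix.of fun i j => v j i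
  have hP : IsUnit P := by
    rw [← Matrix.linearIndependent_cols_iff_isUnit]
    exact hli
  obtain ⟨p, hp⟩ := hP
  have hy0 : ∀ j, y j ≠ 0 := by
    intro j h0
    have h2 := hgv j
    rw [h0, zero_smul] at h2
    have h3 : g.1.det ≠ 0 := by rw [g.2]; exact one_ne_zero
    exact hv j (Matrix.eq_zero_of_mulVec_eq_zero h3 h2)
  refine ⟨p, fun j => Units.mk0 (y j) (hy0 j), ?_, fun j => rfl⟩
  unfold DiagBy
  have h2 : g.1 * p.1 = p.1 * Matrix.diagonal fun j => ((Units.mk0 (y j) (hy0 j) : ℂˣ) : ℂ) := by
    rw [hp]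
    ext i j
    rw [Matrix.mul_diagonal, Matrix.mul_apply]
    have h3 := congrFun (hgv j) i
    rw [Pi.smul_apply, smul_eq_mul] at h3
    rw [Units.val_mk0]
    change ∑ k, g.1 i k * v j k = v j i * y j
    rw [mul_comm (v j i), ← h3]
    rfl
  rw [← h2, mul_assoc]
  have h4 : p.1 * (p⁻¹).1 = 1 := Units.mul_inv p
  rw [h4, mul_one]

/-- An element of `SL_m(ℂ)` whose characteristic polynomial is separable is semisimple (the polynomial splits, its roots are different). -/
theorem isSs_of_separable (g : SLC m) (h : g.1.charpoly.Separable) : IsSs g := by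
  have h1 : g.1.charpoly.Splits := IsAlgClosed.splits _
  have h2 : g.1.charpoly.Monic := Matrix.charpoly_monic _
  have h3 : Multiset.card g.1.charpoly.roots = m := by
    rw [← h1.natDegree_eq_card_roots, Matrix.charpoly_natDegree_eq_dim, Fintype.card_fin]
  obtain ⟨y, hy⟩ := diagA_enum _ h3
  have h4 : g.1.charpoly = ∏ j, (X - C (y j)) := by
    have h5 := h1.eq_prod_roots_of_monic h2
    rw [← hy, Multiset.map_map] at h5
    exact h5
  have h6 : Function.Injective y := by
    have h7 := nodup_roots h
    rw [← hy] at h7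
    intro a b hab
    exact Multiset.inj_on_of_nodup_map h7 a (Finset.mem_univ a) b (Finset.mem_univ b) hab
  obtain ⟨p, t, h8, -⟩ := exists_diagBy g y h4 h6
  exact ⟨p, t, h8⟩

end WCn
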