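import Pool.Agent.Lib.MP_c2b80f_alC.SpecD

/-!
# Elements with eigenvalues one; elements of infinite order (job DiagB)
-/

open Matrix Polynomial

namespace WCn

variable {m : ℕ}

private theorem diagB_one {g : SLC m} {p : GL (Fin m) ℂ} {t : Fin m → ℂˣ} (h : DiagBy g p t)
    (ht : ∀ j, t j = 1) : g = 1 := by
  apply Subtype.ext
  have h1 : Matrix.diagonal (fun i => (t i : ℂ)) = (1 : Matrix (Fin m) (Fin m) ℂ) := by
    rw [← Matrix.diagonal_one]
    refine congrArg Matrix.diagonal (funext fun i => ?_)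
    rw [ht i, Units.val_one]
  unfold DiagBy at h
  rw [h, h1, mul_one]
  exact p.mul_inv

/-- If `g = p diag(t) p⁻¹` has characteristic polynomial `(X - 1) ^ m`, then `g = 1`. -/
theorem eq_one_of_charpoly {g : SLC m} {p : GL (Fin m) ℂ} {t : Fin m → ℂˣ} (h : DiagBy g p t)
    (hc : g.1.charpoly = (X - C 1) ^ m) : g = 1 := by
  refine diagB_one h fun j => ?_
  have h1 := diagBy_charpoly h
  rw [hc] at h1
  have h2 := congrArg (Polynomial.eval (t j : ℂ)) h1
  rw [Polynomial.eval_pow, Polynomial.eval_sub, Polynomial.eval_X, Polynomial.eval_C, Polynomial.eval_prod,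
    Finset.prod_eq_zero (Finset.mem_univ j) (by rw [Polynomial.eval_sub, Polynomial.eval_X, Polynomial.eval_C, sub_self])] at h2
  have h3 := pow_eq_zero_iff (Fin.pos j).ne' |>.1 h2
  exact Units.ext (sub_eq_zero.1 h3)

/-- Infinite order: some eigenvalue is not a root of unity. (If `t j ^ (k j) = 1` for all `j`, then `g ^ ∏ k j = 1` by `diagBy_pow`.) -/
theorem exists_eig_not_torsion {g : SLC m} {p : GL (Fin m) ℂ} {t : Fin m → ℂˣ} (h : DiagBy g p t)
    (hg : ¬ IsOfFinOrder g) : ∃ j, ∀ k : ℕ, 0 < k → (t j) ^ k ≠ 1 := by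
  by_contra hcon
  push Not at hcon
  choose k hk0 hk using hcon
  apply hg
  rw [isOfFinOrder_iff_pow_eq_one]
  refine ⟨∏ j, k j, Finset.prod_pos fun j _ => hk0 j, ?_⟩
  refine diagB_one (diagBy_pow h (∏ j, k j)) fun j => ?_
  obtain ⟨c, hc⟩ := Finset.dvd_prod_of_mem k (Finset.mem_univ j)
  rw [hc, pow_mul, hk j, one_pow]

/-- Two diagonalisations of `g` have the same eigenvalues with multiplicities. -/
theorem diagBy_perm {g : SLC m} {p q : GL (Fin m) ℂ} {t s : Fin m → ℂˣ} (h : DiagBy g p t) (h' : DiagBy g q s) :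
    ∃ π : Equiv.Perm (Fin m), ∀ j, s j = t (π j) := by
  classical
  have h1 := (diagBy_charpoly h).symm.trans (diagBy_charpoly h')
  have h2 : ∀ r : Fin m → ℂˣ, (∏ i, (Polynomial.X - Polynomial.C (r i : ℂ))).roots =
      (Finset.univ : Finset (Fin m)).val.map (fun i => (r i : ℂ)) := by
    intro r
    have := Polynomial.roots_multiset_prod_X_sub_C ((Finset.univ : Finset (Fin m)).val.map (fun i => (r i : ℂ)))
    rw [Multiset.map_map] at this
    exact this
  have h3 : (Finset.univ : Finset (Fin m)).val.map (fun i => (t i : ℂ)) =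
      (Finset.univ : Finset (Fin m)).val.map (fun i => (s i : ℂ)) := by
    rw [← h2, ← h2, h1]
  have h4 : ∀ (r : Fin m → ℂˣ) (c : ℂˣ), Multiset.count (c : ℂ) ((Finset.univ : Finset (Fin m)).val.map (fun i => (r i : ℂ))) =
      Fintype.card {j // r j = c} := by
    intro r c
    rw [Multiset.count_map, Fintype.card_subtype]
    change (Finset.univ.filter (fun a => (c : ℂ) = (r a : ℂ))).card = _
    refine congrArg Finset.card (Finset.filter_congr fun a _ => ?_)
    rw [Units.val_inj]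
    exact eq_comm
  have h5 : ∀ c : ℂˣ, Nonempty ({j // s j = c} ≃ {j // t j = c}) := by
    intro c
    rw [← Fintype.card_eq, ← h4, ← h4, h3]
  let e : (c : ℂˣ) → {j // s j = c} ≃ {j // t j = c} := fun c => (h5 c).some
  refine ⟨((Equiv.sigmaFiberEquiv s).symm.trans (Equiv.sigmaCongrRight e)).trans (Equiv.sigmaFiberEquiv t), fun j => ?_⟩
  have h6 : (((Equiv.sigmaFiberEquiv s).symm.trans (Equiv.sigmaCongrRight e)).trans (Equiv.sigmaFiberEquiv t)) j =
      (e (s j) ⟨j, rfl⟩ : Fin m) := rfl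
  rw [h6]
  exact (e (s j) ⟨j, rfl⟩).2.symm

end WCn
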