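import Mathlib

/-!
# Primes with roots (job EmbA)
-/

open Polynomial

namespace WCn

/-- A nonconstant integral polynomial has roots modulo infinitely many primes.
Proof (Euclid). If `c = f(0) = 0` every prime divides `f(0)`. Otherwise put `M = P₀!` (or the product of the primes `≤ P₀`). For every integer `s`, `f(c M s) = c (1 + M u)` with an integer `u = u(s)` (each term
`a_i (c M s) ^ i`, `i ≥ 1`, is divisible by `c M`). As `f` is nonconstant, `f(c M s) ∉ {0, c, -c}` for some `s` (finitely many roots of the polynomials `f - const`), so `1 + M u ∉ {0, 1, -1}` has a prime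
factor `p`, which does not divide `M`, so `p > P₀`, and `p ∣ f(c M s)`. -/
theorem exists_prime_root (f : ℤ[X]) (hf : 0 < f.natDegree) (P₀ : ℕ) :
    ∃ p : ℕ, p.Prime ∧ P₀ < p ∧ ∃ a : ℤ, (p : ℤ) ∣ f.eval a := by
  by_cases hc : f.eval 0 = 0
  · obtain ⟨p, hp, hpr⟩ := Nat.exists_infinite_primes (P₀ + 1)
    refine ⟨p, hpr, hp, 0, ?_⟩
    rw [hc]
    exact dvd_zero _
  · obtain ⟨c, hcf⟩ : ∃ c, c = f.eval 0 := ⟨_, rfl⟩
    rw [← hcf] at hc
    have hM : ((P₀.factorial : ℕ) : ℤ) ≠ 0 := by exact_mod_cast P₀.factorial_ne_zero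
    -- a good argument
    have hne : ∀ e : ℤ, f - C e ≠ 0 := by
      intro e h0
      rw [sub_eq_zero.1 h0, natDegree_C] at hf
      exact lt_irrefl _ hf
    have hg : f * ((f - C c) * (f - C (-c))) ≠ 0 := by
      refine mul_ne_zero ?_ (mul_ne_zero (hne c) (hne (-c)))
      have := hne 0
      rwa [C_0, sub_zero] at this
    obtain ⟨s, hs⟩ : ∃ s : ℤ, (f * ((f - C c) * (f - C (-c)))).eval (c * P₀.factorial * s) ≠ 0 := by
      by_contra hcon
      push Not at hcon
      refine hg (Polynomial.eq_zero_of_infinite_isRoot _ ?_)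
      have hinj : Function.Injective fun s : ℤ => c * P₀.factorial * s := fun a b h =>
        mul_left_cancel₀ (mul_ne_zero hc hM) h
      refine (Set.infinite_range_of_injective hinj).mono ?_
      rintro _ ⟨s, rfl⟩
      exact hcon s
    rw [eval_mul, eval_mul, eval_sub, eval_sub, eval_C, eval_C] at hs
    obtain ⟨h1, h2⟩ := mul_ne_zero_iff.1 hs
    obtain ⟨h2, h3⟩ := mul_ne_zero_iff.1 h2
    obtain ⟨k, hk⟩ := Polynomial.sub_dvd_eval_sub (c * P₀.factorial * s) 0 f
    rw [sub_zero, ← hcf] at hk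
    have hval : f.eval (c * P₀.factorial * s) = c * (1 + P₀.factorial * (s * k)) := by
      linear_combination hk
    have h4 : (1 + (P₀.factorial : ℤ) * (s * k)).natAbs ≠ 1 := by
      intro h
      rcases Int.natAbs_eq_iff.1 h with h | h
      · apply h2
        rw [hval, h]
        ring
      · apply h3
        rw [hval, h]
        ring
    obtain ⟨p, hpr, hpd⟩ := Nat.exists_prime_and_dvd h4
    have hpd' : (p : ℤ) ∣ 1 + (P₀.factorial : ℤ) * (s * k) := Int.natCast_dvd.2 hpd
    refine ⟨p, hpr, ?_, c * P₀.factorial * s, ?_⟩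
    · by_contra hcon
      have h5 : (p : ℤ) ∣ (P₀.factorial : ℤ) := by
        exact_mod_cast (hpr.dvd_factorial).2 (not_lt.1 hcon)
      have h6 : (p : ℤ) ∣ 1 := (dvd_add_left (h5.mul_right _)).1 hpd'
      have h7 : p ∣ 1 := by exact_mod_cast h6
      exact hpr.one_lt.ne' (Nat.dvd_one.1 h7)
    · rw [hval]
      exact hpd'.mul_left _

end WCn
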