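import Mathlib

/-!
# A presentation of finitely generated subrings of `ℂ` (job EmbB)
-/

open Polynomial

namespace WCn

/-- Clearing the denominators of a polynomial. -/
private theorem embB_clear {R F : Type*} [CommRing R] [IsDomain R] [Field F] [Algebra R F] [IsFractionRing R F]
    (p : F[X]) : ∃ (D : R) (q : R[X]), D ≠ 0 ∧ q.map (algebraMap R F) = C (algebraMap R F D) * p := by
  obtain ⟨b, hb0, hb⟩ := IsLocalization.integerNormalization_spec (nonZeroDivisors R) p
  refine ⟨b, IsLocalization.integerNormalization (nonZeroDivisors R) p, nonZeroDivisors.ne_zero hb0, ?_⟩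
  rw [hb, ← Polynomial.smul_eq_C_mul, algebraMap_smul]

/-- The data, for a general integrally closed domain. -/
private theorem embB_main {R : Type} [CommRing R] [IsDomain R] [IsIntegrallyClosed R] [CharZero R] (i : R →+* ℂ)
    (hi : Function.Injective i) (A₀ : Finset ℂ)
    (hA : ∀ a ∈ A₀, (IsFractionRing.lift (K := FractionRing R) hi).IsIntegralElem a) :
    ∃ (θ : ℂ) (f : R[X]) (Δ D : R) (u v : R[X]) (h : ℂ → R[X]),
      f.Monic ∧ 0 < f.natDegree ∧ f.eval₂ i θ = 0 ∧ (∀ g : R[X], g.eval₂ i θ = 0 → f ∣ g) ∧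
      Δ ≠ 0 ∧ u * f + v * derivative f = C Δ ∧ D ≠ 0 ∧ ∀ a ∈ A₀, i D * a = (h a).eval₂ i θ := by
  classical
  let F := FractionRing R
  let _ : Algebra R ℂ := i.toAlgebra
  let _ : Algebra F ℂ := (IsFractionRing.lift (K := F) hi).toAlgebra
  have hmapR : ∀ a : R, algebraMap R ℂ a = i a := fun a => rfl
  have : IsScalarTower R F ℂ := by
    refine IsScalarTower.of_algebraMap_eq fun a => ?_
    exact (IsFractionRing.lift_algebraMap (K := F) hi a).symm
  have : CharZero F := IsFractionRing.charZero R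
  have : FaithfulSMul R ℂ := (faithfulSMul_iff_algebraMap_injective R ℂ).2 hi
  have hint : ∀ a ∈ A₀, IsIntegral F a := hA
  let E : IntermediateField F ℂ := IntermediateField.adjoin F (A₀ : Set ℂ)
  have hfin : FiniteDimensional F E := IntermediateField.finiteDimensional_adjoin fun a ha => hint a ha
  obtain ⟨α, hα⟩ := Field.exists_primitive_element F E
  have hαint : IsIntegral F α := Algebra.IsIntegral.isIntegral α
  -- every element of `E` is a polynomial in `α`
  have hpoly : ∀ a ∈ A₀, ∃ p : F[X], Polynomial.aeval (α : ℂ) p = a := by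
    intro a ha
    have haE : a ∈ E := IntermediateField.subset_adjoin F _ ha
    have h1 : (⟨a, haE⟩ : E) ∈ Algebra.adjoin F {α} := by
      rw [← IntermediateField.adjoin_simple_toSubalgebra_of_isAlgebraic hαint.isAlgebraic, hα]
      exact Algebra.mem_top
    rw [Algebra.adjoin_singleton_eq_range_aeval] at h1
    obtain ⟨p, hp⟩ := h1
    refine ⟨p, ?_⟩
    have h2 := congrArg (fun e : E => (e : ℂ)) hp
    change (E.val (Polynomial.aeval α p) : ℂ) = a at h2
    rw [← Polynomial.aeval_algHom_apply] at h2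
    exact h2
  -- an integral multiple
  have hαC : IsAlgebraic F (α : ℂ) := (hαint.map E.val).isAlgebraic
  have hαR : IsAlgebraic R (α : ℂ) := (IsFractionRing.isAlgebraic_iff R F ℂ).2 hαC
  obtain ⟨y, hy0, hyint⟩ := hαR.exists_integral_multiple
  obtain ⟨θ, hθ⟩ : ∃ θ : ℂ, θ = y • (α : ℂ) := ⟨_, rfl⟩
  rw [← hθ] at hyint
  have hyF : algebraMap R F y ≠ 0 := by
    rw [Ne, IsFractionRing.to_map_eq_zero_iff]
    exact hy0
  have hαθ : (α : ℂ) = algebraMap F ℂ (algebraMap R F y)⁻¹ * θ := by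
    rw [hθ, Algebra.smul_def, IsScalarTower.algebraMap_apply R F ℂ, ← mul_assoc, ← map_mul, inv_mul_cancel₀ hyF,
      map_one, one_mul]
  have hpoly' : ∀ a ∈ A₀, ∃ p : F[X], Polynomial.aeval θ p = a := by
    intro a ha
    obtain ⟨p, hp⟩ := hpoly a ha
    refine ⟨p.comp (C (algebraMap R F y)⁻¹ * X), ?_⟩
    rw [Polynomial.aeval_comp, map_mul, Polynomial.aeval_C, Polynomial.aeval_X, ← hαθ, hp]
  have hclear : ∀ a : ℂ, ∃ (D : R) (q : R[X]), D ≠ 0 ∧ (a ∈ A₀ → i D * a = q.eval₂ i θ) := by
    intro a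
    by_cases ha : a ∈ A₀
    · obtain ⟨p, hp⟩ := hpoly' a ha
      obtain ⟨D, q, hD, hq⟩ := embB_clear (R := R) p
      refine ⟨D, q, hD, fun _ => ?_⟩
      have h1 := congrArg (Polynomial.aeval θ) hq
      rw [map_mul, Polynomial.aeval_C, hp, Polynomial.aeval_map_algebraMap, ← IsScalarTower.algebraMap_apply] at h1
      exact h1.symm
    · exact ⟨1, 0, one_ne_zero, fun h => absurd h ha⟩
  choose D₀ q₀ hD₀ hq₀ using hclear
  -- the minimal polynomial
  have hminF : minpoly F θ = (minpoly R θ).map (algebraMap R F) :=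
    minpoly.isIntegrallyClosed_eq_field_fractions' F hyint
  have hsep : (minpoly F θ).Separable := (minpoly.irreducible hyint.tower_top).separable
  obtain ⟨a, b, hab⟩ := hsep
  obtain ⟨Da, ua, hDa, hua⟩ := embB_clear (R := R) a
  obtain ⟨Db, vb, hDb, hvb⟩ := embB_clear (R := R) b
  refine ⟨θ, minpoly R θ, Da * Db, ∏ a ∈ A₀, D₀ a, C Db * ua, C Da * vb,
    fun a => C (∏ b ∈ A₀.erase a, D₀ b) * q₀ a, minpoly.monic hyint, minpoly.natDegree_pos hyint,
    minpoly.aeval R θ, fun g hg => minpoly.isIntegrallyClosed_dvd hyint hg, mul_ne_zero hDa hDb, ?_,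
    Finset.prod_ne_zero_iff.2 fun a _ => hD₀ a, fun a ha => ?_⟩
  · apply Polynomial.map_injective (algebraMap R F) (IsFractionRing.injective R F)
    rw [Polynomial.map_add, Polynomial.map_mul, Polynomial.map_mul, Polynomial.map_mul, Polynomial.map_mul,
      ← Polynomial.derivative_map, ← hminF, hua, hvb, Polynomial.map_C, Polynomial.map_C, Polynomial.map_C, map_mul, C_mul]
    linear_combination (C (algebraMap R F Da) * C (algebraMap R F Db)) * hab
  · rw [← Finset.mul_prod_erase A₀ D₀ ha, map_mul, Polynomial.eval₂_mul, Polynomial.eval₂_C, ← hq₀ a ha]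
    ring

/-- A finitely generated subfield of `ℂ` is generated by algebraically independent elements `x i` and one more element `θ`, integral over `ℤ[x]`.
Data: `R = MvPolynomial (Fin d) ℤ`, `x : Fin d → ℂ` algebraically independent, `f ∈ R[X]` monic with `f(θ) = 0`, such that
(1) every `g ∈ R[X]` with `g(θ) = 0` is a multiple of `f` (`f` is the minimal polynomial of `θ` over `R`, which is integrally closed: `minpoly.isIntegrallyClosed_dvd`);
(2) there are `Δ ∈ R`, `Δ ≠ 0`, and `u v ∈ R[X]` with `u f + v f' = Δ` (separability over the fraction field, denominators cleared);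
(3) every `a ∈ A₀` is of the form `h(θ) / D` with `h ∈ R[X]` and a common `D ∈ R`, `D ≠ 0`.
Proof. Take `x` from Noether normalisation of `Algebra.adjoin ℚ A₀` (`exists_integral_inj_algHom_of_fg`, see `setup` in `Pool/Agent/Lib/MP_c2b80f_al/Field.lean`, on main); `F = FractionRing (MvPolynomial (Fin d) ℤ)`
(or with `ℚ`) acts on `ℂ`; `E = F(A₀)` is finite over `F`, so `E = F(θ₁)` (primitive element, characteristic zero: `Field.exists_primitive_element`); multiply `θ₁` by a denominator to make it integral over `R = ℤ[x]`. `f` = minimal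
polynomial of `θ` over `R`. (2): `f` is separable over `F` (irreducible, characteristic zero), so `a f + b f' = 1` over `F[X]`; clear denominators. (3): every `a ∈ A₀` is a polynomial in `θ` over `F`; clear denominators. -/
theorem exists_presentation (A₀ : Finset ℂ) :
    ∃ (d : ℕ) (x : Fin d → ℂ) (θ : ℂ) (f : (MvPolynomial (Fin d) ℤ)[X]) (Δ D : MvPolynomial (Fin d) ℤ)
      (u v : (MvPolynomial (Fin d) ℤ)[X]) (h : ℂ → (MvPolynomial (Fin d) ℤ)[X]),
      AlgebraicIndependent ℤ x ∧ f.Monic ∧ 0 < f.natDegree ∧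
      f.eval₂ (MvPolynomial.aeval x : MvPolynomial (Fin d) ℤ →ₐ[ℤ] ℂ).toRingHom θ = 0 ∧
      (∀ g : (MvPolynomial (Fin d) ℤ)[X],
        g.eval₂ (MvPolynomial.aeval x : MvPolynomial (Fin d) ℤ →ₐ[ℤ] ℂ).toRingHom θ = 0 → f ∣ g) ∧
      Δ ≠ 0 ∧ u * f + v * derivative f = C Δ ∧ D ≠ 0 ∧
      ∀ a ∈ A₀, MvPolynomial.aeval x D * a =
        (h a).eval₂ (MvPolynomial.aeval x : MvPolynomial (Fin d) ℤ →ₐ[ℤ] ℂ).toRingHom θ := by
  classical
  let A : Subalgebra ℚ ℂ := Algebra.adjoin ℚ (A₀ : Set ℂ)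
  have : Algebra.FiniteType ℚ A := by
    rw [← Subalgebra.fg_iff_finiteType]
    exact ⟨A₀, rfl⟩
  obtain ⟨d, g, hginj, hgint⟩ := exists_integral_inj_algHom_of_fg ℚ A
  let x : Fin d → ℂ := fun i => (g (MvPolynomial.X i) : ℂ)
  have hx : (MvPolynomial.aeval x : MvPolynomial (Fin d) ℚ →ₐ[ℚ] ℂ) = A.val.comp g := by
    apply MvPolynomial.algHom_ext
    intro i
    simp [x]
  have hxQ : AlgebraicIndependent ℚ x := by
    unfold AlgebraicIndependent
    rw [hx]
    exact (Subtype.val_injective).comp hginj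
  have hxZ : AlgebraicIndependent ℤ x := hxQ.restrictScalars (Int.cast_injective)
  have hi : Function.Injective (MvPolynomial.aeval x : MvPolynomial (Fin d) ℤ →ₐ[ℤ] ℂ).toRingHom := hxZ
  have hA : ∀ a ∈ A₀, (IsFractionRing.lift (K := FractionRing (MvPolynomial (Fin d) ℤ)) hi).IsIntegralElem a := by
    intro a ha
    have haA : a ∈ A := Algebra.subset_adjoin ha
    -- over the polynomials with rational coefficients
    have h1 : (MvPolynomial.aeval x : MvPolynomial (Fin d) ℚ →ₐ[ℚ] ℂ).toRingHom.IsIntegralElem a := by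
      obtain ⟨p, hp, hpe⟩ := hgint ⟨a, haA⟩
      refine ⟨p, hp, ?_⟩
      have h1 := congrArg A.val hpe
      rw [map_zero] at h1
      rw [← h1, hx]
      exact (Polynomial.hom_eval₂ p g.toRingHom A.val.toRingHom ⟨a, haA⟩).symm
    have : CharZero (FractionRing (MvPolynomial (Fin d) ℤ)) :=
      IsFractionRing.charZero (MvPolynomial (Fin d) ℤ)
    let j : MvPolynomial (Fin d) ℚ →+* FractionRing (MvPolynomial (Fin d) ℤ) :=
      (MvPolynomial.aeval fun i => algebraMap (MvPolynomial (Fin d) ℤ) (FractionRing (MvPolynomial (Fin d) ℤ))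
        (MvPolynomial.X i) : MvPolynomial (Fin d) ℚ →ₐ[ℚ] FractionRing (MvPolynomial (Fin d) ℤ)).toRingHom
    have h2 : (MvPolynomial.aeval x : MvPolynomial (Fin d) ℚ →ₐ[ℚ] ℂ).toRingHom =
        (IsFractionRing.lift (K := FractionRing (MvPolynomial (Fin d) ℤ)) hi).comp j := by
      apply MvPolynomial.ringHom_ext
      · intro r
        exact congrArg (fun φ : ℚ →+* ℂ => φ r) (Subsingleton.elim
          ((MvPolynomial.aeval x : MvPolynomial (Fin d) ℚ →ₐ[ℚ] ℂ).toRingHom.comp MvPolynomial.C)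
          (((IsFractionRing.lift (K := FractionRing (MvPolynomial (Fin d) ℤ)) hi).comp j).comp MvPolynomial.C))
      · intro k
        have h3 : j (MvPolynomial.X k) = algebraMap (MvPolynomial (Fin d) ℤ) (FractionRing (MvPolynomial (Fin d) ℤ))
            (MvPolynomial.X k) := MvPolynomial.aeval_X _ _
        rw [RingHom.comp_apply, h3, IsFractionRing.lift_algebraMap]
        exact (MvPolynomial.aeval_X _ _).trans (MvPolynomial.aeval_X _ _).symm
    rw [h2] at h1
    exact RingHom.IsIntegralElem.of_comp h1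
  obtain ⟨θ, f, Δ, D, u, v, h, h1, h2, h3, h4, h5, h6, h7, h8⟩ :=
    embB_main (MvPolynomial.aeval x : MvPolynomial (Fin d) ℤ →ₐ[ℤ] ℂ).toRingHom hi A₀ hA
  exact ⟨d, x, θ, f, Δ, D, u, v, h, hxZ, h1, h2, h3, h4, h5, h6, h7, h8⟩

end WCn
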