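import Mathlib

/-!
# Transport of a presentation (job EmbH)
-/

open Polynomial

namespace WCn

/-- A nonzero element of an integral extension divides a nonzero constant. -/
private theorem embH_mult {R : Type*} [CommRing R] [IsDomain R] (φ : R →+* ℂ) (θ : ℂ) (f : R[X]) (hf : f.Monic)
    (hfθ : f.eval₂ φ θ = 0) (g : R[X]) (hg : eval₂RingHom φ θ g ≠ 0) :
    ∃ (r : R) (c : R[X]), r ≠ 0 ∧ eval₂RingHom φ θ (c * g) = eval₂RingHom φ θ (C r) := by
  let _ : Algebra R ℂ := φ.toAlgebra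
  have hθ : IsIntegral R θ := ⟨f, hf, hfθ⟩
  have hgi : IsIntegral R (eval₂RingHom φ θ g) := by
    have h1 : eval₂RingHom φ θ g = aeval θ g := rfl
    rw [h1]
    exact IsIntegral.of_mem_of_fg (Algebra.adjoin R {θ}) hθ.fg_adjoin_singleton _
      (Polynomial.aeval_mem_adjoin_singleton R θ)
  have h1 := minpoly.aeval R (eval₂RingHom φ θ g)
  have h2 := (minpoly R (eval₂RingHom φ θ g)).divX_mul_X_add
  have h0 : (minpoly R (eval₂RingHom φ θ g)).coeff 0 ≠ 0 := by
    intro h
    rw [h, C_0, add_zero] at h2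
    have hm : (minpoly R (eval₂RingHom φ θ g)).divX.Monic := by
      have h3 := minpoly.monic hgi
      rw [← h2] at h3
      exact Monic.of_mul_monic_right monic_X h3
    have h4 : aeval (eval₂RingHom φ θ g) (minpoly R (eval₂RingHom φ θ g)).divX = 0 := by
      rw [← h2, map_mul, aeval_X] at h1
      exact (mul_eq_zero.1 h1).resolve_right hg
    exact absurd (minpoly.min R _ hm h4) (not_le_of_gt (degree_divX_lt (minpoly.ne_zero hgi)))
  refine ⟨(minpoly R (eval₂RingHom φ θ g)).coeff 0, -((minpoly R (eval₂RingHom φ θ g)).divX.comp g), h0, ?_⟩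
  rw [← h2, map_add, map_mul, aeval_X, aeval_C] at h1
  have h3 : eval₂RingHom φ θ (C ((minpoly R (eval₂RingHom φ θ g)).coeff 0)) =
      algebraMap R ℂ ((minpoly R (eval₂RingHom φ θ g)).coeff 0) := by
    rw [coe_eval₂RingHom, eval₂_C]
    rfl
  have h4 : eval₂RingHom φ θ ((minpoly R (eval₂RingHom φ θ g)).divX.comp g) =
      aeval (eval₂RingHom φ θ g) (minpoly R (eval₂RingHom φ θ g)).divX := by
    rw [coe_eval₂RingHom, eval₂_comp]
    rfl
  rw [map_mul, map_neg, h3, h4]
  linear_combination -h1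

/-- Two injective homomorphisms on a domain give a homomorphism between subfields. -/
private theorem embH_frac {D : Type*} [CommRing D] [IsDomain D] {L : Type*} [Field L] (a : D →+* ℂ)
    (ha : Function.Injective a) (b : D →+* L) (hb : Function.Injective b) :
    ∃ (E : Subfield ℂ) (κ : E →+* L), ∀ y : D, ∃ h : a y ∈ E, κ ⟨a y, h⟩ = b y := by
  let iK : FractionRing D →+* ℂ := IsFractionRing.lift (A := D) ha
  let jK : FractionRing D →+* L := IsFractionRing.lift (A := D) hb
  have hiK : Function.Injective iK := iK.injective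
  let e : FractionRing D ≃+* iK.fieldRange := RingEquiv.ofBijective iK.rangeRestrictField
    ⟨fun y z hyz => hiK (congrArg Subtype.val hyz), fun ⟨_, z, hz⟩ => ⟨z, Subtype.ext hz⟩⟩
  refine ⟨iK.fieldRange, jK.comp (e.symm : iK.fieldRange →+* FractionRing D), fun y => ?_⟩
  have h1 : iK (algebraMap D (FractionRing D) y) = a y := IsFractionRing.lift_algebraMap ha y
  have h3 : jK (algebraMap D (FractionRing D) y) = b y := IsFractionRing.lift_algebraMap hb y
  have hmem : a y ∈ iK.fieldRange := ⟨_, h1⟩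
  refine ⟨hmem, ?_⟩
  have h4 : e (algebraMap D (FractionRing D) y) = ⟨a y, hmem⟩ := Subtype.ext h1
  have h5 : e.symm ⟨a y, hmem⟩ = algebraMap D (FractionRing D) y := by
    rw [← h4, RingEquiv.symm_apply_apply]
  have h6 : (jK.comp (e.symm : iK.fieldRange →+* FractionRing D)) ⟨a y, hmem⟩ = jK (e.symm ⟨a y, hmem⟩) := rfl
  rw [h6, h5, h3]

/-- Two homomorphisms with the same kernel give a homomorphism between subfields. -/
private theorem embH_lift {S : Type*} [CommRing S] {L : Type*} [Field L] (P : S →+* ℂ) (Q : S →+* L)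
    (h : ∀ g, P g = 0 ↔ Q g = 0) :
    ∃ (E : Subfield ℂ) (κ : E →+* L), ∀ g : S, ∃ h : P g ∈ E, κ ⟨P g, h⟩ = Q g := by
  have hprime : (RingHom.ker P).IsPrime := RingHom.ker_isPrime _
  have ha : Function.Injective (Ideal.Quotient.lift (RingHom.ker P) P fun g hg => hg) := by
    rw [injective_iff_map_eq_zero]
    intro y hy
    obtain ⟨g, rfl⟩ := Ideal.Quotient.mk_surjective y
    exact Ideal.Quotient.eq_zero_iff_mem.2 hy
  have hb : Function.Injective (Ideal.Quotient.lift (RingHom.ker P) Q fun g hg => (h g).1 hg) := by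
    rw [injective_iff_map_eq_zero]
    intro y hy
    obtain ⟨g, rfl⟩ := Ideal.Quotient.mk_surjective y
    exact Ideal.Quotient.eq_zero_iff_mem.2 ((h g).2 hy)
  obtain ⟨E, κ, hE⟩ := embH_frac _ ha _ hb
  exact ⟨E, κ, fun g => hE (Ideal.Quotient.mk _ g)⟩

/-- Let `R = MvPolynomial (Fin d) ℤ`, `θ ∈ ℂ` with minimal polynomial `f` over `ℤ[x]` in the sense of `hdvd`, and `ξ`, `θ'` in a field `L` with `ξ` algebraically independent and `f(θ') = 0` (at `ξ`). Then there is a field
homomorphism from the subfield of `ℂ` generated by the `x i` and `θ` to `L` with `g(x, θ) ↦ g(ξ, θ')` for all `g ∈ R[X]`.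
Proof. `R' = {g(x, θ)}` is a subring of `ℂ` and `g(x, θ) ↦ g(ξ, θ')` is well defined by `hdvd`. It is injective: let `g(x, θ) ≠ 0`. It is integral over the image of `R` (as `θ` is), so it divides (in `R'`) a nonzero element
`r(x)`, `r ∈ R` (constant term of its minimal polynomial over the fraction field/over `R`; or `Algebra.IsIntegral`/`IsIntegral.exists_multiple...`: a nonzero ideal of an integral extension domain meets `R`,
`Ideal.exists_nonzero_mem_of_ne_bot`/`Ideal.comap_ne_bot_of_integral_mem`); so `r(ξ) = c(ξ, θ') g(ξ, θ')`, and `r(ξ) ≠ 0` by algebraic independence. An injective homomorphism from the domain `R'` extends to its fraction field, which is the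
subfield `E` generated by `R'` (`IsFractionRing.lift`, `IsLocalization`/`Subfield.closure`; or define it on quotients). -/
theorem exists_fieldHom {d : ℕ} (x : Fin d → ℂ) (hx : AlgebraicIndependent ℤ x) (θ : ℂ) (f : (MvPolynomial (Fin d) ℤ)[X])
    (hf : f.Monic) (hfθ : f.eval₂ (MvPolynomial.aeval x : MvPolynomial (Fin d) ℤ →ₐ[ℤ] ℂ).toRingHom θ = 0)
    (hdvd : ∀ g : (MvPolynomial (Fin d) ℤ)[X],
      g.eval₂ (MvPolynomial.aeval x : MvPolynomial (Fin d) ℤ →ₐ[ℤ] ℂ).toRingHom θ = 0 → f ∣ g)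
    (L : Type) [Field L] [CharZero L] (ξ : Fin d → L) (hξ : AlgebraicIndependent ℤ ξ) (θ' : L)
    (hθ' : f.eval₂ (MvPolynomial.aeval ξ : MvPolynomial (Fin d) ℤ →ₐ[ℤ] L).toRingHom θ' = 0) :
    ∃ (E : Subfield ℂ) (κ : E →+* L), ∀ g : (MvPolynomial (Fin d) ℤ)[X],
      ∃ hg : g.eval₂ (MvPolynomial.aeval x : MvPolynomial (Fin d) ℤ →ₐ[ℤ] ℂ).toRingHom θ ∈ E,
        κ ⟨_, hg⟩ = g.eval₂ (MvPolynomial.aeval ξ : MvPolynomial (Fin d) ℤ →ₐ[ℤ] L).toRingHom θ' := by
  classical
  set φ : MvPolynomial (Fin d) ℤ →+* ℂ := (MvPolynomial.aeval x : MvPolynomial (Fin d) ℤ →ₐ[ℤ] ℂ).toRingHom with hφ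
  set ψ : MvPolynomial (Fin d) ℤ →+* L := (MvPolynomial.aeval ξ : MvPolynomial (Fin d) ℤ →ₐ[ℤ] L).toRingHom with hψ
  have hψi : Function.Injective ψ := hξ
  have hPQ : ∀ g : (MvPolynomial (Fin d) ℤ)[X], eval₂RingHom φ θ g = 0 → eval₂RingHom ψ θ' g = 0 := by
    intro g hg
    obtain ⟨c, rfl⟩ := hdvd g hg
    have h1 : eval₂RingHom ψ θ' f = 0 := hθ'
    rw [map_mul, h1, zero_mul]
  have hQP : ∀ g : (MvPolynomial (Fin d) ℤ)[X], eval₂RingHom ψ θ' g = 0 → eval₂RingHom φ θ g = 0 := by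
    intro g hg
    by_contra hne
    obtain ⟨r, c, hr, hrc⟩ := embH_mult φ θ f hf hfθ g hne
    have h1 : eval₂RingHom φ θ (c * g - C r) = 0 := by rw [map_sub, hrc, sub_self]
    have h2 := hPQ _ h1
    rw [map_sub, map_mul, hg, mul_zero, zero_sub, neg_eq_zero, coe_eval₂RingHom, eval₂_C] at h2
    exact hr (hψi (h2.trans (map_zero ψ).symm))
  obtain ⟨E, κ, hE⟩ := embH_lift (eval₂RingHom φ θ) (eval₂RingHom ψ θ') fun g => ⟨hPQ g, hQP g⟩
  exact ⟨E, κ, fun g => hE g⟩

end WCn
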