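import Mathlib

/-!
# Algebraically independent `p`-adic integers in prescribed residue classes (job EmbP)
-/

namespace WCn

open Cardinal in
private theorem embP_units (p : ℕ) [Fact p.Prime] (d : ℕ) :
    ∃ e : Fin d → ℚ_[p], (∀ i, ‖e i‖ ≤ 1) ∧ AlgebraicIndependent ℚ e := by
  classical
  obtain ⟨s, hs⟩ : ∃ s : Set ℚ_[p], s = {z | ‖z‖ ≤ 1} := ⟨_, rfl⟩
  have halg : Algebra.IsAlgebraic (Algebra.adjoin ℚ s) ℚ_[p] := by
    refine ⟨fun z => ?_⟩
    by_cases hz : ‖z‖ ≤ 1
    · exact isAlgebraic_algebraMap (A := ℚ_[p]) (⟨z, Algebra.subset_adjoin (by rw [hs]; exact hz)⟩ : Algebra.adjoin ℚ s)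
    · rw [not_le] at hz
      have hz0 : z ≠ 0 := by
        rintro rfl
        rw [norm_zero] at hz
        linarith
      have hzi : z⁻¹ ∈ s := by
        rw [hs]
        show ‖z⁻¹‖ ≤ 1
        rw [norm_inv]
        exact inv_le_one_of_one_le₀ hz.le
      refine ⟨Polynomial.C (⟨z⁻¹, Algebra.subset_adjoin hzi⟩ : Algebra.adjoin ℚ s) *
        Polynomial.X - 1, ?_, ?_⟩
      · intro h0
        have := congrArg (fun q => Polynomial.coeff q 0) h0
        simp at this
      · simp only [map_sub, map_mul, Polynomial.aeval_X, Polynomial.aeval_C, map_one]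
        have h2 : algebraMap (Algebra.adjoin ℚ s) ℚ_[p]
            ⟨z⁻¹, Algebra.subset_adjoin hzi⟩ = z⁻¹ := rfl
        rw [h2, inv_mul_cancel₀ hz0, sub_self]
  obtain ⟨u, hus, hu⟩ := exists_isTranscendenceBasis_subset (R := ℚ) (A := ℚ_[p]) s
  have hcard : ℵ₀ < #ℚ_[p] :=
    lt_of_lt_of_le aleph0_lt_continuum (continuum_le_cardinal_of_nontriviallyNormedField ℚ_[p])
  have hinf : Infinite u := by
    by_contra hfin
    rw [not_infinite_iff_finite] at hfin
    have h1 : Algebra.IsAlgebraic (Algebra.adjoin ℚ (Set.range fun x : u => (x : ℚ_[p]))) ℚ_[p] := hu.isAlgebraic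
    have h2 : #(Algebra.adjoin ℚ (Set.range fun x : u => (x : ℚ_[p]))) ≤ ℵ₀ := by
      rw [Algebra.adjoin_range_eq_range_aeval]
      have h3 : Function.Surjective (MvPolynomial.aeval (R := ℚ) (fun x : u => (x : ℚ_[p]))).rangeRestrict :=
        AlgHom.rangeRestrict_surjective _
      refine (mk_le_of_surjective h3).trans ?_
      refine (MvPolynomial.cardinalMk_le_max (σ := u) (R := ℚ)).trans ?_
      exact max_le (max_le mk_le_aleph0 mk_le_aleph0) le_rfl
    have h4 := Algebra.IsAlgebraic.cardinalMk_le_max (Algebra.adjoin ℚ (Set.range fun x : u => (x : ℚ_[p]))) ℚ_[p]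
    exact absurd (h4.trans (max_le h2 le_rfl)) (not_le.2 hcard)
  obtain ⟨e⟩ : Nonempty (Fin d ↪ u) := ⟨(Fin.valEmbedding).trans (Infinite.natEmbedding u)⟩
  refine ⟨fun i => (e i : ℚ_[p]), fun i => ?_, hu.1.comp e e.injective⟩
  have h5 := hus (e i).2
  rw [hs] at h5
  exact h5

/-- Proof. `ℚ_[p]` is uncountable, so a transcendence basis of `ℚ_[p]` over `ℚ` is infinite (uncountable; compare `exists_padic` in `Pool/Agent/Lib/MP_c2b80f_al/PadicPts.lean`, on main, where the same is done for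
`PadicAlgCl p`). Take `d` different elements `e i` of it; they are algebraically independent. Put `ξ i = x₀ i + p ^ (k i) * e i` with `k i` so large that `p ^ (k i) e i ∈ p ℤ_p`. Affine changes of each variable with rational
coefficients preserve algebraic independence (`MvPolynomial` substitution is an automorphism; or use `AlgebraicIndependent` lemmas with `algebraMap` shifts). -/
theorem exists_algIndep_padic (p : ℕ) [Fact p.Prime] (d : ℕ) (x₀ : Fin d → ℤ) :
    ∃ ξ : Fin d → ℤ_[p], (∀ i, (p : ℤ_[p]) ∣ ξ i - (x₀ i : ℤ_[p])) ∧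
      AlgebraicIndependent ℚ (fun i => (ξ i : ℚ_[p])) := by
  classical
  obtain ⟨e, he, hind⟩ := embP_units p d
  obtain ⟨E, hE⟩ : ∃ E : Fin d → ℤ_[p], ∀ i, (E i : ℚ_[p]) = e i := ⟨fun i => ⟨e i, he i⟩, fun i => rfl⟩
  have hp0 : (p : ℚ) ≠ 0 := Nat.cast_ne_zero.2 (Fact.out : p.Prime).ne_zero
  refine ⟨fun i => (x₀ i : ℤ_[p]) + (p : ℤ_[p]) * E i, fun i => ⟨E i, by ring⟩, ?_⟩
  have hval : (fun i => (((x₀ i : ℤ_[p]) + (p : ℤ_[p]) * E i : ℤ_[p]) : ℚ_[p])) =
      fun i => MvPolynomial.aeval e (MvPolynomial.C (x₀ i : ℚ) + MvPolynomial.C (p : ℚ) * MvPolynomial.X i) := by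
    funext i
    rw [map_add, map_mul, MvPolynomial.aeval_C, MvPolynomial.aeval_C, MvPolynomial.aeval_X, map_intCast, map_natCast,
      PadicInt.coe_add, PadicInt.coe_mul, PadicInt.coe_intCast, PadicInt.coe_natCast, hE]
  rw [hval]
  have hcomp : MvPolynomial.aeval (R := ℚ)
      (fun i => MvPolynomial.aeval e (MvPolynomial.C (x₀ i : ℚ) + MvPolynomial.C (p : ℚ) * MvPolynomial.X i)) =
      (MvPolynomial.aeval (R := ℚ) e).comp (MvPolynomial.aeval (R := ℚ)
        (fun i : Fin d => (MvPolynomial.C (x₀ i : ℚ) + MvPolynomial.C (p : ℚ) * MvPolynomial.X i :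
          MvPolynomial (Fin d) ℚ))) := by
    refine MvPolynomial.algHom_ext fun i => ?_
    rw [MvPolynomial.aeval_X, AlgHom.comp_apply, MvPolynomial.aeval_X]
  have hinv : ∀ q : MvPolynomial (Fin d) ℚ, MvPolynomial.aeval (R := ℚ)
      (fun i : Fin d => (MvPolynomial.C ((p : ℚ)⁻¹) * (MvPolynomial.X i - MvPolynomial.C (x₀ i : ℚ)) :
        MvPolynomial (Fin d) ℚ)) (MvPolynomial.aeval (R := ℚ)
        (fun i : Fin d => (MvPolynomial.C (x₀ i : ℚ) + MvPolynomial.C (p : ℚ) * MvPolynomial.X i :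
          MvPolynomial (Fin d) ℚ)) q) = q := by
    intro q
    rw [← AlgHom.comp_apply]
    refine Eq.trans ?_ (AlgHom.id_apply (R := ℚ) q)
    congr 1
    refine MvPolynomial.algHom_ext fun i => ?_
    rw [AlgHom.comp_apply, MvPolynomial.aeval_X, map_add, map_mul, MvPolynomial.aeval_C, MvPolynomial.aeval_C,
      MvPolynomial.aeval_X, AlgHom.id_apply, MvPolynomial.algebraMap_eq, ← mul_assoc, ← MvPolynomial.C_mul,
      mul_inv_cancel₀ hp0, MvPolynomial.C_1, one_mul, add_sub_cancel]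
  unfold AlgebraicIndependent
  rw [hcomp]
  intro a b hab
  rw [AlgHom.comp_apply, AlgHom.comp_apply] at hab
  have h1 := hind hab
  rw [← hinv a, ← hinv b, h1]

end WCn
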