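import Pool.Agent.Lib.MP_c2b80f_alC.EmbA
import Pool.Agent.Lib.MP_c2b80f_alC.EmbP
import Pool.Agent.Lib.MP_c2b80f_alC.EmbB
import Pool.Agent.Lib.MP_c2b80f_alC.EmbH

/-!
# Finitely generated subrings of `ℂ` embed into `ℤ_p` for infinitely many `p` (job EmbC; Cassels' embedding theorem)
-/

open Polynomial

namespace WCn

/-- Evaluation of integral polynomials at `p`-adic integers congruent to integers, modulo `p`. -/
private theorem embC_cong (p : ℕ) [Fact p.Prime] {d : ℕ} (x₀ : Fin d → ℤ) (ξ : Fin d → ℤ_[p])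
    (hξ : ∀ i, (p : ℤ_[p]) ∣ ξ i - (x₀ i : ℤ_[p])) (a : ℤ) (g : (MvPolynomial (Fin d) ℤ)[X]) :
    (p : ℤ_[p]) ∣ g.eval₂ (MvPolynomial.aeval ξ : MvPolynomial (Fin d) ℤ →ₐ[ℤ] ℤ_[p]).toRingHom (a : ℤ_[p]) -
      ((g.eval₂ (MvPolynomial.eval x₀) a : ℤ) : ℤ_[p]) := by
  let Q := ℤ_[p] ⧸ Ideal.span {(p : ℤ_[p])}
  let π : ℤ_[p] →+* Q := Ideal.Quotient.mk _
  rw [← Ideal.mem_span_singleton, ← Ideal.Quotient.eq]
  change π _ = π _
  have hc : π.comp (MvPolynomial.aeval ξ : MvPolynomial (Fin d) ℤ →ₐ[ℤ] ℤ_[p]).toRingHom =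
      (Int.castRingHom Q).comp (MvPolynomial.eval x₀) := by
    apply MvPolynomial.ringHom_ext
    · intro r
      simp
    · intro i
      have h1 : π (ξ i) = π (x₀ i : ℤ_[p]) := by
        change Ideal.Quotient.mk _ (ξ i) = Ideal.Quotient.mk _ (x₀ i : ℤ_[p])
        rw [Ideal.Quotient.eq, Ideal.mem_span_singleton]
        exact hξ i
      have h2 : π ((MvPolynomial.aeval ξ : MvPolynomial (Fin d) ℤ →ₐ[ℤ] ℤ_[p]) (MvPolynomial.X i)) = (x₀ i : Q) := by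
        rw [MvPolynomial.aeval_X, h1, map_intCast]
      have h3 : (Int.castRingHom Q) (MvPolynomial.eval x₀ (MvPolynomial.X i)) = (x₀ i : Q) := by
        rw [MvPolynomial.eval_X]
        rfl
      exact h2.trans h3.symm
  rw [Polynomial.hom_eval₂, hc, map_intCast, map_intCast]
  have := Polynomial.hom_eval₂ g (MvPolynomial.eval x₀) (Int.castRingHom Q) a
  exact this.symm

private theorem embC_unit (p : ℕ) [Fact p.Prime] (z : ℤ_[p]) (m : ℤ) (hm : m ≠ 0) (hlt : m.natAbs < p)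
    (h : (p : ℤ_[p]) ∣ z - (m : ℤ_[p])) : IsUnit z := by
  by_contra hz
  rw [PadicInt.not_isUnit_iff, PadicInt.norm_lt_one_iff_dvd] at hz
  have h1 : (p : ℤ_[p]) ∣ (m : ℤ_[p]) := by
    have := dvd_sub hz h
    rwa [sub_sub_cancel] at this
  rw [← PadicInt.norm_lt_one_iff_dvd, PadicInt.norm_int_lt_one_iff_dvd] at h1
  have h2 := Int.natAbs_dvd_natAbs.2 h1
  rw [Int.natAbs_natCast] at h2
  exact absurd (Nat.le_of_dvd (Int.natAbs_pos.2 hm) h2) (not_le.2 hlt)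

/-- Proof. Take the data of `exists_presentation`. The polynomial `D Δ ≠ 0` has a nonzero value at some integral point `x₀`
(`MvPolynomial.funext` over the infinite domain `ℤ`). Let `f₀ ∈ ℤ[X]` be `f` with the coefficients evaluated at `x₀`; it is monic of positive degree. By
`exists_prime_root` there are a prime `p > max P₀ |D(x₀) Δ(x₀)|` and an integer `a` with `p ∣ f₀(a)`. By `exists_algIndep_padic` there are
algebraically independent `ξ i ∈ ℤ_p`, `ξ i ≡ x₀ i` mod `p`. Let `f₁ ∈ ℤ_p[X]` be `f` at `ξ`; `f₁(a) ≡ f₀(a) ≡ 0` mod `p`, and `v₁(a) f₁'(a) ≡ Δ(x₀) ≢ 0` mod `p`, so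
`f₁'(a)` is a unit and Hensel's lemma (`hensels_lemma`) gives `θ' ∈ ℤ_p` with `f₁(θ') = 0`. By `exists_fieldHom` (`L = ℚ_p`) there is `κ : E → ℚ_p`. `A₀ ⊆ E` by (3), and the images of its elements
are `h_a(ξ, θ') / D(ξ) ∈ ℤ_p`, since `D(ξ) ≡ D(x₀) ≢ 0` mod `p`. Restrict to the ring generated by `A₀`; the image is in `ℤ_p` (subring). -/
theorem exists_padic_embedding (A₀ : Finset ℂ) (P₀ : ℕ) :
    ∃ (p : ℕ) (_ : Fact p.Prime), P₀ < p ∧
      ∃ σ : Subring.closure (A₀ : Set ℂ) →+* ℤ_[p], Function.Injective σ := by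
  obtain ⟨d, x, θ, f, Δ, D, u, v, h, hx, hf, hdeg, hfθ, hdvd, hΔ, huv, hD, hh⟩ := exists_presentation A₀
  -- a good integral point
  obtain ⟨x₀, hx₀⟩ : ∃ x₀ : Fin d → ℤ, MvPolynomial.eval x₀ (D * Δ) ≠ 0 := by
    by_contra hcon
    push Not at hcon
    refine mul_ne_zero hD hΔ (MvPolynomial.funext fun y => ?_)
    rw [hcon y, map_zero]
  have hf₀m : (f.map (MvPolynomial.eval x₀)).Monic := hf.map _
  have hf₀d : 0 < (f.map (MvPolynomial.eval x₀)).natDegree := by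
    rw [hf.natDegree_map]
    exact hdeg
  obtain ⟨p, hp, hP, a, ha⟩ := exists_prime_root (f.map (MvPolynomial.eval x₀)) hf₀d
    (max P₀ (MvPolynomial.eval x₀ (D * Δ)).natAbs)
  have : Fact p.Prime := ⟨hp⟩
  have hPp : P₀ < p := (le_max_left _ _).trans_lt hP
  have hAp : (MvPolynomial.eval x₀ (D * Δ)).natAbs < p := (le_max_right _ _).trans_lt hP
  rw [map_mul] at hx₀ hAp
  have hD0 : MvPolynomial.eval x₀ D ≠ 0 := left_ne_zero_of_mul hx₀
  have hΔ0 : MvPolynomial.eval x₀ Δ ≠ 0 := right_ne_zero_of_mul hx₀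
  rw [Int.natAbs_mul] at hAp
  have hDp : (MvPolynomial.eval x₀ D).natAbs < p :=
    (Nat.le_mul_of_pos_right _ (Int.natAbs_pos.2 hΔ0)).trans_lt hAp
  have hΔp : (MvPolynomial.eval x₀ Δ).natAbs < p :=
    (Nat.le_mul_of_pos_left _ (Int.natAbs_pos.2 hD0)).trans_lt hAp
  obtain ⟨ξ, hξ, hξi⟩ := exists_algIndep_padic p d x₀
  set e : MvPolynomial (Fin d) ℤ →+* ℤ_[p] :=
    (MvPolynomial.aeval ξ : MvPolynomial (Fin d) ℤ →ₐ[ℤ] ℤ_[p]).toRingHom with he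
  have hcong : ∀ g : (MvPolynomial (Fin d) ℤ)[X], (p : ℤ_[p]) ∣ g.eval₂ e (a : ℤ_[p]) -
      ((g.eval₂ (MvPolynomial.eval x₀) a : ℤ) : ℤ_[p]) := embC_cong p x₀ ξ hξ a
  -- the root
  have hroot : (p : ℤ_[p]) ∣ f.eval₂ e (a : ℤ_[p]) := by
    have h1 := hcong f
    have h2 : (p : ℤ_[p]) ∣ ((f.eval₂ (MvPolynomial.eval x₀) a : ℤ) : ℤ_[p]) := by
      rw [Polynomial.eval_map] at ha
      rw [← PadicInt.norm_lt_one_iff_dvd, PadicInt.norm_int_lt_one_iff_dvd]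
      exact ha
    have := dvd_add h1 h2
    rwa [sub_add_cancel] at this
  have hder : IsUnit ((derivative f).eval₂ e (a : ℤ_[p])) := by
    have h1 : u.eval₂ e (a : ℤ_[p]) * f.eval₂ e (a : ℤ_[p]) +
        v.eval₂ e (a : ℤ_[p]) * (derivative f).eval₂ e (a : ℤ_[p]) = e Δ := by
      rw [← Polynomial.eval₂_mul, ← Polynomial.eval₂_mul, ← Polynomial.eval₂_add, huv, Polynomial.eval₂_C]
    have h2 : (p : ℤ_[p]) ∣ v.eval₂ e (a : ℤ_[p]) * (derivative f).eval₂ e (a : ℤ_[p]) -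
        ((MvPolynomial.eval x₀ Δ : ℤ) : ℤ_[p]) := by
      have h3 := hcong (C Δ)
      rw [Polynomial.eval₂_C, Polynomial.eval₂_C, ← h1] at h3
      have h4 := dvd_sub h3 (hroot.mul_left (u.eval₂ e (a : ℤ_[p])))
      have h5 : ∀ r s t : ℤ_[p], r + s - t - r = s - t := fun r s t => by ring
      rwa [h5] at h4
    exact isUnit_of_mul_isUnit_right (embC_unit p _ _ hΔ0 hΔp h2)
  have hnorm : ‖(f.map e).aeval (a : ℤ_[p])‖ < ‖(derivative (f.map e)).aeval (a : ℤ_[p])‖ ^ 2 := by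
    have h1 : (f.map e).aeval (a : ℤ_[p]) = f.eval₂ e (a : ℤ_[p]) := by
      rw [Polynomial.coe_aeval_eq_eval, Polynomial.eval_map]
    have h2 : (derivative (f.map e)).aeval (a : ℤ_[p]) = (derivative f).eval₂ e (a : ℤ_[p]) := by
      rw [Polynomial.coe_aeval_eq_eval, Polynomial.derivative_map, Polynomial.eval_map]
    rw [h1, h2, PadicInt.isUnit_iff.1 hder, one_pow, PadicInt.norm_lt_one_iff_dvd]
    exact hroot
  obtain ⟨θ', hθ', -⟩ := hensels_lemma hnorm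
  rw [Polynomial.coe_aeval_eq_eval, Polynomial.eval_map] at hθ'
  -- the field homomorphism
  have hcomp : (MvPolynomial.aeval (fun i => (ξ i : ℚ_[p])) : MvPolynomial (Fin d) ℤ →ₐ[ℤ] ℚ_[p]).toRingHom =
      (PadicInt.Coe.ringHom (p := p)).comp e := by
    apply MvPolynomial.ringHom_ext
    · intro r
      simp [he]
    · intro i
      change (MvPolynomial.aeval (fun i => (ξ i : ℚ_[p])) : MvPolynomial (Fin d) ℤ →ₐ[ℤ] ℚ_[p]) (MvPolynomial.X i) =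
        PadicInt.Coe.ringHom ((MvPolynomial.aeval ξ : MvPolynomial (Fin d) ℤ →ₐ[ℤ] ℤ_[p]) (MvPolynomial.X i))
      rw [MvPolynomial.aeval_X, MvPolynomial.aeval_X]
      rfl
  have hξZ : AlgebraicIndependent ℤ (fun i => (ξ i : ℚ_[p])) :=
    AlgebraicIndependent.restrictScalars (K := ℚ) (algebraMap ℤ ℚ).injective_int hξi
  obtain ⟨E, κ, hκ⟩ := exists_fieldHom x hx θ f hf hfθ hdvd ℚ_[p] (fun i => (ξ i : ℚ_[p])) hξZ (θ' : ℚ_[p]) (by
    rw [hcomp]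
    have h1 := Polynomial.hom_eval₂ f e (PadicInt.Coe.ringHom (p := p)) θ'
    rw [hθ', map_zero] at h1
    exact h1.symm)
  have hκ' : ∀ g : (MvPolynomial (Fin d) ℤ)[X],
      ∃ hg : g.eval₂ (MvPolynomial.aeval x : MvPolynomial (Fin d) ℤ →ₐ[ℤ] ℂ).toRingHom θ ∈ E,
        κ ⟨_, hg⟩ = ((g.eval₂ e θ' : ℤ_[p]) : ℚ_[p]) := by
    intro g
    obtain ⟨hg, hg'⟩ := hκ g
    refine ⟨hg, hg'.trans ?_⟩
    rw [hcomp]
    exact (Polynomial.hom_eval₂ g e (PadicInt.Coe.ringHom (p := p)) θ').symm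
  -- the generators
  have hDx : (MvPolynomial.aeval x : MvPolynomial (Fin d) ℤ →ₐ[ℤ] ℂ) D ≠ 0 := by
    intro h0
    exact hD (hx (by rw [h0, map_zero]))
  have hDu : IsUnit (e D) := by
    refine embC_unit p _ _ hD0 hDp ?_
    have h3 := hcong (C D)
    rwa [Polynomial.eval₂_C, Polynomial.eval₂_C] at h3
  have hgen : ∀ z ∈ A₀, ∃ hz : z ∈ E, ‖κ ⟨z, hz⟩‖ ≤ 1 := by
    intro z hz
    obtain ⟨hDE, hDκ⟩ := hκ' (C D)
    obtain ⟨hhE, hhκ⟩ := hκ' (h z)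
    have hDC : (C D).eval₂ (MvPolynomial.aeval x : MvPolynomial (Fin d) ℤ →ₐ[ℤ] ℂ).toRingHom θ =
        (MvPolynomial.aeval x : MvPolynomial (Fin d) ℤ →ₐ[ℤ] ℂ) D := by
      rw [Polynomial.eval₂_C]
      rfl
    have hzE : z ∈ E := by
      have h1 : z = (h z).eval₂ (MvPolynomial.aeval x : MvPolynomial (Fin d) ℤ →ₐ[ℤ] ℂ).toRingHom θ /
          (C D).eval₂ (MvPolynomial.aeval x : MvPolynomial (Fin d) ℤ →ₐ[ℤ] ℂ).toRingHom θ := by
        rw [← hh z hz, hDC, mul_div_cancel_left₀ _ hDx]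
      rw [h1]
      exact E.div_mem hhE hDE
    refine ⟨hzE, ?_⟩
    have h2 : (⟨_, hDE⟩ : E) * ⟨z, hzE⟩ = ⟨_, hhE⟩ := by
      apply Subtype.ext
      change (C D).eval₂ _ θ * z = (h z).eval₂ _ θ
      rw [hDC, hh z hz]
    have h3 := congrArg κ h2
    rw [map_mul, hDκ, hhκ, Polynomial.eval₂_C] at h3
    have h4 : ‖((e D : ℤ_[p]) : ℚ_[p])‖ = 1 := by
      rw [← PadicInt.norm_def]
      exact PadicInt.isUnit_iff.1 hDu
    have h5 := congrArg norm h3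
    rw [norm_mul, h4, one_mul] at h5
    rw [h5]
    exact PadicInt.norm_le_one _
  have hcl : Subring.closure (A₀ : Set ℂ) ≤ ((PadicInt.subring p).comap κ).map E.toSubring.subtype := by
    rw [Subring.closure_le]
    intro z hz
    obtain ⟨hzE, hz1⟩ := hgen z hz
    exact Subring.mem_map.2 ⟨⟨z, hzE⟩, hz1, rfl⟩
  have hcE : ∀ z : Subring.closure (A₀ : Set ℂ), (z : ℂ) ∈ E := by
    intro z
    obtain ⟨w, -, hw⟩ := Subring.mem_map.1 (hcl z.2)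
    rw [← hw]
    exact w.2
  have hc1 : ∀ z : Subring.closure (A₀ : Set ℂ), ‖κ ⟨z, hcE z⟩‖ ≤ 1 := by
    intro z
    obtain ⟨w, hw1, hw⟩ := Subring.mem_map.1 (hcl z.2)
    have h1 : w = ⟨z, hcE z⟩ := Subtype.ext hw
    rw [← h1]
    exact hw1
  refine ⟨p, ⟨hp⟩, hPp, ⟨⟨⟨fun z => ⟨κ ⟨z, hcE z⟩, hc1 z⟩, ?_⟩, ?_⟩, ?_, ?_⟩, ?_⟩
  · apply Subtype.ext
    change κ ⟨((1 : Subring.closure (A₀ : Set ℂ)) : ℂ), _⟩ = 1
    exact map_one κ
  · intro y z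
    apply Subtype.ext
    change κ ⟨((y * z : Subring.closure (A₀ : Set ℂ)) : ℂ), _⟩ = κ ⟨(y : ℂ), hcE y⟩ * κ ⟨(z : ℂ), hcE z⟩
    rw [← map_mul]
    rfl
  · apply Subtype.ext
    change κ ⟨((0 : Subring.closure (A₀ : Set ℂ)) : ℂ), _⟩ = 0
    exact map_zero κ
  · intro y z
    apply Subtype.ext
    change κ ⟨((y + z : Subring.closure (A₀ : Set ℂ)) : ℂ), _⟩ = κ ⟨(y : ℂ), hcE y⟩ + κ ⟨(z : ℂ), hcE z⟩
    rw [← map_add]
    rfl
  · intro y z hyz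
    have h1 : κ ⟨(y : ℂ), hcE y⟩ = κ ⟨(z : ℂ), hcE z⟩ := congrArg (fun w : ℤ_[p] => (w : ℚ_[p])) hyz
    have h2 := κ.injective h1
    exact Subtype.ext (congrArg (fun w : E => (w : ℂ)) h2)

end WCn
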