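import Pool.Agent.Lib.MP_c2b80f_alC.Defs

/-!
# Entries and characteristic polynomials (job Entr)
-/

open Matrix Polynomial

namespace WCn

variable {m : ℕ}

/-- Entries of the elements of a finitely generated subgroup lie in a finitely generated ring: take the entries of generators and of their inverses. -/
theorem exists_entries (Γ : Subgroup (SLC m)) (hfg : Γ.FG) : ∃ A₀ : Finset ℂ,
    ∀ g ∈ Γ, ∀ i j, g.1 i j ∈ Subring.closure (A₀ : Set ℂ) := by
  classical
  obtain ⟨S, hS⟩ := hfg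
  obtain ⟨A₀, hA₀⟩ : ∃ A₀ : Finset ℂ, A₀ = S.biUnion fun s =>
    (Finset.univ.image fun ij : Fin m × Fin m => s.1 ij.1 ij.2) ∪
      Finset.univ.image fun ij : Fin m × Fin m => (s⁻¹).1 ij.1 ij.2 := ⟨_, rfl⟩
  refine ⟨A₀, fun g hg => ?_⟩
  have hmul : ∀ x y : SLC m, (∀ i j, x.1 i j ∈ Subring.closure (A₀ : Set ℂ)) →
      (∀ i j, y.1 i j ∈ Subring.closure (A₀ : Set ℂ)) → ∀ i j, (x * y).1 i j ∈ Subring.closure (A₀ : Set ℂ) := by
    intro x y hx hy i j
    rw [Matrix.SpecialLinearGroup.coe_mul, Matrix.mul_apply]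
    exact sum_mem fun l _ => mul_mem (hx i l) (hy l j)
  have hone : ∀ i j, (1 : SLC m).1 i j ∈ Subring.closure (A₀ : Set ℂ) := by
    intro i j
    rw [Matrix.SpecialLinearGroup.coe_one, Matrix.one_apply]
    split_ifs
    · exact one_mem _
    · exact zero_mem _
  have key : (∀ i j, g.1 i j ∈ Subring.closure (A₀ : Set ℂ)) ∧ ∀ i j, (g⁻¹).1 i j ∈ Subring.closure (A₀ : Set ℂ) := by
    rw [← hS] at hg
    induction hg using Subgroup.closure_induction with
    | mem x hx =>
      refine ⟨fun i j => Subring.subset_closure ?_, fun i j => Subring.subset_closure ?_⟩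
      · rw [hA₀, Finset.mem_coe, Finset.mem_biUnion]
        exact ⟨x, hx, Finset.mem_union_left _ (Finset.mem_image_of_mem _ (Finset.mem_univ (i, j)))⟩
      · rw [hA₀, Finset.mem_coe, Finset.mem_biUnion]
        exact ⟨x, hx, Finset.mem_union_right _ (Finset.mem_image_of_mem _ (Finset.mem_univ (i, j)))⟩
    | one =>
      rw [inv_one]
      exact ⟨hone, hone⟩
    | mul x y _ _ hx hy =>
      rw [_root_.mul_inv_rev]
      exact ⟨hmul x y hx.1 hy.1, hmul y⁻¹ x⁻¹ hy.2 hx.2⟩
    | inv x _ hx =>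
      rw [inv_inv]
      exact ⟨hx.2, hx.1⟩
  exact key.1

/-- Coefficients of the characteristic polynomial are in every ring containing the entries. -/
theorem charpoly_coeff_mem (A : Subring ℂ) (M : Matrix (Fin m) (Fin m) ℂ) (hM : ∀ i j, M i j ∈ A) (i : ℕ) :
    M.charpoly.coeff i ∈ A := by
  obtain ⟨M', hM'⟩ : ∃ M' : Matrix (Fin m) (Fin m) A, M'.map A.subtype = M :=
    ⟨Matrix.of fun i j => ⟨M i j, hM i j⟩, rfl⟩
  rw [← hM', Matrix.charpoly_map, Polynomial.coeff_map]
  exact (M'.charpoly.coeff i).2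

/-- `WComm` is symmetric. -/
theorem WComm.symm {n : ℕ} {g : SLC n} {h : SLC m} (w : WComm g h) : WComm h g := by
  obtain ⟨p, t, q, s, a, b, h1, h2, h3, h4⟩ := w
  exact ⟨q, s, p, t, b, a, h2, h1, h3.symm, h3 ▸ h4⟩

end WCn
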