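import Pool.Agent.Lib.MP_c2b80f_alC.SpecD

/-!
# Examples of groups with logarithmic expressions (job ExA)
-/

open Matrix

namespace WCn

variable {n : ℕ}

/-- Quasi-isometrically embedded finitely generated groups: the word length is at most `C (1 + log ‖g‖)`.
Proof. `𝒳` = the matrices of the elements of `S`; the letter `s` is `comb 𝒳 c` for `c = Pi.single s.1 1` (that is `c X = if X = s.1 then 1 else 0`), of cost `1 + log 2 ≤ 2`; constant `2 C`. -/
theorem logExpr_of_words (Γ : Subgroup (SLC n)) (S : Finset (SLC n)) (C : ℝ)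
    (h : ∀ g ∈ Γ, ∃ l : List (SLC n), (∀ s ∈ l, s ∈ S) ∧ l.prod = g ∧ (l.length : ℝ) ≤ C * (1 + Real.log (size g))) :
    LogExpr Γ := by
  classical
  obtain ⟨c, hc⟩ : ∃ c : SLC n → Matrix (Fin n) (Fin n) ℂ → ℤ, c = fun s X => if X = s.1 then 1 else 0 := ⟨_, rfl⟩
  obtain ⟨𝒳, h𝒳⟩ : ∃ 𝒳 : Finset (Matrix (Fin n) (Fin n) ℂ), 𝒳 = S.image fun s => s.1 := ⟨_, rfl⟩
  have hmem : ∀ s ∈ S, s.1 ∈ 𝒳 := fun s hs => h𝒳 ▸ Finset.mem_image_of_mem _ hs
  have hcomb : ∀ s ∈ S, comb 𝒳 (c s) = s.1 := by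
    intro s hs
    unfold comb
    rw [Finset.sum_eq_single s.1]
    · rw [hc]
      simp
    · intro X _ hX
      rw [hc]
      simp [hX]
    · exact fun hX => absurd (hmem s hs) hX
  have hcst : ∀ s ∈ S, cst 𝒳 (c s) ≤ 2 := by
    intro s hs
    unfold cst
    have h1 : ∑ X ∈ 𝒳, |((c s X : ℤ) : ℝ)| = 1 := by
      rw [Finset.sum_eq_single s.1]
      · rw [hc]
        simp
      · intro X _ hX
        rw [hc]
        simp [hX]
      · exact fun hX => absurd (hmem s hs) hX
    rw [h1]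
    have h2 : Real.log (1 + 1) ≤ (1 + 1) - 1 := Real.log_le_sub_one_of_pos (by norm_num)
    linarith
  refine ⟨𝒳, 2 * C, fun g hg => ?_⟩
  obtain ⟨l, hl, hprod, hlen⟩ := h g hg
  refine ⟨l.map c, ?_, ?_⟩
  · rw [← hprod]
    clear hprod hlen
    induction l with
    | nil => simp
    | cons s l ih =>
      rw [List.map_cons, List.map_cons, List.prod_cons, List.prod_cons, Matrix.SpecialLinearGroup.coe_mul,
        ih fun t ht => hl t (List.mem_cons_of_mem _ ht), hcomb s (hl s List.mem_cons_self)]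
  · have h1 : ((l.map c).map (cst 𝒳)).sum ≤ 2 * l.length := by
      clear hprod hlen
      induction l with
      | nil => simp
      | cons s l ih =>
        rw [List.map_cons, List.map_cons, List.sum_cons, List.length_cons, Nat.cast_succ]
        have h2 := ih fun t ht => hl t (List.mem_cons_of_mem _ ht)
        have h3 := hcst s (hl s List.mem_cons_self)
        linarith
    refine h1.trans ?_
    rw [mul_assoc]
    exact mul_le_mul_of_nonneg_left hlen (by norm_num)

/-- The basis of the matrices over the lattice. -/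
private theorem exA_inj (ω : ℂ) (hω : ω.im ≠ 0) : Function.Injective
    (fun k : (Fin n × Fin n) × Bool => (Matrix.single k.1.1 k.1.2 (if k.2 then ω else 1) : Matrix (Fin n) (Fin n) ℂ)) := by
  have hω0 : ω ≠ 0 := fun h => hω (by rw [h, Complex.zero_im])
  have hω1 : ω ≠ 1 := fun h => hω (by rw [h, Complex.one_im])
  rintro ⟨⟨i, j⟩, b⟩ ⟨⟨i', j'⟩, b'⟩ h
  have h0 : (if b then ω else 1) ≠ (0 : ℂ) := by
    split_ifs
    · exact hω0
    · exact one_ne_zero
  have h1 : (Matrix.single i j (if b then ω else 1) : Matrix (Fin n) (Fin n) ℂ) i j =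
      (Matrix.single i' j' (if b' then ω else 1) : Matrix (Fin n) (Fin n) ℂ) i j :=
    congrArg (fun M : Matrix (Fin n) (Fin n) ℂ => M i j) h
  rw [Matrix.single_apply_same, Matrix.single_apply] at h1
  split_ifs at h1
  all_goals first
    | exact absurd h1 h0
    | exact absurd h1 hω0
    | exact absurd h1 one_ne_zero
    | exact absurd h1 hω1
    | exact absurd h1.symm hω1
    | skip
  all_goals simp_all

/-- Groups of matrices with entries in the lattice `ℤ + ℤ ω`, `ω` not real (for instance subgroups of `SL_n(ℤ)` and of `SL_n(O)` for imaginary quadratic orders `O`).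
Proof. `𝒳 = {E_ij, ω E_ij}` (these are different matrices); `g = comb 𝒳 c` with `c (E_ij) = a_ij`, `c (ω E_ij) = b_ij`, `|a| + |b| ≤ c₀ |a + b ω|` (`|b| = |Im (a + b ω)| / |Im ω|`), so the cost of this one factor is at most
`1 + log (1 + c₀ size g) ≤ C (1 + log (size g))` because `size g ≥ 1` (`one_le_size`; `n = 0` is trivial). -/
theorem logExpr_of_lattice (ω : ℂ) (hω : ω.im ≠ 0) (Γ : Subgroup (SLC n))
    (h : ∀ g ∈ Γ, ∀ i j, ∃ a b : ℤ, g.1 i j = a + b * ω) : LogExpr Γ := by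
  classical
  rcases Nat.eq_zero_or_pos n with hn | hn
  · subst hn
    refine ⟨∅, 0, fun g _ => ⟨[], ?_, ?_⟩⟩
    · exact Subsingleton.elim _ _
    · simp
  obtain ⟨e, he⟩ : ∃ e : (Fin n × Fin n) × Bool → Matrix (Fin n) (Fin n) ℂ,
    e = fun k => Matrix.single k.1.1 k.1.2 (if k.2 then ω else 1) := ⟨_, rfl⟩
  have hinj : Function.Injective e := he ▸ exA_inj ω hω
  have hW : 0 < |ω.im| := abs_pos.2 hω
  obtain ⟨c₀, hc₀⟩ : ∃ c₀ : ℝ, c₀ = 1 + (‖ω‖ + 1) / |ω.im| := ⟨_, rfl⟩
  have hc₀pos : 0 ≤ c₀ := by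
    rw [hc₀]
    positivity
  have hlog : 0 ≤ Real.log (1 + c₀) := Real.log_nonneg (by linarith)
  refine ⟨Finset.univ.image e, 1 + Real.log (1 + c₀), fun g hg => ?_⟩
  choose a b hab using h g hg
  obtain ⟨v, hv⟩ : ∃ v : (Fin n × Fin n) × Bool → ℤ, v = fun k => if k.2 then b k.1.1 k.1.2 else a k.1.1 k.1.2 :=
    ⟨_, rfl⟩
  obtain ⟨c, hc⟩ : ∃ c : Matrix (Fin n) (Fin n) ℂ → ℤ, ∀ k, c (e k) = v k :=
    ⟨Function.extend e v 0, fun k => hinj.extend_apply v 0 k⟩
  have hcomb : comb (Finset.univ.image e) c = g.1 := by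
    unfold comb
    rw [Finset.sum_image fun x _ y _ hxy => hinj hxy, Fintype.sum_prod_type]
    simp only [hc, Fintype.sum_bool]
    rw [Fintype.sum_prod_type]
    ext i j
    rw [Matrix.sum_apply]
    simp only [Matrix.sum_apply]
    rw [Finset.sum_eq_single i, Finset.sum_eq_single j]
    · rw [he, hv, hab i j]
      simp
      ring
    · intro j' _ hj'
      rw [he, hv]
      simp [hj']
    · exact fun hj => absurd (Finset.mem_univ j) hj
    · intro i' _ hi'
      refine Finset.sum_eq_zero fun j' _ => ?_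
      rw [he, hv]
      simp [hi']
    · exact fun hi => absurd (Finset.mem_univ i) hi
  have hbd : ∀ i j, |((a i j : ℤ) : ℝ)| + |((b i j : ℤ) : ℝ)| ≤ c₀ * ‖g.1 i j‖ := by
    intro i j
    have h1 : |((b i j : ℤ) : ℝ)| * |ω.im| ≤ ‖g.1 i j‖ := by
      rw [← abs_mul]
      have h2 : (g.1 i j).im = ((b i j : ℤ) : ℝ) * ω.im := by
        rw [hab i j]
        simp
      rw [← h2]
      exact Complex.abs_im_le_norm _
    have h2 : |((b i j : ℤ) : ℝ)| ≤ ‖g.1 i j‖ / |ω.im| := (le_div_iff₀ hW).2 h1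
    have h3 : |((a i j : ℤ) : ℝ)| ≤ ‖g.1 i j‖ + |((b i j : ℤ) : ℝ)| * ‖ω‖ := by
      have h4 : ((a i j : ℤ) : ℂ) = g.1 i j - ((b i j : ℤ) : ℂ) * ω := by
        rw [hab i j]
        ring
      have h5 : ‖((a i j : ℤ) : ℂ)‖ = |((a i j : ℤ) : ℝ)| := Complex.norm_intCast _
      have h6 : ‖((b i j : ℤ) : ℂ)‖ = |((b i j : ℤ) : ℝ)| := Complex.norm_intCast _
      rw [← h5, h4, ← h6, ← norm_mul]
      exact norm_sub_le _ _
    have h7 : |((b i j : ℤ) : ℝ)| * ‖ω‖ ≤ ‖g.1 i j‖ / |ω.im| * ‖ω‖ := mul_le_mul_of_nonneg_right h2 (norm_nonneg _)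
    have h8 : c₀ * ‖g.1 i j‖ = ‖g.1 i j‖ + ‖g.1 i j‖ / |ω.im| * ‖ω‖ + ‖g.1 i j‖ / |ω.im| := by
      rw [hc₀]
      field_simp
      ring
    rw [h8]
    linarith
  have hsum : ∑ X ∈ Finset.univ.image e, |((c X : ℤ) : ℝ)| ≤ c₀ * size g := by
    rw [Finset.sum_image fun x _ y _ hxy => hinj hxy, Fintype.sum_prod_type]
    simp only [hc, Fintype.sum_bool]
    rw [Fintype.sum_prod_type]
    unfold size
    rw [Finset.mul_sum]
    refine Finset.sum_le_sum fun i _ => ?_
    rw [Finset.mul_sum]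
    refine Finset.sum_le_sum fun j _ => ?_
    have h1 := hbd i j
    rw [hv]
    simp only [if_true, Bool.false_eq_true, if_false]
    linarith
  refine ⟨[c], ?_, ?_⟩
  · simp [hcomb]
  · have hs := one_le_size hn g
    have hls : 0 ≤ Real.log (size g) := Real.log_nonneg hs
    simp only [List.map_cons, List.map_nil, List.sum_cons, List.sum_nil, add_zero]
    unfold cst
    have h1 : 1 + ∑ X ∈ Finset.univ.image e, |((c X : ℤ) : ℝ)| ≤ (1 + c₀) * size g := by nlinarith
    have h2 : 0 ≤ ∑ X ∈ Finset.univ.image e, |((c X : ℤ) : ℝ)| := Finset.sum_nonneg fun _ _ => abs_nonneg _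
    have h3 : Real.log (1 + ∑ X ∈ Finset.univ.image e, |((c X : ℤ) : ℝ)|) ≤ Real.log (1 + c₀) + Real.log (size g) := by
      rw [← Real.log_mul (by positivity) (by linarith)]
      exact Real.log_le_log (by linarith) h1
    nlinarith [mul_nonneg hlog hls]

end WCn
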