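import Pool.Agent.Lib.MP_c2b80f_al.Northcott
import Pool.Agent.Lib.MP_c2b80f_alC.Defs

/-!
# Finiteness (job Fin)

This is `Pool.Agent.MPc2b80f.northcott` (file `Pool/Agent/Lib/MP_c2b80f_al/Northcott.lean`, on main) with two changes:
(1) the constant `2` in the archimedean bound is replaced by an arbitrary constant `B₀ ≥ 1` (in the proof replace `2` by `B₀` in `Bz`, `C3`;
`M` changes accordingly); (2) the field `K` (which is the algebraic closure in `ℂ` of the field generated by algebraically independent elements, see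
`setup` in `Field.lean`) is not only closed under quadratic equations (`EigClosed`) but algebraically closed (`RootClosed`: `z` is
algebraic over `Kf` = `algebraicClosure F ℂ`, hence over `F`).
The definitions `AbsOn`, `Ultra`, `wt` of `WCn` are literally the old ones, in another namespace: either copy the old files `Field.lean` (`setup`) and
`Northcott.lean` (`northcott`) into this file with the new definitions, or translate the structures.
-/

namespace WCn

open Polynomial
open Pool.Agent.MPc2b80f (sum_growth aeval_unit_ball norm_ratCast_padic finite_roots le_one_on_closure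
  absOf absOf_eq absOn_absOf ultra_absOf ext_root poly_growth scalePoly eval_scalePoly root_bound
  root_bound_ultra coeff_bound_arch coeff_bound_ultra const_of_scale const_of_growth countable_bad
  exists_padic)

private theorem Fin_new {K : Subfield ℂ} {N : ℂ → ℝ} (h : Pool.Agent.MPc2b80f.AbsOn K N) : AbsOn K N :=
  ⟨h.nonneg, h.zero, h.one, h.mul, h.add⟩

private theorem Fin_old {K : Subfield ℂ} {N : ℂ → ℝ} (h : AbsOn K N) : Pool.Agent.MPc2b80f.AbsOn K N :=
  ⟨h.nonneg, h.zero, h.one, h.mul, h.add⟩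

private theorem Fin_setup (A₀ : Finset ℂ) : ∃ (d : ℕ) (x : Fin d → ℂ) (K : Subfield ℂ) (D : ℕ)
    (P : ℂ → Polynomial (MvPolynomial (Fin d) ℚ)),
    Function.Injective (MvPolynomial.aeval x : MvPolynomial (Fin d) ℚ →ₐ[ℚ] ℂ) ∧
    (∀ a ∈ A₀, a ∈ K) ∧ RootClosed K ∧
    (∀ t ∈ Subring.closure (A₀ : Set ℂ), (P t).Monic ∧ (P t).natDegree ≤ D ∧
      (P t).eval₂ (MvPolynomial.aeval x : MvPolynomial (Fin d) ℚ →ₐ[ℚ] ℂ).toRingHom t = 0 ∧
      ∀ (L : Type) [NormedField L] [IsAlgClosed L] [Algebra ℚ L] (y : Fin d → L),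
        Function.Injective (MvPolynomial.aeval y : MvPolynomial (Fin d) ℚ →ₐ[ℚ] L) → ∀ r : L,
        (P t).eval₂ (MvPolynomial.aeval y : MvPolynomial (Fin d) ℚ →ₐ[ℚ] L).toRingHom r = 0 →
        ∃ N : ℂ → ℝ, AbsOn K N ∧ (IsNonarchimedean (norm : L → ℝ) → Ultra K N) ∧ N t = ‖r‖ ∧
          ∀ a ∈ A₀, ∃ s : L, N a = ‖s‖ ∧
            (P a).eval₂ (MvPolynomial.aeval y : MvPolynomial (Fin d) ℚ →ₐ[ℚ] L).toRingHom s
              = 0) := by
  classical
  let A : Subalgebra ℚ ℂ := Algebra.adjoin ℚ (A₀ : Set ℂ)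
  have : Algebra.FiniteType ℚ A := by
    rw [← Subalgebra.fg_iff_finiteType]
    exact ⟨A₀, rfl⟩
  obtain ⟨d, g, hginj, hgint⟩ := exists_integral_inj_algHom_of_fg ℚ A
  let x : Fin d → ℂ := fun i => (g (MvPolynomial.X i) : ℂ)
  have hx : (MvPolynomial.aeval x : MvPolynomial (Fin d) ℚ →ₐ[ℚ] ℂ) = A.val.comp g := by
    apply MvPolynomial.algHom_ext
    intro i
    simp [x]
  have hxinj : Function.Injective (MvPolynomial.aeval x : MvPolynomial (Fin d) ℚ →ₐ[ℚ] ℂ) := by
    rw [hx]
    exact (Subtype.val_injective).comp hginj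
  let algR : Algebra (MvPolynomial (Fin d) ℚ) ℂ :=
    (MvPolynomial.aeval x : MvPolynomial (Fin d) ℚ →ₐ[ℚ] ℂ).toRingHom.toAlgebra
  have hmapR : ∀ a, algebraMap (MvPolynomial (Fin d) ℚ) ℂ a = MvPolynomial.aeval x a :=
    fun a => rfl
  let F := FractionRing (MvPolynomial (Fin d) ℚ)
  let algF : Algebra F ℂ := (IsFractionRing.lift (K := F) (g := (MvPolynomial.aeval x :
    MvPolynomial (Fin d) ℚ →ₐ[ℚ] ℂ).toRingHom) hxinj).toAlgebra
  have tower : IsScalarTower (MvPolynomial (Fin d) ℚ) F ℂ := by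
    refine IsScalarTower.of_algebraMap_eq fun a => ?_
    exact (IsFractionRing.lift_algebraMap (K := F) (g := (MvPolynomial.aeval x :
      MvPolynomial (Fin d) ℚ →ₐ[ℚ] ℂ).toRingHom) hxinj a).symm
  -- elements of `A` are integral
  have hint : ∀ t ∈ A, IsIntegral (MvPolynomial (Fin d) ℚ) t := by
    intro t ht
    obtain ⟨p, hp, hpe⟩ := hgint ⟨t, ht⟩
    refine ⟨p, hp, ?_⟩
    have h1 := congrArg A.val hpe
    rw [map_zero] at h1
    rw [← h1]
    have : algebraMap (MvPolynomial (Fin d) ℚ) ℂ = A.val.toRingHom.comp g.toRingHom := by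
      ext a
      · simp
      · rw [hmapR, hx]
        rfl
    rw [this]
    exact (Polynomial.hom_eval₂ p g.toRingHom A.val.toRingHom ⟨t, ht⟩).symm
  let Kf : IntermediateField F ℂ := algebraicClosure F ℂ
  let K : Subfield ℂ := Kf.toSubfield
  have hAK : ∀ t ∈ A, t ∈ K := by
    intro t ht
    show t ∈ algebraicClosure F ℂ
    rw [mem_algebraicClosure_iff']
    exact (hint t ht).tower_top
  have hcl : ∀ t ∈ Subring.closure (A₀ : Set ℂ), t ∈ A := by
    intro t ht
    have : Subring.closure (A₀ : Set ℂ) ≤ A.toSubring := by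
      rw [Subring.closure_le]
      exact Algebra.subset_adjoin
    exact this ht
  have hA0 : ∀ a ∈ A₀, a ∈ A := fun a ha => Algebra.subset_adjoin ha
  -- finite field
  let E : IntermediateField F ℂ := IntermediateField.adjoin F (A₀ : Set ℂ)
  have hfin : FiniteDimensional F E := by
    refine IntermediateField.finiteDimensional_adjoin fun a ha => ?_
    exact (hint a (hA0 a ha)).tower_top
  have hAE : ∀ t ∈ A, t ∈ E := by
    intro t ht
    have hle : A ≤ (E.toSubalgebra.restrictScalars (MvPolynomial (Fin d) ℚ)).restrictScalars ℚ := by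
      refine Algebra.adjoin_le ?_
      intro a ha
      exact IntermediateField.subset_adjoin F _ ha
    exact hle ht
  refine ⟨d, x, K, Module.finrank F E, fun t => minpoly (MvPolynomial (Fin d) ℚ) t, hxinj,
    fun a ha => hAK a (hA0 a ha), ?_, ?_⟩
  · intro f hf hc z hz
    show z ∈ algebraicClosure F ℂ
    rw [mem_algebraicClosure_iff]
    have h1 : IsAlgebraic Kf z := by
      have h2 : f ∈ Polynomial.lifts (algebraMap Kf ℂ) := by
        rw [Polynomial.lifts_iff_coeff_lifts]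
        exact fun i => ⟨⟨f.coeff i, hc i⟩, rfl⟩
      obtain ⟨p, hp⟩ := (Polynomial.mem_lifts _).1 h2
      refine ⟨p, ?_, ?_⟩
      · rintro rfl
        rw [Polynomial.map_zero] at hp
        exact hf.ne_zero hp.symm
      · rw [Polynomial.aeval_def, Polynomial.eval₂_eq_eval_map, hp]
        exact hz
    have : Algebra.IsAlgebraic F Kf := algebraicClosure.isAlgebraic F ℂ
    exact h1.restrictScalars F
  · intro t ht
    have htA := hcl t ht
    have htK := hAK t htA
    refine ⟨minpoly.monic (hint t htA), ?_, ?_, ?_⟩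
    · have e1 : (minpoly (MvPolynomial (Fin d) ℚ) t).natDegree = (minpoly F t).natDegree := by
        rw [minpoly.isIntegrallyClosed_eq_field_fractions' F (hint t htA),
          (minpoly.monic (hint t htA)).natDegree_map]
      rw [e1]
      have e2 : minpoly F t = minpoly F (⟨t, hAE t htA⟩ : E) :=
        (minpoly.algebraMap_eq (algebraMap E ℂ).injective (⟨t, hAE t htA⟩ : E))
      rw [e2]
      exact minpoly.natDegree_le _
    · exact minpoly.aeval (MvPolynomial (Fin d) ℚ) t
    · intro L _ _ _ y hy r hr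
      have : Algebra.IsAlgebraic F Kf := algebraicClosure.isAlgebraic F ℂ
      have tower2 : IsScalarTower (MvPolynomial (Fin d) ℚ) Kf ℂ := by
        refine IsScalarTower.of_algebraMap_eq fun a => ?_
        have := IsScalarTower.algebraMap_apply (MvPolynomial (Fin d) ℚ) F Kf a
        rw [this]
        exact IsScalarTower.algebraMap_apply (MvPolynomial (Fin d) ℚ) F ℂ a
      have hintK : ∀ s (hs : s ∈ A), IsIntegral (MvPolynomial (Fin d) ℚ)
          (⟨s, hAK s hs⟩ : Kf) := by
        intro s hs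
        refine (isIntegral_algebraMap_iff (A := Kf) (B := ℂ) (algebraMap Kf ℂ).injective).1 ?_
        exact hint s hs
      have hminK : ∀ s (hs : s ∈ A), minpoly (MvPolynomial (Fin d) ℚ) (⟨s, hAK s hs⟩ : Kf) =
          minpoly (MvPolynomial (Fin d) ℚ) s := by
        intro s hs
        exact (minpoly.algebraMap_eq (algebraMap Kf ℂ).injective (⟨s, hAK s hs⟩ : Kf)).symm
      obtain ⟨φ, hφ1, hφ2⟩ := ext_root (MvPolynomial (Fin d) ℚ) F Kf (L := L)
        (MvPolynomial.aeval y : MvPolynomial (Fin d) ℚ →ₐ[ℚ] L).toRingHom hy (hintK t htA)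
        (r := r) (by rw [hminK t htA]; exact hr)
      let φ' : K →+* L := φ
      refine ⟨absOf K φ', Fin_new (absOn_absOf K φ'), ultra_absOf K φ', ?_, ?_⟩
      · rw [absOf_eq K φ' htK]
        congr 1
      · intro a ha
        refine ⟨φ' ⟨a, hAK a (hA0 a ha)⟩, absOf_eq K φ' _, ?_⟩
        have h1 : (minpoly (MvPolynomial (Fin d) ℚ) a).eval₂
            (algebraMap (MvPolynomial (Fin d) ℚ) Kf) (⟨a, hAK a (hA0 a ha)⟩ : Kf) = 0 := by
          rw [← hminK a (hA0 a ha)]
          exact minpoly.aeval (MvPolynomial (Fin d) ℚ) (⟨a, hAK a (hA0 a ha)⟩ : Kf)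
        have h2 := congrArg φ h1
        rw [map_zero, Polynomial.hom_eval₂] at h2
        have h3 : φ.comp (algebraMap (MvPolynomial (Fin d) ℚ) Kf) =
            (MvPolynomial.aeval y : MvPolynomial (Fin d) ℚ →ₐ[ℚ] L).toRingHom :=
          RingHom.ext hφ1
        rw [h3] at h2
        exact h2

theorem northcottB (A₀ : Finset ℂ) : ∃ K : Subfield ℂ, (∀ a ∈ A₀, a ∈ K) ∧ RootClosed K ∧
    ∀ C₀ B₀ : ℝ, 0 ≤ C₀ → 1 ≤ B₀ → ∃ δ > 0, {t : ℂ | t ∈ Subring.closure (A₀ : Set ℂ) ∧
      (∀ N, AbsOn K N → N t ≤ B₀ * Real.exp (δ * (C₀ * Real.log (1 + wt A₀ N)))) ∧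
      (∀ N, AbsOn K N → Ultra K N →
        N t ≤ Real.exp (δ * (C₀ * Real.log (1 + wt A₀ N))))}.Finite := by
  classical
  obtain ⟨d, x, K, D, P, hx, hA, hE, hP⟩ := Fin_setup A₀
  refine ⟨K, hA, hE, fun C₀ B₀ hC₀ hB₀ => ?_⟩
  have hAcl : ∀ a ∈ A₀, a ∈ Subring.closure (A₀ : Set ℂ) := fun a ha =>
    Subring.subset_closure ha
  -- archimedean growth of the generators
  have hgr : ∀ a : ℂ, ∃ (C : ℝ) (B : ℕ), 1 ≤ C ∧ ∀ z : ℂ,
      1 + ∑ j ∈ Finset.range (P a).natDegree,
        ‖(scalePoly x ((P a).coeff j)).eval z‖ ≤ C * (1 + ‖z‖) ^ B :=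
    fun a => sum_growth _ _
  choose Ca Ba hCa hCaB using hgr
  set C1 : ℝ := ∑ a ∈ A₀, Ca a with hC1
  set B1 : ℕ := ∑ a ∈ A₀, Ba a with hB1
  have hC1a : ∀ a ∈ A₀, Ca a ≤ C1 := fun a ha =>
    Finset.single_le_sum (f := Ca) (fun i _ => by linarith [hCa i]) ha
  have hB1a : ∀ a ∈ A₀, Ba a ≤ B1 := fun a ha =>
    Finset.single_le_sum (f := Ba) (fun i _ => Nat.zero_le _) ha
  have hC10 : 0 ≤ C1 := Finset.sum_nonneg fun i _ => by linarith [hCa i]
  set C2 : ℝ := 3 + 4 * (A₀.card * C1) with hC2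
  have hC21 : 1 ≤ C2 := by
    have : (0 : ℝ) ≤ A₀.card * C1 := by positivity
    linarith
  -- p-adic points
  have hpad : ∀ p : ℕ, ∃ Wp : ℝ, 0 ≤ Wp ∧ ∀ (hp : Fact p.Prime),
      ∃ y : Fin d → PadicAlgCl p, (∀ i, ‖y i‖ ≤ 1) ∧
        Function.Injective (MvPolynomial.aeval y : MvPolynomial (Fin d) ℚ →ₐ[ℚ] PadicAlgCl p) ∧
        ∀ a ∈ A₀, ∀ s : PadicAlgCl p, (P a).eval₂ (MvPolynomial.aeval y :
          MvPolynomial (Fin d) ℚ →ₐ[ℚ] PadicAlgCl p).toRingHom s = 0 → ‖s‖ ≤ Wp := by
    intro p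
    by_cases hp : p.Prime
    · have : Fact p.Prime := ⟨hp⟩
      obtain ⟨y, hy1, hy2⟩ := exists_padic p d
      refine ⟨∑ a ∈ A₀, (1 + ∑ j ∈ Finset.range (P a).natDegree,
        ‖(MvPolynomial.aeval y : MvPolynomial (Fin d) ℚ →ₐ[ℚ] PadicAlgCl p).toRingHom
          ((P a).coeff j)‖), ?_, fun _ => ⟨y, hy1, hy2, fun a ha s hs => ?_⟩⟩
      · exact Finset.sum_nonneg fun a _ => by positivity
      · refine (root_bound (hP a (hAcl a ha)).1 _ hs).trans ?_
        exact Finset.single_le_sum (f := fun a => (1 + ∑ j ∈ Finset.range (P a).natDegree,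
          ‖(MvPolynomial.aeval y : MvPolynomial (Fin d) ℚ →ₐ[ℚ] PadicAlgCl p).toRingHom
          ((P a).coeff j)‖)) (fun a _ => by positivity) ha
    · exact ⟨0, le_rfl, fun h => absurd h.out hp⟩
  choose Wp hWp0 hWp using hpad
  -- the bad primes
  set m₀ : ℕ := ∏ a ∈ A₀, ∏ j ∈ Finset.range ((P a).natDegree + 1),
    ∏ m ∈ ((P a).coeff j).support, (((P a).coeff j).coeff m).den with hm₀
  have hm₀0 : m₀ ≠ 0 := by
    rw [hm₀, Finset.prod_ne_zero_iff]
    intro a _
    rw [Finset.prod_ne_zero_iff]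
    intro j _
    rw [Finset.prod_ne_zero_iff]
    intro m _
    exact Rat.den_ne_zero _
  -- the constant
  set E1 : ℝ := C₀ * Real.log C2 with hE1
  set E2 : ℝ := C₀ * B1 * D with hE2
  set E3 : ℕ → ℝ := fun p => C₀ * Real.log (1 + (2 + 4 * (A₀.card * Wp p))) * D with hE3
  have hE1n : 0 ≤ E1 := mul_nonneg hC₀ (Real.log_nonneg hC21)
  have hE2n : 0 ≤ E2 := by positivity
  have hlogp : ∀ p, 0 ≤ Real.log (1 + (2 + 4 * (A₀.card * Wp p))) := fun p => by
    refine Real.log_nonneg ?_
    have : (0 : ℝ) ≤ A₀.card * Wp p := mul_nonneg (Nat.cast_nonneg _) (hWp0 p)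
    linarith
  have hE3n : ∀ p, 0 ≤ E3 p := fun p =>
    mul_nonneg (mul_nonneg hC₀ (hlogp p)) (Nat.cast_nonneg _)
  set E : ℝ := E1 + E2 + ∑ p ∈ m₀.primeFactors, E3 p with hEdef
  have hE3s : 0 ≤ ∑ p ∈ m₀.primeFactors, E3 p := Finset.sum_nonneg fun p _ => hE3n p
  have hEn : 0 ≤ E := by positivity
  set δ : ℝ := 1 / (2 * (E + 1)) with hδ
  have hδ0 : 0 < δ := by positivity
  have hδE : ∀ z : ℝ, z ≤ E → δ * z ≤ 1 / 2 := by
    intro z hz
    rw [hδ, div_mul_eq_mul_div, one_mul, div_le_div_iff₀ (by positivity) (by norm_num)]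
    linarith
  refine ⟨δ, hδ0, ?_⟩
  have hB₀' : 0 ≤ B₀ := zero_le_one.trans hB₀
  set C3 : ℝ := (B₀ * Real.exp 1) ^ D * (D.choose (D / 2)) with hC3
  have hC30 : 0 ≤ C3 := by positivity
  obtain ⟨M, hM⟩ := exists_nat_ge (C3 * 2 ^ (1 / 2 : ℝ))
  refine (finite_roots D M).subset ?_
  rintro t ⟨ht, harch, hultra⟩
  obtain ⟨hmon, hdeg, hroot, hext⟩ := hP t ht
  -- archimedean bound of the coefficients along the scaling line
  have hcoef : ∀ j, ∀ z ∈ {z : ℂ | Function.Injective (MvPolynomial.aeval (fun i => x i * z) :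
      MvPolynomial (Fin d) ℚ →ₐ[ℚ] ℂ)},
      ‖(scalePoly x ((P t).coeff j)).eval z‖ ≤ C3 * (1 + ‖z‖) ^ (1 / 2 : ℝ) := by
    intro j z hz
    have hz1 : 1 ≤ 1 + ‖z‖ := by linarith [norm_nonneg z]
    have hz0 : 0 < 1 + ‖z‖ := by linarith
    set Bz : ℝ := B₀ * (Real.exp 1 * (1 + ‖z‖) ^ (δ * (C₀ * B1))) with hBz
    have he1 : 1 ≤ Real.exp 1 := Real.one_le_exp zero_le_one
    have hp1 : 1 ≤ (1 + ‖z‖) ^ (δ * (C₀ * B1)) := Real.one_le_rpow hz1 (by positivity)
    have hBz1 : 1 ≤ Bz := one_le_mul_of_one_le_of_one_le hB₀ (one_le_mul_of_one_le_of_one_le he1 hp1)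
    have hb := coeff_bound_arch hBz1 hmon (MvPolynomial.aeval (fun i => x i * z) :
      MvPolynomial (Fin d) ℚ →ₐ[ℚ] ℂ).toRingHom D hdeg (fun r hr => ?_) j
    · rw [eval_scalePoly]
      refine hb.trans ?_
      have h1 : Bz ^ D = (B₀ * Real.exp 1) ^ D * ((1 + ‖z‖) ^ (δ * (C₀ * B1))) ^ D := by
        rw [hBz, ← mul_assoc, mul_pow]
      have h2 : ((1 + ‖z‖) ^ (δ * (C₀ * B1))) ^ D ≤ (1 + ‖z‖) ^ (1 / 2 : ℝ) := by
        rw [← Real.rpow_natCast, ← Real.rpow_mul hz0.le]
        refine Real.rpow_le_rpow_of_exponent_le hz1 ?_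
        have := hδE E2 (by linarith)
        rw [hE2] at this
        linarith [this, mul_assoc δ (C₀ * B1) (D : ℝ)]
      rw [h1, hC3]
      calc (B₀ * Real.exp 1) ^ D * ((1 + ‖z‖) ^ (δ * (C₀ * B1))) ^ D * (D.choose (D / 2) : ℝ)
          ≤ (B₀ * Real.exp 1) ^ D * (1 + ‖z‖) ^ (1 / 2 : ℝ) * (D.choose (D / 2) : ℝ) := by
            gcongr
        _ = _ := by ring
    · obtain ⟨N, hN, -, hNt, hNa⟩ := hext ℂ (fun i => x i * z) hz r hr
      rw [← hNt]
      refine (harch N hN).trans ?_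
      rw [hBz]
      refine mul_le_mul_of_nonneg_left ?_ (zero_le_one.trans hB₀)
      have hNa1 : ∀ a ∈ A₀, N a ≤ C1 * (1 + ‖z‖) ^ B1 := by
        intro a ha
        obtain ⟨s, hs1, hs2⟩ := hNa a ha
        rw [hs1]
        refine (root_bound (hP a (hAcl a ha)).1 _ hs2).trans ?_
        have h3 := hCaB a z
        have h4 : 1 + ∑ j ∈ Finset.range (P a).natDegree,
            ‖(MvPolynomial.aeval (fun i => x i * z) : MvPolynomial (Fin d) ℚ →ₐ[ℚ] ℂ).toRingHom
              ((P a).coeff j)‖ = 1 + ∑ j ∈ Finset.range (P a).natDegree,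
            ‖(scalePoly x ((P a).coeff j)).eval z‖ := by
          congr 1
          refine Finset.sum_congr rfl fun j _ => ?_
          rw [eval_scalePoly]
          rfl
        rw [h4]
        refine h3.trans ?_
        exact mul_le_mul (hC1a a ha) (pow_le_pow_right₀ hz1 (hB1a a ha)) (by positivity) hC10
      have hwt : 1 + wt A₀ N ≤ C2 * (1 + ‖z‖) ^ B1 := by
        rw [wt]
        have h5 : ∑ a ∈ A₀, N a ≤ A₀.card * (C1 * (1 + ‖z‖) ^ B1) := by
          have := Finset.sum_le_card_nsmul A₀ N _ hNa1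
          rwa [nsmul_eq_mul] at this
        have h6 : (1 : ℝ) ≤ (1 + ‖z‖) ^ B1 := one_le_pow₀ hz1
        rw [hC2, add_mul]
        nlinarith
      have hwt0 : 0 < 1 + wt A₀ N := by
        rw [wt]
        have := Finset.sum_nonneg fun a (_ : a ∈ A₀) => hN.nonneg a
        linarith
      have hlog : Real.log (1 + wt A₀ N) ≤ Real.log C2 + B1 * Real.log (1 + ‖z‖) := by
        refine (Real.log_le_log hwt0 hwt).trans (le_of_eq ?_)
        rw [Real.log_mul (by linarith) (by positivity), Real.log_pow]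
      calc Real.exp (δ * (C₀ * Real.log (1 + wt A₀ N)))
          ≤ Real.exp (δ * (C₀ * (Real.log C2 + B1 * Real.log (1 + ‖z‖)))) := by
            refine Real.exp_le_exp.2 ?_
            exact mul_le_mul_of_nonneg_left (mul_le_mul_of_nonneg_left hlog hC₀) hδ0.le
        _ = Real.exp (δ * E1) * (1 + ‖z‖) ^ (δ * (C₀ * B1)) := by
            rw [Real.rpow_def_of_pos hz0, ← Real.exp_add, hE1]
            congr 1
            ring
        _ ≤ Real.exp 1 * (1 + ‖z‖) ^ (δ * (C₀ * B1)) := by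
            refine mul_le_mul_of_nonneg_right (Real.exp_le_exp.2 ?_) (by positivity)
            have := hδE E1 (by linarith)
            linarith
  -- hence the coefficients are rational constants
  have hconst : ∀ j, (P t).coeff j =
      MvPolynomial.C (MvPolynomial.constantCoeff ((P t).coeff j)) := fun j =>
    const_of_scale x hx _ (const_of_growth _ (countable_bad x hx) (hcoef j))
  set q : ℕ → ℚ := fun j => MvPolynomial.constantCoeff ((P t).coeff j) with hq
  -- the rational constants are integers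
  have hden : ∀ j, (q j).den = 1 := by
    intro j
    by_contra hne
    obtain ⟨p, hp, hpd⟩ := Nat.exists_prime_and_dvd hne
    have : Fact p.Prime := ⟨hp⟩
    obtain ⟨y, hy1, hy2, hy3⟩ := hWp p ⟨hp⟩
    have hval : ‖(MvPolynomial.aeval y : MvPolynomial (Fin d) ℚ →ₐ[ℚ] PadicAlgCl p).toRingHom
        ((P t).coeff j)‖ = ‖algebraMap ℚ (PadicAlgCl p) (q j)‖ := by
      rw [hconst j]
      congr 1
      exact MvPolynomial.aeval_C _ _
    refine norm_ratCast_padic (p := p) (q j) ?_ hpd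
    rw [← hval]
    by_cases hbad : p ∈ m₀.primeFactors
    · -- bad prime
      set θ : ℝ := δ * (C₀ * Real.log (1 + (2 + 4 * (A₀.card * Wp p)))) with hθ
      have hθ0 : 0 ≤ θ := mul_nonneg hδ0.le (mul_nonneg hC₀ (hlogp p))
      have hb := coeff_bound_ultra (PadicAlgCl.isNonarchimedean p) (Real.one_le_exp hθ0) hmon
        (MvPolynomial.aeval y : MvPolynomial (Fin d) ℚ →ₐ[ℚ] PadicAlgCl p).toRingHom D hdeg
        (fun r hr => ?_) j
      · refine lt_of_le_of_lt hb ?_
        rw [← Real.exp_nat_mul]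
        have h1 : (D : ℝ) * θ ≤ 1 / 2 := by
          have h2 : E3 p ≤ E := by
            have := Finset.single_le_sum (f := E3) (fun i _ => hE3n i) hbad
            linarith
          have h3 := hδE (E3 p) h2
          rw [hE3] at h3
          rw [hθ]
          calc (D : ℝ) * (δ * (C₀ * Real.log (1 + (2 + 4 * (A₀.card * Wp p)))))
              = δ * (C₀ * Real.log (1 + (2 + 4 * (A₀.card * Wp p))) * D) := by ring
            _ ≤ 1 / 2 := h3
        have h4 : Real.exp (D * θ) ≤ Real.exp (1 / 2) := Real.exp_le_exp.2 h1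
        refine lt_of_le_of_lt h4 ?_
        have h5 : Real.exp (1 / 2) * Real.exp (1 / 2) = Real.exp 1 := by
          rw [← Real.exp_add]
          norm_num
        have h6 := Real.exp_one_lt_d9
        have h7 := Real.exp_pos (1 / 2)
        nlinarith
      · obtain ⟨N, hN, hNU, hNt, hNa⟩ := hext (PadicAlgCl p) y hy2 r hr
        rw [← hNt]
        refine (hultra N hN (hNU (PadicAlgCl.isNonarchimedean p))).trans ?_
        refine Real.exp_le_exp.2 ?_
        rw [hθ]
        refine mul_le_mul_of_nonneg_left (mul_le_mul_of_nonneg_left ?_ hC₀) hδ0.le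
        have hwt0 : 0 < 1 + wt A₀ N := by
          rw [wt]
          have := Finset.sum_nonneg fun a (_ : a ∈ A₀) => hN.nonneg a
          linarith
        refine Real.log_le_log hwt0 ?_
        rw [wt]
        have h5 : ∑ a ∈ A₀, N a ≤ A₀.card * Wp p := by
          have := Finset.sum_le_card_nsmul A₀ N (Wp p) (fun a ha => by
            obtain ⟨s, hs1, hs2⟩ := hNa a ha
            rw [hs1]
            exact hy3 a ha s hs2)
          rwa [nsmul_eq_mul] at this
        linarith
    · -- good prime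
      have hgood : ∀ a ∈ A₀, ∀ j, ‖(MvPolynomial.aeval y : MvPolynomial (Fin d) ℚ →ₐ[ℚ]
          PadicAlgCl p).toRingHom ((P a).coeff j)‖ ≤ 1 := by
        intro a ha j
        refine aeval_unit_ball hy1 _ fun m hm hdvd => hbad ?_
        rw [Nat.mem_primeFactors]
        refine ⟨hp, ?_, hm₀0⟩
        by_cases hj : j ∈ Finset.range ((P a).natDegree + 1)
        · refine hdvd.trans ?_
          rw [hm₀]
          refine dvd_trans ?_ (Finset.dvd_prod_of_mem _ ha)
          refine dvd_trans ?_ (Finset.dvd_prod_of_mem _ hj)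
          exact Finset.dvd_prod_of_mem (fun m => (((P a).coeff j).coeff m).den) hm
        · exfalso
          rw [Finset.mem_range, not_lt] at hj
          have h0 : (P a).coeff j = 0 := coeff_eq_zero_of_natDegree_lt (by omega)
          rw [h0] at hm
          simp at hm
      have hb := coeff_bound_ultra (PadicAlgCl.isNonarchimedean p) le_rfl hmon
        (MvPolynomial.aeval y : MvPolynomial (Fin d) ℚ →ₐ[ℚ] PadicAlgCl p).toRingHom D hdeg
        (fun r hr => ?_) j
      · rw [one_pow] at hb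
        linarith
      · obtain ⟨N, hN, hNU, hNt, hNa⟩ := hext (PadicAlgCl p) y hy2 r hr
        rw [← hNt]
        refine (le_one_on_closure (Fin_old hN) (hNU (PadicAlgCl.isNonarchimedean p)) hA ?_ ht).2
        intro a ha
        obtain ⟨s, hs1, hs2⟩ := hNa a ha
        rw [hs1]
        exact root_bound_ultra (PadicAlgCl.isNonarchimedean p) (hP a (hAcl a ha)).1 _
          (hgood a ha) hs2
  -- conclusion
  have hmap : ∀ j, ((P t).map (MvPolynomial.aeval x :
      MvPolynomial (Fin d) ℚ →ₐ[ℚ] ℂ).toRingHom).coeff j = ((q j : ℚ) : ℂ) := by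
    intro j
    rw [coeff_map, hconst j]
    exact MvPolynomial.aeval_C _ _
  refine ⟨(P t).map (MvPolynomial.aeval x : MvPolynomial (Fin d) ℚ →ₐ[ℚ] ℂ).toRingHom,
    hmon.map _, ?_, fun j => ?_, ?_⟩
  · rw [hmon.natDegree_map]
    exact hdeg
  · have hqn : (q j : ℚ) = ((q j).num : ℚ) := by
      conv_lhs => rw [← Rat.num_div_den (q j), hden j]
      simp
    refine ⟨(q j).num, ?_, ?_⟩
    · have h1 := hcoef j 1 (by
        show Function.Injective _
        simpa using hx)
      rw [eval_scalePoly] at h1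
      have h2 : (MvPolynomial.aeval (fun i => x i * 1) : MvPolynomial (Fin d) ℚ →ₐ[ℚ] ℂ)
          ((P t).coeff j) = (((q j).num : ℤ) : ℂ) := by
        rw [hconst j, MvPolynomial.aeval_C]
        show ((q j : ℚ) : ℂ) = _
        rw [hqn]
        simp
      rw [h2] at h1
      have h3 : ‖(((q j).num : ℤ) : ℂ)‖ = ((|(q j).num| : ℤ) : ℝ) := by
        rw [Complex.norm_intCast, Int.cast_abs]
      rw [h3] at h1
      have h4 : (1 + ‖(1 : ℂ)‖) = (2 : ℝ) := by norm_num
      rw [h4] at h1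
      have h5 := h1.trans hM
      exact_mod_cast h5
    · rw [hmap j, hqn]
      simp
  · rw [eval_map]
    exact hroot

end WCn
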