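import Pool.Agent.Lib.MP_c2b80f_alC.FormDefs

/-!
# Lifting weak commensurability to `SL_n` (job FormA)
-/

open Matrix

namespace WCn

variable {n d : ℕ}

private theorem formA_aux {g g' : SLC n} (h : (QuotientGroup.mk g' : Pts n d) = QuotientGroup.mk g)
    {p : GL (Fin n) ℂ} {t : Fin n → ℂˣ} (hD : DiagBy g' p t) :
    ∃ ζ : ℂˣ, ζ ^ d = 1 ∧ DiagBy g p (fun i => ζ * t i) := by
  obtain ⟨ζ, hζ, hz⟩ := QuotientGroup.eq.1 h
  refine ⟨ζ, hζ, ?_⟩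
  have h1 : g.1 = g'.1 * (g'⁻¹ * g).1 := by
    rw [← Matrix.SpecialLinearGroup.coe_mul, mul_inv_cancel_left]
  have h2 : (Matrix.diagonal (fun i => ((ζ * t i : ℂˣ) : ℂ)) : Matrix (Fin n) (Fin n) ℂ) =
      (ζ : ℂ) • Matrix.diagonal (fun i => (t i : ℂ)) := by
    rw [← Matrix.diagonal_smul]
    congr 1
  unfold DiagBy at hD ⊢
  rw [h1, hz, hD, h2, Matrix.mul_smul, Matrix.mul_one, Matrix.mul_smul, Matrix.smul_mul]

/-- If `x` is the image of `g` and `c` is a character value at `x`, then `c` is a character value at `g` itself: `x` is also the image of `g' = p diag(t) p⁻¹`, `g' = ζ g` (or `g = ζ g'`) with `ζ ^ d = 1`, so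
`g = p diag(ζ' t) p⁻¹` with `ζ' ^ d = 1` and `∏ (ζ' t i) ^ a i = ζ' ^ (∑ a) c = c`. -/
theorem charVal_lift (g : SLC n) (c : ℂˣ) (h : CharVal (QuotientGroup.mk g : Pts n d) c) :
    ∃ (p : GL (Fin n) ℂ) (t : Fin n → ℂˣ) (a : Fin n → ℤ), DiagBy g p t ∧ c = ∏ i, t i ^ a i := by
  obtain ⟨g', p, t, a, hg, hD, hχ, hc⟩ := h
  obtain ⟨ζ, hζ, hD'⟩ := formA_aux hg hD
  refine ⟨p, _, a, hD', ?_⟩
  have h1 : ∏ i, (ζ * t i) ^ a i = (∏ i, ζ ^ a i) * ∏ i, t i ^ a i := by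
    rw [← Finset.prod_mul_distrib]
    exact Finset.prod_congr rfl fun i _ => _root_.mul_zpow _ _ _
  have h2 : ∏ i, ζ ^ a i = ζ ^ (∑ i, a i) := by
    have h3 := map_sum (zpowersHom ℂˣ ζ).toAdditiveRight a Finset.univ
    exact Eq.symm h3
  rw [h1, h2, hχ ζ hζ, one_mul, hc]

/-- Consequence for both factors. -/
theorem wComm_lift {m e : ℕ} (g : SLC n) (h : SLC m) (w : WCommP (QuotientGroup.mk g : Pts n d) (QuotientGroup.mk h : Pts m e)) :
    WComm g h := by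
  obtain ⟨c, h1, h2, hc⟩ := w
  obtain ⟨p, t, a, hD, ha⟩ := charVal_lift g c h1
  obtain ⟨q, s, b, hE, hb⟩ := charVal_lift h c h2
  exact ⟨p, t, q, s, a, b, hD, hE, ha.symm.trans hb, fun h3 => hc (ha.trans h3)⟩

/-- If the image of `g` is semisimple, so is `g`. -/
theorem isSs_lift (g : SLC n) (h : IsSsP (QuotientGroup.mk g : Pts n d)) : IsSs g := by
  obtain ⟨g', hg, p, t, hD⟩ := h
  obtain ⟨ζ, -, hD'⟩ := formA_aux hg hD
  exact ⟨p, _, hD'⟩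

theorem isSsP_mk (g : SLC n) (h : IsSs g) : IsSsP (QuotientGroup.mk g : Pts n d) := ⟨g, rfl, h⟩

end WCn
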