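import Pool.Agent.Lib.MP_c2b80f_alC.FormDefs

/-!
# The quotient map `SL_n → SL_n / μ_d` (job FormB)
-/

open Matrix

namespace WCn

variable {n d : ℕ}

/-- For `d ≥ 1` the group `muS n d` is finite (`n ≥ 1`: an injection into the roots of `X ^ d - 1`; `n = 0`: the group `SL_0` is trivial). -/
theorem muS_finite (hd : 0 < d) : Finite (muS n d) := by
  have : NeZero d := ⟨hd.ne'⟩
  have hex : ∀ g : muS n d, ∃ ζ : ℂˣ, ζ ^ d = 1 ∧ g.1.1 = (ζ : ℂ) • (1 : Matrix (Fin n) (Fin n) ℂ) :=
    fun g => g.2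
  choose ζ hζ hg using hex
  refine Finite.of_injective (fun g => (⟨ζ g, (mem_rootsOfUnity d (ζ g)).mpr (hζ g)⟩ : rootsOfUnity d ℂ)) ?_
  intro g h hgh
  have h1 : ζ g = ζ h := congrArg Subtype.val hgh
  apply Subtype.ext
  apply Subtype.ext
  rw [hg g, hg h, h1]

/-- `g` has finite order if its image has. -/
theorem finOrder_of_mk (hd : 0 < d) (g : SLC n) (h : IsOfFinOrder (QuotientGroup.mk g : Pts n d)) : IsOfFinOrder g := by
  have := muS_finite (n := n) hd
  obtain ⟨k, hk, hk1⟩ := isOfFinOrder_iff_pow_eq_one.mp h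
  have h1 : g ^ k ∈ muS n d := by
    rw [← QuotientGroup.eq_one_iff, QuotientGroup.mk_pow]
    exact hk1
  obtain ⟨l, hl, hl1⟩ := isOfFinOrder_iff_pow_eq_one.mp (isOfFinOrder_of_finite (⟨g ^ k, h1⟩ : muS n d))
  rw [isOfFinOrder_iff_pow_eq_one]
  refine ⟨k * l, Nat.mul_pos hk hl, ?_⟩
  have h2 := congrArg Subtype.val hl1
  rw [Subgroup.coe_pow, Subgroup.coe_one] at h2
  rw [pow_mul]
  exact h2

/-- The image of an element of finite order has finite order. -/
theorem finOrder_mk (g : SLC n) (h : IsOfFinOrder g) : IsOfFinOrder (QuotientGroup.mk g : Pts n d) :=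
  MonoidHom.isOfFinOrder (QuotientGroup.mk' (muS n d)) h

/-- The preimage of a finitely generated group is finitely generated: lifts of generators and the finite kernel. -/
theorem up_fg (hd : 0 < d) (Γ : Subgroup (Pts n d)) (h : Γ.FG) : (up Γ).FG := by
  have := muS_finite (n := n) hd
  obtain ⟨S, hS, hfin⟩ := (Subgroup.fg_iff _).mp h
  have hsurj : Function.Surjective (QuotientGroup.mk' (muS n d)) := QuotientGroup.mk'_surjective _
  choose lift hlift using hsurj
  rw [Subgroup.fg_iff]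
  refine ⟨lift '' S ∪ (muS n d : Set (SLC n)), ?_, (hfin.image lift).union (Set.toFinite _)⟩
  apply le_antisymm
  · rw [Subgroup.closure_le]
    rintro g (⟨x, hx, rfl⟩ | hg)
    · change QuotientGroup.mk' (muS n d) (lift x) ∈ Γ
      rw [hlift, ← hS]
      exact Subgroup.subset_closure hx
    · change QuotientGroup.mk' (muS n d) g ∈ Γ
      have h1 : QuotientGroup.mk' (muS n d) g = 1 := (QuotientGroup.eq_one_iff g).mpr hg
      rw [h1]
      exact Γ.one_mem
  · intro g hg
    have h1 : QuotientGroup.mk' (muS n d) g ∈ Γ := hg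
    have h2 : Γ ≤ (Subgroup.closure (lift '' S ∪ (muS n d : Set (SLC n)))).map (QuotientGroup.mk' (muS n d)) := by
      rw [← hS, Subgroup.closure_le]
      intro x hx
      exact ⟨lift x, Subgroup.subset_closure (Or.inl ⟨x, hx, rfl⟩), hlift x⟩
    obtain ⟨k, hk, hkg⟩ := h2 h1
    have h3 : k⁻¹ * g ∈ muS n d := QuotientGroup.eq.mp hkg
    have h4 : g = k * (k⁻¹ * g) := by rw [mul_inv_cancel_left]
    rw [h4]
    exact Subgroup.mul_mem _ hk (Subgroup.subset_closure (Or.inr h3))

/-- `Γ` is discrete if its preimage is: let `U` be an open neighbourhood of `1` in `SL_n(ℂ)` meeting `up Γ` only in `1`; its image is open (`QuotientGroup.isOpenMap_coe`) and meets `Γ` only in `1`. -/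
theorem discrete_of_up (Γ : Subgroup (Pts n d)) (h : DiscreteTopology (up Γ)) : DiscreteTopology Γ := by
  have h1 : IsOpen ({1} : Set (up Γ)) := isOpen_discrete _
  obtain ⟨U, hU, hUe⟩ := isOpen_induced_iff.mp h1
  have h1U : (1 : SLC n) ∈ U := by
    have : (1 : up Γ) ∈ Subtype.val ⁻¹' U := by rw [hUe]; exact Set.mem_singleton _
    exact this
  apply discreteTopology_of_isOpen_singleton_one
  rw [isOpen_induced_iff]
  refine ⟨(QuotientGroup.mk : SLC n → Pts n d) '' U, QuotientGroup.isOpenMap_coe U hU, ?_⟩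
  apply Set.eq_singleton_iff_unique_mem.mpr
  constructor
  · exact ⟨1, h1U, rfl⟩
  · rintro ⟨x, hx⟩ ⟨g, hg, hgx⟩
    have hgx' : (QuotientGroup.mk g : Pts n d) = x := hgx
    have h2 : g ∈ up Γ := by
      change (QuotientGroup.mk g : Pts n d) ∈ Γ
      rw [hgx']; exact hx
    have h3 : (⟨g, h2⟩ : up Γ) ∈ Subtype.val ⁻¹' U := hg
    rw [hUe, Set.mem_singleton_iff] at h3
    have h4 : g = 1 := congrArg Subtype.val h3
    apply Subtype.ext
    change x = 1
    rw [← hgx', h4]
    rfl

end WCn
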