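import Pool.Agent.Lib.MP_c2b80f_alC.Defs

/-!
# The groups of type `A_{n-1}` over `ℂ`: `SL_n / μ_d`, `d ∣ n`
-/

open Matrix

namespace WCn

/-- The group `μ_d` of the scalar matrices `ζ`, `ζ ^ d = 1`, in `SL_n(ℂ)`. -/
def muS (n d : ℕ) : Subgroup (SLC n) where
  carrier := {g | ∃ ζ : ℂˣ, ζ ^ d = 1 ∧ g.1 = (ζ : ℂ) • (1 : Matrix (Fin n) (Fin n) ℂ)}
  mul_mem' := by
    rintro g h ⟨ζ, hζ, hg⟩ ⟨η, hη, hh⟩
    refine ⟨ζ * η, by rw [mul_pow, hζ, hη, one_mul], ?_⟩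
    rw [Matrix.SpecialLinearGroup.coe_mul, hg, hh, Units.val_mul, Matrix.smul_mul, Matrix.one_mul, smul_smul]
  one_mem' := ⟨1, one_pow _, by simp⟩
  inv_mem' := by
    rintro g ⟨ζ, hζ, hg⟩
    refine ⟨ζ⁻¹, by rw [inv_pow, hζ, inv_one], ?_⟩
    have h1 : (g * g⁻¹).1 = 1 := by rw [mul_inv_cancel]; rfl
    rw [Matrix.SpecialLinearGroup.coe_mul, hg, Matrix.smul_mul, Matrix.one_mul] at h1
    have h2 : ((ζ⁻¹ : ℂˣ) : ℂ) • ((ζ : ℂ) • (g⁻¹).1) = ((ζ⁻¹ : ℂˣ) : ℂ) • (1 : Matrix (Fin n) (Fin n) ℂ) := by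
      rw [h1]
    rw [smul_smul, Units.inv_mul, one_smul] at h2
    exact h2

instance (n d : ℕ) : (muS n d).Normal where
  conj_mem := by
    rintro g ⟨ζ, hζ, hg⟩ h
    refine ⟨ζ, hζ, ?_⟩
    rw [Matrix.SpecialLinearGroup.coe_mul, Matrix.SpecialLinearGroup.coe_mul, hg, Matrix.mul_smul, Matrix.mul_one,
      Matrix.smul_mul, ← Matrix.SpecialLinearGroup.coe_mul, mul_inv_cancel]
    rfl

/-- The complex points of `SL_n / μ_d`, with the quotient topology. For `d ∣ n` these are the connected almost simple algebraic groups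
of type `A_{n-1}` over `ℂ` (`d = 1`: `SL_n`, `d = n`: `PGL_n`). -/
abbrev Pts (n d : ℕ) : Type := SLC n ⧸ muS n d

/-- `c` is the value at `x ∈ SL_n / μ_d` of a character of a maximal torus containing `x`: the characters of the image in `SL_n / μ_d` of the torus `p D p⁻¹` are the
`p diag(t) p⁻¹ ↦ ∏ t i ^ a i` which are trivial on `μ_d`. -/
def CharVal {n d : ℕ} (x : Pts n d) (c : ℂˣ) : Prop :=
  ∃ (g : SLC n) (p : GL (Fin n) ℂ) (t : Fin n → ℂˣ) (a : Fin n → ℤ), (QuotientGroup.mk g : Pts n d) = x ∧ DiagBy g p t ∧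
    (∀ ζ : ℂˣ, ζ ^ d = 1 → ζ ^ (∑ i, a i) = 1) ∧ c = ∏ i, t i ^ a i

/-- `x` is semisimple. -/
def IsSsP {n d : ℕ} (x : Pts n d) : Prop := ∃ g : SLC n, (QuotientGroup.mk g : Pts n d) = x ∧ IsSs g

/-- Weak commensurability of elements. -/
def WCommP {n d m e : ℕ} (x : Pts n d) (y : Pts m e) : Prop := ∃ c : ℂˣ, CharVal x c ∧ CharVal y c ∧ c ≠ 1

/-- The preimage in `SL_n(ℂ)`. -/
def up {n d : ℕ} (Γ : Subgroup (Pts n d)) : Subgroup (SLC n) := Γ.comap (QuotientGroup.mk' (muS n d))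

end WCn
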