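import Pool.Agent.Lib.MP_c2b80f_alC.GenB
import Pool.Agent.Lib.MP_c2b80f_alC.CartB
import Pool.Agent.Lib.MP_c2b80f_alC.CartN

/-!
# Generic elements close to the identity (job GenC)
-/

open Matrix

namespace WCn

variable {m : ℕ}

/-- `generic_core` for `G = Γ` with the induced topology, `ψ` the inclusion. For `h0`: given `s`, let `ε` be the minimum of the numbers of `near_mem_closure` and `near_pow_ne_one s`, and
`γ₀ ∈ Γ`, `γ₀ ≠ 1`, `Near ε γ₀` (`exists_near_of_not_discrete`). For `N : Subgroup Γ` of finite index apply `near_mem_closure` to `N.map Γ.subtype`; `{g : Γ | Near ε g}` is a neighbourhood of `1`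
(`mem_nhds_one_iff`). -/
theorem exists_generic_near (hm : 2 ≤ m) (Γ : Subgroup (SLC m)) (hz : ZDense Γ) (hnd : ¬ DiscreteTopology Γ) (A₀ : Finset ℂ)
    (hA : ∀ g ∈ Γ, ∀ i j, g.1 i j ∈ Subring.closure (A₀ : Set ℂ)) (ε : ℝ) (hε : 0 < ε) :
    ∃ γ ∈ Γ, Near ε γ ∧ Generic (Subring.closure (A₀ : Set ℂ)) γ := by
  classical
  let U : Set Γ := {g | Near ε g.1}
  have hU : U ∈ nhds (1 : Γ) := by
    have h1 : {g : SLC m | Near ε g} ∈ nhds (1 : SLC m) :=
      (mem_nhds_one_iff _).mpr ⟨ε, hε, fun g hg => hg⟩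
    have h2 : Continuous (fun g : Γ => (g : SLC m)) := continuous_subtype_val
    have h3 : {g : SLC m | Near ε g} ∈ nhds ((fun g : Γ => (g : SLC m)) 1) := h1
    exact h2.continuousAt.preimage_mem_nhds h3
  have h0 : ∀ s : ℕ, 0 < s → ∃ γ₀ : Γ, γ₀ ^ s ≠ 1 ∧ ∀ N : Subgroup Γ, N.FiniteIndex → γ₀ ∈ closure (N : Set Γ) := by
    intro s hs
    obtain ⟨ε₁, hε₁, h1⟩ := near_mem_closure Γ
    obtain ⟨ε₂, hε₂, h2⟩ := near_pow_ne_one (m := m) s hs
    obtain ⟨γ₀, hγ₀, hne, hnear⟩ := exists_near_of_not_discrete Γ hnd (min ε₁ ε₂) (lt_min hε₁ hε₂)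
    have hn1 : Near ε₁ γ₀ := fun i j => lt_of_lt_of_le (hnear i j) (min_le_left _ _)
    have hn2 : Near ε₂ γ₀ := fun i j => lt_of_lt_of_le (hnear i j) (min_le_right _ _)
    refine ⟨⟨γ₀, hγ₀⟩, ?_, ?_⟩
    · intro h
      exact h2 γ₀ hn2 hne (congrArg Subtype.val h)
    · intro N hN
      have hle : N.map Γ.subtype ≤ Γ := Subgroup.map_subtype_le N
      have hidx : (N.map Γ.subtype).relIndex Γ ≠ 0 := by
        have h3 : (N.map Γ.subtype).subgroupOf Γ = N :=
          Subgroup.comap_map_eq_self_of_injective Γ.subtype_injective N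
        rw [Subgroup.relIndex, h3]
        exact hN.index_ne_zero
      have h4 := h1 γ₀ hγ₀ hn1 (N.map Γ.subtype) hle hidx
      rw [closure_subtype]
      exact h4
  obtain ⟨γ, hγU, hγ⟩ := generic_core hm Γ.subtype Γ.subtype_injective A₀
    (fun g i j => hA g.1 g.2 i j) (by rw [Subgroup.range_subtype]; exact hz) h0 U hU
  exact ⟨γ.1, γ.2, hγU, hγ⟩

end WCn
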