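import Pool.Agent.Lib.MP_c2b80f_alC.Defs

/-!
# Characteristic polynomials of elements close to one (job NearC)
-/

open Matrix Polynomial

namespace WCn

variable {m : ℕ}

private theorem nearC_cont (i : ℕ) :
    Continuous fun M : Fin m → Fin m → ℂ => (Matrix.of M).charpoly.coeff i := by
  have h : (fun M : Fin m → Fin m → ℂ => (Matrix.of M).charpoly.coeff i) =
      fun M => MvPolynomial.eval (fun ij : Fin m × Fin m => M ij.1 ij.2)
        ((Matrix.charpoly.univ ℂ (Fin m)).coeff i) := by
    funext M
    have h1 := Matrix.charpoly.univ_coeff_eval₂Hom (Fin m) (RingHom.id ℂ)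
      (fun ij : Fin m × Fin m => M ij.1 ij.2) i
    have h2 : (Matrix.of (Function.curry fun ij : Fin m × Fin m => M ij.1 ij.2)) = Matrix.of M := rfl
    rw [h2] at h1
    rw [← h1]
    rfl
  rw [h]
  refine (MvPolynomial.continuous_eval _).comp ?_
  exact continuous_pi fun ij => (continuous_apply ij.2).comp (continuous_apply ij.1)

/-- Let `F` be a finite set of complex numbers. If `g` is close enough to `1` and all coefficients of its characteristic polynomial are in `F`, then
the characteristic polynomial is `(X - 1) ^ m`. (The coefficients are polynomials in the entries, hence continuous functions of `g`, so for `g` close to `1` the `i`-th coefficient is closer to that of `(X - 1) ^ m`, the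
characteristic polynomial of `1`, than any other element of `F`; there are only `m + 1` coefficients.) -/
theorem near_charpoly (F : Set ℂ) (hF : F.Finite) : ∃ ε : ℝ, 0 < ε ∧ ∀ g : SLC m, Near ε g →
    (∀ i, g.1.charpoly.coeff i ∈ F) → g.1.charpoly = (X - C 1) ^ m := by
  classical
  let one' : Fin m → Fin m → ℂ := fun i j => (1 : Matrix (Fin m) (Fin m) ℂ) i j
  have hone' : Matrix.of one' = 1 := rfl
  have hopen : ∀ i : ℕ, ∀ᶠ M : Fin m → Fin m → ℂ in nhds one',
      (Matrix.of M).charpoly.coeff i ∉ F \ {(1 : Matrix (Fin m) (Fin m) ℂ).charpoly.coeff i} := by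
    intro i
    have hcl : IsClosed (F \ {(1 : Matrix (Fin m) (Fin m) ℂ).charpoly.coeff i}) :=
      (hF.subset Set.diff_subset).isClosed
    have hmem : (Matrix.of one').charpoly.coeff i ∈
        (F \ {(1 : Matrix (Fin m) (Fin m) ℂ).charpoly.coeff i})ᶜ := by
      rw [hone']
      simp
    exact (nearC_cont i).continuousAt.eventually_mem (hcl.isOpen_compl.mem_nhds hmem)
  have hall : ∀ᶠ M : Fin m → Fin m → ℂ in nhds one', ∀ i ∈ Finset.range (m + 1),
      (Matrix.of M).charpoly.coeff i ∉ F \ {(1 : Matrix (Fin m) (Fin m) ℂ).charpoly.coeff i} :=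
    (Filter.eventually_all_finset (Finset.range (m + 1))).mpr fun i _ => hopen i
  obtain ⟨ε, hε, hball⟩ := Metric.eventually_nhds_iff.mp hall
  refine ⟨ε, hε, fun g hg hgF => ?_⟩
  have hd : dist (fun i j => g.1 i j : Fin m → Fin m → ℂ) one' < ε := by
    rw [dist_pi_lt_iff hε]
    intro i
    rw [dist_pi_lt_iff hε]
    intro j
    rw [dist_eq_norm]
    exact hg i j
  have h1 := hball hd
  have h2 : g.1.charpoly = (1 : Matrix (Fin m) (Fin m) ℂ).charpoly := by
    ext i
    by_cases hi : i ∈ Finset.range (m + 1)
    · have h3 := h1 i hi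
      have h4 : (Matrix.of (fun i j => g.1 i j : Fin m → Fin m → ℂ)) = g.1 := rfl
      rw [h4] at h3
      by_contra hne
      exact h3 ⟨hgF i, hne⟩
    · have him : m < i := by
        rw [Finset.mem_range] at hi
        omega
      rw [Polynomial.coeff_eq_zero_of_natDegree_lt, Polynomial.coeff_eq_zero_of_natDegree_lt]
      · rw [Matrix.charpoly_natDegree_eq_dim, Fintype.card_fin]; exact him
      · rw [Matrix.charpoly_natDegree_eq_dim, Fintype.card_fin]; exact him
  rw [h2, Matrix.charpoly_one, Fintype.card_fin, C_1]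

end WCn
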