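import Pool.Agent.Lib.MP_c2b80f_alC.Defs

/-!
# Diagonalised elements (job SpecD)
-/

open Matrix

namespace WCn

variable {n : ℕ}

theorem diagBy_charpoly {g : SLC n} {p : GL (Fin n) ℂ} {t : Fin n → ℂˣ} (h : DiagBy g p t) :
    g.1.charpoly = ∏ i, (Polynomial.X - Polynomial.C (t i : ℂ)) := by
  unfold DiagBy at h
  rw [h, Matrix.coe_units_inv, Matrix.charpoly_units_conj, Matrix.charpoly_diagonal]

theorem diagBy_pow {g : SLC n} {p : GL (Fin n) ℂ} {t : Fin n → ℂˣ} (h : DiagBy g p t) (k : ℕ) :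
    DiagBy (g ^ k) p (fun i => t i ^ k) := by
  unfold DiagBy at *
  have h1 : (g ^ k).1 = g.1 ^ k := Matrix.SpecialLinearGroup.coe_pow g k
  rw [h1, h, Units.conj_pow, Matrix.diagonal_pow]
  congr 3

/-- The product of the eigenvalues is `1`. -/
theorem diagBy_prod {g : SLC n} {p : GL (Fin n) ℂ} {t : Fin n → ℂˣ} (h : DiagBy g p t) : ∏ i, t i = 1 := by
  have h1 : g.1.det = 1 := g.2
  unfold DiagBy at h
  rw [h, Matrix.det_units_conj, Matrix.det_diagonal] at h1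
  apply Units.ext
  rw [Units.coe_prod, Units.val_one]
  exact h1

/-- `size (g ^ k) ≤ c * ρ ^ k` with `c` independent of `k` (`c = 1 + n² · size p · size p⁻¹` or similar). -/
theorem diagBy_size_pow (hn : 1 ≤ n) {g : SLC n} {p : GL (Fin n) ℂ} {t : Fin n → ℂˣ} (h : DiagBy g p t) (ρ : ℝ)
    (hρ : ∀ j, ‖(t j : ℂ)‖ ≤ ρ) : ∃ c : ℝ, 0 < c ∧ ∀ k : ℕ, size (g ^ k) ≤ c * ρ ^ k := by
  have hρ0 : 0 ≤ ρ := (norm_nonneg _).trans (hρ ⟨0, hn⟩)
  have hS : 0 ≤ ∑ i, ∑ j, ∑ l, ‖p.1 i l‖ * ‖(p⁻¹).1 l j‖ :=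
    Finset.sum_nonneg fun i _ => Finset.sum_nonneg fun j _ => Finset.sum_nonneg fun l _ =>
      mul_nonneg (norm_nonneg _) (norm_nonneg _)
  refine ⟨1 + ∑ i, ∑ j, ∑ l, ‖p.1 i l‖ * ‖(p⁻¹).1 l j‖, by linarith, fun k => ?_⟩
  have hk : 0 ≤ ρ ^ k := pow_nonneg hρ0 k
  have h1 : size (g ^ k) ≤ (∑ i, ∑ j, ∑ l, ‖p.1 i l‖ * ‖(p⁻¹).1 l j‖) * ρ ^ k := by
    unfold size
    rw [Finset.sum_mul]
    refine Finset.sum_le_sum fun i _ => ?_
    rw [Finset.sum_mul]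
    refine Finset.sum_le_sum fun j _ => ?_
    have h2 : (g ^ k).1 i j = ∑ l, p.1 i l * ((t l : ℂ) ^ k) * (p⁻¹).1 l j := by
      have h3 := diagBy_pow h k
      unfold DiagBy at h3
      rw [h3, Matrix.mul_apply]
      refine Finset.sum_congr rfl fun l _ => ?_
      rw [Matrix.mul_diagonal, Units.val_pow_eq_pow_val]
    rw [h2, Finset.sum_mul]
    refine (norm_sum_le _ _).trans (Finset.sum_le_sum fun l _ => ?_)
    rw [norm_mul, norm_mul, norm_pow]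
    have h3 : ‖(t l : ℂ)‖ ^ k ≤ ρ ^ k := pow_le_pow_left₀ (norm_nonneg _) (hρ l) k
    have h4 : ‖p.1 i l‖ * ‖(p⁻¹).1 l j‖ * ‖(t l : ℂ)‖ ^ k ≤ ‖p.1 i l‖ * ‖(p⁻¹).1 l j‖ * ρ ^ k :=
      mul_le_mul_of_nonneg_left h3 (mul_nonneg (norm_nonneg _) (norm_nonneg _))
    calc ‖p.1 i l‖ * ‖(t l : ℂ)‖ ^ k * ‖(p⁻¹).1 l j‖ = ‖p.1 i l‖ * ‖(p⁻¹).1 l j‖ * ‖(t l : ℂ)‖ ^ k := by
          ring
      _ ≤ _ := h4
  linarith [add_mul 1 (∑ i, ∑ j, ∑ l, ‖p.1 i l‖ * ‖(p⁻¹).1 l j‖) (ρ ^ k)]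

/-- `1 ≤ size g`: `|det g| ≤ ∏ i, ∑ j, ‖g i j‖ ≤ (size g) ^ n` (Leibniz formula) and `det g = 1`. -/
theorem one_le_size (hn : 1 ≤ n) (g : SLC n) : 1 ≤ size g := by
  have hs0 : 0 ≤ size g := Finset.sum_nonneg fun i _ => Finset.sum_nonneg fun j _ => norm_nonneg _
  have h1 : (1 : ℝ) ≤ (size g) ^ n := by
    have h2 : ‖g.1.det‖ ≤ ∑ σ : Equiv.Perm (Fin n), ∏ i, ‖g.1 (σ i) i‖ := by
      rw [Matrix.det_apply]
      refine (norm_sum_le _ _).trans (Finset.sum_le_sum fun σ _ => ?_)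
      rw [Units.smul_def, zsmul_eq_mul, norm_mul, norm_prod]
      have h3 : ‖(((Equiv.Perm.sign σ : ℤˣ) : ℤ) : ℂ)‖ = 1 := by
        rcases Int.units_eq_one_or (Equiv.Perm.sign σ) with h | h <;> rw [h] <;> simp
      rw [h3, one_mul]
    have h3 : ∑ σ : Equiv.Perm (Fin n), ∏ i, ‖g.1 (σ i) i‖ ≤ ∑ f : Fin n → Fin n, ∏ i, ‖g.1 (f i) i‖ := by
      have hinj : Function.Injective (fun σ : Equiv.Perm (Fin n) => (σ : Fin n → Fin n)) :=
        fun σ τ hst => Equiv.ext fun i => congrFun hst i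
      calc ∑ σ : Equiv.Perm (Fin n), ∏ i, ‖g.1 (σ i) i‖ =
          ∑ f ∈ Finset.univ.map ⟨_, hinj⟩, ∏ i, ‖g.1 (f i) i‖ := by
            rw [Finset.sum_map]
            rfl
        _ ≤ _ := Finset.sum_le_sum_of_subset_of_nonneg (Finset.subset_univ _)
            fun f _ _ => Finset.prod_nonneg fun i _ => norm_nonneg _
    have h4 : ∑ f : Fin n → Fin n, ∏ i, ‖g.1 (f i) i‖ = ∏ i, ∑ j, ‖g.1 j i‖ := by
      rw [Finset.prod_univ_sum, Fintype.piFinset_univ]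
    have h5 : ∏ i, ∑ j, ‖g.1 j i‖ ≤ (size g) ^ n := by
      have h6 : ∀ i ∈ (Finset.univ : Finset (Fin n)), ∑ j, ‖g.1 j i‖ ≤ size g := by
        intro i _
        unfold size
        refine Finset.sum_le_sum fun j _ => ?_
        exact Finset.single_le_sum (f := fun i => ‖g.1 j i‖) (fun _ _ => norm_nonneg _)
          (Finset.mem_univ i)
      have h7 := Finset.prod_le_prod (fun i _ => Finset.sum_nonneg fun j _ => norm_nonneg (g.1 j i)) h6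
      rwa [Finset.prod_const, Finset.card_univ, Fintype.card_fin] at h7
    have h6 : g.1.det = 1 := g.2
    rw [h6, norm_one] at h2
    linarith
  by_contra h2
  have h3 : (size g) ^ n < 1 := pow_lt_one₀ hs0 (not_le.1 h2) (by omega)
  linarith

end WCn
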