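import Pool.Agent.Lib.MP_c2b80f_alC.SpecB
import Pool.Agent.Lib.MP_c2b80f_alC.SpecD

/-!
# Eigenvalues of elements close to one (job NearE)
-/

open Matrix Polynomial

namespace WCn

variable {m : ℕ}

/-- The eigenvalues of elements close to `1` are close to `1`: an eigenvalue `z` of `g` gives the eigenvalue `z - 1` of `g - 1` (`det (g - z) = 0`), so `‖z - 1‖ ≤ nsz ‖·‖ (g - 1) ≤ m² ε` by `eig_le` for
`N` the usual absolute value, `K = ⊤` (which is root closed). -/
theorem near_eig (δ : ℝ) (hδ : 0 < δ) : ∃ ε : ℝ, 0 < ε ∧ ∀ (g : SLC m) (p : GL (Fin m) ℂ) (t : Fin m → ℂˣ), DiagBy g p t →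
    Near ε g → ∀ j, |Real.log ‖(t j : ℂ)‖| ≤ δ := by
  obtain ⟨η, hη⟩ : ∃ η : ℝ, η = min (1 / 2) (δ / 2) := ⟨_, rfl⟩
  have hη0 : 0 < η := by
    rw [hη]
    exact lt_min (by norm_num) (by linarith)
  have hη1 : η ≤ 1 / 2 := hη ▸ min_le_left _ _
  have hη2 : η ≤ δ / 2 := hη ▸ min_le_right _ _
  have hm : (0 : ℝ) < (m : ℝ) * m + 1 := by positivity
  refine ⟨η / ((m : ℝ) * m + 1), div_pos hη0 hm, ?_⟩
  intro g p t hg hnear j
  have hN : AbsOn (⊤ : Subfield ℂ) (fun z => ‖z‖) :=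
    { nonneg := fun z => norm_nonneg z
      zero := norm_zero
      one := norm_one
      mul := fun a _ b _ => norm_mul a b
      add := fun a _ b _ => norm_add_le a b }
  have hK : RootClosed (⊤ : Subfield ℂ) := fun _ _ _ _ _ => Subfield.mem_top _
  have hev : (g.1 - 1).charpoly.eval ((t j : ℂ) - 1) = 0 := by
    have h1 : g.1.charpoly.eval (t j : ℂ) = 0 := by
      rw [diagBy_charpoly hg, Polynomial.eval_prod]
      refine Finset.prod_eq_zero (Finset.mem_univ j) ?_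
      rw [Polynomial.eval_sub, Polynomial.eval_X, Polynomial.eval_C, sub_self]
    rw [Matrix.eval_charpoly] at h1 ⊢
    rw [← h1]
    congr 1
    rw [map_sub, map_one]
    abel
  have h2 := (eig_le hK hN (g.1 - 1) (fun _ _ => Subfield.mem_top _) _ hev).2
  have h3 : nsz (fun z => ‖z‖) (g.1 - 1) ≤ η := by
    unfold nsz
    have h4 : ∀ i ∈ (Finset.univ : Finset (Fin m)), ∑ k, ‖(g.1 - 1) i k‖ ≤
        (m : ℝ) * (η / ((m : ℝ) * m + 1)) := by
      intro i _
      have h5 : ∀ k ∈ (Finset.univ : Finset (Fin m)), ‖(g.1 - 1) i k‖ ≤ η / ((m : ℝ) * m + 1) :=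
        fun k _ => (hnear i k).le
      have h6 := Finset.sum_le_card_nsmul _ _ _ h5
      rw [Finset.card_univ, Fintype.card_fin, nsmul_eq_mul] at h6
      exact h6
    have h7 := Finset.sum_le_card_nsmul _ _ _ h4
    rw [Finset.card_univ, Fintype.card_fin, nsmul_eq_mul] at h7
    refine h7.trans ?_
    have h8 : (m : ℝ) * ((m : ℝ) * (η / ((m : ℝ) * m + 1))) =
        η * (((m : ℝ) * m) / ((m : ℝ) * m + 1)) := by ring
    rw [h8]
    have h9 : ((m : ℝ) * m) / ((m : ℝ) * m + 1) ≤ 1 := by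
      rw [div_le_one hm]
      linarith
    exact (mul_le_mul_of_nonneg_left h9 hη0.le).trans_eq (mul_one _)
  have h10 : ‖(t j : ℂ) - 1‖ ≤ η := h2.trans h3
  have h11 : |‖(t j : ℂ)‖ - 1| ≤ η := by
    have h12 := abs_norm_sub_norm_le (t j : ℂ) 1
    rw [norm_one] at h12
    exact h12.trans h10
  obtain ⟨h13, h14⟩ := abs_le.1 h11
  have hx0 : 0 < ‖(t j : ℂ)‖ := by linarith
  rw [abs_le]
  constructor
  · have h15 := Real.log_le_sub_one_of_pos (inv_pos.2 hx0)
    rw [Real.log_inv] at h15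
    have h16 : ‖(t j : ℂ)‖⁻¹ ≤ 1 + 2 * η := by
      rw [inv_le_comm₀ hx0 (by linarith)]
      refine le_trans ?_ (by linarith : 1 - η ≤ ‖(t j : ℂ)‖)
      rw [inv_le_iff_one_le_mul₀ (by linarith)]
      nlinarith
    linarith
  · have h15 := Real.log_le_sub_one_of_pos hx0
    linarith

end WCn
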