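import Pool.Agent.Lib.MP_c2b80f_alC.RelA

/-!
# The dimension count (job RelB)

`S₀` is a space of relations which hold for every element of the torus (for `SL_m`: the constant vectors), `y` is the family of
eigenvalues of a generic element, `x` the family of eigenvalues of an element which is weakly commensurable to it.

Proof. Put `R = relQ x y`, `R₂ = R.comap inr = {d | (0, d) ∈ R}`, `Q₂ = R.map snd`, `P = R.map fst`, `R₁ = R.comap inl`.
`R₂` and `Q₂` are stable under `d ↦ d ∘ ρ.symm` for all symmetries (`relQ_relSym`; note `0 ∘ π.symm = 0`), and both contain `S₀`: for `d ∈ S₀` take a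
common denominator `k`; `k d` is integral and in `S₀`, so it is a relation by `hS`.
`R₂ ≠ ⊤`, because `y j` is not a root of unity. So `R₂ = S₀` by `hIrr`. `Q₂` contains `b` (up to sign: `(a, -b) ∈ R` by `hab`), and `b ∉ S₀` by `hS`
and `hne`; so `Q₂ = ⊤`. Finally `finrank R = finrank Q₂ + finrank R₁` and `finrank R = finrank P + finrank R₂` (rank-nullity for the restrictions
of `snd`, `fst` to `R`: kernel of `snd` on `R` is `R₁`, and so on).
-/

open Matrix

namespace WCn

variable {n m : ℕ}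

private theorem relB_den (d : Fin m → ℚ) : ∃ (k : ℕ) (d' : Fin m → ℤ), 0 < k ∧ ∀ j, (d' j : ℚ) = k * d j := by
  have h1 : ∀ j, ∃ t : ℤ, (t : ℚ) = ((∏ j, (d j).den : ℕ) : ℚ) * d j := by
    intro j
    obtain ⟨t, ht⟩ := Finset.dvd_prod_of_mem (fun j => (d j).den) (Finset.mem_univ j)
    refine ⟨t * (d j).num, ?_⟩
    rw [ht]
    push_cast
    have h2 : ((d j).den : ℚ) * d j = (d j).num := Rat.den_mul_eq_num (d j)
    linear_combination (-(t : ℚ)) * h2
  choose d' hd' using h1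
  exact ⟨_, d', Finset.prod_pos fun j _ => (d j).den_pos, hd'⟩

/-- The kernel of the second projection on `R`. -/
private theorem relB_snd {V W : Type*} [AddCommGroup V] [Module ℚ V] [AddCommGroup W] [Module ℚ W]
    [FiniteDimensional ℚ V] [FiniteDimensional ℚ W] (R : Submodule ℚ (V × W)) :
    Module.finrank ℚ (R.map (LinearMap.snd ℚ V W)) + Module.finrank ℚ (R.comap (LinearMap.inl ℚ V W)) =
      Module.finrank ℚ R := by
  have h1 := LinearMap.finrank_range_add_finrank_ker ((LinearMap.snd ℚ V W).domRestrict R)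
  have h2 : LinearMap.range ((LinearMap.snd ℚ V W).domRestrict R) = R.map (LinearMap.snd ℚ V W) :=
    LinearMap.range_domRestrict _ _
  have h3 : (LinearMap.ker ((LinearMap.snd ℚ V W).domRestrict R)).map R.subtype =
      (R.comap (LinearMap.inl ℚ V W)).map (LinearMap.inl ℚ V W) := by
    ext z
    constructor
    · rintro ⟨⟨w, hw⟩, hk, rfl⟩
      have hk' : w.2 = 0 := hk
      refine ⟨w.1, ?_, ?_⟩
      · change (w.1, (0 : W)) ∈ R
        rw [← hk']
        exact hw
      · change (w.1, (0 : W)) = w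
        rw [← hk']
    · rintro ⟨v, hv, rfl⟩
      exact ⟨⟨(v, 0), hv⟩, rfl, rfl⟩
  have h4 := (Submodule.equivMapOfInjective R.subtype R.injective_subtype
    (LinearMap.ker ((LinearMap.snd ℚ V W).domRestrict R))).finrank_eq
  have h5 := (Submodule.equivMapOfInjective (LinearMap.inl ℚ V W) LinearMap.inl_injective
    (R.comap (LinearMap.inl ℚ V W))).finrank_eq
  rw [h2, h4, h3, ← h5] at h1
  exact h1

/-- The kernel of the first projection on `R`. -/
private theorem relB_fst {V W : Type*} [AddCommGroup V] [Module ℚ V] [AddCommGroup W] [Module ℚ W]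
    [FiniteDimensional ℚ V] [FiniteDimensional ℚ W] (R : Submodule ℚ (V × W)) :
    Module.finrank ℚ (R.map (LinearMap.fst ℚ V W)) + Module.finrank ℚ (R.comap (LinearMap.inr ℚ V W)) =
      Module.finrank ℚ R := by
  have h1 := LinearMap.finrank_range_add_finrank_ker ((LinearMap.fst ℚ V W).domRestrict R)
  have h2 : LinearMap.range ((LinearMap.fst ℚ V W).domRestrict R) = R.map (LinearMap.fst ℚ V W) :=
    LinearMap.range_domRestrict _ _
  have h3 : (LinearMap.ker ((LinearMap.fst ℚ V W).domRestrict R)).map R.subtype =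
      (R.comap (LinearMap.inr ℚ V W)).map (LinearMap.inr ℚ V W) := by
    ext z
    constructor
    · rintro ⟨⟨w, hw⟩, hk, rfl⟩
      have hk' : w.1 = 0 := hk
      refine ⟨w.2, ?_, ?_⟩
      · change ((0 : V), w.2) ∈ R
        rw [← hk']
        exact hw
      · change ((0 : V), w.2) = w
        rw [← hk']
    · rintro ⟨v, hv, rfl⟩
      exact ⟨⟨(0, v), hv⟩, rfl, rfl⟩
  have h4 := (Submodule.equivMapOfInjective R.subtype R.injective_subtype
    (LinearMap.ker ((LinearMap.fst ℚ V W).domRestrict R))).finrank_eq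
  have h5 := (Submodule.equivMapOfInjective (LinearMap.inr ℚ V W) LinearMap.inr_injective
    (R.comap (LinearMap.inr ℚ V W))).finrank_eq
  rw [h2, h4, h3, ← h5] at h1
  exact h1

theorem rel_dim (x : Fin n → ℂˣ) (y : Fin m → ℂˣ) (S₀ : Submodule ℚ (Fin m → ℚ))
    (hS : ∀ d : Fin m → ℤ, (fun j => (d j : ℚ)) ∈ S₀ → ∏ j, y j ^ d j = 1)
    (hIrr : ∀ W : Submodule ℚ (Fin m → ℚ), S₀ ≤ W →
      (∀ π ρ, RelSym x y π ρ → ∀ d ∈ W, d ∘ ρ.symm ∈ W) → W = S₀ ∨ W = ⊤)
    (htor : ∃ j, ∀ k : ℕ, 0 < k → (y j) ^ k ≠ 1)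
    (a : Fin n → ℤ) (b : Fin m → ℤ) (hab : ∏ i, x i ^ a i = ∏ j, y j ^ b j) (hne : ∏ i, x i ^ a i ≠ 1) :
    (relQ x y).comap (LinearMap.inr ℚ (Fin n → ℚ) (Fin m → ℚ)) = S₀ ∧
    Module.finrank ℚ ((relQ x y).map (LinearMap.fst ℚ (Fin n → ℚ) (Fin m → ℚ))) + Module.finrank ℚ S₀ =
      m + Module.finrank ℚ ((relQ x y).comap (LinearMap.inl ℚ (Fin n → ℚ) (Fin m → ℚ))) := by
  classical
  have hSR : S₀ ≤ (relQ x y).comap (LinearMap.inr ℚ (Fin n → ℚ) (Fin m → ℚ)) := by
    intro d hd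
    obtain ⟨k, d', hk, hd'⟩ := relB_den d
    have h1 : (fun j => (d' j : ℚ)) ∈ S₀ := by
      have h2 : (fun j => (d' j : ℚ)) = (k : ℚ) • d := by
        funext j
        rw [hd' j, Pi.smul_apply, smul_eq_mul]
      rw [h2]
      exact S₀.smul_mem _ hd
    change ((0 : Fin n → ℚ), d) ∈ relQ x y
    rw [mem_relQ]
    refine ⟨k, 0, d', hk, fun i => ?_, hd', ?_⟩
    · simp
    · unfold MRel
      rw [hS d' h1, mul_one]
      simp
  have hRne : (relQ x y).comap (LinearMap.inr ℚ (Fin n → ℚ) (Fin m → ℚ)) ≠ ⊤ := by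
    intro htop
    obtain ⟨j, hj⟩ := htor
    have h1 : (Pi.single j 1 : Fin m → ℚ) ∈ (relQ x y).comap (LinearMap.inr ℚ (Fin n → ℚ) (Fin m → ℚ)) := by
      rw [htop]
      exact Submodule.mem_top
    change ((0 : Fin n → ℚ), (Pi.single j 1 : Fin m → ℚ)) ∈ relQ x y at h1
    rw [mem_relQ] at h1
    obtain ⟨k, c, d, hk, hc, hd, hrel⟩ := h1
    refine hj k hk ?_
    have hc0 : ∀ i, c i = 0 := by
      intro i
      have h2 : (c i : ℚ) = k * 0 := hc i
      rw [mul_zero] at h2
      exact_mod_cast h2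
    have hd1 : d j = k := by
      have h2 : (d j : ℚ) = k * (Pi.single j 1 : Fin m → ℚ) j := hd j
      rw [Pi.single_eq_same, mul_one] at h2
      exact_mod_cast h2
    have hd0 : ∀ j', j' ≠ j → d j' = 0 := by
      intro j' hj'
      have h2 : (d j' : ℚ) = k * (Pi.single j 1 : Fin m → ℚ) j' := hd j'
      rw [Pi.single_eq_of_ne hj', mul_zero] at h2
      exact_mod_cast h2
    unfold MRel at hrel
    rw [Finset.prod_eq_one fun i _ => by rw [hc0 i, zpow_zero], one_mul,
      Finset.prod_eq_single j (fun j' _ hj' => by rw [hd0 j' hj', zpow_zero])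
        (fun h => absurd (Finset.mem_univ j) h), hd1, zpow_natCast] at hrel
    exact hrel
  have hR : (relQ x y).comap (LinearMap.inr ℚ (Fin n → ℚ) (Fin m → ℚ)) = S₀ := by
    refine (hIrr _ hSR fun π ρ h d hd => ?_).resolve_right hRne
    exact relQ_relSym x y π ρ h (0, d) hd
  have hSQ : S₀ ≤ (relQ x y).map (LinearMap.snd ℚ (Fin n → ℚ) (Fin m → ℚ)) := fun d hd =>
    ⟨((0 : Fin n → ℚ), d), hSR hd, rfl⟩
  have hbQ : (fun j => (b j : ℚ)) ∈ (relQ x y).map (LinearMap.snd ℚ (Fin n → ℚ) (Fin m → ℚ)) := by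
    have h1 : MRel x y a (fun j => -b j) := by
      unfold MRel
      rw [hab, ← Finset.prod_mul_distrib]
      refine Finset.prod_eq_one fun j _ => ?_
      change y j ^ b j * y j ^ (-b j) = 1
      rw [_root_.zpow_neg, mul_inv_cancel]
    have h2 := relQ_of_MRel x y a (fun j => -b j) h1
    have h3 : (fun j => ((-b j : ℤ) : ℚ)) ∈ (relQ x y).map (LinearMap.snd ℚ (Fin n → ℚ) (Fin m → ℚ)) := ⟨_, h2, rfl⟩
    have h4 := Submodule.neg_mem _ h3
    have h5 : -(fun j => ((-b j : ℤ) : ℚ)) = fun j => (b j : ℚ) := by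
      funext j
      rw [Pi.neg_apply, Int.cast_neg, neg_neg]
    rw [h5] at h4
    exact h4
  have hQ : (relQ x y).map (LinearMap.snd ℚ (Fin n → ℚ) (Fin m → ℚ)) = ⊤ := by
    refine (hIrr _ hSQ fun π ρ h d hd => ?_).resolve_left fun h => ?_
    · obtain ⟨⟨c, d'⟩, hcd, rfl⟩ := hd
      exact ⟨_, relQ_relSym x y π ρ h (c, d') hcd, rfl⟩
    · rw [h] at hbQ
      exact hne (hab.trans (hS b hbQ))
  have h1 := relB_snd (relQ x y)
  have h2 := relB_fst (relQ x y)
  rw [hQ, finrank_top, Module.finrank_fin_fun] at h1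
  rw [hR] at h2
  exact ⟨hR, h2.trans h1.symm⟩

end WCn
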