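import Pool.Agent.Lib.MP_c2b80f_alC.RelA

/-!
# The Schur identity (job RelC)

Proof. The bilinear form `⟨v, w⟩ = ∑ v j w j` on `ℚ^m` is positive definite, so `ℚ^m = S₀ ⊕ S₀^⊥`. By `hP` for every `i` there is `d` with `(e_i, d) ∈ R`,
`R = relQ x y`; subtracting its component in `S₀ = {d | (0, d) ∈ R}` we may take `d ∈ S₀^⊥`, and then `d =: C i` is unique. For a symmetry `(π, ρ)`:
`(e_{π i}, C i ∘ ρ.symm) ∈ R` by `relQ_relSym` and `C i ∘ ρ.symm ∈ S₀^⊥` (`S₀` is stable under `d ↦ d ∘ ρ` by `relQ_relSym` for the inverse symmetry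
`relSym_inv`), so `C (π i) = C i ∘ ρ.symm`, that is `C (π i) (ρ j) = C i j`. Put `D j l = ∑ i, C i j * C i l`; it is symmetric, invariant
(reindex the sum by `π`), and `D *ᵥ d = 0` for `d ∈ S₀`. By `hSchur` there is `β` with `∑ D j l w j w l = β ∑ w j ^ 2` for all real `w` orthogonal to `S₀`.
If `(u, v)` is compatible, then `v` is orthogonal to `S₀` (`relQ_compat` for `(0, d)`) and `u i = - ∑ j, C i j * v j` (`relQ_compat` for `(e_i, C i)`), so
`∑ u i ^ 2 = ∑ D j l v j v l = β ∑ v j ^ 2`. Finally `β > 0`: otherwise `∑ i (∑ j, C i j w j) ^ 2 ≤ 0` for all rational `w ∈ S₀^⊥`, in particular for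
`w = C i`, so `C i = 0` for all `i`, hence `(e_i, 0) ∈ R` for all `i`, against `hne`.
-/

open Matrix

namespace WCn

variable {n m : ℕ}

/-- orthogonal projection -/
private theorem relC_proj (S : Submodule ℚ (Fin m → ℚ)) (w : Fin m → ℚ) :
    ∃ d ∈ S, ∀ e ∈ S, ∑ j, e j * (w j - d j) = 0 := by
  let T : S →ₗ[ℚ] Module.Dual ℚ S :=
    { toFun := fun d =>
        { toFun := fun e => ∑ j, (e : Fin m → ℚ) j * (d : Fin m → ℚ) j
          map_add' := fun a b => by
            rw [← Finset.sum_add_distrib]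
            refine Finset.sum_congr rfl fun j _ => ?_
            rw [Submodule.coe_add, Pi.add_apply, add_mul]
          map_smul' := fun c a => by
            rw [RingHom.id_apply, smul_eq_mul, Finset.mul_sum]
            refine Finset.sum_congr rfl fun j _ => ?_
            rw [Submodule.coe_smul, Pi.smul_apply, smul_eq_mul, mul_assoc] }
      map_add' := fun a b => by
        refine LinearMap.ext fun e => ?_
        change ∑ j, (e : Fin m → ℚ) j * ((a + b : S) : Fin m → ℚ) j =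
          ∑ j, (e : Fin m → ℚ) j * (a : Fin m → ℚ) j + ∑ j, (e : Fin m → ℚ) j * (b : Fin m → ℚ) j
        rw [← Finset.sum_add_distrib]
        refine Finset.sum_congr rfl fun j _ => ?_
        rw [Submodule.coe_add, Pi.add_apply, mul_add]
      map_smul' := fun c a => by
        refine LinearMap.ext fun e => ?_
        change ∑ j, (e : Fin m → ℚ) j * ((c • a : S) : Fin m → ℚ) j =
          c • ∑ j, (e : Fin m → ℚ) j * (a : Fin m → ℚ) j
        rw [smul_eq_mul, Finset.mul_sum]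
        refine Finset.sum_congr rfl fun j _ => ?_
        rw [Submodule.coe_smul, Pi.smul_apply, smul_eq_mul, mul_left_comm] }
  have hT : ∀ d e : S, T d e = ∑ j, (e : Fin m → ℚ) j * (d : Fin m → ℚ) j := fun d e => rfl
  have hinj : Function.Injective T := by
    rw [injective_iff_map_eq_zero]
    intro d hd
    have h1 : T d d = 0 := by rw [hd]; rfl
    rw [hT] at h1
    have h2 := (Finset.sum_eq_zero_iff_of_nonneg (fun j _ => mul_self_nonneg _)).1 h1
    refine Subtype.ext (funext fun j => ?_)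
    exact mul_self_eq_zero.1 (h2 j (Finset.mem_univ j))
  have hsurj : Function.Surjective T :=
    (LinearMap.injective_iff_surjective_of_finrank_eq_finrank (Subspace.dual_finrank_eq).symm).1 hinj
  let f : Module.Dual ℚ S :=
    { toFun := fun e => ∑ j, (e : Fin m → ℚ) j * w j
      map_add' := fun a b => by
        rw [← Finset.sum_add_distrib]
        refine Finset.sum_congr rfl fun j _ => ?_
        rw [Submodule.coe_add, Pi.add_apply, add_mul]
      map_smul' := fun c a => by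
        rw [RingHom.id_apply, smul_eq_mul, Finset.mul_sum]
        refine Finset.sum_congr rfl fun j _ => ?_
        rw [Submodule.coe_smul, Pi.smul_apply, smul_eq_mul, mul_assoc] }
  obtain ⟨d, hd⟩ := hsurj f
  refine ⟨d, d.2, fun e he => ?_⟩
  have h1 : T d ⟨e, he⟩ = f ⟨e, he⟩ := by rw [hd]
  have h2 : ∑ j, e j * (d : Fin m → ℚ) j = ∑ j, e j * w j := h1
  simp only [mul_sub]
  rw [Finset.sum_sub_distrib, h2, sub_self]

private theorem relC_unique (S : Submodule ℚ (Fin m → ℚ)) {a b : Fin m → ℚ} (h : a - b ∈ S)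
    (ha : ∀ e ∈ S, ∑ j, e j * a j = 0) (hb : ∀ e ∈ S, ∑ j, e j * b j = 0) : a = b := by
  have h1 : ∑ j, (a - b) j * (a - b) j = 0 := by
    have h2 : ∀ j, (a - b) j * (a - b) j = (a - b) j * a j - (a - b) j * b j := fun j => by
      rw [Pi.sub_apply]
      ring
    rw [Finset.sum_congr rfl fun j _ => h2 j, Finset.sum_sub_distrib, ha _ h, hb _ h, sub_self]
  have h2 := (Finset.sum_eq_zero_iff_of_nonneg (fun j _ => mul_self_nonneg _)).1 h1
  funext j
  exact sub_eq_zero.1 (mul_self_eq_zero.1 (h2 j (Finset.mem_univ j)))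

theorem rel_schur (x : Fin n → ℂˣ) (y : Fin m → ℂˣ) (S₀ : Submodule ℚ (Fin m → ℚ))
    (hR : (relQ x y).comap (LinearMap.inr ℚ (Fin n → ℚ) (Fin m → ℚ)) = S₀)
    (hP : (relQ x y).map (LinearMap.fst ℚ (Fin n → ℚ) (Fin m → ℚ)) = ⊤)
    (hne : (relQ x y).comap (LinearMap.inl ℚ (Fin n → ℚ) (Fin m → ℚ)) ≠ ⊤)
    (hSchur : ∀ D : Matrix (Fin m) (Fin m) ℚ, (∀ j l, D j l = D l j) →
      (∀ π ρ, RelSym x y π ρ → ∀ j l, D (ρ j) (ρ l) = D j l) → (∀ d ∈ S₀, D *ᵥ d = 0) →
      ∃ β : ℚ, ∀ w : Fin m → ℝ, (∀ d ∈ S₀, ∑ j, (d j : ℝ) * w j = 0) →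
        ∑ j, ∑ l, (D j l : ℝ) * w j * w l = β * ∑ j, w j ^ 2) :
    ∃ β : ℝ, 0 < β ∧ ∀ (u : Fin n → ℝ) (v : Fin m → ℝ), Compat x y u v →
      ∑ i, u i ^ 2 = β * ∑ j, v j ^ 2 := by
  have hS : ∀ d : Fin m → ℚ, d ∈ S₀ ↔ ((0 : Fin n → ℚ), d) ∈ relQ x y := by
    intro d
    rw [← hR]
    exact Iff.rfl
  have hex : ∀ i : Fin n, ∃ c : Fin m → ℚ, ((Pi.single i 1 : Fin n → ℚ), c) ∈ relQ x y ∧
      ∀ e ∈ S₀, ∑ j, e j * c j = 0 := by
    intro i
    have h1 : (Pi.single i 1 : Fin n → ℚ) ∈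
        (relQ x y).map (LinearMap.fst ℚ (Fin n → ℚ) (Fin m → ℚ)) := by
      rw [hP]
      exact Submodule.mem_top
    obtain ⟨v, hv, hv1⟩ := Submodule.mem_map.1 h1
    obtain ⟨a, b⟩ := v
    have hv2 : a = Pi.single i 1 := hv1
    subst hv2
    obtain ⟨d, hd, hd2⟩ := relC_proj S₀ b
    refine ⟨b - d, ?_, fun e he => hd2 e he⟩
    have h3 := (relQ x y).sub_mem hv ((hS d).1 hd)
    rw [Prod.mk_sub_mk, sub_zero] at h3
    exact h3
  choose C hC1 hC2 using hex
  have huniq : ∀ (a : Fin n → ℚ) (b c : Fin m → ℚ), (a, b) ∈ relQ x y → (a, c) ∈ relQ x y →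
      (∀ e ∈ S₀, ∑ j, e j * b j = 0) → (∀ e ∈ S₀, ∑ j, e j * c j = 0) → b = c := by
    intro a b c hb hc hb2 hc2
    refine relC_unique S₀ ?_ hb2 hc2
    have h3 := (relQ x y).sub_mem hb hc
    rw [Prod.mk_sub_mk, sub_self] at h3
    exact (hS _).2 h3
  have hsym : ∀ (π : Equiv.Perm (Fin n)) (ρ : Equiv.Perm (Fin m)), RelSym x y π ρ →
      ∀ i j, C (π i) (ρ j) = C i j := by
    intro π ρ h i j
    have h1 := relQ_relSym x y π ρ h _ (hC1 i)
    have h2 : ((Pi.single i 1 : Fin n → ℚ) ∘ π.symm) = Pi.single (π i) 1 := by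
      funext k
      rw [Function.comp_apply, Pi.single_apply, Pi.single_apply]
      by_cases hk : k = π i
      · rw [if_pos hk, if_pos (by rw [hk, Equiv.symm_apply_apply])]
      · rw [if_neg hk, if_neg (fun h => hk (by rw [← h, Equiv.apply_symm_apply]))]
    change ((Pi.single i 1 : Fin n → ℚ) ∘ π.symm, C i ∘ ρ.symm) ∈ relQ x y at h1
    rw [h2] at h1
    have h3 : ∀ e ∈ S₀, ∑ j, e j * (C i ∘ ρ.symm) j = 0 := by
      intro e he
      have h4 := relQ_relSym x y π⁻¹ ρ⁻¹ (relSym_inv x y h) _ ((hS e).1 he)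
      have h5 : e ∘ ρ ∈ S₀ := by
        rw [hS]
        exact h4
      have h6 := hC2 i _ h5
      rw [← h6]
      refine (Equiv.sum_comp ρ (fun j => e j * (C i ∘ ρ.symm) j)).symm.trans ?_
      refine Finset.sum_congr rfl fun j _ => ?_
      rw [Function.comp_apply, Function.comp_apply, Equiv.symm_apply_apply]
    have h4 := huniq _ _ _ (hC1 (π i)) h1 (hC2 (π i)) h3
    rw [h4, Function.comp_apply, Equiv.symm_apply_apply]
  obtain ⟨β, hβ⟩ := hSchur (Matrix.of fun j l => ∑ i, C i j * C i l)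
    (fun j l => by
      rw [Matrix.of_apply, Matrix.of_apply]
      exact Finset.sum_congr rfl fun i _ => mul_comm _ _)
    (fun π ρ h j l => by
      rw [Matrix.of_apply, Matrix.of_apply]
      refine (Equiv.sum_comp π (fun i => C i (ρ j) * C i (ρ l))).symm.trans ?_
      exact Finset.sum_congr rfl fun i _ => by rw [hsym π ρ h, hsym π ρ h])
    (fun d hd => by
      funext j
      rw [Matrix.mulVec, dotProduct]
      simp only [Matrix.of_apply, Finset.sum_mul]
      rw [Finset.sum_comm, Pi.zero_apply]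
      refine Finset.sum_eq_zero fun i _ => ?_
      have h1 : ∑ l, C i j * C i l * d l = C i j * ∑ l, d l * C i l := by
        rw [Finset.mul_sum]
        exact Finset.sum_congr rfl fun l _ => by ring
      rw [h1, hC2 i d hd, mul_zero])
  have key : ∀ w : Fin m → ℝ, (∀ d ∈ S₀, ∑ j, (d j : ℝ) * w j = 0) →
      ∑ i, (∑ j, (C i j : ℝ) * w j) ^ 2 = (β : ℝ) * ∑ j, w j ^ 2 := by
    intro w hw
    rw [← hβ w hw]
    have h1 : ∀ j l, ((Matrix.of (fun j l => ∑ i, C i j * C i l) j l : ℚ) : ℝ) =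
        ∑ i, (C i j : ℝ) * (C i l : ℝ) := by
      intro j l
      rw [Matrix.of_apply]
      push_cast
      rfl
    simp only [h1]
    have h2 : ∀ i, (∑ j, (C i j : ℝ) * w j) ^ 2 =
        ∑ j, ∑ l, (C i j : ℝ) * (C i l : ℝ) * w j * w l := by
      intro i
      rw [sq, Finset.sum_mul_sum]
      refine Finset.sum_congr rfl fun j _ => Finset.sum_congr rfl fun l _ => ?_
      ring
    rw [Finset.sum_congr rfl fun i _ => h2 i, Finset.sum_comm]
    refine Finset.sum_congr rfl fun j _ => ?_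
    rw [Finset.sum_comm]
    refine Finset.sum_congr rfl fun l _ => ?_
    rw [Finset.sum_mul, Finset.sum_mul]
  have hcast : ∀ (i : Fin n), ∀ d ∈ S₀, ∑ j, (d j : ℝ) * ((C i j : ℚ) : ℝ) = 0 := by
    intro i d hd
    have h1 : ((∑ j, d j * C i j : ℚ) : ℝ) = 0 := by
      rw [hC2 i d hd, Rat.cast_zero]
    push_cast at h1
    exact h1
  have hpos : 0 < (β : ℝ) := by
    by_contra hneg
    refine hne (eq_top_iff.2 ?_)
    have hC0 : ∀ i, C i = 0 := by
      intro i
      have h1 := key (fun j => (C i j : ℝ)) (hcast i)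
      have h2 : (β : ℝ) * ∑ j, ((C i j : ℚ) : ℝ) ^ 2 ≤ 0 :=
        mul_nonpos_of_nonpos_of_nonneg (not_lt.1 hneg) (Finset.sum_nonneg fun j _ => sq_nonneg _)
      have h3 : (∑ j, (C i j : ℝ) * ((C i j : ℚ) : ℝ)) ^ 2 ≤
          ∑ i', (∑ j, (C i' j : ℝ) * ((C i j : ℚ) : ℝ)) ^ 2 :=
        Finset.single_le_sum (f := fun i' => (∑ j, (C i' j : ℝ) * ((C i j : ℚ) : ℝ)) ^ 2)
          (fun _ _ => sq_nonneg _) (Finset.mem_univ i)
      have h4 : (∑ j, (C i j : ℝ) * ((C i j : ℚ) : ℝ)) ^ 2 = 0 :=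
        le_antisymm (h3.trans (h1.le.trans h2)) (sq_nonneg _)
      have h5 := pow_eq_zero_iff (two_ne_zero) |>.1 h4
      have h6 := (Finset.sum_eq_zero_iff_of_nonneg (fun j _ => mul_self_nonneg _)).1 h5
      funext j
      have h7 := mul_self_eq_zero.1 (h6 j (Finset.mem_univ j))
      exact_mod_cast h7
    intro a _
    have h1 : ∀ i, (Pi.single i 1 : Fin n → ℚ) ∈
        (relQ x y).comap (LinearMap.inl ℚ (Fin n → ℚ) (Fin m → ℚ)) := by
      intro i
      have h2 := hC1 i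
      rw [hC0 i] at h2
      exact h2
    rw [pi_eq_sum_univ a]
    refine Submodule.sum_mem _ fun i _ => Submodule.smul_mem _ _ ?_
    have h3 : (fun j => if i = j then (1 : ℚ) else 0) = Pi.single i 1 := by
      funext j
      rw [Pi.single_apply]
      by_cases hj : i = j
      · rw [if_pos hj, if_pos hj.symm]
      · rw [if_neg hj, if_neg (fun h => hj h.symm)]
    rw [h3]
    exact h1 i
  refine ⟨β, hpos, fun u v huv => ?_⟩
  have hv : ∀ d ∈ S₀, ∑ j, (d j : ℝ) * v j = 0 := by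
    intro d hd
    have h1 := relQ_compat x y u v huv _ ((hS d).1 hd)
    have h2 : ∑ i, (((0 : Fin n → ℚ) i : ℚ) : ℝ) * u i = 0 :=
      Finset.sum_eq_zero fun i _ => by rw [Pi.zero_apply, Rat.cast_zero, zero_mul]
    change ∑ i, (((0 : Fin n → ℚ) i : ℚ) : ℝ) * u i + ∑ j, (d j : ℝ) * v j = 0 at h1
    rw [h2, zero_add] at h1
    exact h1
  rw [← key v hv]
  refine Finset.sum_congr rfl fun i _ => ?_
  have h1 := relQ_compat x y u v huv _ (hC1 i)
  have h2 : ∑ k, (((Pi.single i 1 : Fin n → ℚ) k : ℚ) : ℝ) * u k = u i := by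
    rw [Finset.sum_eq_single i]
    · rw [Pi.single_eq_same, Rat.cast_one, one_mul]
    · intro k _ hk
      rw [Pi.single_eq_of_ne hk, Rat.cast_zero, zero_mul]
    · intro h
      exact absurd (Finset.mem_univ i) h
  change ∑ k, (((Pi.single i 1 : Fin n → ℚ) k : ℚ) : ℝ) * u k + ∑ j, (C i j : ℝ) * v j = 0 at h1
  rw [h2] at h1
  have h3 : u i = -∑ j, (C i j : ℝ) * v j := by linarith
  rw [h3, neg_sq]

end WCn
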