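import Pool.Agent.Lib.MP_c2b80f_alC.GenDefs
import Pool.Agent.Lib.MP_c2b80f_alC.RelB
import Pool.Agent.Lib.MP_c2b80f_alC.RelC
import Pool.Agent.Lib.MP_c2b80f_alC.DiagB

/-!
# Weak commensurability of a generic element and another element (job Pair)
-/

open Matrix Polynomial

namespace WCn

variable {n m : ℕ}

/-- `h ∈ SL_n(ℂ)` is weakly commensurable to the generic element `γ ∈ SL_m(ℂ)`. Then `m ≤ n`, and if `m = n` the sums of the squares of the logarithms of the sizes of
the eigenvalues are proportional, with the same factor for all absolute values.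
Proof. Apply `rel_dim` with `S₀ = constS m`: `hS` is `constS_prod` (`diagBy_prod`), `hIrr` is `irr_constS`, `htor` is `exists_eig_not_torsion`. `finrank (constS m) = 1`, so
`finrank P + 1 = m + finrank R₁`; `R₁` contains the constant vector (`∏ x i = 1`), so `finrank R₁ ≥ 1` (if `n = 0` then `∏ x i ^ a i = 1`, excluded) and
`finrank P ≤ n`: `m ≤ n`. If `n ≤ m`, then `n = m`, `finrank P = n`, so `P = ⊤`, and `finrank R₁ = 1 < n`, so `R₁ ≠ ⊤`. Apply `rel_schur` with `schur_constS`. -/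
theorem pair (hm : 2 ≤ m) (A : Subring ℂ) (γ : SLC m) (hγ : Generic A γ) (h : SLC n)
    (hA : ∀ i, h.1.charpoly.coeff i ∈ A) (p : GL (Fin n) ℂ) (x : Fin n → ℂˣ) (q : GL (Fin m) ℂ) (y : Fin m → ℂˣ)
    (hx : DiagBy h p x) (hy : DiagBy γ q y) (a : Fin n → ℤ) (b : Fin m → ℤ)
    (hab : ∏ i, x i ^ a i = ∏ j, y j ^ b j) (hne : ∏ i, x i ^ a i ≠ 1) :
    m ≤ n ∧ (n ≤ m → ∃ β : ℝ, 0 < β ∧ ∀ (u : Fin n → ℝ) (v : Fin m → ℝ), Compat x y u v →
      ∑ i, u i ^ 2 = β * ∑ j, v j ^ 2) := by
  have hT : TwoTrans x y := by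
    refine hγ.2.2 q y hy n x ?_
    intro i
    have h1 := hA i
    rw [diagBy_charpoly hx] at h1
    exact h1
  have htor := exists_eig_not_torsion hy hγ.2.1
  obtain ⟨hR, hdim⟩ := rel_dim x y (constS m) (fun d hd => constS_prod y (diagBy_prod hy) d hd)
    (irr_constS hm x y hT) htor a b hab hne
  rw [finrank_constS (by omega)] at hdim
  have hn0 : n ≠ 0 := by
    rintro rfl
    exact hne (Finset.prod_of_isEmpty _)
  have hmem : (fun _ => 1 : Fin n → ℚ) ∈
      (relQ x y).comap (LinearMap.inl ℚ (Fin n → ℚ) (Fin m → ℚ)) := by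
    rw [Submodule.mem_comap, LinearMap.inl_apply, mem_relQ]
    refine ⟨1, fun _ => 1, fun _ => 0, one_pos, fun i => by norm_num, fun j => by norm_num, ?_⟩
    unfold MRel
    simp only [zpow_one, zpow_zero, Finset.prod_const_one, mul_one]
    exact diagBy_prod hx
  have hR1 : 1 ≤ Module.finrank ℚ ((relQ x y).comap (LinearMap.inl ℚ (Fin n → ℚ) (Fin m → ℚ))) := by
    rw [Submodule.one_le_finrank_iff]
    intro hb
    rw [hb, Submodule.mem_bot] at hmem
    have h2 := congrFun hmem ⟨0, Nat.pos_of_ne_zero hn0⟩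
    exact one_ne_zero h2
  have hPle : Module.finrank ℚ ((relQ x y).map (LinearMap.fst ℚ (Fin n → ℚ) (Fin m → ℚ))) ≤ n := by
    have h3 := Submodule.finrank_le ((relQ x y).map (LinearMap.fst ℚ (Fin n → ℚ) (Fin m → ℚ)))
    rwa [Module.finrank_fin_fun] at h3
  refine ⟨by omega, fun hnm => ?_⟩
  have hP : (relQ x y).map (LinearMap.fst ℚ (Fin n → ℚ) (Fin m → ℚ)) = ⊤ := by
    apply Submodule.eq_top_of_finrank_eq
    rw [Module.finrank_fin_fun]
    omega
  refine rel_schur x y (constS m) hR hP ?_ (schur_constS hm x y hT)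
  intro htop
  rw [htop, finrank_top, Module.finrank_fin_fun] at hdim
  omega

end WCn
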