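import Pool.Agent.Lib.MP_c2b80f_alC.SpecA

/-!
# Eigenvalues with respect to an absolute value (job SpecB)
-/

open Matrix

namespace WCn

variable {n : ℕ} {K : Subfield ℂ} {N : ℂ → ℝ}

/-- An eigenvalue `z` of a matrix `M` with entries in `K` lies in `K` (root of the characteristic polynomial), and
`N z ≤ nsz N M`. Proof: `M - z` has determinant zero, so there is a nonzero vector `v` with coordinates in the field `K` with `M v = z v`
(work with the matrix over `K`, `Matrix.exists_mulVec_eq_zero_iff`). If `N (v i)` is maximal, then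
`N z N (v i) = N (∑ j, M i j v j) ≤ ∑ j, N (M i j) N (v i)`, and `N (v i) > 0`. -/
theorem eig_le (hK : RootClosed K) (hN : AbsOn K N) (M : Matrix (Fin n) (Fin n) ℂ) (hM : InK K M) (z : ℂ)
    (hz : M.charpoly.eval z = 0) : z ∈ K ∧ N z ≤ nsz N M := by
  set MK : Matrix (Fin n) (Fin n) K := Matrix.of fun i j => (⟨M i j, hM i j⟩ : K) with hMK
  have hmap : MK.map K.subtype = M := by
    ext i j
    rfl
  have hch : M.charpoly = MK.charpoly.map K.subtype := by
    rw [← Matrix.charpoly_map, hmap]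
  have hzK : z ∈ K := by
    refine hK M.charpoly (Matrix.charpoly_monic M) (fun i => ?_) z hz
    rw [hch, Polynomial.coeff_map]
    exact (MK.charpoly.coeff i).2
  refine ⟨hzK, ?_⟩
  have hdet : (Matrix.scalar (Fin n) (⟨z, hzK⟩ : K) - MK).det = 0 := by
    rw [← Matrix.eval_charpoly]
    refine K.subtype_injective ?_
    rw [hch, Polynomial.eval_map] at hz
    have h1 := Polynomial.eval₂_at_apply (p := MK.charpoly) K.subtype (⟨z, hzK⟩ : K)
    rw [map_zero, ← h1]
    exact hz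
  obtain ⟨v, hv0, hv⟩ := Matrix.exists_mulVec_eq_zero_iff.2 hdet
  have hcoord : ∀ i, z * (v i : ℂ) = ∑ j, M i j * (v j : ℂ) := fun i => by
    have h1 := congrFun hv i
    rw [Matrix.sub_mulVec, Pi.sub_apply, Pi.zero_apply, sub_eq_zero] at h1
    have h2 : (Matrix.scalar (Fin n) (⟨z, hzK⟩ : K) *ᵥ v) i = ⟨z, hzK⟩ * v i := by
      rw [Matrix.scalar_apply, Matrix.mulVec_diagonal]
    rw [h2, Matrix.mulVec, dotProduct] at h1
    have h3 := congrArg K.subtype h1
    rw [map_mul, map_sum] at h3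
    refine Eq.trans h3 (Finset.sum_congr rfl fun j _ => ?_)
    rw [map_mul]
    rfl
  obtain ⟨i₁, hi₁⟩ : ∃ i, v i ≠ 0 := by
    by_contra hcon
    push Not at hcon
    exact hv0 (funext hcon)
  obtain ⟨i₀, -, hi₀⟩ := Finset.exists_max_image Finset.univ (fun i => N (v i : ℂ)) ⟨i₁, Finset.mem_univ _⟩
  have hpos : 0 < N (v i₀ : ℂ) := by
    refine lt_of_lt_of_le (hN.pos (v i₁).2 fun h => hi₁ (Subtype.ext h)) (hi₀ i₁ (Finset.mem_univ _))
  refine le_of_mul_le_mul_right ?_ hpos
  rw [← hN.mul z hzK _ (v i₀).2, hcoord i₀]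
  refine le_trans (hN.sum_le Finset.univ (fun j => M i₀ j * (v j : ℂ)) fun j _ => K.mul_mem (hM i₀ j) (v j).2) ?_
  unfold nsz
  rw [Finset.sum_mul]
  refine le_trans ?_ (Finset.single_le_sum (f := fun i => (∑ j, N (M i j)) * N (v i₀ : ℂ))
    (fun i _ => mul_nonneg (Finset.sum_nonneg fun j _ => hN.nonneg _) hpos.le) (Finset.mem_univ i₀))
  change _ ≤ (∑ j, N (M i₀ j)) * N (v i₀ : ℂ)
  rw [Finset.sum_mul]
  refine Finset.sum_le_sum fun j _ => ?_
  rw [hN.mul _ (hM i₀ j) _ (v j).2]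
  exact mul_le_mul_of_nonneg_left (hi₀ j (Finset.mem_univ _)) (hN.nonneg _)

end WCn
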