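import Pool.Agent.Lib.MP_c2b80f_alC.SpecW
import Pool.Agent.Lib.MP_c2b80f_alC.SpecB
import Pool.Agent.Lib.MP_c2b80f_alC.SpecD

/-!
# Domination of all absolute values of eigenvalues on groups with logarithmic expressions (job SpecC)
-/

open Matrix

namespace WCn

variable {n : ℕ} {K : Subfield ℂ}

/-- Proof. Let `D = 2 + 2 log n`, `C' = max C 0`, `C₁ = D * C'`. Fix `N`, `g`, `t`, `i`; put `W = log (1 + wt A₀ N) ≥ 1`. For every `k ≥ 1` the element `g ^ k ∈ Γ` is a product with cost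
at most `C' (1 + log (size (g ^ k)))` (`one_le_size`) and `size (g ^ k) ≤ c ρ ^ k` (`diagBy_size_pow`), so by `word_bound`
`nsz N (g ^ k) ≤ n exp (D W C' (1 + log c + k log ρ))`. The number `t i ^ k` is an eigenvalue of `g ^ k` (`diagBy_pow`, `diagBy_charpoly`), so
`N (t i) ^ k ≤ nsz N (g ^ k)` (`eig_le`, `mem_K_of_log`). Take logarithms (`N (t i) > 0`), divide by `k` and let `k → ∞`: `log N (t i) ≤ D C' W log ρ`. -/
theorem eig_bound (hn : 1 ≤ n) (hK : RootClosed K) (A₀ : Finset ℂ) (hA₀ : ∀ a ∈ A₀, a ∈ K) (Γ : Subgroup (SLC n))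
    (𝒳 : Finset (Matrix (Fin n) (Fin n) ℂ)) (C : ℝ)
    (hlog : ∀ g ∈ Γ, ∃ l : List (Matrix (Fin n) (Fin n) ℂ → ℤ),
      (l.map (comb 𝒳)).prod = g.1 ∧ (l.map (cst 𝒳)).sum ≤ C * (1 + Real.log (size g)))
    (h𝒳 : ∀ X ∈ 𝒳, ∀ i j, X i j ∈ A₀) :
    ∃ C₁ : ℝ, 0 ≤ C₁ ∧ ∀ N, AbsOn K N → ∀ g ∈ Γ, ∀ p t, DiagBy g p t → ∀ ρ : ℝ, 1 ≤ ρ → (∀ j, ‖(t j : ℂ)‖ ≤ ρ) →
      ∀ i, Real.log (N (t i)) ≤ C₁ * Real.log (1 + wt A₀ N) * Real.log ρ := by
  have hn1 : (1 : ℝ) ≤ n := by exact_mod_cast hn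
  have hlogn : 0 ≤ Real.log (n : ℝ) := Real.log_nonneg hn1
  have hC' : 0 ≤ max C 0 := le_max_right _ _
  have hD : 0 ≤ 2 + 2 * Real.log (n : ℝ) := by linarith
  refine ⟨(2 + 2 * Real.log (n : ℝ)) * max C 0, mul_nonneg hD hC', ?_⟩
  intro N hN g hg p t h ρ hρ htρ i
  obtain ⟨c, hc, hck⟩ := diagBy_size_pow hn h ρ htρ
  have hwt : 2 ≤ wt A₀ N := by
    unfold wt
    have : 0 ≤ ∑ a ∈ A₀, N a := Finset.sum_nonneg fun a _ => hN.nonneg a
    linarith
  have hW : 0 ≤ Real.log (1 + wt A₀ N) := Real.log_nonneg (by linarith)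
  have hρ0 : 0 < ρ := by linarith
  set D : ℝ := 2 + 2 * Real.log (n : ℝ) with hDdef
  set W : ℝ := Real.log (1 + wt A₀ N) with hWdef
  set E : ℝ := D * W * max C 0 with hE
  have hE0 : 0 ≤ E := mul_nonneg (mul_nonneg hD hW) hC'
  -- the main estimate
  have key : ∀ k : ℕ, ((t i : ℂ) ^ k ∈ K) ∧
      N ((t i : ℂ) ^ k) ≤ n * Real.exp (E * (1 + Real.log c + k * Real.log ρ)) := by
    intro k
    have hgk : g ^ k ∈ Γ := Γ.pow_mem hg k
    obtain ⟨l, hl1, hl2⟩ := hlog (g ^ k) hgk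
    have hs1 := one_le_size hn (g ^ k)
    have hls : 0 ≤ Real.log (size (g ^ k)) := Real.log_nonneg hs1
    have hls2 : Real.log (size (g ^ k)) ≤ Real.log c + k * Real.log ρ := by
      have h1 := Real.log_le_log (by linarith) (hck k)
      rw [Real.log_mul hc.ne' (pow_pos hρ0 k).ne', Real.log_pow] at h1
      exact h1
    have hsum : (l.map (cst 𝒳)).sum ≤ max C 0 * (1 + Real.log c + k * Real.log ρ) := by
      calc (l.map (cst 𝒳)).sum ≤ C * (1 + Real.log (size (g ^ k))) := hl2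
        _ ≤ max C 0 * (1 + Real.log (size (g ^ k))) :=
            mul_le_mul_of_nonneg_right (le_max_left _ _) (by linarith)
        _ ≤ max C 0 * (1 + Real.log c + k * Real.log ρ) :=
            mul_le_mul_of_nonneg_left (by linarith) hC'
    have hw := word_bound hn hN hA₀ h𝒳 l
    have hin := (mem_K_of_log A₀ hA₀ 𝒳 h𝒳 l).1
    rw [hl1] at hw hin
    have hz : (g ^ k).1.charpoly.eval ((t i : ℂ) ^ k) = 0 := by
      rw [diagBy_charpoly (diagBy_pow h k), Polynomial.eval_prod]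
      refine Finset.prod_eq_zero (Finset.mem_univ i) ?_
      simp
    obtain ⟨hzK, hzN⟩ := eig_le hK hN (g ^ k).1 hin ((t i : ℂ) ^ k) hz
    refine ⟨hzK, hzN.trans (hw.trans ?_)⟩
    refine mul_le_mul_of_nonneg_left (Real.exp_le_exp.2 ?_) (by linarith)
    calc D * W * (l.map (cst 𝒳)).sum
        ≤ D * W * (max C 0 * (1 + Real.log c + k * Real.log ρ)) :=
          mul_le_mul_of_nonneg_left hsum (mul_nonneg hD hW)
      _ = E * (1 + Real.log c + k * Real.log ρ) := by rw [hE]; ring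
  have htK : (t i : ℂ) ∈ K := by
    have := (key 1).1
    rwa [pow_one] at this
  have hNt : 0 < N (t i) := hN.pos htK (t i).ne_zero
  have key2 : ∀ k : ℕ, (k : ℝ) * (Real.log (N (t i)) - E * Real.log ρ) ≤
      Real.log n + E * (1 + Real.log c) := by
    intro k
    have h1 := (key k).2
    rw [hN.pow htK] at h1
    have h2 := Real.log_le_log (pow_pos hNt k) h1
    rw [Real.log_pow, Real.log_mul (by linarith) (Real.exp_pos _).ne', Real.log_exp] at h2
    linarith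
  have hfin : Real.log (N (t i)) - E * Real.log ρ ≤ 0 := by
    by_contra hcon
    push Not at hcon
    obtain ⟨k, hk⟩ := exists_nat_gt ((Real.log n + E * (1 + Real.log c)) / (Real.log (N (t i)) - E * Real.log ρ))
    rw [div_lt_iff₀ hcon] at hk
    linarith [key2 k]
  have : D * max C 0 * W * Real.log ρ = E * Real.log ρ := by rw [hE]; ring
  rw [this]
  linarith

end WCn
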