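import Pool.Agent.Lib.MP_c2b80f_alC.SpecA

/-!
# The transfer estimate (job TransB)
-/

open Matrix Polynomial

namespace WCn

variable {n m : ℕ}

private theorem transB_inv {K : Subfield ℂ} {N : ℂ → ℝ} (hN : AbsOn K N) {a : ℂ} (ha : a ∈ K) (h0 : a ≠ 0) :
    N a⁻¹ = (N a)⁻¹ := by
  have h1 := hN.mul a ha a⁻¹ (K.inv_mem ha)
  rw [mul_inv_cancel₀ h0, hN.one] at h1
  exact eq_inv_of_mul_eq_one_right h1.symm

private theorem transB_zpow {K : Subfield ℂ} {N : ℂ → ℝ} (hN : AbsOn K N) (z : ℂˣ) (hz : (z : ℂ) ∈ K) (k : ℤ) :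
    ((z ^ k : ℂˣ) : ℂ) ∈ K ∧ Real.log (N ((z ^ k : ℂˣ) : ℂ)) = k * Real.log (N z) := by
  have h0 : (z : ℂ) ≠ 0 := z.ne_zero
  refine ⟨?_, ?_⟩
  · rw [Units.val_zpow_eq_zpow_val]
    exact zpow_mem hz k
  · rw [Units.val_zpow_eq_zpow_val]
    cases k with
    | ofNat k =>
      rw [Int.ofNat_eq_natCast, zpow_natCast, hN.pow hz, Real.log_pow, Int.cast_natCast]
    | negSucc k =>
      rw [zpow_negSucc, transB_inv hN (pow_mem hz _) (pow_ne_zero _ h0), hN.pow hz, Real.log_inv, Real.log_pow,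
        Int.cast_negSucc]
      ring

private theorem transB_prod {K : Subfield ℂ} {N : ℂ → ℝ} (hN : AbsOn K N) {ι : Type} [Fintype ι] (z : ι → ℂˣ)
    (hz : ∀ i, (z i : ℂ) ∈ K) :
    ((∏ i, z i : ℂˣ) : ℂ) ∈ K ∧ Real.log (N ((∏ i, z i : ℂˣ) : ℂ)) = ∑ i, Real.log (N (z i)) := by
  have h1 : ((∏ i, z i : ℂˣ) : ℂ) = ∏ i, (z i : ℂ) := Units.coe_prod _ _
  refine ⟨?_, ?_⟩
  · rw [h1]
    exact prod_mem fun i _ => hz i
  · rw [h1, hN.prod _ _ fun i _ => hz i]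
    exact Real.log_prod fun i _ => (hN.pos (hz i) (z i).ne_zero).ne'

/-- The logarithms of the values of an absolute value on `K` are compatible with all relations. -/
theorem compat_log {K : Subfield ℂ} {N : ℂ → ℝ} (hN : AbsOn K N) (x : Fin n → ℂˣ) (y : Fin m → ℂˣ)
    (hx : ∀ i, (x i : ℂ) ∈ K) (hy : ∀ j, (y j : ℂ) ∈ K) :
    Compat x y (fun i => Real.log (N (x i))) (fun j => Real.log (N (y j))) := by
  intro c d h
  obtain ⟨h1, h1'⟩ := transB_prod hN (fun i => x i ^ c i) fun i => (transB_zpow hN (x i) (hx i) (c i)).1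
  obtain ⟨h2, h2'⟩ := transB_prod hN (fun j => y j ^ d j) fun j => (transB_zpow hN (y j) (hy j) (d j)).1
  have h3 := congrArg (fun z : ℂˣ => Real.log (N (z : ℂ))) h
  change Real.log (N (((∏ i, x i ^ c i) * ∏ j, y j ^ d j : ℂˣ) : ℂ)) = Real.log (N ((1 : ℂˣ) : ℂ)) at h3
  rw [Units.val_mul, hN.mul _ h1 _ h2, Units.val_one, hN.one, Real.log_one,
    Real.log_mul (hN.pos h1 (Units.ne_zero _)).ne' (hN.pos h2 (Units.ne_zero _)).ne', h1', h2'] at h3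
  rw [← h3]
  refine congrArg₂ (· + ·) ?_ ?_
  · exact Finset.sum_congr rfl fun i _ => (transB_zpow hN (x i) (hx i) (c i)).2.symm
  · exact Finset.sum_congr rfl fun j _ => (transB_zpow hN (y j) (hy j) (d j)).2.symm

/-- Let `x` (eigenvalues of `h ∈ Γ₁`, `n` of them) and `y` (eigenvalues of `γ`) satisfy the conclusion of `pair` with the factor `β`. Put `u i = log N (x i)`, `v j = log N (y j)`, and `u₀`, `v₀` for the usual absolute value.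
With `ρ = max ‖x i‖ ≥ 1` (`∏ x i = 1`): `u i ≤ B log ρ`, and `∑ u = 0` (`compat_log` or `AbsOn.prod`), so `- u i = ∑_{i' ≠ i} u i' ≤ (n - 1) B log ρ`, so `u i ^ 2 ≤ n ^ 2 B ^ 2 (log ρ) ^ 2` and
`(log ρ) ^ 2 ≤ ∑ u₀ i ^ 2 = β ∑ v₀ j ^ 2 ≤ β m δ₀ ^ 2`. Hence `v j ^ 2 ≤ ∑ v ^ 2 = β⁻¹ ∑ u ^ 2 ≤ β⁻¹ n ^ 3 B ^ 2 β m δ₀ ^ 2 ≤ (n ^ 2 m B δ₀) ^ 2`. -/
theorem transfer_bound (hn : 1 ≤ n) (x : Fin n → ℂˣ) (y : Fin m → ℂˣ) (hx1 : ∏ i, x i = 1) (β : ℝ) (hβ : 0 < β)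
    (hid : ∀ (u : Fin n → ℝ) (v : Fin m → ℝ), Compat x y u v → ∑ i, u i ^ 2 = β * ∑ j, v j ^ 2)
    {K : Subfield ℂ} (hxK : ∀ i, (x i : ℂ) ∈ K) (hyK : ∀ j, (y j : ℂ) ∈ K) {N : ℂ → ℝ} (hN : AbsOn K N) (B : ℝ) (hB : 0 ≤ B)
    (hb : ∀ ρ : ℝ, 1 ≤ ρ → (∀ i, ‖(x i : ℂ)‖ ≤ ρ) → ∀ i, Real.log (N (x i)) ≤ B * Real.log ρ)
    (δ₀ : ℝ) (hδ₀ : 0 ≤ δ₀) (hy0 : ∀ j, |Real.log ‖(y j : ℂ)‖| ≤ δ₀) :
    ∀ j, |Real.log (N (y j))| ≤ (n : ℝ) ^ 2 * m * B * δ₀ := by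
  intro j
  have hne : (Finset.univ : Finset (Fin n)).Nonempty := ⟨⟨0, hn⟩, Finset.mem_univ _⟩
  obtain ⟨i₀, -, hi₀⟩ := Finset.exists_max_image Finset.univ (fun i => ‖(x i : ℂ)‖) hne
  have hmax : ∀ i, ‖(x i : ℂ)‖ ≤ ‖(x i₀ : ℂ)‖ := fun i => hi₀ i (Finset.mem_univ i)
  have hpos : ∀ i, 0 < ‖(x i : ℂ)‖ := fun i => norm_pos_iff.2 (x i).ne_zero
  -- the maximum is at least one
  have hρ1 : 1 ≤ ‖(x i₀ : ℂ)‖ := by
    by_contra hcon
    push Not at hcon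
    have h1 : ‖((∏ i, x i : ℂˣ) : ℂ)‖ = ∏ i, ‖(x i : ℂ)‖ := by
      rw [Units.coe_prod, norm_prod]
    rw [hx1, Units.val_one, norm_one] at h1
    have h2 : ∏ i, ‖(x i : ℂ)‖ < ∏ _i : Fin n, (1 : ℝ) :=
      Finset.prod_lt_prod_of_nonempty (fun i _ => hpos i) (fun i _ => lt_of_le_of_lt (hmax i) hcon) hne
    rw [Finset.prod_const_one] at h2
    linarith
  have hlog0 : 0 ≤ Real.log ‖(x i₀ : ℂ)‖ := Real.log_nonneg hρ1
  have hu : ∀ i, Real.log (N (x i)) ≤ B * Real.log ‖(x i₀ : ℂ)‖ := hb _ hρ1 hmax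
  have hid1 := hid _ _ (compat_log hN x y hxK hyK)
  have hid0 := hid _ _ (compat_log (absOn_norm K) x y hxK hyK)
  have hm1 : (1 : ℝ) ≤ m := by
    have : 1 ≤ m := Nat.one_le_iff_ne_zero.2 fun h => by
      subst h
      exact j.elim0
    exact_mod_cast this
  have hn1 : (1 : ℝ) ≤ n := by exact_mod_cast hn
  -- the usual absolute value
  have hlog : Real.log ‖(x i₀ : ℂ)‖ ^ 2 ≤ β * (m * δ₀ ^ 2) := by
    have h1 : Real.log ‖(x i₀ : ℂ)‖ ^ 2 ≤ ∑ i, Real.log ‖(x i : ℂ)‖ ^ 2 :=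
      Finset.single_le_sum (f := fun i => Real.log ‖(x i : ℂ)‖ ^ 2) (fun i _ => sq_nonneg _) (Finset.mem_univ i₀)
    have h2 : ∑ j, Real.log ‖(y j : ℂ)‖ ^ 2 ≤ ∑ _j : Fin m, δ₀ ^ 2 :=
      Finset.sum_le_sum fun j _ => by
        rw [← sq_abs (Real.log ‖(y j : ℂ)‖)]
        exact pow_le_pow_left₀ (abs_nonneg _) (hy0 j) 2
    rw [Finset.sum_const, Finset.card_univ, Fintype.card_fin, nsmul_eq_mul] at h2
    exact h1.trans (hid0.le.trans (mul_le_mul_of_nonneg_left h2 hβ.le))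
  -- the other absolute value
  have hsum : ∑ i, Real.log (N (x i)) = 0 := by
    rw [← (transB_prod hN x hxK).2, hx1, Units.val_one, hN.one, Real.log_one]
  have habs : ∀ i, |Real.log (N (x i))| ≤ n * (B * Real.log ‖(x i₀ : ℂ)‖) := by
    intro i
    have hBl : 0 ≤ B * Real.log ‖(x i₀ : ℂ)‖ := mul_nonneg hB hlog0
    refine abs_le.2 ⟨?_, ?_⟩
    · have h1 : Real.log (N (x i)) = -∑ i' ∈ Finset.univ.erase i, Real.log (N (x i')) := by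
        have h2 := Finset.add_sum_erase Finset.univ (fun i' => Real.log (N (x i'))) (Finset.mem_univ i)
        rw [hsum] at h2
        linarith
      have h3 : ∑ i' ∈ Finset.univ.erase i, Real.log (N (x i')) ≤
          ∑ _i' ∈ Finset.univ.erase i, B * Real.log ‖(x i₀ : ℂ)‖ := Finset.sum_le_sum fun i' _ => hu i'
      have h4 : ∑ _i' ∈ Finset.univ.erase i, B * Real.log ‖(x i₀ : ℂ)‖ ≤
          ∑ _i' : Fin n, B * Real.log ‖(x i₀ : ℂ)‖ :=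
        Finset.sum_le_sum_of_subset_of_nonneg (Finset.erase_subset _ _) fun _ _ _ => hBl
      have h5 : ∑ _i' : Fin n, B * Real.log ‖(x i₀ : ℂ)‖ = n * (B * Real.log ‖(x i₀ : ℂ)‖) := by
        rw [Finset.sum_const, Finset.card_univ, Fintype.card_fin, nsmul_eq_mul]
      linarith
    · refine (hu i).trans ?_
      exact le_mul_of_one_le_left hBl hn1
  have hsq : ∑ i, Real.log (N (x i)) ^ 2 ≤ n * (n ^ 2 * B ^ 2 * (β * (m * δ₀ ^ 2))) := by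
    have h1 : ∑ i, Real.log (N (x i)) ^ 2 ≤ ∑ _i : Fin n, (n : ℝ) ^ 2 * B ^ 2 * (β * (m * δ₀ ^ 2)) := by
      refine Finset.sum_le_sum fun i _ => ?_
      rw [← sq_abs (Real.log (N (x i)))]
      refine (pow_le_pow_left₀ (abs_nonneg _) (habs i) 2).trans ?_
      rw [show ((n : ℝ) * (B * Real.log ‖(x i₀ : ℂ)‖)) ^ 2 = (n : ℝ) ^ 2 * B ^ 2 * Real.log ‖(x i₀ : ℂ)‖ ^ 2 by ring]
      exact mul_le_mul_of_nonneg_left hlog (by positivity)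
    rw [Finset.sum_const, Finset.card_univ, Fintype.card_fin, nsmul_eq_mul] at h1
    exact h1
  have hv : β * Real.log (N (y j)) ^ 2 ≤ β * (((n : ℝ) ^ 2 * m * B * δ₀) ^ 2) := by
    have h1 : Real.log (N (y j)) ^ 2 ≤ ∑ j, Real.log (N (y j)) ^ 2 :=
      Finset.single_le_sum (f := fun j => Real.log (N (y j)) ^ 2) (fun j _ => sq_nonneg _) (Finset.mem_univ j)
    have h2 := mul_le_mul_of_nonneg_left h1 hβ.le
    have h3 : (n : ℝ) * (n ^ 2 * B ^ 2 * (β * (m * δ₀ ^ 2))) ≤ β * (((n : ℝ) ^ 2 * m * B * δ₀) ^ 2) := by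
      have h4 : (n : ℝ) * (n ^ 2 * B ^ 2 * (β * (m * δ₀ ^ 2))) = (β * B ^ 2 * δ₀ ^ 2) * ((n : ℝ) ^ 3 * m) := by ring
      have h5 : β * (((n : ℝ) ^ 2 * m * B * δ₀) ^ 2) = (β * B ^ 2 * δ₀ ^ 2) * ((n : ℝ) ^ 4 * m ^ 2) := by ring
      rw [h4, h5]
      refine mul_le_mul_of_nonneg_left ?_ (by positivity)
      exact mul_le_mul (pow_le_pow_right₀ hn1 (by norm_num)) (le_self_pow₀ hm1 (by norm_num)) (by positivity)
        (by positivity)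
    exact h2.trans (hid1.symm.le.trans (hsq.trans h3))
  have hv' := le_of_mul_le_mul_left hv hβ
  exact abs_le_of_sq_le_sq hv' (by positivity)

end WCn
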