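import Pool.Agent.Lib.MP_c2b80f_alC.Fin
import Pool.Agent.Lib.MP_c2b80f_alC.SpecC
import Pool.Agent.Lib.MP_c2b80f_alC.GenC
import Pool.Agent.Lib.MP_c2b80f_alC.Pair
import Pool.Agent.Lib.MP_c2b80f_alC.TransB
import Pool.Agent.Lib.MP_c2b80f_alC.Entr
import Pool.Agent.Lib.MP_c2b80f_alC.NearE
import Pool.Agent.Lib.MP_c2b80f_alC.NearC
import Pool.Agent.Lib.MP_c2b80f_alC.Coef

/-!
# The main theorem for `SL_n`, `SL_m` (job Main)
-/

open Matrix Polynomial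

namespace WCn

variable {n m : ℕ}

/-- Proof. Suppose `Γ₂` is not discrete. Let `Λ` have logarithmic expressions with `𝒳`, `C`, `Γ₁ ≤ Λ`. Let `A₀` be a finite set containing the entries of the matrices in `𝒳` and the set of
`exists_entries` for `Γ₂`; `K` from `northcottB A₀`; entries of elements of `Γ₁`, `Γ₂` are in `A = Subring.closure A₀ ≤ K` (`mem_K_of_log`), so are the coefficients of characteristic
polynomials, and eigenvalues are in `K`. `n ≤ m`: take `h ∈ Γ₁` generic (`exists_generic`), it is weakly commensurable to some `g ∈ Γ₂`, `pair` (with the roles exchanged; `WComm` is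
symmetric) gives `n ≤ m`. Let `C₁` be the constant of `eig_bound` for `Λ`, `D = m * (n ^ 2 * m * C₁)`, and `δ` from `northcottB` with `C₀ = D`, `B₀ = 2 ^ m`; let `𝓕` be the finite set obtained.
Let `ε` be so small that `Near ε γ` implies `|log ‖eigenvalue‖| ≤ δ` (`near_eig`) and the conclusion of `near_charpoly` for `𝓕`. Let `γ ∈ Γ₂` be generic with `Near ε γ`
(`exists_generic_near`). It is weakly commensurable to some `h ∈ Γ₁`; `pair` gives `β`, and by `transfer_bound` with `B = C₁ log (1 + wt A₀ N)`, `δ₀ = δ`: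
`|log N (y j)| ≤ n ^ 2 m C₁ log (1 + wt A₀ N) δ` for all `N`, so by `coeff_bound_arch`, `coeff_bound_ultra` the coefficients of the characteristic polynomial of `γ` are in `𝓕`
(`2 ^ m exp (δ D W)`, `exp (δ D W)`). So the characteristic polynomial is `(X - 1) ^ m` and `γ = 1` (`eq_one_of_charpoly`), but `γ` has infinite order. -/
theorem main_SL (hn : 2 ≤ n) (hm : 2 ≤ m) (Γ₁ : Subgroup (SLC n)) (Γ₂ : Subgroup (SLC m))
    (h₁ : ∃ Λ : Subgroup (SLC n), Γ₁ ≤ Λ ∧ LogExpr Λ) (hz₁ : ZDense Γ₁) (h₂ : Γ₂.FG) (hz₂ : ZDense Γ₂)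
    (hwc₁ : ∀ g ∈ Γ₁, IsSs g → ¬ IsOfFinOrder g → ∃ h ∈ Γ₂, IsSs h ∧ ¬ IsOfFinOrder h ∧ WComm g h)
    (hwc₂ : ∀ g ∈ Γ₂, IsSs g → ¬ IsOfFinOrder g → ∃ h ∈ Γ₁, IsSs h ∧ ¬ IsOfFinOrder h ∧ WComm g h) :
    DiscreteTopology Γ₂ := by
  classical
  by_contra hnd
  obtain ⟨Λ, hΛ, 𝒳, C0, hlog⟩ := h₁
  obtain ⟨A₂, hA₂⟩ := exists_entries Γ₂ h₂
  have hn1 : 1 ≤ n := by omega
  -- the finite set of numbers
  let A₁ : Finset ℂ := 𝒳.biUnion fun X => Finset.univ.image fun ij : Fin n × Fin n => X ij.1 ij.2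
  let A₀ : Finset ℂ := A₁ ∪ A₂
  have h𝒳 : ∀ X ∈ 𝒳, ∀ i j, X i j ∈ A₀ := by
    intro X hX i j
    refine Finset.mem_union_left _ ?_
    exact Finset.mem_biUnion.2 ⟨X, hX, Finset.mem_image.2 ⟨(i, j), Finset.mem_univ _, rfl⟩⟩
  obtain ⟨K, hK0, hKc, hfin⟩ := northcottB A₀
  have hAK : ∀ z ∈ Subring.closure (A₀ : Set ℂ), z ∈ K := by
    intro z hz
    have h1 : Subring.closure (A₀ : Set ℂ) ≤ K.toSubring := Subring.closure_le.2 fun a ha => hK0 a ha
    exact h1 hz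
  have he1 : ∀ g ∈ Λ, ∀ i j, g.1 i j ∈ Subring.closure (A₀ : Set ℂ) := by
    intro g hg i j
    obtain ⟨l, hl, _⟩ := hlog g hg
    have h1 := (mem_K_of_log A₀ hK0 𝒳 h𝒳 l).2 i j
    rwa [hl] at h1
  have he2 : ∀ g ∈ Γ₂, ∀ i j, g.1 i j ∈ Subring.closure (A₀ : Set ℂ) := by
    intro g hg i j
    refine Subring.closure_mono ?_ (hA₂ g hg i j)
    intro z hz
    exact Finset.mem_coe.2 (Finset.mem_union_right _ (Finset.mem_coe.1 hz))
  -- eigenvalues are in `K`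
  have heig : ∀ {k : ℕ} (g : SLC k), (∀ i j, g.1 i j ∈ Subring.closure (A₀ : Set ℂ)) →
      ∀ (p : GL (Fin k) ℂ) (t : Fin k → ℂˣ), DiagBy g p t → ∀ i, (t i : ℂ) ∈ K := by
    intro k g hg p t hd i
    refine hKc g.1.charpoly (Matrix.charpoly_monic _)
      (fun i => hAK _ (charpoly_coeff_mem _ g.1 hg i)) _ ?_
    rw [diagBy_charpoly hd, Polynomial.eval_prod]
    refine Finset.prod_eq_zero (Finset.mem_univ i) ?_
    rw [Polynomial.eval_sub, Polynomial.eval_X, Polynomial.eval_C, sub_self]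
  -- the dimensions
  have hnm : n ≤ m := by
    obtain ⟨h, hh, hgen⟩ := exists_generic hn Γ₁ hz₁ A₀ fun g hg => he1 g (hΛ hg)
    obtain ⟨g, hg, _, _, hw⟩ := hwc₁ h hh hgen.1 hgen.2.1
    obtain ⟨p, t, q, s, a, b, hd1, hd2, hab, hne⟩ := hw
    exact (pair hn (Subring.closure (A₀ : Set ℂ)) h hgen g
      (fun i => charpoly_coeff_mem _ g.1 (he2 g hg) i) q s p t hd2 hd1 b a hab.symm
      (fun h1 => hne (hab.trans h1))).1
  obtain ⟨C₁, hC₁0, hC₁⟩ := eig_bound hn1 hKc A₀ hK0 Λ 𝒳 C0 hlog h𝒳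
  obtain ⟨δ, hδ, hF⟩ := hfin (m * ((n : ℝ) ^ 2 * m * C₁)) (2 ^ m) (by positivity)
    (one_le_pow₀ (by norm_num))
  obtain ⟨ε₁, hε₁, hn₁⟩ := near_eig (m := m) δ hδ
  obtain ⟨ε₂, hε₂, hn₂⟩ := near_charpoly (m := m) _ hF
  obtain ⟨γ, hγ, hnear, hgen⟩ := exists_generic_near hm Γ₂ hz₂ hnd A₀ he2 (min ε₁ ε₂) (lt_min hε₁ hε₂)
  have hne1 : Near ε₁ γ := fun i j => (hnear i j).trans_le (min_le_left _ _)
  have hne2 : Near ε₂ γ := fun i j => (hnear i j).trans_le (min_le_right _ _)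
  obtain ⟨h, hh, _, _, hw⟩ := hwc₂ γ hγ hgen.1 hgen.2.1
  obtain ⟨p, t, q, s, a, b, hd1, hd2, hab, hne⟩ := hw
  obtain ⟨β, hβ, hid⟩ := (pair hm (Subring.closure (A₀ : Set ℂ)) γ hgen h
      (fun i => charpoly_coeff_mem _ h.1 (he1 h (hΛ hh)) i) q s p t hd2 hd1 b a hab.symm
      (fun h1 => hne (hab.trans h1))).2 hnm
  have hsK := heig h (he1 h (hΛ hh)) q s hd2
  have htK := heig γ (he2 γ hγ) p t hd1
  have hlog0 : ∀ N, AbsOn K N → 0 ≤ Real.log (1 + wt A₀ N) := by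
    intro N hN
    apply Real.log_nonneg
    have h1 : 0 ≤ ∑ a ∈ A₀, N a := Finset.sum_nonneg fun a _ => hN.nonneg a
    unfold wt
    linarith
  have hbd : ∀ N, AbsOn K N → ∀ j, N (t j) ≤
      Real.exp ((n : ℝ) ^ 2 * m * (C₁ * Real.log (1 + wt A₀ N)) * δ) := by
    intro N hN j
    have h1 := transfer_bound hn1 s t (diagBy_prod hd2) β hβ hid hsK htK hN
      (C₁ * Real.log (1 + wt A₀ N)) (mul_nonneg hC₁0 (hlog0 N hN))
      (fun ρ hρ hsρ => hC₁ N hN h (hΛ hh) q s hd2 ρ hρ hsρ) δ hδ.le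
      (hn₁ γ p t hd1 hne1) j
    have h2 : 0 < N (t j) := hN.pos (htK j) (Units.ne_zero _)
    rw [← Real.exp_log h2]
    exact Real.exp_le_exp.2 ((le_abs_self _).trans h1)
  have hE0 : ∀ N, AbsOn K N → 0 ≤ (n : ℝ) ^ 2 * m * (C₁ * Real.log (1 + wt A₀ N)) * δ := by
    intro N hN
    have := hlog0 N hN
    positivity
  have hchar : γ.1.charpoly = (X - C 1) ^ m := by
    refine hn₂ γ hne2 fun i => ⟨charpoly_coeff_mem _ γ.1 (he2 γ hγ) i, fun N hN => ?_, fun N hN hU => ?_⟩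
    · rw [diagBy_charpoly hd1]
      refine (coeff_bound_arch hN (fun j => (t j : ℂ)) htK _ (hE0 N hN) (hbd N hN) i).trans (le_of_eq ?_)
      congr 2
      ring
    · rw [diagBy_charpoly hd1]
      refine (coeff_bound_ultra hN hU (fun j => (t j : ℂ)) htK _ (hE0 N hN) (hbd N hN) i).trans (le_of_eq ?_)
      congr 1
      ring
  have hone : γ = 1 := eq_one_of_charpoly hd1 hchar
  apply hgen.2.1
  rw [hone]
  exact IsOfFinOrder.one

end WCn
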