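import Pool.Agent.Lib.MP_c2b80f_alC.FormA
import Pool.Agent.Lib.MP_c2b80f_alC.FormB
import Pool.Agent.Lib.MP_c2b80f_alC.Main

/-!
# The main theorem for `SL_n / μ_d` (job Forms)
-/

open Matrix

namespace WCn

/-- Take preimages and apply `main_SL`. -/
theorem main_forms (n m d e : ℕ) (hn : 2 ≤ n) (hm : 2 ≤ m) (hd : d ∣ n) (he : e ∣ m) (Γ₁ : Subgroup (Pts n d)) (Γ₂ : Subgroup (Pts m e))
    (h₁ : ∃ Λ : Subgroup (SLC n), up Γ₁ ≤ Λ ∧ LogExpr Λ) (hz₁ : ZDense (up Γ₁)) (h₂ : Γ₂.FG) (hz₂ : ZDense (up Γ₂))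
    (hwc₁ : ∀ x ∈ Γ₁, IsSsP x → ¬ IsOfFinOrder x → ∃ y ∈ Γ₂, IsSsP y ∧ ¬ IsOfFinOrder y ∧ WCommP x y)
    (hwc₂ : ∀ y ∈ Γ₂, IsSsP y → ¬ IsOfFinOrder y → ∃ x ∈ Γ₁, IsSsP x ∧ ¬ IsOfFinOrder x ∧ WCommP y x) :
    DiscreteTopology Γ₂ := by
  have hd0 : 0 < d := Nat.pos_of_dvd_of_pos hd (by omega)
  have he0 : 0 < e := Nat.pos_of_dvd_of_pos he (by omega)
  refine discrete_of_up Γ₂ (main_SL hn hm (up Γ₁) (up Γ₂) h₁ hz₁ (up_fg he0 Γ₂ h₂) hz₂ ?_ ?_)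
  · intro g hg hs hf
    obtain ⟨y, hy, hys, hyf, hw⟩ := hwc₁ (QuotientGroup.mk g) hg (isSsP_mk g hs)
      (fun h => hf (finOrder_of_mk hd0 g h))
    obtain ⟨h, rfl⟩ := QuotientGroup.mk_surjective y
    exact ⟨h, hy, isSs_lift h hys, fun h' => hyf (finOrder_mk h h'), wComm_lift g h hw⟩
  · intro g hg hs hf
    obtain ⟨y, hy, hys, hyf, hw⟩ := hwc₂ (QuotientGroup.mk g) hg (isSsP_mk g hs)
      (fun h => hf (finOrder_of_mk he0 g h))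
    obtain ⟨h, rfl⟩ := QuotientGroup.mk_surjective y
    exact ⟨h, hy, isSs_lift h hys, fun h' => hyf (finOrder_mk h h'), wComm_lift g h hw⟩

end WCn
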