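import Pool.Agent.Lib.MP_c2b80f_alC.Defs

/-!
# Automorphisms permute roots and preserve multiplicative relations (job GalP)
-/

open Polynomial

namespace WCn

variable {n m : ℕ}

/-- Two families with the same multiset of values differ by a permutation. -/
private theorem galP_perm {α β : Type*} [Fintype α] (f g : α → β)
    (h : (Finset.univ.val : Multiset α).map f = Finset.univ.val.map g) : ∃ π : Equiv.Perm α, ∀ i, f i = g (π i) := by
  classical
  have hc : ∀ (f : α → β) (y : β), Fintype.card {i // f i = y} = Multiset.count y (Finset.univ.val.map f) :=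
    fun f y => by
      rw [Multiset.count_map, Fintype.card_subtype]
      refine congrArg Multiset.card (Multiset.filter_congr fun i _ => ?_)
      exact eq_comm
  have he : ∀ y, Nonempty ({i // f i = y} ≃ {i // g i = y}) := fun y =>
    ⟨Fintype.equivOfCardEq (by rw [hc, hc, h])⟩
  have e := fun y => (he y).some
  refine ⟨(Equiv.sigmaFiberEquiv f).symm.trans ((Equiv.sigmaCongrRight fun y => e y).trans
    (Equiv.sigmaFiberEquiv g)), fun i => ?_⟩
  exact ((e (f i)) ⟨i, rfl⟩).2.symm

/-- The roots are in the algebraic closure `L` of `k` in `ℂ`. -/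
theorem root_mem_closure (k : Subfield ℂ) (G : k[X]) (hG : G.Monic) (x : Fin n → ℂˣ)
    (hx : G.map (algebraMap k ℂ) = ∏ i, (X - C (x i : ℂ))) (i : Fin n) : (x i : ℂ) ∈ algebraicClosure k ℂ := by
  refine mem_algebraicClosure_iff.2 ⟨G, hG.ne_zero, ?_⟩
  rw [Polynomial.aeval_def, Polynomial.eval₂_eq_eval_map, hx, Polynomial.eval_prod]
  exact Finset.prod_eq_zero (Finset.mem_univ i) (by rw [eval_sub, eval_X, eval_C, sub_self])

/-- Proof. `∏ (X - τ (x i)) = ∏ (X - x i)` (over `L`: apply `τ` to the coefficients, which are in `k`; `G` over `L` is the product of the `X - x i`). So the multisets of the roots are equal, and there is a permutation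
(`Multiset` / `List.Perm`: two families `Fin n → L` with equal multisets differ by a permutation). -/
theorem exists_perm (k : Subfield ℂ) (G : k[X]) (hG : G.Monic) (x : Fin n → ℂˣ)
    (hx : G.map (algebraMap k ℂ) = ∏ i, (X - C (x i : ℂ))) (hxL : ∀ i, (x i : ℂ) ∈ algebraicClosure k ℂ)
    (τ : algebraicClosure k ℂ ≃ₐ[k] algebraicClosure k ℂ) :
    ∃ π : Equiv.Perm (Fin n), ∀ i, ((τ ⟨x i, hxL i⟩ : algebraicClosure k ℂ) : ℂ) = x (π i) := by
  let x' : Fin n → algebraicClosure k ℂ := fun i => ⟨x i, hxL i⟩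
  have h1 : G.map (algebraMap k (algebraicClosure k ℂ)) = ∏ i, (X - C (x' i)) := by
    refine Polynomial.map_injective (algebraMap (algebraicClosure k ℂ) ℂ) (algebraMap (algebraicClosure k ℂ) ℂ).injective ?_
    rw [Polynomial.map_map, ← IsScalarTower.algebraMap_eq k (algebraicClosure k ℂ) ℂ, hx, Polynomial.map_prod]
    refine Finset.prod_congr rfl fun i _ => ?_
    rw [Polynomial.map_sub, Polynomial.map_X, Polynomial.map_C]
    rfl
  have h2 : ∏ i, (X - C (τ (x' i))) = ∏ i, (X - C (x' i)) := by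
    have h3 : (G.map (algebraMap k (algebraicClosure k ℂ))).map (τ : (algebraicClosure k ℂ) →+* (algebraicClosure k ℂ)) = G.map (algebraMap k (algebraicClosure k ℂ)) := by
      rw [Polynomial.map_map]
      exact congrArg (fun r => G.map r) (RingHom.ext fun a => τ.commutes a)
    rw [h1, Polynomial.map_prod] at h3
    rw [← h3]
    refine Finset.prod_congr rfl fun i _ => ?_
    rw [Polynomial.map_sub, Polynomial.map_X, Polynomial.map_C]
    rfl
  have h3 : ∀ f : Fin n → algebraicClosure k ℂ, (∏ i, (X - C (f i))).roots = Finset.univ.val.map f := fun f => by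
    have h4 := Polynomial.roots_multiset_prod_X_sub_C (Finset.univ.val.map f)
    rw [Multiset.map_map] at h4
    exact h4
  obtain ⟨π, hπ⟩ := galP_perm (fun i => τ (x' i)) x' (by rw [← h3, ← h3, h2])
  exact ⟨π, fun i => congrArg (fun z : algebraicClosure k ℂ => (z : ℂ)) (hπ i)⟩

/-- Apply `τ` to a multiplicative relation. -/
theorem relSym_of_aut (k : Subfield ℂ) (x : Fin n → ℂˣ) (y : Fin m → ℂˣ) (hxL : ∀ i, (x i : ℂ) ∈ algebraicClosure k ℂ)
    (hyL : ∀ j, (y j : ℂ) ∈ algebraicClosure k ℂ) (τ : algebraicClosure k ℂ ≃ₐ[k] algebraicClosure k ℂ)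
    (π : Equiv.Perm (Fin n)) (hπ : ∀ i, ((τ ⟨x i, hxL i⟩ : algebraicClosure k ℂ) : ℂ) = x (π i))
    (ρ : Equiv.Perm (Fin m)) (hρ : ∀ j, ((τ ⟨y j, hyL j⟩ : algebraicClosure k ℂ) : ℂ) = y (ρ j)) :
    RelSym x y π ρ := by
  intro c d h
  have hcast : ∀ (u : Fin n → ℂˣ) (v : Fin m → ℂˣ), MRel u v c d ↔
      (∏ i, (u i : ℂ) ^ c i) * ∏ j, (v j : ℂ) ^ d j = 1 := fun u v => by
    unfold MRel
    rw [← Units.val_inj, Units.val_mul, Units.coe_prod, Units.coe_prod, Units.val_one]
    simp only [Units.val_zpow_eq_zpow_val]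
  have h1 : (∏ i, (⟨x i, hxL i⟩ : algebraicClosure k ℂ) ^ c i) *
      ∏ j, (⟨y j, hyL j⟩ : algebraicClosure k ℂ) ^ d j = 1 := by
    refine (algebraMap (algebraicClosure k ℂ) ℂ).injective ?_
    rw [map_mul, map_prod, map_prod, map_one]
    simp only [map_zpow₀]
    exact (hcast x y).1 h
  have h2 := congrArg (fun z => algebraMap (algebraicClosure k ℂ) ℂ (τ z)) h1
  simp only [map_mul, map_prod, map_one, map_zpow₀] at h2
  rw [hcast]
  refine Eq.trans ?_ h2
  refine congrArg₂ (· * ·) (Finset.prod_congr rfl fun i _ => ?_) (Finset.prod_congr rfl fun j _ => ?_)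
  · exact congrArg (fun z : ℂ => z ^ c i) (hπ i).symm
  · exact congrArg (fun z : ℂ => z ^ d j) (hρ j).symm

end WCn
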