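import Mathlib

/-!
# Automorphisms with prescribed values (job GalT)
-/

open Polynomial

namespace WCn

/-- `L = algebraicClosure k ℂ` is normal over `k` and over `k(z)`. -/
theorem exists_aut_one (k : Subfield ℂ) (F : k[X]) (hF : F.Monic) (hFi : Irreducible F) (a b : algebraicClosure k ℂ)
    (ha : aeval (a : ℂ) F = 0) (hb : aeval (b : ℂ) F = 0) :
    ∃ τ : algebraicClosure k ℂ ≃ₐ[k] algebraicClosure k ℂ, τ a = b := by
  have hnorm : Normal k (algebraicClosure k ℂ) := IsAlgClosure.normal k (algebraicClosure k ℂ)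
  have h1 : ∀ c : algebraicClosure k ℂ, aeval (c : ℂ) F = 0 → F = minpoly k c := by
    intro c hc
    refine minpoly.eq_of_irreducible_of_monic hFi ?_ hF
    apply (algebraMap (algebraicClosure k ℂ) ℂ).injective
    rw [map_zero, ← aeval_algebraMap_apply]
    exact hc
  have hconj : IsConjRoot k a b := by
    rw [isConjRoot_def, ← h1 a ha, ← h1 b hb]
  obtain ⟨σ, hσ⟩ := isConjRoot_iff_exists_algEquiv.mp hconj
  exact ⟨σ.symm, (AlgEquiv.symm_apply_eq σ).mpr hσ.symm⟩

/-- If `w`, `w'` have the same minimal polynomial over `k(z)`, there is an automorphism over `k` fixing `z` with `w ↦ w'`. (`L` is the algebraic closure of `k(z)` in `ℂ` as well, a normal extension of `k(z)`; use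
`isConjRoot_iff_exists_algEquiv` or `IntermediateField.exists_algHom_adjoin_of_splits`, `Normal.exists_isAlgClosure...`, and restrict scalars to `k`.) -/
theorem exists_aut_two (k : Subfield ℂ) (z w w' : algebraicClosure k ℂ)
    (h : minpoly (IntermediateField.adjoin k {(z : ℂ)}) (w : ℂ) = minpoly (IntermediateField.adjoin k {(z : ℂ)}) (w' : ℂ)) :
    ∃ τ : algebraicClosure k ℂ ≃ₐ[k] algebraicClosure k ℂ, τ z = z ∧ τ w = w' := by
  have hnorm : Normal k (algebraicClosure k ℂ) := IsAlgClosure.normal k (algebraicClosure k ℂ)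
  have hle : IntermediateField.adjoin k {(z : ℂ)} ≤ algebraicClosure k ℂ := by
    rw [IntermediateField.adjoin_le_iff]
    intro x hx
    rw [Set.mem_singleton_iff] at hx
    rw [hx]
    exact z.2
  letI : Algebra (IntermediateField.adjoin k {(z : ℂ)}) (algebraicClosure k ℂ) :=
    (IntermediateField.inclusion hle).toAlgebra
  haveI : IsScalarTower k (IntermediateField.adjoin k {(z : ℂ)}) (algebraicClosure k ℂ) :=
    IsScalarTower.of_algebraMap_eq fun x => ((IntermediateField.inclusion hle).commutes x).symm
  haveI : IsScalarTower (IntermediateField.adjoin k {(z : ℂ)}) (algebraicClosure k ℂ) ℂ :=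
    IsScalarTower.of_algebraMap_eq fun x => rfl
  haveI : Normal (IntermediateField.adjoin k {(z : ℂ)}) (algebraicClosure k ℂ) :=
    Normal.tower_top_of_normal k _ _
  have hinj : Function.Injective (algebraMap (algebraicClosure k ℂ) ℂ) := (algebraMap (algebraicClosure k ℂ) ℂ).injective
  have hconj : IsConjRoot (IntermediateField.adjoin k {(z : ℂ)}) w w' := by
    rw [isConjRoot_def, ← minpoly.algebraMap_eq hinj, ← minpoly.algebraMap_eq hinj]
    exact h
  obtain ⟨σ, hσ⟩ := isConjRoot_iff_exists_algEquiv.mp hconj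
  let g : IntermediateField.adjoin k {(z : ℂ)} := IntermediateField.AdjoinSimple.gen k (z : ℂ)
  have hg : algebraMap (IntermediateField.adjoin k {(z : ℂ)}) (algebraicClosure k ℂ) g = z := by
    apply Subtype.ext
    rfl
  refine ⟨σ.symm.restrictScalars k, ?_, ?_⟩
  · change σ.symm z = z
    have h1 := σ.symm.commutes g
    rw [hg] at h1
    exact h1
  · change σ.symm w = w'
    exact (AlgEquiv.symm_apply_eq σ).mpr hσ.symm

end WCn
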