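import Pool.Agent.Lib.MP_c2b80f_alC.RelD
import Pool.Agent.Lib.MP_c2b80f_alC.GalP
import Pool.Agent.Lib.MP_c2b80f_alC.GalT

/-!
# Two-transitivity from Galois theory (job GalA)
-/

open Polynomial

namespace WCn

variable {n m : ℕ}

/-- Proof. Let `L` be the algebraic closure of `k` in `ℂ`; all `x i`, `y j` are in `L` (`root_mem_closure`). By `exists_perm`, `relSym_of_aut` every automorphism `τ` of `L` over `k` gives a symmetry. Given `j ≠ j'`,
`l ≠ l'`: `F` is irreducible, hence separable, so the `y j` are different. There is `τ₁` with `τ₁ (y j) = y l` (`exists_aut_one`). Then `w = τ₁ (y j') ≠ y l`. By `h2` with `z = y l` and `exists_aut_two` there is `τ₂`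
with `τ₂ (y l) = y l`, `τ₂ w = y l'`. Take the symmetry of `τ₂ τ₁`; its `ρ` satisfies `ρ j = l`, `ρ j' = l'` because the `y j` are different. -/
theorem twoTrans_of_conj (k : Subfield ℂ) (F G : k[X]) (hF : F.Monic) (hFi : Irreducible F) (hG : G.Monic)
    (x : Fin n → ℂˣ) (hx : G.map (algebraMap k ℂ) = ∏ i, (X - C (x i : ℂ)))
    (y : Fin m → ℂˣ) (hy : F.map (algebraMap k ℂ) = ∏ j, (X - C (y j : ℂ)))
    (h2 : ∀ z w w' : ℂ, aeval z F = 0 → aeval w F = 0 → aeval w' F = 0 → w ≠ z → w' ≠ z →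
      minpoly (IntermediateField.adjoin k {z}) w = minpoly (IntermediateField.adjoin k {z}) w') :
    TwoTrans x y := by
  intro j j' l l' hj hl
  have hxL := root_mem_closure k G hG x hx
  have hyL := root_mem_closure k F hF y hy
  have hroot : ∀ i, aeval (y i : ℂ) F = 0 := by
    intro i
    rw [aeval_def, ← eval_map, hy, eval_prod]
    refine Finset.prod_eq_zero (Finset.mem_univ i) ?_
    rw [eval_sub, eval_X, eval_C, sub_self]
  have hinj : Function.Injective fun i => (y i : ℂ) := by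
    have h1 : (F.map (algebraMap k ℂ)).Separable := (hFi.separable).map
    rw [hy] at h1
    exact separable_prod_X_sub_C_iff.1 h1
  obtain ⟨τ₁, h3⟩ := exists_aut_one k F hF hFi ⟨y j, hyL j⟩ ⟨y l, hyL l⟩ (hroot j) (hroot l)
  obtain ⟨ρ₁, h4⟩ := exists_perm k F hF y hy hyL τ₁
  have hw : ((τ₁ ⟨y j', hyL j'⟩ : algebraicClosure k ℂ) : ℂ) ≠ y l := by
    intro h
    apply hj
    apply hinj
    have h5 : τ₁ ⟨y j', hyL j'⟩ = τ₁ ⟨y j, hyL j⟩ := by
      rw [h3]
      exact Subtype.ext h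
    have h6 := τ₁.injective h5
    exact (congrArg Subtype.val h6).symm
  have hl' : (y l' : ℂ) ≠ y l := fun h => hl (hinj h).symm
  have hmin := h2 (y l) ((τ₁ ⟨y j', hyL j'⟩ : algebraicClosure k ℂ) : ℂ) (y l') (hroot l)
    (by rw [h4]; exact hroot _) (hroot l') hw hl'
  obtain ⟨τ₂, h7, h8⟩ := exists_aut_two k ⟨y l, hyL l⟩ (τ₁ ⟨y j', hyL j'⟩) ⟨y l', hyL l'⟩ hmin
  obtain ⟨π, hπ⟩ := exists_perm k G hG x hx hxL (τ₁.trans τ₂)
  obtain ⟨ρ, hρ⟩ := exists_perm k F hF y hy hyL (τ₁.trans τ₂)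
  refine ⟨π, ρ, relSym_of_aut k x y hxL hyL (τ₁.trans τ₂) π hπ ρ hρ, ?_, ?_⟩
  · apply hinj
    change (y (ρ j) : ℂ) = y l
    rw [← hρ j, AlgEquiv.trans_apply, h3, h7]
  · apply hinj
    change (y (ρ j') : ℂ) = y l'
    rw [← hρ j', AlgEquiv.trans_apply, h8]

end WCn
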