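import Mathlib

/-!
# Minimal polynomials over `k(z)` (job GalM)
-/

open Polynomial

namespace WCn

/-- Irreducibility can be tested after a field extension. -/
theorem irreducible_of_map_field {k L : Type*} [Field k] [Field L] (κ : k →+* L) (F : k[X]) (h : Irreducible (F.map κ)) :
    Irreducible F := by
  refine ⟨fun hu => h.not_isUnit (hu.map (Polynomial.mapRingHom κ)), fun a b hab => ?_⟩
  have h1 : F.map κ = a.map κ * b.map κ := by rw [hab, Polynomial.map_mul]
  rcases h.isUnit_or_isUnit h1 with h2 | h2
  · exact Or.inl ((Polynomial.isUnit_map κ).mp h2)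
  · exact Or.inr ((Polynomial.isUnit_map κ).mp h2)

/-- Let `F` be irreducible over `k`, and suppose that over the field `L ⊇ k` (embedding `κ`) `F` is `(X - θ)` times an irreducible polynomial. Then all roots `w ≠ z` of `F` have the same minimal polynomial over `k(z)`, for each root `z`.
Proof. As `F` is the minimal polynomial of `z` there is an embedding `κ' : k(z) → L` over `κ` with `z ↦ θ` (`IntermediateField.adjoinRootEquivAdjoin`, `AdjoinRoot.lift` or `IntermediateField.AdjoinSimple` lifts). Let `Q` be the quotient of
`F` by `X - z` over `k(z)`; `κ'` maps it to the quotient of `F.map κ` by `X - θ`, which is irreducible, so `Q` is irreducible (`irreducible_of_map_field`) and monic, and `Q(w) = 0` for every root `w ≠ z` of `F`. So it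
is the minimal polynomial of `w` over `k(z)`. -/
theorem minpoly_eq_of_embedding (k : Subfield ℂ) (F : k[X]) (hF : F.Monic) (hFi : Irreducible F) (L : Type) [Field L] (κ : k →+* L)
    (θ : L) (hθ : (F.map κ).IsRoot θ) (hirr : Irreducible (F.map κ /ₘ (X - C θ))) :
    ∀ z w w' : ℂ, aeval z F = 0 → aeval w F = 0 → aeval w' F = 0 → w ≠ z → w' ≠ z →
      minpoly (IntermediateField.adjoin k {z}) w = minpoly (IntermediateField.adjoin k {z}) w' := by
  intro z w w' hz hw hw' hwz hwz'
  letI : Algebra k L := κ.toAlgebra
  have hmin : minpoly k z = F := (minpoly.eq_of_irreducible_of_monic hFi hz hF).symm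
  have hint : IsIntegral k z := ⟨F, hF, by rwa [← aeval_def]⟩
  let K1 := IntermediateField.adjoin k {z}
  let pb := IntermediateField.adjoin.powerBasis hint
  have hgen : pb.gen = IntermediateField.AdjoinSimple.gen k z :=
    IntermediateField.adjoin.powerBasis_gen hint
  have hlift : aeval θ (minpoly k pb.gen) = 0 := by
    rw [hgen, IntermediateField.minpoly_gen, hmin, aeval_def]
    rw [IsRoot.def, eval_map] at hθ
    exact hθ
  let κ' : K1 →ₐ[k] L := pb.lift θ hlift
  have hκ'gen : κ' (IntermediateField.AdjoinSimple.gen k z) = θ := by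
    rw [← hgen]
    exact pb.lift_gen θ hlift
  let Fz : K1[X] := F.map (algebraMap k K1)
  have hFz : Fz.Monic := hF.map _
  have hFzmap : Fz.map (κ' : K1 →+* L) = F.map κ := by
    simp only [Fz]
    rw [Polynomial.map_map]
    congr 1
    exact κ'.comp_algebraMap
  let g : K1 := IntermediateField.AdjoinSimple.gen k z
  have hgz : algebraMap K1 ℂ g = z := rfl
  have hroot : Fz.IsRoot g := by
    rw [IsRoot.def]
    apply (algebraMap K1 ℂ).injective
    rw [map_zero, ← Polynomial.eval₂_at_apply, hgz]
    simp only [Fz]
    rw [Polynomial.eval₂_map]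
    exact hz
  let Q : K1[X] := Fz /ₘ (X - C g)
  have hFQ : (X - C g) * Q = Fz := mul_divByMonic_eq_iff_isRoot.mpr hroot
  have hQmonic : Q.Monic := by
    have : ((X - C g) * Q).Monic := by rw [hFQ]; exact hFz
    exact (monic_X_sub_C g).of_mul_monic_left this
  have hQirr : Irreducible Q := by
    apply irreducible_of_map_field (κ' : K1 →+* L)
    have h1 : Q.map (κ' : K1 →+* L) = F.map κ /ₘ (X - C θ) := by
      simp only [Q]
      rw [Polynomial.map_divByMonic _ (monic_X_sub_C g), hFzmap]
      congr 1
      rw [Polynomial.map_sub, Polynomial.map_X, Polynomial.map_C]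
      congr 2
    rw [h1]
    exact hirr
  have key : ∀ v : ℂ, aeval v F = 0 → v ≠ z → Q = minpoly K1 v := by
    intro v hv hvz
    refine minpoly.eq_of_irreducible_of_monic hQirr ?_ hQmonic
    have h1 : aeval v Fz = 0 := by
      simp only [Fz]
      rw [aeval_map_algebraMap]
      exact hv
    rw [← hFQ, map_mul] at h1
    rcases mul_eq_zero.mp h1 with h2 | h2
    · exfalso
      apply hvz
      rw [map_sub, aeval_X, aeval_C, hgz, sub_eq_zero] at h2
      exact h2
    · exact h2
  exact (key w hw hwz).symm.trans (key w' hw' hwz')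

end WCn
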