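import Pool.Agent.Lib.MP_c2b80f_alC.GalA
import Pool.Agent.Lib.MP_c2b80f_alC.GalM

/-!
# Two-transitivity from two `p`-adic embeddings (job GalB)
-/

open Polynomial

namespace WCn

variable {n m : ℕ}

/-- The inclusion of a subring of the complex numbers in the subfield generated by it. -/
noncomputable def galB_emb (A : Subring ℂ) : A →+* Subfield.closure (A : Set ℂ) :=
  A.subtype.codRestrict (Subfield.closure (A : Set ℂ)) fun a => Subfield.subset_closure a.2

/-- An injective homomorphism from a subring of `ℂ` to a field extends to the subfield generated by it. (Fraction field; compare `EmbH`.) -/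
theorem extend_to_field (A : Subring ℂ) (L : Type) [Field L] (σ : A →+* L) (hσ : Function.Injective σ) :
    ∃ κ : Subfield.closure (A : Set ℂ) →+* L, ∀ a : A, κ ⟨a, Subfield.subset_closure a.2⟩ = σ a := by
  let _ : Algebra A (Subfield.closure (A : Set ℂ)) := (galB_emb A).toAlgebra
  have h0 : ∀ a : A, algebraMap A (Subfield.closure (A : Set ℂ)) a = ⟨a, Subfield.subset_closure a.2⟩ := fun _ => rfl
  have : FaithfulSMul A (Subfield.closure (A : Set ℂ)) := by
    rw [faithfulSMul_iff_algebraMap_injective]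
    intro a b h
    rw [h0, h0] at h
    have h1 : (a : ℂ) = b := congrArg (fun z : Subfield.closure (A : Set ℂ) => (z : ℂ)) h
    exact Subtype.ext h1
  have : IsFractionRing A (Subfield.closure (A : Set ℂ)) := by
    apply IsFractionRing.of_field
    intro z
    obtain ⟨a, ha, b, hb, hab⟩ := Subfield.mem_closure_iff.1 z.2
    rw [Subring.closure_eq] at ha hb
    refine ⟨⟨a, ha⟩, ⟨b, hb⟩, ?_⟩
    rw [h0, h0]
    apply Subtype.ext
    exact hab.symm
  refine ⟨IsFractionRing.lift hσ, fun a => ?_⟩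
  rw [← h0 a, IsFractionRing.lift_algebraMap]

/-- Proof. Let `k = Subfield.closure A`, and let `F'`, `G'` be `F`, `G` over `k`. By `extend_to_field` `σ`, `τ` (composed with `ℤ_p → ℚ_p`, `ℤ_q → ℚ_q`) extend to `k`.
`F'` is irreducible over `k` (`irreducible_of_map_field`). Apply `minpoly_eq_of_embedding` and `twoTrans_of_conj`. -/
theorem twoTrans_padic (A : Subring ℂ) (F G : A[X]) (hF : F.Monic) (hG : G.Monic)
    (x : Fin n → ℂˣ) (hx : G.map A.subtype = ∏ i, (X - C (x i : ℂ)))
    (y : Fin m → ℂˣ) (hy : F.map A.subtype = ∏ j, (X - C (y j : ℂ)))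
    (p q : ℕ) [Fact p.Prime] [Fact q.Prime] (σ : A →+* ℤ_[p]) (hσ : Function.Injective σ)
    (τ : A →+* ℤ_[q]) (hτ : Function.Injective τ)
    (h1 : Irreducible (F.map ((algebraMap ℤ_[p] ℚ_[p]).comp σ)))
    (h2 : ∃ θ : ℚ_[q], (F.map ((algebraMap ℤ_[q] ℚ_[q]).comp τ)).IsRoot θ ∧
      Irreducible (F.map ((algebraMap ℤ_[q] ℚ_[q]).comp τ) /ₘ (X - C θ))) :
    TwoTrans x y := by
  have hp : Function.Injective ((algebraMap ℤ_[p] ℚ_[p]).comp σ) :=
    (FaithfulSMul.algebraMap_injective ℤ_[p] ℚ_[p]).comp hσ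
  have hq : Function.Injective ((algebraMap ℤ_[q] ℚ_[q]).comp τ) :=
    (FaithfulSMul.algebraMap_injective ℤ_[q] ℚ_[q]).comp hτ
  obtain ⟨κp, hκp⟩ := extend_to_field A ℚ_[p] _ hp
  obtain ⟨κq, hκq⟩ := extend_to_field A ℚ_[q] _ hq
  have e1 : κp.comp (galB_emb A) = (algebraMap ℤ_[p] ℚ_[p]).comp σ := RingHom.ext hκp
  have e2 : κq.comp (galB_emb A) = (algebraMap ℤ_[q] ℚ_[q]).comp τ := RingHom.ext hκq
  have e3 : (algebraMap (Subfield.closure (A : Set ℂ)) ℂ).comp (galB_emb A) = A.subtype := rfl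
  have f1 : (F.map (galB_emb A)).map κp = F.map ((algebraMap ℤ_[p] ℚ_[p]).comp σ) := by
    rw [Polynomial.map_map, e1]
  have f2 : (F.map (galB_emb A)).map κq = F.map ((algebraMap ℤ_[q] ℚ_[q]).comp τ) := by
    rw [Polynomial.map_map, e2]
  have hFi : Irreducible (F.map (galB_emb A)) := irreducible_of_map_field κp _ (by rw [f1]; exact h1)
  obtain ⟨θ, hθ, hirr⟩ := h2
  refine twoTrans_of_conj (Subfield.closure (A : Set ℂ)) (F.map (galB_emb A)) (G.map (galB_emb A)) (hF.map _) hFi (hG.map _)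
    x ?_ y ?_ ?_
  · rw [Polynomial.map_map, e3, hx]
  · rw [Polynomial.map_map, e3, hy]
  · exact minpoly_eq_of_embedding _ _ (hF.map _) hFi ℚ_[q] κq θ (by rw [f2]; exact hθ) (by rw [f2]; exact hirr)

end WCn
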