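import Pool.Agent.Lib.MP_c2b80f_alC.AdE
import Pool.Agent.Lib.MP_c2b80f_alC.AdB

/-!
# A finite set of coefficients (job GenR)
-/

open Matrix Polynomial

namespace WCn

variable {m : ℕ}

/-- Consequence of `op_mem_AdS` and `AdS_of_zDense` (elements of the span of an image are finite sums, `Submodule.mem_span_image_iff_exists_fun` or `Finsupp`). -/
theorem exists_op_sum (Γ : Subgroup (SLC m)) (hz : ZDense Γ) (X Z : Matrix (Fin m) (Fin m) ℂ)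
    (hX : X ∈ slSet m) (hZ : Z ∈ slSet m) :
    ∃ (s : Finset (SLC m)) (c : SLC m → ℂ), (∀ g ∈ s, g ∈ Γ) ∧
      ∀ Y : Matrix (Fin m) (Fin m) ℂ, ∑ g ∈ s, c g • (g.1 * Y * (g⁻¹).1) = (Z * Y).trace • X := by
  have h1 : Op X Z ∈ AdS (Γ : Set (SLC m)) := by
    rw [AdS_of_zDense Γ hz]
    exact op_mem_AdS X Z hX hZ
  unfold AdS at h1
  rw [Finsupp.mem_span_image_iff_linearCombination] at h1
  obtain ⟨l, hl, hsum⟩ := h1
  refine ⟨l.support, l, ?_, ?_⟩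
  · intro g hg
    exact (Finsupp.mem_supported ℂ l).1 hl hg
  · intro Y
    have h2 := congrArg (fun T : Matrix (Fin m) (Fin m) ℂ →ₗ[ℂ] Matrix (Fin m) (Fin m) ℂ => T Y) hsum
    simp only [Finsupp.linearCombination_apply, Finsupp.sum, LinearMap.sum_apply, LinearMap.smul_apply] at h2
    exact h2

private theorem genR_slSet_finite : (slSet m).Finite := by
  have h1 : slSet m ⊆ Set.range (fun p : Fin m × Fin m => (Matrix.single p.1 p.2 1 : Matrix (Fin m) (Fin m) ℂ)) ∪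
      Set.range (fun p : Fin m × Fin m => (Matrix.single p.1 p.1 1 - Matrix.single p.2 p.2 1 : Matrix (Fin m) (Fin m) ℂ)) := by
    intro X hX
    rcases hX with ⟨i, j, _, rfl⟩ | ⟨i, j, _, rfl⟩
    · exact Or.inl ⟨(i, j), rfl⟩
    · exact Or.inr ⟨(i, j), rfl⟩
  exact ((Set.finite_range _).union (Set.finite_range _)).subset h1

/-- The set `slSet m` is finite. Put the finitely many coefficients `c g` (`g ∈ s`) for all pairs `X Z` into `A₁`. -/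
theorem exists_ring (Γ : Subgroup (SLC m)) (hz : ZDense Γ) (A₀ : Finset ℂ) : ∃ A₁ : Finset ℂ, A₀ ⊆ A₁ ∧
    ∀ X ∈ slSet m, ∀ Z ∈ slSet m, ∃ (s : Finset (SLC m)) (c : SLC m → ℂ), (∀ g ∈ s, g ∈ Γ ∧ c g ∈ A₁) ∧
      ∀ Y : Matrix (Fin m) (Fin m) ℂ, ∑ g ∈ s, c g • (g.1 * Y * (g⁻¹).1) = (Z * Y).trace • X := by
  classical
  have hex : ∀ p : Matrix (Fin m) (Fin m) ℂ × Matrix (Fin m) (Fin m) ℂ,
      ∃ q : Finset (SLC m) × (SLC m → ℂ), p.1 ∈ slSet m → p.2 ∈ slSet m → (∀ g ∈ q.1, g ∈ Γ) ∧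
      ∀ Y : Matrix (Fin m) (Fin m) ℂ, ∑ g ∈ q.1, q.2 g • (g.1 * Y * (g⁻¹).1) = (p.2 * Y).trace • p.1 := by
    intro p
    by_cases h1 : p.1 ∈ slSet m
    · by_cases h2 : p.2 ∈ slSet m
      · obtain ⟨s, c, h3, h4⟩ := exists_op_sum Γ hz p.1 p.2 h1 h2
        exact ⟨(s, c), fun _ _ => ⟨h3, h4⟩⟩
      · exact ⟨(∅, 0), fun _ h => absurd h h2⟩
    · exact ⟨(∅, 0), fun h => absurd h h1⟩
  choose q hq using hex
  let F : Finset (Matrix (Fin m) (Fin m) ℂ) := (genR_slSet_finite (m := m)).toFinset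
  refine ⟨A₀ ∪ (F ×ˢ F).biUnion (fun p => (q p).1.image (q p).2), Finset.subset_union_left, ?_⟩
  intro X hX Z hZ
  obtain ⟨h1, h2⟩ := hq (X, Z) hX hZ
  refine ⟨(q (X, Z)).1, (q (X, Z)).2, ?_, h2⟩
  intro g hg
  refine ⟨h1 g hg, ?_⟩
  apply Finset.mem_union_right
  rw [Finset.mem_biUnion]
  refine ⟨(X, Z), ?_, Finset.mem_image_of_mem _ hg⟩
  rw [Finset.mem_product]
  exact ⟨(Set.Finite.mem_toFinset _).2 hX, (Set.Finite.mem_toFinset _).2 hZ⟩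

end WCn
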