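import Pool.Agent.Lib.MP_c2b80f_alC.LevDefs

/-!
# Reachable matrices: definitions

`Γ` is a topological group (in the applications: a subgroup of `SL_m(ℂ)`, or `Γ` with the indiscrete topology), `φ i : Γ → SL_m(ℤ_{p i})` homomorphisms for
finitely many different primes `p i`.
-/

open Matrix

namespace WCn

variable {m : ℕ} {Γ : Type*} [Group Γ] [TopologicalSpace Γ]
  {ι : Type*} (p : ι → ℕ) [hp : ∀ i, Fact (p i).Prime] (φ : ∀ i, Γ →* SLZ m (p i))

/-- `X` is reachable at level `k` for the index `i`: there are elements arbitrarily close to `1` in `Γ` and in all `SL_m(ℤ_{p j})`, `j ≠ i`, which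
are `≡ 1 + p ^ k X` modulo `p ^ (k + 1)` for `p = p i`. -/
def Reach (i : ι) (k : ℕ) (X : Matrix (Fin m) (Fin m) (ZMod (p i))) : Prop :=
  ∀ U ∈ nhds (1 : Γ), ∀ K : ℕ, ∃ γ ∈ U, (∀ j, j ≠ i → Cong K (φ j γ)) ∧ Lev k (φ i γ) X

/-- The matrices `E_ij` (`i ≠ j`) and `E_ii - E_jj` over the field with `p` elements. -/
def slSetP (m p : ℕ) : Set (Matrix (Fin m) (Fin m) (ZMod p)) :=
  {X | (∃ i j, i ≠ j ∧ X = Matrix.single i j 1) ∨ (∃ i j, i ≠ j ∧ X = Matrix.single i i 1 - Matrix.single j j 1)}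

/-- The conjugations by the reductions of the elements of `Γ` span the operators `Y ↦ tr(Z Y) X`. -/
def SpanP (i : ι) : Prop :=
  ∀ X ∈ slSetP m (p i), ∀ Z ∈ slSetP m (p i), ∃ (s : Finset Γ) (c : Γ → ZMod (p i)),
    ∀ Y : Matrix (Fin m) (Fin m) (ZMod (p i)),
      ∑ γ ∈ s, c γ • ((red (φ i γ)).1 * Y * ((red (φ i γ))⁻¹).1) = (Z * Y).trace • X

end WCn
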