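import Pool.Agent.Lib.MP_c2b80f_alC.HomZ
import Pool.Agent.Lib.MP_c2b80f_alC.AdDefs
import Pool.Agent.Lib.MP_c2b80f_alC.ReachDefs

/-!
# Reduction of the span property modulo `p` (job GenS)
-/

open Matrix Polynomial

namespace WCn

variable {m : ℕ}

private theorem GenS_sum {R S : Type*} [CommRing R] [CommRing S] (f : R →+* S) {κ : Type*} (s : Finset κ) (c : κ → R)
    (g h : κ → Matrix (Fin m) (Fin m) R) (Y : Matrix (Fin m) (Fin m) R) :
    f.mapMatrix (∑ a ∈ s, c a • (g a * Y * h a)) =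
      ∑ a ∈ s, f (c a) • (f.mapMatrix (g a) * f.mapMatrix Y * f.mapMatrix (h a)) := by
  rw [map_sum]
  refine Finset.sum_congr rfl fun a _ => ?_
  rw [← map_mul, ← map_mul]
  exact Matrix.map_smul' f (c a) _ (map_mul f)

private theorem GenS_tr {R S : Type*} [CommRing R] [CommRing S] (f : R →+* S) (X Z Y : Matrix (Fin m) (Fin m) R) :
    f.mapMatrix ((Z * Y).trace • X) = (f.mapMatrix Z * f.mapMatrix Y).trace • f.mapMatrix X := by
  rw [← map_mul]
  have h1 : (f.mapMatrix (Z * Y)).trace = f (Z * Y).trace := by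
    simp only [Matrix.trace, Matrix.diag, RingHom.mapMatrix_apply, Matrix.map_apply, map_sum]
  rw [h1]
  exact Matrix.map_smul' f _ _ (map_mul f)

private theorem GenS_lift {A : Subring ℂ} {p : ℕ} (τ : A →+* ZMod p) {X : Matrix (Fin m) (Fin m) (ZMod p)}
    (hX : X ∈ slSetP m p) : ∃ XA : Matrix (Fin m) (Fin m) A, A.subtype.mapMatrix XA ∈ slSet m ∧ τ.mapMatrix XA = X := by
  have h1 : ∀ {S : Type} [CommRing S] (f : A →+* S) (i j : Fin m),
      f.mapMatrix (Matrix.single i j (1 : A)) = Matrix.single i j (1 : S) := by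
    intro S _ f i j
    ext a b
    rw [RingHom.mapMatrix_apply, Matrix.map_apply, Matrix.single_apply, Matrix.single_apply]
    split_ifs
    · exact map_one f
    · exact map_zero f
  rcases hX with ⟨i, j, hij, rfl⟩ | ⟨i, j, hij, rfl⟩
  · exact ⟨Matrix.single i j 1, Or.inl ⟨i, j, hij, h1 _ i j⟩, h1 _ i j⟩
  · refine ⟨Matrix.single i i 1 - Matrix.single j j 1, Or.inr ⟨i, j, hij, ?_⟩, ?_⟩
    · rw [map_sub, h1, h1]
    · rw [map_sub, h1, h1]

/-- Proof. Let `X̄ Z̄ ∈ slSetP`, reductions of `X Z ∈ slSet m` (entries `0, 1, -1`). The identity `∑ c g • (g Y g⁻¹) = tr(Z Y) X` for `Y = E_kl` is an identity between matrices with entries in `A = Subring.closure A₁`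
(entries of `g`, `g⁻¹` are entries of `ψ γ`, `ψ γ⁻¹`; choose `γ` with `ψ γ = g`). Apply the ring homomorphism `PadicInt.toZMod ∘ σ i` to it: this is the identity of `SpanP` for `Y = E_kl` over the field with `p` elements
(`red (homZ γ)` has the entries `toZMod (σ (entries of ψ γ))`). Both sides are linear in `Y`. The finset of `γ`: image of `s` under a section (injective on `s`), coefficients accordingly. -/
theorem spanP_of_ring {G : Type*} [Group G] [TopologicalSpace G] (ψ : G →* SLC m)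
    {ι : Type*} (p : ι → ℕ) [hp : ∀ i, Fact (p i).Prime] (A₁ : Finset ℂ)
    (hA : ∀ g i j, (ψ g).1 i j ∈ Subring.closure (A₁ : Set ℂ))
    (hop : ∀ X ∈ slSet m, ∀ Z ∈ slSet m, ∃ (s : Finset (SLC m)) (c : SLC m → ℂ), (∀ g ∈ s, g ∈ ψ.range ∧ c g ∈ A₁) ∧
      ∀ Y : Matrix (Fin m) (Fin m) ℂ, ∑ g ∈ s, c g • (g.1 * Y * (g⁻¹).1) = (Z * Y).trace • X)
    (σ : ∀ i, Subring.closure (A₁ : Set ℂ) →+* ℤ_[p i]) (i : ι) :
    SpanP (m := m) p (fun i => homZ ψ (Subring.closure (A₁ : Set ℂ)) hA (p i) (σ i)) i := by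
  classical
  intro X hX Z hZ
  obtain ⟨XA, hXA, rfl⟩ := GenS_lift ((PadicInt.toZMod (p := p i)).comp (σ i)) hX
  obtain ⟨ZA, hZA, rfl⟩ := GenS_lift ((PadicInt.toZMod (p := p i)).comp (σ i)) hZ
  obtain ⟨s, c, hs, hid⟩ := hop _ hXA _ hZA
  obtain ⟨τ, hτ⟩ : ∃ τ : Subring.closure (A₁ : Set ℂ) →+* ZMod (p i), τ = (PadicInt.toZMod (p := p i)).comp (σ i) :=
    ⟨_, rfl⟩
  rw [← hτ]
  have hsec : ∀ g : SLC m, ∃ γ : G, g ∈ s → ψ γ = g := by
    intro g
    by_cases hg : g ∈ s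
    · obtain ⟨γ, hγ⟩ := (hs g hg).1
      exact ⟨γ, fun _ => hγ⟩
    · exact ⟨1, fun h => absurd h hg⟩
  choose sec hsec using hsec
  have hcA : ∀ g : SLC m, ∃ z : Subring.closure (A₁ : Set ℂ), g ∈ s → (z : ℂ) = c g := by
    intro g
    by_cases hg : g ∈ s
    · exact ⟨⟨c g, Subring.subset_closure (hs g hg).2⟩, fun _ => rfl⟩
    · exact ⟨0, fun h => absurd h hg⟩
  choose cA hcA using hcA
  have hmat : ∀ γ : G, (Subring.closure (A₁ : Set ℂ)).subtype.mapMatrix (matA ψ _ hA γ) = (ψ γ).1 := by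
    intro γ
    ext a b
    rfl
  have hred : ∀ γ : G, (red (homZ ψ (Subring.closure (A₁ : Set ℂ)) hA (p i) (σ i) γ)).1 =
      τ.mapMatrix (matA ψ _ hA γ) := by
    intro γ
    ext a b
    rw [hτ]
    change PadicInt.toZMod ((homZ ψ (Subring.closure (A₁ : Set ℂ)) hA (p i) (σ i) γ).1 a b) = _
    rw [homZ_apply]
    rfl
  have hred' : ∀ γ : G, ((red (homZ ψ (Subring.closure (A₁ : Set ℂ)) hA (p i) (σ i) γ))⁻¹).1 =
      τ.mapMatrix (matA ψ _ hA γ⁻¹) := by
    intro γ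
    rw [← hred, map_inv]
    congr 1
    exact (map_inv (Matrix.SpecialLinearGroup.map (PadicInt.toZMod (p := p i))) _).symm
  have hidA : ∀ YA : Matrix (Fin m) (Fin m) (Subring.closure (A₁ : Set ℂ)),
      ∑ g ∈ s, cA g • (matA ψ _ hA (sec g) * YA * matA ψ _ hA (sec g)⁻¹) = (ZA * YA).trace • XA := by
    intro YA
    have hinj : Function.Injective ((Subring.closure (A₁ : Set ℂ)).subtype.mapMatrix (m := Fin m)) := by
      intro M N hMN
      ext a b
      exact congrFun (congrFun hMN a) b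
    apply hinj
    rw [GenS_sum, GenS_tr, ← hid]
    refine Finset.sum_congr rfl fun g hg => ?_
    rw [hmat, hmat, map_inv, hsec g hg]
    rw [← hcA g hg]
    rfl
  refine ⟨s.image sec, fun γ => τ (cA (ψ γ)), fun Y => ?_⟩
  rw [Finset.sum_image (fun g hg g' hg' h => by rw [← hsec g hg, ← hsec g' hg', h])]
  obtain ⟨YA, rfl⟩ : ∃ YA : Matrix (Fin m) (Fin m) (Subring.closure (A₁ : Set ℂ)), τ.mapMatrix YA = Y := by
    refine ⟨Matrix.of fun a b => (((Y a b).val : ℕ) : Subring.closure (A₁ : Set ℂ)), ?_⟩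
    ext a b
    rw [RingHom.mapMatrix_apply, Matrix.map_apply, Matrix.of_apply, map_natCast, ZMod.natCast_zmod_val]
  rw [← GenS_tr, ← hidA, GenS_sum]
  refine Finset.sum_congr rfl fun g hg => ?_
  rw [hred, hred']
  beta_reduce
  rw [hsec g hg]

end WCn
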