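import Pool.Agent.Lib.MP_c2b80f_alC.PolyS

/-!
# Characteristic polynomials of elements of given level (job PolyA)

If `g = 1 + p ^ k Y`, then `charpoly g (1 + p ^ k S) = p ^ (k m) charpoly Y (S)` over `ℚ_p`, and `charpoly Y` reduces to `charpoly X`, `X = Y mod p`.
-/

open Matrix Polynomial

namespace WCn

variable {m : ℕ} {p : ℕ} [Fact p.Prime]

/-- `chp g` for `g = 1 + p ^ k Y`, in terms of `Y` over `ℚ_p`. -/
private theorem polyA_chp {k : ℕ} {g : SLZ m p} {Y : Matrix (Fin m) (Fin m) ℤ_[p]}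
    (hY : g.1 = 1 + (p : ℤ_[p]) ^ k • Y) :
    chp g = (1 + ((p : ℚ_[p]) ^ k) • (Y.map (algebraMap ℤ_[p] ℚ_[p]))).charpoly := by
  have h1 : chp g = (g.1.map (algebraMap ℤ_[p] ℚ_[p])).charpoly := by
    rw [Matrix.charpoly_map]; rfl
  rw [h1, hY]
  congr 1
  ext i j
  rw [Matrix.map_apply, Matrix.add_apply, Matrix.smul_apply, Matrix.add_apply, Matrix.smul_apply,
    Matrix.map_apply, map_add, smul_eq_mul, map_mul, map_pow, map_natCast, smul_eq_mul]
  congr 1
  rcases eq_or_ne i j with h | h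
  · subst h; rw [Matrix.one_apply_eq, Matrix.one_apply_eq, map_one]
  · rw [Matrix.one_apply_ne h, Matrix.one_apply_ne h, map_zero]

private theorem polyA_pk (k : ℕ) : ((p : ℚ_[p]) ^ k) ≠ 0 :=
  pow_ne_zero _ (Nat.cast_ne_zero.mpr (Fact.out (p := p.Prime)).ne_zero)

private theorem polyA_red {Y : Matrix (Fin m) (Fin m) ℤ_[p]} {X : Matrix (Fin m) (Fin m) (ZMod p)}
    (hX : Y.map PadicInt.toZMod = X) : Y.charpoly.map PadicInt.toZMod = X.charpoly := by
  rw [← hX, Matrix.charpoly_map]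

/-- Proof. `charpoly Y` is monic and irreducible modulo `p`, so it is irreducible over `ℤ_p` (`Monic.irreducible_of_irreducible_map`) and over `ℚ_p` (Gauss:
`Monic.irreducible_iff_irreducible_map_fraction_map`). Use `charpoly_comp`, `irreducible_comp_iff`. -/
theorem irreducible_of_lev {k : ℕ} {g : SLZ m p} {X : Matrix (Fin m) (Fin m) (ZMod p)} (hg : Lev k g X)
    (hX : Irreducible X.charpoly) : Irreducible (chp g) := by
  obtain ⟨Y, hY, hYX⟩ := hg
  have hmon : Y.charpoly.Monic := Matrix.charpoly_monic Y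
  have h1 : Irreducible Y.charpoly := by
    refine Monic.irreducible_of_irreducible_map (PadicInt.toZMod) _ hmon ?_
    rw [polyA_red hYX]; exact hX
  have h2 : Irreducible (Y.charpoly.map (algebraMap ℤ_[p] ℚ_[p])) :=
    (hmon.irreducible_iff_irreducible_map_fraction_map (K := ℚ_[p])).mp h1
  rw [polyA_chp hY, ← irreducible_comp_iff _ _ (polyA_pk (p := p) k), charpoly_comp,
    irreducible_isUnit_mul, Matrix.charpoly_map]
  · exact h2
  · exact (Polynomial.isUnit_C).mpr (IsUnit.mk0 _ (pow_ne_zero _ (polyA_pk k)))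

/-- the norm of a `p`-adic integer with zero reduction -/
private theorem polyA_norm_lt {x : ℤ_[p]} (hx : PadicInt.toZMod x = 0) : ‖x‖ < 1 := by
  have h1 : x ∈ RingHom.ker (PadicInt.toZMod : ℤ_[p] →+* ZMod p) := hx
  rw [PadicInt.ker_toZMod] at h1
  exact PadicInt.mem_nonunits.mp ((IsLocalRing.mem_maximalIdeal _).mp h1)

private theorem polyA_norm_eq {x : ℤ_[p]} (hx : PadicInt.toZMod x ≠ 0) : ‖x‖ = 1 := by
  by_contra hne
  have hlt : ‖x‖ < 1 := lt_of_le_of_ne (PadicInt.norm_le_one x) hne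
  apply hx
  have h1 : x ∈ RingHom.ker (PadicInt.toZMod : ℤ_[p] →+* ZMod p) := by
    rw [PadicInt.ker_toZMod]
    exact (IsLocalRing.mem_maximalIdeal _).mpr (PadicInt.mem_nonunits.mpr hlt)
  exact h1

private theorem polyA_toZMod_eq_zero {x : ℤ_[p]} (hx : ‖x‖ < 1) : PadicInt.toZMod x = 0 := by
  by_contra h
  rw [polyA_norm_eq h] at hx
  exact lt_irrefl _ hx

/-- Proof. By Hensel's lemma (`hensels_lemma`; `c` is a simple root of `charpoly X`) `charpoly Y` has a root `θ₀ ≡ c` in `ℤ_p`; `charpoly Y = (S - θ₀) H` with `H` monic, reducing to `h` (cancel `X - c`), so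
`H` is irreducible over `ℚ_p` (`h` is monic because `charpoly X` is). Use `root_comp`, `θ = 1 + p ^ k θ₀`. -/
theorem root_of_lev {k : ℕ} {g : SLZ m p} {X : Matrix (Fin m) (Fin m) (ZMod p)} (hg : Lev k g X) (c : ZMod p)
    (h : (ZMod p)[X]) (hX : X.charpoly = (Polynomial.X - C c) * h) (hh : Irreducible h) (hc : h.eval c ≠ 0) :
    ∃ θ : ℚ_[p], (chp g).IsRoot θ ∧ Irreducible (chp g /ₘ (Polynomial.X - C θ)) := by
  obtain ⟨Y, hY, hYX⟩ := hg
  have hmon : Y.charpoly.Monic := Matrix.charpoly_monic Y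
  have hred := polyA_red hYX
  -- a lift of `c`
  obtain ⟨a, ha⟩ : ∃ a : ℤ_[p], PadicInt.toZMod a = c :=
    ZMod.ringHom_surjective (PadicInt.toZMod : ℤ_[p] →+* ZMod p) c
  have hev : ∀ (P : ℤ_[p][X]) (x : ℤ_[p]), PadicInt.toZMod (P.eval x) =
      (P.map PadicInt.toZMod).eval (PadicInt.toZMod x) := by
    intro P x
    rw [Polynomial.eval_map, Polynomial.eval₂_at_apply]
  have h1 : PadicInt.toZMod (Y.charpoly.eval a) = 0 := by
    rw [hev, hred, hX, ha, Polynomial.eval_mul, Polynomial.eval_sub, Polynomial.eval_X,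
      Polynomial.eval_C, sub_self, zero_mul]
  have h2 : PadicInt.toZMod (Y.charpoly.derivative.eval a) ≠ 0 := by
    rw [hev, ← Polynomial.derivative_map, hred, hX, ha, Polynomial.derivative_mul,
      Polynomial.derivative_sub, Polynomial.derivative_X, Polynomial.derivative_C,
      Polynomial.eval_add, Polynomial.eval_mul, Polynomial.eval_mul, Polynomial.eval_sub,
      Polynomial.eval_sub, Polynomial.eval_one, Polynomial.eval_zero, Polynomial.eval_X,
      Polynomial.eval_C, sub_self, zero_mul, sub_zero, one_mul, add_zero]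
    exact hc
  have hd : ‖Polynomial.aeval a (Y.charpoly.derivative)‖ = 1 := by
    rw [Polynomial.coe_aeval_eq_eval]
    exact polyA_norm_eq h2
  have hhen : ‖Polynomial.aeval a Y.charpoly‖ < ‖Polynomial.aeval a (Y.charpoly.derivative)‖ ^ 2 := by
    rw [hd, one_pow, Polynomial.coe_aeval_eq_eval]
    exact polyA_norm_lt h1
  obtain ⟨z, hz0, hza, -, -⟩ := hensels_lemma hhen
  rw [hd] at hza
  have hzc : PadicInt.toZMod z = c := by
    have := polyA_toZMod_eq_zero hza
    rw [map_sub, sub_eq_zero] at this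
    rw [this, ha]
  rw [Polynomial.coe_aeval_eq_eval] at hz0
  obtain ⟨H, hH⟩ : (Polynomial.X - C z) ∣ Y.charpoly := Polynomial.dvd_iff_isRoot.mpr hz0
  have hHmon : H.Monic := by
    rw [hH] at hmon
    exact (Polynomial.monic_X_sub_C z).of_mul_monic_left hmon
  have hHh : H.map PadicInt.toZMod = h := by
    have h3 : (Polynomial.X - C c) * H.map PadicInt.toZMod = (Polynomial.X - C c) * h := by
      rw [← hX, ← hred, hH, Polynomial.map_mul, Polynomial.map_sub, Polynomial.map_X,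
        Polynomial.map_C, hzc]
    exact mul_left_cancel₀ (Polynomial.X_sub_C_ne_zero c) h3
  have hHirr : Irreducible H := by
    refine Monic.irreducible_of_irreducible_map (PadicInt.toZMod) _ hHmon ?_
    rw [hHh]; exact hh
  have hHq : Irreducible (H.map (algebraMap ℤ_[p] ℚ_[p])) :=
    (hHmon.irreducible_iff_irreducible_map_fraction_map (K := ℚ_[p])).mp hHirr
  have hcomp : (chp g).comp (1 + C ((p : ℚ_[p]) ^ k) * Polynomial.X) =
      C (((p : ℚ_[p]) ^ k) ^ m) * ((Polynomial.X - C (algebraMap ℤ_[p] ℚ_[p] z)) *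
        H.map (algebraMap ℤ_[p] ℚ_[p])) := by
    rw [polyA_chp hY, charpoly_comp, Matrix.charpoly_map, hH, Polynomial.map_mul,
      Polynomial.map_sub, Polynomial.map_X, Polynomial.map_C]
  have hgmon : (chp g).Monic := by
    rw [polyA_chp hY]; exact Matrix.charpoly_monic _
  exact ⟨_, root_comp (chp g) hgmon ((p : ℚ_[p]) ^ k) (((p : ℚ_[p]) ^ k) ^ m) (polyA_pk k)
    (pow_ne_zero _ (polyA_pk k)) _ _ hHq hcomp⟩

end WCn
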