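import Pool.Agent.Lib.MP_c2b80f_alC.PolyC

/-!
# Matrices of trace zero over finite fields with prescribed characteristic polynomials (job PolyB)
-/

open Matrix Polynomial

namespace WCn

/-- If `p` does not divide `m`, replace the companion matrix `M₀` of an irreducible polynomial of degree `m` by `M₀ - (tr M₀ / m) 1`; its characteristic polynomial is `h (T + tr M₀ / m)`, irreducible. -/
theorem exists_type_one (p : ℕ) [Fact p.Prime] (m : ℕ) (hm : 1 ≤ m) (hpm : ¬ p ∣ m) :
    ∃ M : Matrix (Fin m) (Fin m) (ZMod p), M.trace = 0 ∧ Irreducible M.charpoly := by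
  obtain ⟨h, hmon, hirr, hdeg⟩ := exists_irreducible p m hm
  obtain ⟨M₀, hM₀⟩ := exists_companion h hmon m hdeg
  have hm0 : (m : ZMod p) ≠ 0 := fun h0 => hpm ((ZMod.natCast_eq_zero_iff m p).1 h0)
  refine ⟨M₀ - Matrix.scalar (Fin m) (M₀.trace / m), ?_, ?_⟩
  · have h1 : (Matrix.scalar (Fin m) (M₀.trace / (m : ZMod p))).trace = m * (M₀.trace / m) := by
      rw [Matrix.scalar_apply, Matrix.trace_diagonal, Finset.sum_const, Finset.card_univ, Fintype.card_fin,
        nsmul_eq_mul]
    rw [Matrix.trace_sub, h1, mul_div_cancel₀ _ hm0, sub_self]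
  · rw [Matrix.charpoly_sub_scalar, hM₀]
    have h1 : h.comp (Polynomial.X + C (M₀.trace / m)) = Polynomial.algEquivAevalXAddC (M₀.trace / (m : ZMod p)) h := by
      rw [Polynomial.algEquivAevalXAddC_apply, Polynomial.comp_eq_aeval]
    rw [h1]
    exact (MulEquiv.irreducible_iff (Polynomial.algEquivAevalXAddC (M₀.trace / (m : ZMod p)))).2 hirr

/-- The block diagonal matrix with blocks `(c)` and the companion matrix of `h`, where `h` is irreducible of degree `m - 1` and `c = -` its trace; if `m = 2` take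
`h = T + 1`, `c = 1` (`p ≠ 2`). (`h.eval c ≠ 0` because `h` is irreducible of degree `≥ 2` for `m ≥ 3`.) Reindex `Fin 1 ⊕ Fin (m - 1) ≃ Fin m` (`Matrix.charpoly_reindex`, `Matrix.charpoly_fromBlocks_zero₁₂`). -/
theorem exists_type_two (p : ℕ) [Fact p.Prime] (hp : p ≠ 2) (m : ℕ) (hm : 2 ≤ m) :
    ∃ (M : Matrix (Fin m) (Fin m) (ZMod p)) (c : ZMod p) (h : (ZMod p)[X]), M.trace = 0 ∧
      M.charpoly = (X - C c) * h ∧ Irreducible h ∧ h.eval c ≠ 0 := by
  classical
  have hp2 : (2 : ZMod p) ≠ 0 := by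
    intro h0
    have h1 : ((2 : ℕ) : ZMod p) = 0 := h0
    have h2 := (ZMod.natCast_eq_zero_iff 2 p).1 h1
    exact hp ((Nat.prime_dvd_prime_iff_eq (Fact.out : p.Prime) Nat.prime_two).1 h2)
  rcases Nat.eq_or_lt_of_le hm with h2 | h2
  · subst h2
    refine ⟨!![1, 0; 0, -1], 1, X + C 1, ?_, ?_, ?_, ?_⟩
    · rw [Matrix.trace_fin_two_of]
      ring
    · rw [Matrix.charpoly_fin_two, Matrix.trace_fin_two_of, Matrix.det_fin_two_of]
      have h3 : (1 : ZMod p) * -1 - 0 * 0 = -1 := by ring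
      rw [h3, add_neg_cancel, C_0, C_neg, C_1]
      ring
    · exact Polynomial.irreducible_of_degree_eq_one (Polynomial.degree_X_add_C 1)
    · rw [eval_add, eval_X, eval_C, one_add_one_eq_two]
      exact hp2
  · obtain ⟨d, rfl⟩ : ∃ d, m = 1 + d := ⟨m - 1, by omega⟩
    obtain ⟨h, hmon, hirr, hdeg⟩ := exists_irreducible p d (by omega)
    obtain ⟨N, hN⟩ := exists_companion h hmon d hdeg
    obtain ⟨B, hB⟩ : ∃ B : Matrix (Fin 1 ⊕ Fin d) (Fin 1 ⊕ Fin d) (ZMod p),
      B = Matrix.fromBlocks (Matrix.diagonal fun _ => -N.trace) 0 0 N := ⟨_, rfl⟩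
    refine ⟨Matrix.reindex finSumFinEquiv finSumFinEquiv B, -N.trace, h, ?_, ?_, hirr, ?_⟩
    · have h1 : (Matrix.reindex finSumFinEquiv finSumFinEquiv B).trace = B.trace := by
        rw [Matrix.trace_eq_neg_charpoly_nextCoeff, Matrix.charpoly_reindex, ← Matrix.trace_eq_neg_charpoly_nextCoeff]
      rw [h1, hB, Matrix.trace, Fintype.sum_sum_type]
      simp only [Matrix.diag_apply, Matrix.fromBlocks_apply₁₁, Matrix.fromBlocks_apply₂₂, Matrix.diagonal_apply_eq]
      rw [Finset.univ_unique, Finset.sum_singleton]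
      exact neg_add_cancel _
    · rw [Matrix.charpoly_reindex, hB, Matrix.charpoly_fromBlocks_zero₁₂, hN]
      refine congrArg (· * h) ?_
      rw [Matrix.charpoly_diagonal, Finset.univ_unique, Finset.prod_singleton]
    · intro h0
      have h1 := Polynomial.degree_eq_one_of_irreducible_of_root hirr h0
      rw [Polynomial.degree_eq_natDegree hirr.ne_zero, hdeg] at h1
      have h3 : d = 1 := by exact_mod_cast h1
      omega

end WCn
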