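import Pool.Agent.Lib.MP_c2b80f_alC.LevA

/-!
# Congruence levels: traces, exact levels (job LevB)
-/

open Matrix

namespace WCn

variable {m : ℕ} {p : ℕ} [Fact p.Prime]

private theorem levB_zmod {x : ℤ_[p]} (h : PadicInt.toZMod x = 0) : (p : ℤ_[p]) ∣ x := by
  have h1 : x ∈ RingHom.ker (PadicInt.toZMod : ℤ_[p] →+* ZMod p) := h
  rw [PadicInt.ker_toZMod, PadicInt.maximalIdeal_eq_span_p, Ideal.mem_span_singleton] at h1
  exact h1

private theorem levB_p : (PadicInt.toZMod (p : ℤ_[p]) : ZMod p) = 0 := by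
  rw [map_natCast, ZMod.natCast_self]

private theorem levB_p0 : (p : ℤ_[p]) ≠ 0 := by
  exact_mod_cast (Fact.out (p := p.Prime)).ne_zero

/-- `det (1 + p ^ k Y) = 1 + p ^ k tr Y` modulo `p ^ (2 k)` (`Matrix.det_one_add_smul`). -/
theorem Lev.trace {k : ℕ} (hk : 1 ≤ k) {g : SLZ m p} {X : Matrix (Fin m) (Fin m) (ZMod p)} (hg : Lev k g X) :
    X.trace = 0 := by
  obtain ⟨Y, hY, rfl⟩ := hg
  have h1 : Matrix.det (1 + (p : ℤ_[p]) ^ k • Y) = 1 := by
    rw [← hY]
    exact g.2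
  rw [Matrix.det_one_add_smul] at h1
  set c := Polynomial.eval ((p : ℤ_[p]) ^ k) (Matrix.det (1 + (Polynomial.X : Polynomial ℤ_[p]) • Y.map Polynomial.C)).divX.divX
  have h2 : (p : ℤ_[p]) ^ k * (Y.trace + c * (p : ℤ_[p]) ^ k) = 0 := by
    linear_combination h1
  have h3 : Y.trace = - (c * (p : ℤ_[p]) ^ k) := by
    rcases mul_eq_zero.1 h2 with h | h
    · exact absurd h (pow_ne_zero k levB_p0)
    · exact eq_neg_of_add_eq_zero_left h
  have h4 : (Y.map PadicInt.toZMod).trace = (PadicInt.toZMod : ℤ_[p] →+* ZMod p) Y.trace := by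
    unfold Matrix.trace
    rw [map_sum]
    rfl
  rw [h4, h3, map_neg, map_mul, map_pow, levB_p, zero_pow (by omega), mul_zero, neg_zero]

/-- If `g ≡ 1` modulo `p` and `g ≠ 1`, then `g` has an exact level: let `k` be the largest exponent such that `p ^ k` divides all entries of `g - 1`. -/
theorem exists_lev {g : SLZ m p} (h : Cong 1 g) (hg : g ≠ 1) :
    ∃ (k : ℕ) (X : Matrix (Fin m) (Fin m) (ZMod p)), 1 ≤ k ∧ X ≠ 0 ∧ Lev k g X := by
  classical
  have hex : ∃ k, ¬ Cong k g := by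
    by_contra hcon
    push Not at hcon
    apply hg
    apply Subtype.ext
    ext i j
    have hpu : ¬ IsUnit (p : ℤ_[p]) := PadicInt.p_nonunit
    by_contra hne
    have hne' : g.1 i j - (1 : Matrix (Fin m) (Fin m) ℤ_[p]) i j ≠ 0 := sub_ne_zero.2 hne
    obtain ⟨n, hn⟩ := FiniteMultiplicity.of_not_isUnit hpu hne'
    obtain ⟨Y, hY⟩ := hcon (n + 1)
    apply hn
    refine ⟨Y i j, ?_⟩
    rw [hY, Matrix.add_apply, Matrix.smul_apply, smul_eq_mul, add_sub_cancel_left]
  have h0 : Nat.find hex ≠ 0 := by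
    intro h0
    have := Nat.find_spec hex
    rw [h0] at this
    apply this
    refine ⟨g.1 - 1, ?_⟩
    rw [pow_zero, one_smul, add_sub_cancel]
  have h1 : Nat.find hex ≠ 1 := by
    intro h1
    have := Nat.find_spec hex
    rw [h1] at this
    exact this h
  obtain ⟨k, hk⟩ : ∃ k, Nat.find hex = k + 1 := ⟨Nat.find hex - 1, by omega⟩
  have h2 : Cong k g := by
    by_contra hc
    have := Nat.find_min' hex hc
    omega
  have h3 : ¬ Cong (k + 1) g := by
    rw [← hk]
    exact Nat.find_spec hex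
  obtain ⟨Y, hY⟩ := h2
  refine ⟨k, Y.map PadicInt.toZMod, by omega, fun hX => h3 ?_, Y, hY, rfl⟩
  have h4 : ∀ i j, (p : ℤ_[p]) ∣ Y i j := by
    intro i j
    apply levB_zmod
    have := congrFun (congrFun hX i) j
    exact this
  choose Z hZ using h4
  refine ⟨Matrix.of Z, ?_⟩
  rw [hY]
  ext i j
  rw [Matrix.add_apply, Matrix.add_apply, Matrix.smul_apply, Matrix.smul_apply, hZ i j, Matrix.of_apply,
    smul_eq_mul, smul_eq_mul, pow_succ, mul_assoc]

/-- `e` = the number of elements of `SL_m(𝔽_p)`: `g ^ e ≡ 1` modulo `p` for all `g`. -/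
theorem exists_expo (m p : ℕ) [Fact p.Prime] : ∃ e : ℕ, 0 < e ∧ ∀ g : SLZ m p, Cong 1 (g ^ e) := by
  have hn := congSub_normal (m := m) (p := p) 1
  have hf := congSub_finiteIndex (m := m) (p := p) 1
  refine ⟨(congSub m p 1).index, Nat.pos_of_ne_zero hf.index_ne_zero, fun g => ?_⟩
  rw [← mem_congSub]
  exact Subgroup.pow_index_mem _ g

end WCn
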