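import Pool.Agent.Lib.MP_c2b80f_alC.LevA

/-!
# Congruence levels: `p`-th powers (job LevC)
-/

open Matrix

namespace WCn

variable {m : ℕ} {p : ℕ} [Fact p.Prime]

private theorem levC_bin {R : Type*} [Ring R] {p : ℕ} (hp : p.Prime) (a : R) :
    ∃ r : R, (1 + a) ^ p = 1 + (p : R) * a + (p : R) * (a ^ 2 * r) + a ^ p := by
  refine ⟨∑ k ∈ Finset.Ioo 1 p, a ^ (k - 2) * ((p.choose k / p : ℕ) : R), ?_⟩
  have h1 := (Commute.one_right a).add_pow_prime_eq hp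
  rw [one_pow] at h1
  rw [add_comm 1 a, h1]
  have hI : Finset.Ioo 0 p = insert 1 (Finset.Ioo 1 p) := by
    ext k
    rw [Finset.mem_insert, Finset.mem_Ioo, Finset.mem_Ioo]
    have := hp.two_le
    omega
  have h2 : ∑ k ∈ Finset.Ioo 0 p, a ^ (k - 1) * (1 : R) ^ (p - k - 1) * ((p.choose k / p : ℕ) : R) =
      1 + a * ∑ k ∈ Finset.Ioo 1 p, a ^ (k - 2) * ((p.choose k / p : ℕ) : R) := by
    rw [hI, Finset.sum_insert (by simp), Finset.mul_sum]
    congr 1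
    · rw [Nat.sub_self, pow_zero, one_pow, mul_one, Nat.choose_one_right, Nat.div_self hp.pos, Nat.cast_one, mul_one]
    · refine Finset.sum_congr rfl fun k hk => ?_
      rw [Finset.mem_Ioo] at hk
      rw [one_pow, mul_one, ← mul_assoc, ← pow_succ']
      congr 2
      omega
  rw [h2, mul_one, mul_add, mul_one, sq, mul_assoc a a, mul_assoc (p : R) a (a * _)]
  abel

private theorem levC_bin2 (k : ℕ) (hk : 1 ≤ k) (Y : Matrix (Fin m) (Fin m) ℤ_[p]) :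
    ∃ Z : Matrix (Fin m) (Fin m) ℤ_[p], (1 + (p : ℤ_[p]) ^ k • Y) ^ p =
      1 + (p : ℤ_[p]) ^ (k + 1) • (Y + (p : ℤ_[p]) • Z + (p : ℤ_[p]) ^ (k * p - (k + 1)) • Y ^ p) := by
  have hp : p.Prime := Fact.out
  obtain ⟨r, hr⟩ := levC_bin hp ((p : ℤ_[p]) ^ k • Y)
  refine ⟨(p : ℤ_[p]) ^ (k - 1) • (Y ^ 2 * r), ?_⟩
  have hc : ∀ A : Matrix (Fin m) (Fin m) ℤ_[p], (p : Matrix (Fin m) (Fin m) ℤ_[p]) * A = (p : ℤ_[p]) • A := by
    intro A
    rw [← nsmul_eq_mul, Nat.cast_smul_eq_nsmul]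
  have h1 : k + 1 ≤ k * p := by
    have := hp.two_le
    nlinarith
  have e1 : (p : ℤ_[p]) * (p : ℤ_[p]) ^ k = (p : ℤ_[p]) ^ (k + 1) := (pow_succ' _ _).symm
  have e2 : (p : ℤ_[p]) * ((p : ℤ_[p]) ^ k) ^ 2 = (p : ℤ_[p]) ^ (k + 1) * (p : ℤ_[p]) * (p : ℤ_[p]) ^ (k - 1) := by
    rw [mul_assoc, ← pow_succ', Nat.sub_add_cancel hk]
    ring
  have e3 : ((p : ℤ_[p]) ^ k) ^ p = (p : ℤ_[p]) ^ (k + 1) * (p : ℤ_[p]) ^ (k * p - (k + 1)) := by
    rw [← pow_mul, ← pow_add, Nat.add_sub_cancel' h1]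
  rw [hr, hc, hc, smul_pow, smul_pow, smul_add, smul_add, Matrix.smul_mul, smul_smul, smul_smul, smul_smul,
    smul_smul, smul_smul, e1, e2, e3, add_assoc, add_assoc, add_assoc]

/-- `(1 + p ^ k Y) ^ p = 1 + p ^ (k + 1) Y + ⋯ + p ^ (k p) Y ^ p`, the omitted terms being divisible by `p ^ (k + 2)` for `p` odd (binomial theorem for the commuting matrices `1`, `Y`;
`p` divides the binomial coefficients `0 < i < p`). -/
theorem Lev.pow_p (hp : p ≠ 2) {k : ℕ} (hk : 1 ≤ k) {g : SLZ m p} {X : Matrix (Fin m) (Fin m) (ZMod p)} (hg : Lev k g X) :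
    Lev (k + 1) (g ^ p) X := by
  have hpp : p.Prime := Fact.out
  obtain ⟨Y, hY, hYX⟩ := hg
  obtain ⟨Z, hZ⟩ := levC_bin2 k hk Y
  refine ⟨Y + (p : ℤ_[p]) • Z + (p : ℤ_[p]) ^ (k * p - (k + 1)) • Y ^ p, ?_, ?_⟩
  · exact (Matrix.SpecialLinearGroup.coe_pow g p).trans ((congrArg (fun A => A ^ p) hY).trans hZ)
  · have h0 : (PadicInt.toZMod (p : ℤ_[p]) : ZMod p) = 0 := by
      rw [map_natCast, ZMod.natCast_self]
    have h1 : 1 ≤ k * p - (k + 1) := by
      have h2 : 3 ≤ p := by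
        have := hpp.two_le
        omega
      have h3 : k * 3 ≤ k * p := Nat.mul_le_mul_left k h2
      omega
    rw [← hYX]
    ext i j
    rw [Matrix.map_apply, Matrix.map_apply, Matrix.add_apply, Matrix.add_apply, Matrix.smul_apply, Matrix.smul_apply,
      smul_eq_mul, smul_eq_mul, map_add, map_add, map_mul, map_mul, map_pow, h0, zero_mul, zero_pow (by omega),
      zero_mul, add_zero, add_zero]

theorem Cong.pow_p {k : ℕ} (hk : 1 ≤ k) {g : SLZ m p} (hg : Cong k g) : Cong (k + 1) (g ^ p) := by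
  obtain ⟨Y, hY⟩ := hg
  obtain ⟨Z, hZ⟩ := levC_bin2 k hk Y
  exact ⟨_, (Matrix.SpecialLinearGroup.coe_pow g p).trans ((congrArg (fun A => A ^ p) hY).trans hZ)⟩

/-- `g ≡ 1` modulo `p` implies `g ^ (p ^ K) ≡ 1` modulo `p ^ (K + 1)`, and any multiple of `p ^ K` will do as exponent. -/
theorem Cong.pow_ppow {g : SLZ m p} (hg : Cong 1 g) (K a : ℕ) : Cong (K + 1) (g ^ (p ^ K * a)) := by
  induction K with
  | zero =>
    rw [pow_zero, one_mul]
    exact (mem_congSub 1 _).1 (Subgroup.pow_mem _ ((mem_congSub 1 g).2 hg) a)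
  | succ K ih =>
    have h1 := Cong.pow_p (by omega) ih
    rw [← pow_mul] at h1
    have h2 : p ^ (K + 1) * a = p ^ K * a * p := by ring
    rw [h2]
    exact h1

/-- Elements with an exact level `≥ 1` have infinite order (`p` odd): write `a = p ^ v * a'`, `Lev.pow_p` and `Lev.pow`. -/
theorem Lev.pow_ne_one (hp : p ≠ 2) {k : ℕ} (hk : 1 ≤ k) {g : SLZ m p} {X : Matrix (Fin m) (Fin m) (ZMod p)} (hX : X ≠ 0)
    (hg : Lev k g X) (a : ℕ) (ha : 0 < a) : g ^ a ≠ 1 := by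
  intro h
  obtain ⟨v, b, hb, rfl⟩ := Nat.exists_eq_pow_mul_and_not_dvd ha.ne' p (Fact.out : p.Prime).ne_one
  have hv : ∀ v : ℕ, Lev (k + v) (g ^ p ^ v) X := by
    intro v
    induction v with
    | zero =>
      rw [pow_zero, pow_one]
      exact hg
    | succ v ih =>
      have h1 := Lev.pow_p hp (by omega) ih
      rw [← pow_mul, ← pow_succ] at h1
      exact h1
  have h1 := Lev.pow (by omega) (hv v) b
  rw [← pow_mul, h] at h1
  have h2 := Lev.unique h1 (lev_one (k + v))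
  apply hb
  rw [← CharP.cast_eq_zero_iff (ZMod p) p b]
  rcases smul_eq_zero.1 h2 with h3 | h3
  · exact h3
  · exact absurd h3 hX

end WCn
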