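import Pool.Agent.Lib.MP_c2b80f_alC.ReachDefs
import Pool.Agent.Lib.MP_c2b80f_alC.LevB
import Pool.Agent.Lib.MP_c2b80f_alC.LevC

/-!
# A nonzero reachable matrix (job ReachB)
-/

open Matrix

namespace WCn

variable {m : ℕ} {Γ : Type*} [Group Γ] [TopologicalSpace Γ] [IsTopologicalGroup Γ]
  {ι : Type*} [Fintype ι] [DecidableEq ι] (p : ι → ℕ) [hp : ∀ i, Fact (p i).Prime]
  (φ : ∀ i, Γ →* SLZ m (p i))

private theorem reachB_pow {G : Type*} [Group G] (A : Subgroup G) (hA : A.Normal) {d : G} (hd : d ∈ A) (g : G) (a : ℕ) :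
    ∃ ν ∈ A, (d⁻¹ * g) ^ a = g ^ a * ν := by
  refine ⟨(g ^ a)⁻¹ * (d⁻¹ * g) ^ a, ?_, by rw [mul_inv_cancel_left]⟩
  rw [← QuotientGroup.eq]
  have h1 : ((d : G) : G ⧸ A) = 1 := (QuotientGroup.eq_one_iff d).2 hd
  rw [QuotientGroup.mk_pow, QuotientGroup.mk_pow, QuotientGroup.mk_mul, QuotientGroup.mk_inv, h1, inv_one, one_mul]

/-- Proof. `γ₁ = γ₀ ^ s` satisfies `Cong 1 (φ j γ₁)` for all `j` (by `hs`), and `φ i γ₁ ≠ 1`, so `Lev k (φ i γ₁) X` for some `k ≥ 1`, `X ≠ 0` (`exists_lev`). We show that `X` is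
reachable. Let `U`, `K` be given; `M = ∏_{j ≠ i} p j ^ K` is prime to `p i` (the `p j` are different primes); let `e ≥ 1` with `e M = 1` in `ZMod (p i)`, `a = s M e`. Let `V` be a neighbourhood of
`1` with `v ^ a ∈ U` for `v ∈ V`. The subgroup `N = ⋂ j, (congSub m (p j) (K + k + 1)).comap (φ j)` has finite index, so `γ₀ ∈ closure N` by `h0`: there is `δ ∈ N` with
`δ⁻¹ γ₀ ∈ V`. Put `γ = (δ⁻¹ γ₀) ^ a ∈ U`. Modulo `p j ^ (K + k + 1)` it is `γ₀ ^ a = (γ₁ ^ M) ^ e`: for `j ≠ i`, `Cong (K + 1)` by `Cong.pow_ppow`, and for `i`, `Lev k` with the matrix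
`M e X = X` by `Lev.pow` (multiplying by an element of `congSub (k + 1)` does not change `Lev k`; write `γ = γ₀ ^ a * ν` with `φ j ν ∈ congSub (K + k + 1)`, which is normal). -/
theorem exists_reach (hpinj : Function.Injective p) (s : ℕ) (hs : ∀ j (g : SLZ m (p j)), Cong 1 (g ^ s)) (γ₀ : Γ)
    (h0 : ∀ N : Subgroup Γ, N.FiniteIndex → γ₀ ∈ closure (N : Set Γ)) (i : ι) (hne : φ i (γ₀ ^ s) ≠ 1) :
    ∃ (k : ℕ) (X : Matrix (Fin m) (Fin m) (ZMod (p i))), 1 ≤ k ∧ X ≠ 0 ∧ Reach p φ i k X := by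
  classical
  have hc1 : ∀ j, Cong 1 (φ j (γ₀ ^ s)) := fun j => by
    rw [map_pow]
    exact hs j _
  obtain ⟨k, X, hk, hX, hlev⟩ := exists_lev (hc1 i) hne
  refine ⟨k, X, hk, hX, ?_⟩
  intro U hU K
  obtain ⟨M, hMdef⟩ : ∃ M : ℕ, M = ∏ j ∈ Finset.univ.erase i, p j ^ K := ⟨_, rfl⟩
  have hcop : Nat.Coprime M (p i) := by
    rw [hMdef]
    refine Nat.Coprime.prod_left fun j hj => ?_
    refine Nat.Coprime.pow_left _ ?_
    refine (Nat.coprime_primes (hp j).out (hp i).out).2 fun h => ?_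
    exact (Finset.mem_erase.1 hj).1 (hpinj h)
  obtain ⟨e, he⟩ : ∃ e : ℕ, ((M * e : ℕ) : ZMod (p i)) = 1 := by
    refine ⟨((M : ZMod (p i))⁻¹).val, ?_⟩
    have hne0 : (M : ZMod (p i)) ≠ 0 := by
      intro h
      rw [ZMod.natCast_eq_zero_iff] at h
      have h1 : p i ∣ 1 := by
        rw [← hcop]
        exact Nat.dvd_gcd h dvd_rfl
      exact (hp i).out.one_lt.ne' (Nat.dvd_one.1 h1)
    rw [Nat.cast_mul, ZMod.natCast_zmod_val, mul_inv_cancel₀ hne0]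
  have hV : (fun v : Γ => v ^ (s * (M * e))) ⁻¹' U ∈ nhds (1 : Γ) := by
    refine (continuous_pow (s * (M * e))).continuousAt.preimage_mem_nhds ?_
    rw [one_pow]
    exact hU
  have hN : (⨅ j, (congSub m (p j) (K + k + 1)).comap (φ j) : Subgroup Γ).FiniteIndex := by
    refine Subgroup.finiteIndex_iInf fun j => ?_
    have h1 := congSub_finiteIndex (m := m) (p := p j) (K + k + 1)
    have h2 := congSub_normal (m := m) (p := p j) (K + k + 1)
    refine ⟨?_⟩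
    rw [Subgroup.index_comap]
    intro h
    exact h1.index_ne_zero (Nat.eq_zero_of_zero_dvd (h ▸ Subgroup.relIndex_dvd_index_of_normal _ _))
  have hW : (fun δ : Γ => δ⁻¹ * γ₀) ⁻¹' ((fun v : Γ => v ^ (s * (M * e))) ⁻¹' U) ∈ nhds γ₀ := by
    have hcont : Continuous fun δ : Γ => δ⁻¹ * γ₀ := continuous_inv.mul continuous_const
    refine hcont.continuousAt.preimage_mem_nhds ?_
    rw [inv_mul_cancel]
    exact hV
  obtain ⟨δ, hδU, hδN⟩ := mem_closure_iff_nhds.1 (h0 _ hN) _ hW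
  have hδ : ∀ j, φ j δ ∈ congSub m (p j) (K + k + 1) := fun j => Subgroup.mem_comap.1 (Subgroup.mem_iInf.1 hδN j)
  have hdec : ∀ j, ∃ ν ∈ congSub m (p j) (K + k + 1),
      φ j ((δ⁻¹ * γ₀) ^ (s * (M * e))) = (φ j (γ₀ ^ s)) ^ (M * e) * ν := by
    intro j
    obtain ⟨ν, hν, h1⟩ := reachB_pow _ (congSub_normal (m := m) (p := p j) (K + k + 1)) (hδ j) (φ j γ₀) (s * (M * e))
    refine ⟨ν, hν, ?_⟩
    rw [map_pow, map_mul, map_inv, h1, map_pow, ← pow_mul]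
  refine ⟨(δ⁻¹ * γ₀) ^ (s * (M * e)), hδU, fun j hj => ?_, ?_⟩
  · obtain ⟨ν, hν, h1⟩ := hdec j
    rw [h1, ← mem_congSub]
    refine mul_mem ?_ ?_
    · obtain ⟨M', hM'⟩ : p j ^ K ∣ M := by
        rw [hMdef]
        exact Finset.dvd_prod_of_mem (fun j => p j ^ K) (Finset.mem_erase.2 ⟨hj, Finset.mem_univ j⟩)
      rw [mem_congSub, hM', mul_assoc]
      exact Cong.mono (Nat.le_succ K) (Cong.pow_ppow (hc1 j) K (M' * e))
    · rw [mem_congSub]
      exact Cong.mono (by omega) ((mem_congSub _ _).1 hν)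
  · obtain ⟨ν, hν, h1⟩ := hdec i
    rw [h1]
    have h2 := Lev.pow hk hlev (M * e)
    rw [he, one_smul] at h2
    have h3 : Lev k ν 0 := lev_of_cong (Cong.mono (by omega) ((mem_congSub _ _).1 hν))
    have h4 := Lev.mul hk h2 h3
    rw [add_zero] at h4
    exact h4

end WCn
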