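import Pool.Agent.Lib.MP_c2b80f_alC.ReachA
import Pool.Agent.Lib.MP_c2b80f_alC.ReachB

/-!
# All matrices of trace zero are reachable (job ReachC)
-/

open Matrix

namespace WCn

variable {m : ℕ} {Γ : Type*} [Group Γ] [TopologicalSpace Γ] [IsTopologicalGroup Γ]
  {ι : Type*} [Fintype ι] [DecidableEq ι] (p : ι → ℕ) [hp : ∀ i, Fact (p i).Prime]
  (φ : ∀ i, Γ →* SLZ m (p i))

/-- A nonzero matrix of trace zero is not orthogonal to `slSetP` if `p` does not divide `m`. (`Z = E_ji` if `X` has a nonzero entry at `(i, j)`, `i ≠ j`; otherwise `X` is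
diagonal and not scalar, so it has two different diagonal entries.) -/
theorem exists_slSetP_trace_ne (p : ℕ) [Fact p.Prime] (hpm : ¬ p ∣ m) (X : Matrix (Fin m) (Fin m) (ZMod p)) (hX : X ≠ 0)
    (ht : X.trace = 0) : ∃ Z ∈ slSetP m p, (Z * X).trace ≠ 0 := by
  classical
  by_cases hd : ∃ i j, i ≠ j ∧ X i j ≠ 0
  · obtain ⟨i, j, hij, hX'⟩ := hd
    refine ⟨Matrix.single j i 1, Or.inl ⟨j, i, hij.symm, rfl⟩, ?_⟩
    rw [Matrix.trace_single_mul, one_smul]
    exact hX'
  · push Not at hd
    by_contra hcon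
    push Not at hcon
    have h1 : ∀ i j, X i i = X j j := by
      intro i j
      by_cases hij : i = j
      · rw [hij]
      · have h2 := hcon _ (Or.inr ⟨i, j, hij, rfl⟩)
        rw [sub_mul, Matrix.trace_sub, Matrix.trace_single_mul, Matrix.trace_single_mul, one_smul,
          one_smul] at h2
        exact sub_eq_zero.1 h2
    apply hX
    ext i j
    rw [Matrix.zero_apply]
    by_cases hij : i = j
    · subst hij
      have h3 : X.trace = m * X i i := by
        unfold Matrix.trace
        have h4 : ∀ k ∈ (Finset.univ : Finset (Fin m)), X.diag k = X i i := fun k _ => h1 k i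
        rw [Finset.sum_congr rfl h4, Finset.sum_const, Finset.card_univ, Fintype.card_fin,
          nsmul_eq_mul]
      rw [ht] at h3
      have h5 : (m : ZMod p) ≠ 0 := by
        rw [Ne, ZMod.natCast_eq_zero_iff]
        exact hpm
      exact (mul_eq_zero.1 h3.symm).resolve_left h5
    · exact hd i j hij

/-- The matrices of trace zero are the linear combinations of the matrices in `slSetP`. -/
theorem mem_span_slSetP (p : ℕ) [Fact p.Prime] (X : Matrix (Fin m) (Fin m) (ZMod p)) (ht : X.trace = 0) :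
    X ∈ Submodule.span (ZMod p) (slSetP m p) := by
  classical
  rcases Nat.eq_zero_or_pos m with rfl | hm
  · have h1 : X = 0 := by
      ext i
      exact i.elim0
    rw [h1]
    exact Submodule.zero_mem _
  · obtain ⟨i₀, -⟩ : ∃ i₀ : Fin m, True := ⟨⟨0, hm⟩, trivial⟩
    have h1 : X = ∑ i, ∑ j, if i = j then X i i • (Matrix.single i i (1 : ZMod p) -
        Matrix.single i₀ i₀ 1) else X i j • Matrix.single i j (1 : ZMod p) := by
      have h2 : ∀ i j, (if i = j then X i i • (Matrix.single i i (1 : ZMod p) -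
        Matrix.single i₀ i₀ 1) else X i j • Matrix.single i j (1 : ZMod p)) =
        Matrix.single i j (X i j) - if i = j then X i i • Matrix.single i₀ i₀ (1 : ZMod p) else 0 := by
        intro i j
        by_cases hij : i = j
        · subst hij
          rw [if_pos rfl, if_pos rfl, smul_sub, Matrix.smul_single, smul_eq_mul, mul_one]
        · rw [if_neg hij, if_neg hij, sub_zero, Matrix.smul_single, smul_eq_mul, mul_one]
      simp only [h2, Finset.sum_sub_distrib, Finset.sum_ite_eq, Finset.mem_univ, if_true]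
      rw [← Finset.sum_smul]
      have h3 : ∑ i, X i i = 0 := ht
      rw [h3, zero_smul, sub_zero]
      exact Matrix.matrix_eq_sum_single X
    rw [h1]
    refine Submodule.sum_mem _ fun i _ => Submodule.sum_mem _ fun j _ => ?_
    by_cases hij : i = j
    · rw [if_pos hij]
      refine Submodule.smul_mem _ _ ?_
      by_cases hi : i = i₀
      · rw [hi, sub_self]
        exact Submodule.zero_mem _
      · exact Submodule.subset_span (Or.inr ⟨i, i₀, hi, rfl⟩)
    · rw [if_neg hij]
      exact Submodule.smul_mem _ _ (Submodule.subset_span (Or.inl ⟨i, j, hij, rfl⟩))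

/-- Proof. Let `X₀ ≠ 0` be reachable (`exists_reach`); `tr X₀ = 0` (`Lev.trace` for one of the elements). So `tr(Z X₀) ≠ 0` for some
`Z ∈ slSetP`. By `SpanP` and `Reach.conj`, `Reach.smul`, `Reach.sum` the matrix `tr(Z X₀) X` is reachable for every `X ∈ slSetP`, hence `X`; and every matrix of
trace zero is a linear combination of matrices in `slSetP` (`Submodule.span_induction`). -/
theorem reach_all (hpinj : Function.Injective p) (s : ℕ) (hs : ∀ j (g : SLZ m (p j)), Cong 1 (g ^ s)) (γ₀ : Γ)
    (h0 : ∀ N : Subgroup Γ, N.FiniteIndex → γ₀ ∈ closure (N : Set Γ)) (i : ι) (hne : φ i (γ₀ ^ s) ≠ 1)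
    (hpm : ¬ p i ∣ m) (hspan : SpanP (m := m) p φ i) :
    ∃ k : ℕ, 1 ≤ k ∧ ∀ X : Matrix (Fin m) (Fin m) (ZMod (p i)), X.trace = 0 → Reach p φ i k X := by
  obtain ⟨k, X₀, hk, hX₀, hR⟩ := exists_reach p φ hpinj s hs γ₀ h0 i hne
  refine ⟨k, hk, ?_⟩
  obtain ⟨γ, -, -, hL⟩ := hR Set.univ Filter.univ_mem 0
  obtain ⟨Z, hZ, hZX⟩ := exists_slSetP_trace_ne (p i) hpm X₀ hX₀ (hL.trace hk)
  have h1 : ∀ X ∈ slSetP m (p i), Reach p φ i k X := by
    intro X hX
    obtain ⟨t, c, hc⟩ := hspan X hX Z hZ
    have h2 : Reach p φ i k ((Z * X₀).trace • X) := by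
      rw [← hc X₀]
      exact Reach.sum p φ hk t _ fun δ _ => Reach.smul p φ hk (Reach.conj p φ hR δ) (c δ)
    have h3 := Reach.smul p φ hk h2 ((Z * X₀).trace)⁻¹
    rwa [smul_smul, inv_mul_cancel₀ hZX, one_smul] at h3
  intro X hX
  have h2 := mem_span_slSetP (p i) X hX
  clear hX
  induction h2 using Submodule.span_induction with
  | mem x hx => exact h1 x hx
  | zero => exact Reach.zero p φ i k
  | add x y _ _ hx hy => exact Reach.add p φ hk hx hy
  | smul a x _ hx => exact Reach.smul p φ hk hx a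

end WCn
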