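import Pool.Agent.Lib.MP_c2b80f_alC.LevDefs

/-!
# Congruence levels: first properties (job LevA)
-/

open Matrix

namespace WCn

variable {m : ℕ} {p : ℕ} [Fact p.Prime]

/-- Kernel of `ℤ_p → ZMod (p ^ k)`: `PadicInt.ker_toZModPow`, `Ideal.mem_span_singleton`. -/
theorem mem_congSub (k : ℕ) (g : SLZ m p) : g ∈ congSub m p k ↔ Cong k g := by
  have hker : ∀ x : ℤ_[p], PadicInt.toZModPow k x = 0 ↔ (p : ℤ_[p]) ^ k ∣ x := by
    intro x
    rw [← RingHom.mem_ker, PadicInt.ker_toZModPow, Ideal.mem_span_singleton]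
  have hone : ∀ i j : Fin m, PadicInt.toZModPow k ((1 : Matrix (Fin m) (Fin m) ℤ_[p]) i j) =
      (1 : Matrix (Fin m) (Fin m) (ZMod (p ^ k))) i j := by
    intro i j
    rcases eq_or_ne i j with h | h
    · subst h; rw [Matrix.one_apply_eq, Matrix.one_apply_eq, map_one]
    · rw [Matrix.one_apply_ne h, Matrix.one_apply_ne h, map_zero]
  constructor
  · intro hg
    have hg1 : Matrix.SpecialLinearGroup.map (PadicInt.toZModPow k : ℤ_[p] →+* ZMod (p ^ k)) g = 1 := hg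
    have h1 : ∀ i j : Fin m, PadicInt.toZModPow k (g.1 i j) =
        (1 : Matrix (Fin m) (Fin m) (ZMod (p ^ k))) i j := by
      intro i j
      have h2 := congrArg (fun M : Matrix.SpecialLinearGroup (Fin m) (ZMod (p ^ k)) => M.1 i j) hg1
      exact h2
    have h3 : ∀ i j : Fin m, ∃ y : ℤ_[p], g.1 i j - (1 : Matrix (Fin m) (Fin m) ℤ_[p]) i j = (p : ℤ_[p]) ^ k * y := by
      intro i j
      have h4 : PadicInt.toZModPow k (g.1 i j - (1 : Matrix (Fin m) (Fin m) ℤ_[p]) i j) = 0 := by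
        rw [map_sub, h1, hone, sub_self]
      exact (hker _).mp h4
    choose Y hY using h3
    refine ⟨Matrix.of Y, ?_⟩
    ext i j
    rw [Matrix.add_apply, Matrix.smul_apply, Matrix.of_apply, smul_eq_mul, ← hY, add_sub_cancel]
  · rintro ⟨Y, hY⟩
    change Matrix.SpecialLinearGroup.map (PadicInt.toZModPow k : ℤ_[p] →+* ZMod (p ^ k)) g = 1
    apply Matrix.SpecialLinearGroup.ext
    intro i j
    change PadicInt.toZModPow k (g.1 i j) = (1 : Matrix (Fin m) (Fin m) (ZMod (p ^ k))) i j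
    rw [hY, Matrix.add_apply, map_add, hone, Matrix.smul_apply, smul_eq_mul]
    rw [(hker _).mpr (dvd_mul_right _ _), add_zero]

/-- Kernel of a homomorphism. -/
theorem congSub_normal (k : ℕ) : (congSub m p k).Normal :=
  MonoidHom.normal_ker _

/-- Kernel of a homomorphism to a finite group. -/
theorem congSub_finiteIndex (k : ℕ) : (congSub m p k).FiniteIndex := by
  have hne : NeZero (p ^ k) := ⟨pow_ne_zero _ (Fact.out (p := p.Prime)).ne_zero⟩
  have hfin : Finite (Matrix.SpecialLinearGroup (Fin m) (ZMod (p ^ k))) :=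
    Finite.of_injective (fun g => (g.1 : Fin m → Fin m → ZMod (p ^ k))) (fun a b hab => Subtype.ext hab)
  exact Subgroup.finiteIndex_ker _

theorem Lev.cong {k : ℕ} {g : SLZ m p} {X : Matrix (Fin m) (Fin m) (ZMod p)} (h : Lev k g X) : Cong k g := by
  obtain ⟨Y, hY, -⟩ := h
  exact ⟨Y, hY⟩

theorem lev_one (k : ℕ) : Lev k (1 : SLZ m p) 0 := by
  refine ⟨0, ?_, ?_⟩
  · rw [smul_zero, add_zero]; rfl
  · ext i j
    rw [Matrix.map_apply, Matrix.zero_apply, Matrix.zero_apply, map_zero]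

theorem lev_of_cong {k : ℕ} {g : SLZ m p} (h : Cong (k + 1) g) : Lev k g 0 := by
  obtain ⟨Y, hY⟩ := h
  refine ⟨(p : ℤ_[p]) • Y, ?_, ?_⟩
  · rw [hY, pow_succ, mul_smul]
  · ext i j
    rw [Matrix.map_apply, Matrix.smul_apply, smul_eq_mul, map_mul, map_natCast, CharP.cast_eq_zero,
      zero_mul, Matrix.zero_apply]

theorem Cong.mono {k l : ℕ} (hkl : k ≤ l) {g : SLZ m p} (h : Cong l g) : Cong k g := by
  obtain ⟨Y, hY⟩ := h
  refine ⟨(p : ℤ_[p]) ^ (l - k) • Y, ?_⟩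
  rw [hY, ← mul_smul, ← pow_add, Nat.add_sub_cancel' hkl]

/-- `X` is determined by `g` and `k`. -/
theorem Lev.unique {k : ℕ} {g : SLZ m p} {X X' : Matrix (Fin m) (Fin m) (ZMod p)} (h : Lev k g X) (h' : Lev k g X') :
    X = X' := by
  obtain ⟨Y, hY, hX⟩ := h
  obtain ⟨Y', hY', hX'⟩ := h'
  have h1 : (p : ℤ_[p]) ^ k • Y = (p : ℤ_[p]) ^ k • Y' := by
    rw [hY] at hY'
    exact add_left_cancel hY'
  have hp : (p : ℤ_[p]) ^ k ≠ 0 :=
    pow_ne_zero _ (Nat.cast_ne_zero.mpr (Fact.out (p := p.Prime)).ne_zero)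
  have h2 : Y = Y' := by
    ext i j
    have h3 := congrFun (congrFun h1 i) j
    rw [Matrix.smul_apply, Matrix.smul_apply, smul_eq_mul, smul_eq_mul] at h3
    exact_mod_cast mul_left_cancel₀ hp h3
  rw [← hX, ← hX', h2]

/-- `k ≥ 1` is needed here: the cross term is divisible by `p ^ (2 k)`. -/
theorem Lev.mul {k : ℕ} (hk : 1 ≤ k) {g h : SLZ m p} {X Y : Matrix (Fin m) (Fin m) (ZMod p)} (hg : Lev k g X)
    (hh : Lev k h Y) : Lev k (g * h) (X + Y) := by
  obtain ⟨A, hA, hAX⟩ := hg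
  obtain ⟨B, hB, hBY⟩ := hh
  refine ⟨A + B + (p : ℤ_[p]) ^ k • (A * B), ?_, ?_⟩
  · rw [Matrix.SpecialLinearGroup.coe_mul, hA, hB, add_mul, one_mul, mul_add, mul_one, smul_add, smul_add,
      Matrix.smul_mul, Matrix.mul_smul]
    abel
  · have h0 : (((p : ZMod p)) ^ k) = 0 := by
      rw [CharP.cast_eq_zero, zero_pow (by omega)]
    rw [← hAX, ← hBY]
    ext i j
    rw [Matrix.map_apply, Matrix.add_apply, Matrix.add_apply, Matrix.add_apply, Matrix.map_apply,
      Matrix.map_apply, Matrix.smul_apply, smul_eq_mul, map_add, map_add, map_mul, map_pow, map_natCast, h0,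
      zero_mul, add_zero]

theorem Lev.pow {k : ℕ} (hk : 1 ≤ k) {g : SLZ m p} {X : Matrix (Fin m) (Fin m) (ZMod p)} (hg : Lev k g X) (a : ℕ) :
    Lev k (g ^ a) ((a : ZMod p) • X) := by
  induction a with
  | zero =>
    rw [pow_zero, Nat.cast_zero, zero_smul]
    exact lev_one k
  | succ a ih =>
    rw [pow_succ, Nat.cast_succ, add_smul, one_smul]
    exact Lev.mul hk ih hg

theorem Lev.conj {k : ℕ} {g : SLZ m p} {X : Matrix (Fin m) (Fin m) (ZMod p)} (hg : Lev k g X) (h : SLZ m p) :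
    Lev k (h * g * h⁻¹) ((red h).1 * X * ((red h)⁻¹).1) := by
  obtain ⟨Y, hY, hX⟩ := hg
  refine ⟨h.1 * Y * (h⁻¹).1, ?_, ?_⟩
  · have h1 : h.1 * (h⁻¹).1 = 1 := by
      rw [← Matrix.SpecialLinearGroup.coe_mul, mul_inv_cancel]; rfl
    rw [Matrix.SpecialLinearGroup.coe_mul, Matrix.SpecialLinearGroup.coe_mul, hY, mul_add, mul_one, add_mul, h1,
      Matrix.mul_smul, Matrix.smul_mul]
  · have h2 : (red h)⁻¹ = red (h⁻¹) := (map_inv (Matrix.SpecialLinearGroup.map PadicInt.toZMod) h).symm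
    rw [h2, Matrix.map_mul, Matrix.map_mul, hX]
    rfl

end WCn
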