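import Pool.Agent.Lib.MP_c2b80f_alC.ReachDefs
import Pool.Agent.Lib.MP_c2b80f_alC.LevA

/-!
# Simultaneous levels (job ReachS)
-/

open Matrix

namespace WCn

variable {m : ℕ} {Γ : Type*} [Group Γ] [TopologicalSpace Γ] [IsTopologicalGroup Γ]
  {ι : Type*} [Fintype ι] [DecidableEq ι] (p : ι → ℕ) [hp : ∀ i, Fact (p i).Prime] (φ : ∀ i, Γ →* SLZ m (p i))

/-- If `X i` is reachable at level `k i` for every `i`, all levels can be prescribed simultaneously.
Proof: choose `γ i ∈ V`, where `V` is a neighbourhood of `1` such that products of `Fintype.card ι` elements of `V` are in `U`, with `Lev (k i) (φ i (γ i)) (X i)` and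
`Cong (K + 1) (φ j (γ i))` for `j ≠ i`, `K = ∑ k`; take the product of the `γ i` (in some order, a list product over `Finset.univ.toList`; or induction over a finset of indices), `Lev.mul`,
`lev_of_cong`, `Cong.mono`. -/
theorem Reach.simultaneous (k : ι → ℕ) (hk : ∀ i, 1 ≤ k i) (X : ∀ i, Matrix (Fin m) (Fin m) (ZMod (p i)))
    (h : ∀ i, Reach p φ i (k i) (X i)) (U : Set Γ) (hU : U ∈ nhds (1 : Γ)) :
    ∃ γ ∈ U, ∀ i, Lev (k i) (φ i γ) (X i) := by
  have key : ∀ s : Finset ι, ∀ U ∈ nhds (1 : Γ), ∃ γ ∈ U, ∀ i,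
      (i ∈ s → Lev (k i) (φ i γ) (X i)) ∧ (i ∉ s → Lev (k i) (φ i γ) 0) := by
    intro s
    induction s using Finset.induction_on with
    | empty =>
      intro U hU
      refine ⟨1, mem_of_mem_nhds hU, fun i => ⟨fun hi => absurd hi (Finset.notMem_empty i), fun _ => ?_⟩⟩
      rw [map_one]
      exact lev_one (k i)
    | insert a s ha ih =>
      intro U hU
      obtain ⟨V, hV, hVU⟩ := exists_nhds_one_split hU
      obtain ⟨γ₁, hγ₁, h1⟩ := ih V hV
      obtain ⟨γ₂, hγ₂, h2, h3⟩ := h a V hV ((∑ j, k j) + 1)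
      refine ⟨γ₁ * γ₂, hVU γ₁ hγ₁ γ₂ hγ₂, fun i => ?_⟩
      rcases eq_or_ne i a with hia | hia
      · subst hia
        refine ⟨fun _ => ?_, fun hi => absurd (Finset.mem_insert_self i s) hi⟩
        have h4 := Lev.mul (hk i) ((h1 i).2 ha) h3
        rw [zero_add] at h4
        rw [map_mul]
        exact h4
      · have h5 : Lev (k i) (φ i γ₂) 0 := by
          apply lev_of_cong
          refine Cong.mono ?_ (h2 i hia)
          exact Nat.succ_le_succ (Finset.single_le_sum (fun j _ => Nat.zero_le (k j)) (Finset.mem_univ i))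
        constructor
        · intro hi
          have hi' : i ∈ s := by
            rcases Finset.mem_insert.mp hi with h6 | h6
            · exact absurd h6 hia
            · exact h6
          have h4 := Lev.mul (hk i) ((h1 i).1 hi') h5
          rw [add_zero] at h4
          rw [map_mul]
          exact h4
        · intro hi
          have hi' : i ∉ s := fun h6 => hi (Finset.mem_insert_of_mem h6)
          have h4 := Lev.mul (hk i) ((h1 i).2 hi') h5
          rw [add_zero] at h4
          rw [map_mul]
          exact h4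
  obtain ⟨γ, hγ, h1⟩ := key Finset.univ U hU
  exact ⟨γ, hγ, fun i => (h1 i).1 (Finset.mem_univ i)⟩

end WCn
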