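import Pool.Agent.Lib.MP_c2b80f_alC.GenDefs
import Pool.Agent.Lib.MP_c2b80f_alC.GenR
import Pool.Agent.Lib.MP_c2b80f_alC.GenS
import Pool.Agent.Lib.MP_c2b80f_alC.ReachC
import Pool.Agent.Lib.MP_c2b80f_alC.ReachS
import Pool.Agent.Lib.MP_c2b80f_alC.EmbC
import Pool.Agent.Lib.MP_c2b80f_alC.PolyA
import Pool.Agent.Lib.MP_c2b80f_alC.PolyB
import Pool.Agent.Lib.MP_c2b80f_alC.GalB
import Pool.Agent.Lib.MP_c2b80f_alC.DiagA
import Pool.Agent.Lib.MP_c2b80f_alC.AdP
import Pool.Agent.Lib.MP_c2b80f_alC.SpecD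

/-!
# Existence of generic elements (job GenB)
-/

open Matrix Polynomial

namespace WCn

variable {m : ℕ}

/-- Elements with levels as prescribed are generic. `A ≤ A'` are rings, `σ`, `τ` injective homomorphisms of `A'` into `ℤ_p`, `ℤ_q`.
Proof. Let `F = (matA ψ A' _ γ).charpoly`, monic; `matA_chp`, `irreducible_of_lev`, `root_of_lev` give the hypotheses `h1`, `h2` of `twoTrans_padic` for `A'`. For `x` whose polynomial has coefficients in `A ≤ A'` let `G` be this polynomial over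
`A'` (`Polynomial.lifts`), `y` the eigenvalues (`diagBy_charpoly`, `matA_charpoly`). `F` is irreducible over the fraction field of `A'` (`extend_to_field`, `irreducible_of_map_field`), hence separable, so `ψ γ` is semisimple
(`isSs_of_separable`). It has infinite order by `Lev.pow_ne_one` for `homZ` (`X₁ ≠ 0`, because the characteristic polynomial of the zero matrix is `T ^ m`, not irreducible for `m ≥ 2`; `p ≠ 2`). -/
theorem generic_of_lev (hm : 2 ≤ m) {G : Type*} [Group G] (ψ : G →* SLC m) (hψ : Function.Injective ψ) (A A' : Subring ℂ) (hAA : A ≤ A')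
    (hA : ∀ g i j, (ψ g).1 i j ∈ A') (p q : ℕ) [Fact p.Prime] [Fact q.Prime] (hp2 : p ≠ 2) (σ : A' →+* ℤ_[p]) (hσ : Function.Injective σ)
    (τ : A' →+* ℤ_[q]) (hτ : Function.Injective τ) (γ : G) (k l : ℕ) (hk : 1 ≤ k) (hl : 1 ≤ l)
    (X₁ : Matrix (Fin m) (Fin m) (ZMod p)) (h₁ : Lev k (homZ ψ A' hA p σ γ) X₁) (hX₁ : Irreducible X₁.charpoly)
    (X₂ : Matrix (Fin m) (Fin m) (ZMod q)) (h₂ : Lev l (homZ ψ A' hA q τ γ) X₂) (c : ZMod q) (h : (ZMod q)[X])
    (hX₂ : X₂.charpoly = (X - C c) * h) (hh : Irreducible h) (hc : h.eval c ≠ 0) :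
    Generic A (ψ γ) := by
  have hF : (matA ψ A' hA γ).charpoly.Monic := Matrix.charpoly_monic _
  have h1 : Irreducible ((matA ψ A' hA γ).charpoly.map ((algebraMap ℤ_[p] ℚ_[p]).comp σ)) := by
    rw [matA_chp]
    exact irreducible_of_lev h₁ hX₁
  have h2 : ∃ θ : ℚ_[q], ((matA ψ A' hA γ).charpoly.map ((algebraMap ℤ_[q] ℚ_[q]).comp τ)).IsRoot θ ∧
      Irreducible ((matA ψ A' hA γ).charpoly.map ((algebraMap ℤ_[q] ℚ_[q]).comp τ) /ₘ (X - C θ)) := by
    rw [matA_chp]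
    exact root_of_lev h₂ c h hX₂ hh hc
  refine ⟨isSs_of_separable _ ?_, ?_, ?_⟩
  · obtain ⟨κ, hκ⟩ := extend_to_field A' ℚ_[p] ((algebraMap ℤ_[p] ℚ_[p]).comp σ)
      ((IsFractionRing.injective ℤ_[p] ℚ_[p]).comp hσ)
    let ι : A' →+* Subfield.closure (A' : Set ℂ) :=
      { toFun := fun a => ⟨a, Subfield.subset_closure a.2⟩
        map_one' := rfl
        map_mul' := fun _ _ => rfl
        map_zero' := rfl
        map_add' := fun _ _ => rfl }
    have e1 : κ.comp ι = (algebraMap ℤ_[p] ℚ_[p]).comp σ := RingHom.ext fun a => hκ a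
    have e2 : (Subfield.closure (A' : Set ℂ)).subtype.comp ι = A'.subtype := RingHom.ext fun a => rfl
    have h3 : Irreducible ((matA ψ A' hA γ).charpoly.map ι) := by
      refine irreducible_of_map_field κ _ ?_
      rw [Polynomial.map_map, e1]
      exact h1
    have h4 := h3.separable.map (f := (Subfield.closure (A' : Set ℂ)).subtype)
    rw [Polynomial.map_map, e2, matA_charpoly] at h4
    exact h4
  · intro hfin
    obtain ⟨a, ha, hpow⟩ := isOfFinOrder_iff_pow_eq_one.1 hfin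
    have hX0 : X₁ ≠ 0 := by
      rintro rfl
      have h5 : (0 : Matrix (Fin m) (Fin m) (ZMod p)).charpoly = X ^ m := by
        rw [Matrix.charpoly_zero, Fintype.card_fin]
      rw [h5] at hX₁
      exact not_irreducible_pow (by omega) hX₁
    refine Lev.pow_ne_one hp2 hk hX0 h₁ a ha ?_
    have h6 : γ ^ a = 1 := hψ (by rw [map_pow, hpow, map_one])
    rw [← map_pow, h6, map_one]
  · intro q' y hy n x hx
    have hlift : (∏ i, (X - C (x i : ℂ))) ∈ Polynomial.lifts A'.subtype := by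
      rw [Polynomial.lifts_iff_coeff_lifts]
      intro i
      exact ⟨⟨_, hAA (hx i)⟩, rfl⟩
    obtain ⟨G', hG', hG'm⟩ : ∃ G' : A'[X], G'.map A'.subtype = ∏ i, (X - C (x i : ℂ)) ∧ G'.Monic := by
      obtain ⟨G', hG'⟩ := (Polynomial.mem_lifts _).1 hlift
      refine ⟨G', hG', ?_⟩
      have hm1 : (G'.map A'.subtype).Monic := by
        rw [hG']
        exact Polynomial.monic_prod_of_monic _ _ fun i _ => Polynomial.monic_X_sub_C _
      exact Polynomial.monic_of_injective A'.subtype_injective hm1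
    exact twoTrans_padic A' _ G' hF hG'm x hG' y (by rw [matA_charpoly, diagBy_charpoly hy]) p q σ hσ τ hτ h1 h2

/-- Proof. Take `A₁` from `exists_ring` (for `Γ = ψ.range`), `A' = Subring.closure A₁`. By `exists_padic_embedding` (twice) there are primes `m + 2 < p 0 < p 1` and injective
`σ i : A' → ℤ_{p i}`, `i : Fin 2`. Let `φ i = homZ ψ A' _ (p i) (σ i)` (injective). Let `s > 0` with `Cong 1 (g ^ s)` for all `g` in `SL_m(ℤ_{p i})` (product of the numbers of `exists_expo`) and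
`γ₀` from `h0` for this `s`. By `spanP_of_ring` and `reach_all` there are `k i ≥ 1` such that all matrices of trace zero are reachable at level `k i`. Take `X 0` from `exists_type_one`, `X 1`
from `exists_type_two`, and `γ ∈ U` with `Lev (k i) (φ i γ) (X i)` (`Reach.simultaneous`). Apply `generic_of_lev`. -/
theorem generic_core (hm : 2 ≤ m) {G : Type*} [Group G] [TopologicalSpace G] [IsTopologicalGroup G] (ψ : G →* SLC m)
    (hψ : Function.Injective ψ) (A₀ : Finset ℂ) (hA : ∀ g i j, (ψ g).1 i j ∈ Subring.closure (A₀ : Set ℂ))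
    (hz : ZDense ψ.range)
    (h0 : ∀ s : ℕ, 0 < s → ∃ γ₀ : G, γ₀ ^ s ≠ 1 ∧ ∀ N : Subgroup G, N.FiniteIndex → γ₀ ∈ closure (N : Set G))
    (U : Set G) (hU : U ∈ nhds (1 : G)) :
    ∃ γ ∈ U, Generic (Subring.closure (A₀ : Set ℂ)) (ψ γ) := by
  obtain ⟨A₁, hA01, hop⟩ := exists_ring ψ.range hz A₀
  have hA' : ∀ g i j, (ψ g).1 i j ∈ Subring.closure (A₁ : Set ℂ) := fun g i j =>
    Subring.closure_mono (fun a ha => hA01 ha) (hA g i j)
  obtain ⟨p0, hp0, hp0m, σ0, hσ0⟩ := exists_padic_embedding A₁ (m + 2)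
  obtain ⟨p1, hp1, hp10, σ1, hσ1⟩ := exists_padic_embedding A₁ p0
  have hcase : ∀ i : ↥({p0, p1} : Finset ℕ), i.1 = p0 ∨ i.1 = p1 := fun i => by
    have h := i.2
    rw [Finset.mem_insert, Finset.mem_singleton] at h
    exact h
  have hp : ∀ i : ↥({p0, p1} : Finset ℕ), Fact (i.1).Prime := fun i => by
    rcases hcase i with h | h
    · rw [h]
      exact hp0
    · rw [h]
      exact hp1
  have hσex : ∀ i : ↥({p0, p1} : Finset ℕ),
      ∃ σ : Subring.closure (A₁ : Set ℂ) →+* ℤ_[i.1], Function.Injective σ := by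
    rintro ⟨i, hi⟩
    rcases hcase ⟨i, hi⟩ with h | h
    · have h' : i = p0 := h
      subst h'
      exact ⟨σ0, hσ0⟩
    · have h' : i = p1 := h
      subst h'
      exact ⟨σ1, hσ1⟩
  choose σ hσ using hσex
  have hgt : ∀ i : ↥({p0, p1} : Finset ℕ), m + 2 < i.1 := fun i => by
    rcases hcase i with h | h <;> omega
  have hpm : ∀ i : ↥({p0, p1} : Finset ℕ), ¬ i.1 ∣ m := fun i h => by
    have h1 := Nat.le_of_dvd (by omega) h
    have h2 := hgt i
    omega
  choose e he0 he using fun i : ↥({p0, p1} : Finset ℕ) => exists_expo m i.1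
  have hspos : 0 < ∏ i, e i := Finset.prod_pos fun i _ => he0 i
  obtain ⟨γ₀, hγs, hγN⟩ := h0 (∏ i, e i) hspos
  have hs : ∀ (j : ↥({p0, p1} : Finset ℕ)) (g : SLZ m j.1), Cong 1 (g ^ (∏ i, e i)) := fun j g => by
    obtain ⟨t, ht⟩ : e j ∣ ∏ i, e i := Finset.dvd_prod_of_mem e (Finset.mem_univ j)
    rw [ht, mul_comm, pow_mul]
    exact he j _
  have hreach : ∀ i : ↥({p0, p1} : Finset ℕ), ∃ k : ℕ, 1 ≤ k ∧ ∀ X : Matrix (Fin m) (Fin m) (ZMod i.1), X.trace = 0 →
      Reach (fun i : ↥({p0, p1} : Finset ℕ) => i.1)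
        (fun i => homZ ψ (Subring.closure (A₁ : Set ℂ)) hA' i.1 (σ i)) i k X := fun i => by
    refine reach_all (fun i : ↥({p0, p1} : Finset ℕ) => i.1)
      (fun i => homZ ψ (Subring.closure (A₁ : Set ℂ)) hA' i.1 (σ i)) Subtype.val_injective (∏ i, e i) hs γ₀ hγN i ?_
      (hpm i) (spanP_of_ring ψ (fun i : ↥({p0, p1} : Finset ℕ) => i.1) A₁ hA' hop σ i)
    intro h
    refine hγs (homZ_injective ψ hψ _ hA' i.1 (σ i) (hσ i) ?_)
    rw [h, map_one]
  choose k hk hR using hreach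
  have hX : ∀ i : ↥({p0, p1} : Finset ℕ), ∃ X : Matrix (Fin m) (Fin m) (ZMod i.1), X.trace = 0 ∧
      (i.1 = p0 → Irreducible X.charpoly) ∧ (i.1 = p1 → ∃ (c : ZMod i.1) (h : (ZMod i.1)[X]),
        X.charpoly = (Polynomial.X - C c) * h ∧ Irreducible h ∧ h.eval c ≠ 0) := fun i => by
    by_cases hi : i.1 = p0
    · obtain ⟨M, hM, hM'⟩ := exists_type_one i.1 m (by omega) (hpm i)
      exact ⟨M, hM, fun _ => hM', fun h => absurd (hi.symm.trans h) (by omega)⟩
    · obtain ⟨M, c, h, hM, hM', hh, hc⟩ := exists_type_two i.1 (by have := hgt i; omega) m hm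
      exact ⟨M, hM, fun h' => absurd h' hi, fun _ => ⟨c, h, hM', hh, hc⟩⟩
  choose Y hYt hY0 hY1 using hX
  obtain ⟨γ, hγU, hγ⟩ := Reach.simultaneous (fun i : ↥({p0, p1} : Finset ℕ) => i.1)
    (fun i => homZ ψ (Subring.closure (A₁ : Set ℂ)) hA' i.1 (σ i)) k hk Y (fun i => hR i (Y i) (hYt i)) U hU
  have hi0 : p0 ∈ ({p0, p1} : Finset ℕ) := Finset.mem_insert_self _ _
  have hi1 : p1 ∈ ({p0, p1} : Finset ℕ) := Finset.mem_insert_of_mem (Finset.mem_singleton_self _)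
  obtain ⟨c, h, hYc, hh, hc⟩ := hY1 ⟨p1, hi1⟩ rfl
  refine ⟨γ, hγU, ?_⟩
  exact generic_of_lev hm ψ hψ (Subring.closure (A₀ : Set ℂ)) (Subring.closure (A₁ : Set ℂ))
    (Subring.closure_mono fun a ha => hA01 ha) hA' p0 p1 (by omega) (σ ⟨p0, hi0⟩) (hσ ⟨p0, hi0⟩) (σ ⟨p1, hi1⟩)
    (hσ ⟨p1, hi1⟩) γ (k ⟨p0, hi0⟩) (k ⟨p1, hi1⟩) (hk _) (hk _) (Y ⟨p0, hi0⟩) (hγ ⟨p0, hi0⟩) (hY0 ⟨p0, hi0⟩ rfl)
    (Y ⟨p1, hi1⟩) (hγ ⟨p1, hi1⟩) c h hYc hh hc

/-- `G = Γ` with the indiscrete topology (`closure N = univ`), `exists_pow_ne_one`. -/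
theorem exists_generic (hm : 2 ≤ m) (Γ : Subgroup (SLC m)) (hz : ZDense Γ) (A₀ : Finset ℂ)
    (hA : ∀ g ∈ Γ, ∀ i j, g.1 i j ∈ Subring.closure (A₀ : Set ℂ)) :
    ∃ γ ∈ Γ, Generic (Subring.closure (A₀ : Set ℂ)) γ := by
  have htop : @IsTopologicalGroup Γ ⊤ _ := by
    let _ : TopologicalSpace Γ := ⊤
    exact { continuous_mul := continuous_top, continuous_inv := continuous_top }
  have hcl : ∀ (γ₀ : Γ) (N : Subgroup Γ), γ₀ ∈ @closure Γ ⊤ (N : Set Γ) := fun γ₀ N => by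
    let _ : TopologicalSpace Γ := ⊤
    rw [mem_closure_iff_nhds]
    intro t ht
    rw [nhds_top, Filter.mem_top] at ht
    exact ⟨1, by rw [ht]; exact Set.mem_univ _, N.one_mem⟩
  obtain ⟨γ, -, hγ⟩ := @generic_core m hm Γ _ ⊤ htop Γ.subtype Γ.subtype_injective A₀
    (fun g i j => hA g.1 g.2 i j) (by rw [Subgroup.range_subtype]; exact hz)
    (fun s hs => by
      obtain ⟨g, hg, hgs⟩ := exists_pow_ne_one hm Γ hz s hs
      refine ⟨⟨g, hg⟩, fun h => hgs ?_, fun N _ => hcl _ N⟩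
      exact congrArg Subtype.val h) Set.univ (@Filter.univ_mem Γ (@nhds Γ ⊤ 1))
  exact ⟨γ.1, γ.2, hγ⟩

end WCn
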