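import Pool.Agent.Lib.MP_c2b80f_alC.RelD

/-!
# Generic elements: definition
-/

open Polynomial

namespace WCn

/-- `γ` is generic relative to the ring `A`: semisimple of infinite order, and for every diagonalisation `γ = q diag(y) q⁻¹` and all nonzero numbers `x i` which are
the roots of a monic polynomial with coefficients in `A`, the symmetries of `(x, y)` act two-transitively on the `y j`. -/
def Generic {m : ℕ} (A : Subring ℂ) (γ : SLC m) : Prop :=
  IsSs γ ∧ ¬ IsOfFinOrder γ ∧ ∀ (q : GL (Fin m) ℂ) (y : Fin m → ℂˣ), DiagBy γ q y →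
    ∀ (n : ℕ) (x : Fin n → ℂˣ), (∀ i, (∏ i, (X - C (x i : ℂ))).coeff i ∈ A) → TwoTrans x y

end WCn
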