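import Pool.Agent.Lib.MP_c2b80f_alC.LevDefs

/-!
# The characteristic polynomial over `ℚ_p`: definition
-/

open Matrix Polynomial

namespace WCn

/-- The characteristic polynomial of `g` over `ℚ_p`. -/
noncomputable def chp {m : ℕ} {p : ℕ} [Fact p.Prime] (g : SLZ m p) : ℚ_[p][X] := (g.1.charpoly).map (algebraMap ℤ_[p] ℚ_[p])

end WCn
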