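import Pool.Agent.Lib.MP_c2b80f_alC.Defs
import Pool.Agent.Lib.MP_c2b80f_alC.PolyDefs

/-!
# Reduction homomorphisms (job HomZ)
-/

open Matrix Polynomial

namespace WCn

variable {m : ℕ}

/-- The matrix of `ψ g` over the ring `A` containing all the entries. -/
noncomputable def matA {G : Type*} [Group G] (ψ : G →* SLC m) (A : Subring ℂ) (hA : ∀ g i j, (ψ g).1 i j ∈ A) (g : G) :
    Matrix (Fin m) (Fin m) A := Matrix.of fun i j => (⟨(ψ g).1 i j, hA g i j⟩ : A)

theorem homZ_matA_map {G : Type*} [Group G] (ψ : G →* SLC m) (A : Subring ℂ) (hA : ∀ g i j, (ψ g).1 i j ∈ A) (g : G) :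
    (matA ψ A hA g).map A.subtype = (ψ g).1 := by
  ext i j
  rfl

theorem homZ_matA_det {G : Type*} [Group G] (ψ : G →* SLC m) (A : Subring ℂ) (hA : ∀ g i j, (ψ g).1 i j ∈ A) (g : G) :
    (matA ψ A hA g).det = 1 := by
  apply Subtype.ext
  have h1 : A.subtype (matA ψ A hA g).det = ((matA ψ A hA g).map A.subtype).det := RingHom.map_det _ _
  rw [homZ_matA_map, (ψ g).2] at h1
  exact h1

theorem homZ_matA_inj {M N : Matrix (Fin m) (Fin m) ℂ} {A : Subring ℂ} {M' N' : Matrix (Fin m) (Fin m) A}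
    (hM : M'.map A.subtype = M) (hN : N'.map A.subtype = N) (h : M = N) : M' = N' := by
  ext i j
  have h1 := congrFun (congrFun (hM.trans (h.trans hN.symm)) i) j
  exact h1

theorem homZ_matA_one {G : Type*} [Group G] (ψ : G →* SLC m) (A : Subring ℂ) (hA : ∀ g i j, (ψ g).1 i j ∈ A) :
    matA ψ A hA 1 = 1 := by
  refine homZ_matA_inj (homZ_matA_map ψ A hA 1) (N := 1) ?_ ?_
  · exact Matrix.map_one _ (map_zero _) (map_one _)
  · rw [map_one]
    rfl

theorem homZ_matA_mul {G : Type*} [Group G] (ψ : G →* SLC m) (A : Subring ℂ) (hA : ∀ g i j, (ψ g).1 i j ∈ A) (g h : G) :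
    matA ψ A hA (g * h) = matA ψ A hA g * matA ψ A hA h := by
  refine homZ_matA_inj (homZ_matA_map ψ A hA (g * h)) (N := (ψ g).1 * (ψ h).1) ?_ ?_
  · rw [Matrix.map_mul, homZ_matA_map, homZ_matA_map]
  · rw [map_mul]
    rfl

/-- The homomorphism `g ↦ σ(g)`. -/
noncomputable def homZ {G : Type*} [Group G] (ψ : G →* SLC m) (A : Subring ℂ) (hA : ∀ g i j, (ψ g).1 i j ∈ A)
    (p : ℕ) [Fact p.Prime] (σ : A →+* ℤ_[p]) : G →* SLZ m p where
  toFun g := ⟨(matA ψ A hA g).map σ, by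
      have h1 : σ (matA ψ A hA g).det = ((matA ψ A hA g).map σ).det := RingHom.map_det _ _
      rw [← h1, homZ_matA_det, map_one]⟩
  map_one' := by
    apply Subtype.ext
    change (matA ψ A hA 1).map σ = 1
    rw [homZ_matA_one]
    exact Matrix.map_one _ (map_zero _) (map_one _)
  map_mul' g h := by
    apply Subtype.ext
    change (matA ψ A hA (g * h)).map σ = (matA ψ A hA g).map σ * (matA ψ A hA h).map σ
    rw [homZ_matA_mul, Matrix.map_mul]

theorem homZ_apply {G : Type*} [Group G] (ψ : G →* SLC m) (A : Subring ℂ) (hA : ∀ g i j, (ψ g).1 i j ∈ A)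
    (p : ℕ) [Fact p.Prime] (σ : A →+* ℤ_[p]) (g : G) (i j : Fin m) :
    (homZ ψ A hA p σ g).1 i j = σ ⟨(ψ g).1 i j, hA g i j⟩ := rfl

theorem homZ_injective {G : Type*} [Group G] (ψ : G →* SLC m) (hψ : Function.Injective ψ) (A : Subring ℂ)
    (hA : ∀ g i j, (ψ g).1 i j ∈ A) (p : ℕ) [Fact p.Prime] (σ : A →+* ℤ_[p]) (hσ : Function.Injective σ) :
    Function.Injective (homZ ψ A hA p σ) := by
  intro g h hgh
  apply hψ
  apply Subtype.ext
  ext i j
  have h1 : (homZ ψ A hA p σ g).1 i j = (homZ ψ A hA p σ h).1 i j := by rw [hgh]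
  rw [homZ_apply, homZ_apply] at h1
  exact congrArg Subtype.val (hσ h1)

/-- The characteristic polynomial over `A`: it maps to those over `ℂ` and over `ℚ_p`. -/
theorem matA_charpoly {G : Type*} [Group G] (ψ : G →* SLC m) (A : Subring ℂ) (hA : ∀ g i j, (ψ g).1 i j ∈ A) (g : G) :
    (matA ψ A hA g).charpoly.map A.subtype = (ψ g).1.charpoly := by
  rw [← Matrix.charpoly_map, homZ_matA_map]

theorem matA_chp {G : Type*} [Group G] (ψ : G →* SLC m) (A : Subring ℂ) (hA : ∀ g i j, (ψ g).1 i j ∈ A) (g : G)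
    (p : ℕ) [Fact p.Prime] (σ : A →+* ℤ_[p]) :
    (matA ψ A hA g).charpoly.map ((algebraMap ℤ_[p] ℚ_[p]).comp σ) = chp (homZ ψ A hA p σ g) := by
  unfold chp
  rw [← Polynomial.map_map, ← Matrix.charpoly_map]
  rfl

end WCn
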