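import Mathlib

/-!
# Congruence levels in `SL_m(ℤ_p)`: definitions
-/

open Matrix

namespace WCn

/-- `SL_m(ℤ_p)`. -/
abbrev SLZ (m p : ℕ) [Fact p.Prime] : Type := Matrix.SpecialLinearGroup (Fin m) ℤ_[p]

variable {m : ℕ} {p : ℕ} [Fact p.Prime]

/-- `g ≡ 1` modulo `p ^ k`. -/
def Cong (k : ℕ) (g : SLZ m p) : Prop := ∃ Y : Matrix (Fin m) (Fin m) ℤ_[p], g.1 = 1 + (p : ℤ_[p]) ^ k • Y

/-- `g ≡ 1 + p ^ k X` modulo `p ^ (k + 1)`, where `X` is a matrix over the field with `p` elements. -/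
def Lev (k : ℕ) (g : SLZ m p) (X : Matrix (Fin m) (Fin m) (ZMod p)) : Prop :=
  ∃ Y : Matrix (Fin m) (Fin m) ℤ_[p], g.1 = 1 + (p : ℤ_[p]) ^ k • Y ∧ Y.map PadicInt.toZMod = X

/-- Reduction modulo `p`. -/
noncomputable def red (g : SLZ m p) : Matrix.SpecialLinearGroup (Fin m) (ZMod p) :=
  Matrix.SpecialLinearGroup.map PadicInt.toZMod g

/-- The congruence subgroup modulo `p ^ k`. -/
noncomputable def congSub (m p : ℕ) [Fact p.Prime] (k : ℕ) : Subgroup (SLZ m p) :=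
  (Matrix.SpecialLinearGroup.map (PadicInt.toZModPow k : ℤ_[p] →+* ZMod (p ^ k))).ker

end WCn
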