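import Mathlib

/-!
# Companion matrices over finite fields (job PolyC)
-/

open Matrix Polynomial

namespace WCn

/-- There is a monic irreducible polynomial of every degree `d ≥ 1` over the field with `p` elements (minimal polynomial of a generator of the
extension `GaloisField p d`, or results on finite fields in Mathlib). -/
theorem exists_irreducible (p : ℕ) [Fact p.Prime] (d : ℕ) (hd : 1 ≤ d) :
    ∃ h : (ZMod p)[X], h.Monic ∧ Irreducible h ∧ h.natDegree = d := by
  have hd0 : d ≠ 0 := by omega
  obtain ⟨α, hα⟩ := Field.exists_primitive_element (ZMod p) (GaloisField p d)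
  have hint : IsIntegral (ZMod p) α := IsIntegral.of_finite (ZMod p) α
  refine ⟨minpoly (ZMod p) α, minpoly.monic hint, minpoly.irreducible hint, ?_⟩
  rw [(Field.primitive_element_iff_minpoly_natDegree_eq (ZMod p) α).mp hα, GaloisField.finrank p hd0]

/-- Every monic polynomial is a characteristic polynomial (companion matrix; for instance the matrix of multiplication by the root in `AdjoinRoot h`, `Algebra.leftMulMatrix` for the power basis,
`charpoly_leftMulMatrix`: its characteristic polynomial is the minimal polynomial of the root for a monic `h`; or Mathlib's companion matrix if present). -/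
theorem exists_companion {F : Type*} [Field F] (h : F[X]) (hm : h.Monic) (d : ℕ) (hd : h.natDegree = d) :
    ∃ M : Matrix (Fin d) (Fin d) F, M.charpoly = h := by
  subst hd
  refine ⟨Algebra.leftMulMatrix (AdjoinRoot.powerBasis' hm).basis (AdjoinRoot.powerBasis' hm).gen, ?_⟩
  have h1 := charpoly_leftMulMatrix (AdjoinRoot.powerBasis' hm)
  have h2 : minpoly F (AdjoinRoot.powerBasis' hm).gen = h := by
    change minpoly F (AdjoinRoot.root h) = h
    rw [AdjoinRoot.minpoly_root hm.ne_zero, hm.leadingCoeff, inv_one, C_1, mul_one]
  rw [h2] at h1
  exact h1

end WCn
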