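import Pool.Agent.Lib.MP_c2b80f_alC.PolyDefs

/-!
# Substitution in the characteristic polynomial (job PolyS)
-/

open Matrix Polynomial

namespace WCn

/-- `charpoly (1 + c Y) (1 + c S) = c ^ m charpoly Y (S)` over a field, `c ≠ 0` (evaluate: `det ((1 + c S) - (1 + c Y)) = c ^ m det (S - Y)`; for polynomials compare after evaluation at all points of an infinite field, or work in
`K[X]` with the matrix `charmatrix`). -/
theorem charpoly_comp {K : Type*} [Field K] [Infinite K] {m : ℕ} (Y : Matrix (Fin m) (Fin m) K) (c : K) :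
    ((1 + c • Y).charpoly).comp (1 + C c * Polynomial.X) = C (c ^ m) * Y.charpoly := by
  refine Polynomial.funext fun s => ?_
  rw [eval_comp, Matrix.eval_charpoly, eval_mul, eval_C, Matrix.eval_charpoly]
  have h1 : Polynomial.eval s (1 + C c * Polynomial.X) = 1 + c * s := by
    rw [eval_add, eval_one, eval_mul, eval_C, eval_X]
  rw [h1]
  have h2 : Matrix.scalar (Fin m) (1 + c * s) - (1 + c • Y) = c • (Matrix.scalar (Fin m) s - Y) := by
    ext i j
    by_cases hij : i = j
    · subst hij
      simp [Matrix.scalar_apply, Matrix.diagonal_apply_eq]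
      ring
    · simp [Matrix.scalar_apply, Matrix.diagonal_apply_ne _ hij, Matrix.one_apply_ne hij]
  rw [h2, Matrix.det_smul, Fintype.card_fin]

/-- Irreducibility and roots are preserved by an affine substitution. -/
theorem irreducible_comp_iff {K : Type*} [Field K] (f : K[X]) (c : K) (hc : c ≠ 0) :
    Irreducible (f.comp (1 + C c * Polynomial.X)) ↔ Irreducible f := by
  let _ : Invertible c := invertibleOfNonzero hc
  have h : f.comp (1 + C c * Polynomial.X) = algEquivCMulXAddC c 1 f := by
    rw [algEquivCMulXAddC_apply, comp_eq_aeval, map_one, add_comm]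
  rw [h]
  exact MulEquiv.irreducible_iff (algEquivCMulXAddC c (1 : K))

/-- If `f (1 + c S) = a (S - θ₀) H (S)` with `a ≠ 0` and `H` irreducible, `f` monic, then `1 + c θ₀` is a root of `f` and `f / (X - (1 + c θ₀))` is irreducible. -/
theorem root_comp {K : Type*} [Field K] (f : K[X]) (hf : f.Monic) (c a : K) (hc : c ≠ 0) (ha : a ≠ 0) (θ₀ : K) (H : K[X])
    (hH : Irreducible H) (h : f.comp (1 + C c * Polynomial.X) = C a * ((Polynomial.X - C θ₀) * H)) :
    f.IsRoot (1 + c * θ₀) ∧ Irreducible (f /ₘ (Polynomial.X - C (1 + c * θ₀))) := by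
  have hroot : f.IsRoot (1 + c * θ₀) := by
    have h1 := congrArg (Polynomial.eval θ₀) h
    rw [eval_comp, eval_add, eval_one, eval_mul, eval_C, eval_X, eval_mul, eval_mul, eval_sub, eval_X, eval_C,
      eval_C, sub_self, zero_mul, mul_zero] at h1
    exact h1
  refine ⟨hroot, ?_⟩
  obtain ⟨g, hg⟩ : ∃ g, g = f /ₘ (Polynomial.X - C (1 + c * θ₀)) := ⟨_, rfl⟩
  have h2 : (Polynomial.X - C (1 + c * θ₀)) * g = f := by
    rw [hg]
    exact mul_divByMonic_eq_iff_isRoot.2 hroot
  rw [← hg]
  have h3 : C c * ((Polynomial.X - C θ₀) * g.comp (1 + C c * Polynomial.X)) =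
      C a * ((Polynomial.X - C θ₀) * H) := by
    rw [← h, ← h2, mul_comp, sub_comp, X_comp, C_comp]
    have h4 : (1 : K[X]) + C c * Polynomial.X - C (1 + c * θ₀) = C c * (Polynomial.X - C θ₀) := by
      rw [C_add, C_1, C_mul]
      ring
    rw [h4]
    ring
  have h5 : (Polynomial.X - C θ₀) ≠ 0 := X_sub_C_ne_zero θ₀
  have h6 : C c * g.comp (1 + C c * Polynomial.X) = C a * H := by
    apply mul_left_cancel₀ h5
    calc (Polynomial.X - C θ₀) * (C c * g.comp (1 + C c * Polynomial.X)) =
        C c * ((Polynomial.X - C θ₀) * g.comp (1 + C c * Polynomial.X)) := by ring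
      _ = C a * ((Polynomial.X - C θ₀) * H) := h3
      _ = _ := by ring
  have hcu : IsUnit (C c : K[X]) := isUnit_C.2 (isUnit_iff_ne_zero.2 hc)
  have hau : IsUnit (C a : K[X]) := isUnit_C.2 (isUnit_iff_ne_zero.2 ha)
  rw [← irreducible_comp_iff g c hc, ← irreducible_isUnit_mul hcu, h6, irreducible_isUnit_mul hau]
  exact hH

end WCn
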