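import Pool.Agent.Lib.MP_c2b80f_alC.ReachDefs
import Pool.Agent.Lib.MP_c2b80f_alC.LevA

/-!
# Reachable matrices form a space stable under conjugation (job ReachA)
-/

open Matrix

namespace WCn

variable {m : ℕ} {Γ : Type*} [Group Γ] [TopologicalSpace Γ] [IsTopologicalGroup Γ]
  {ι : Type*} (p : ι → ℕ) [hp : ∀ i, Fact (p i).Prime] (φ : ∀ i, Γ →* SLZ m (p i))

theorem Reach.zero (i : ι) (k : ℕ) : Reach p φ i k 0 := by
  intro U hU K
  refine ⟨1, mem_of_mem_nhds hU, fun j _ => ?_, ?_⟩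
  · rw [map_one, ← mem_congSub]
    exact one_mem _
  · rw [map_one]
    exact lev_one k

/-- Product of two elements; `Cong K` is stable under products (`mem_congSub`). -/
theorem Reach.add {i : ι} {k : ℕ} (hk : 1 ≤ k) {X Y : Matrix (Fin m) (Fin m) (ZMod (p i))} (hX : Reach p φ i k X)
    (hY : Reach p φ i k Y) : Reach p φ i k (X + Y) := by
  intro U hU K
  obtain ⟨V, hV, hVU⟩ := exists_nhds_one_split hU
  obtain ⟨γ, hγ, h1, h2⟩ := hX V hV K
  obtain ⟨δ, hδ, h3, h4⟩ := hY V hV K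
  refine ⟨γ * δ, hVU γ hγ δ hδ, fun j hj => ?_, ?_⟩
  · rw [map_mul, ← mem_congSub]
    exact mul_mem ((mem_congSub _ _).2 (h1 j hj)) ((mem_congSub _ _).2 (h3 j hj))
  · rw [map_mul]
    exact Lev.mul hk h2 h4

/-- Natural number multiples: use `γ ^ a`; the map `γ ↦ γ ^ a` is continuous. Every element of `ZMod p` is a natural number. -/
theorem Reach.smul {i : ι} {k : ℕ} (hk : 1 ≤ k) {X : Matrix (Fin m) (Fin m) (ZMod (p i))} (hX : Reach p φ i k X)
    (a : ZMod (p i)) : Reach p φ i k (a • X) := by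
  have hne : NeZero (p i) := ⟨(hp i).out.ne_zero⟩
  intro U hU K
  obtain ⟨n, rfl⟩ : ∃ n : ℕ, (n : ZMod (p i)) = a := ⟨a.val, ZMod.natCast_zmod_val a⟩
  have hV : (fun γ : Γ => γ ^ n) ⁻¹' U ∈ nhds (1 : Γ) := by
    refine (continuous_pow n).continuousAt.preimage_mem_nhds ?_
    rw [one_pow]
    exact hU
  obtain ⟨γ, hγ, h1, h2⟩ := hX _ hV K
  refine ⟨γ ^ n, hγ, fun j hj => ?_, ?_⟩
  · rw [map_pow, ← mem_congSub]
    exact pow_mem ((mem_congSub _ _).2 (h1 j hj)) n
  · rw [map_pow]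
    exact Lev.pow hk h2 n

theorem Reach.conj {i : ι} {k : ℕ} {X : Matrix (Fin m) (Fin m) (ZMod (p i))} (hX : Reach p φ i k X) (δ : Γ) :
    Reach p φ i k ((red (φ i δ)).1 * X * ((red (φ i δ))⁻¹).1) := by
  intro U hU K
  have hV : (fun γ : Γ => δ * γ * δ⁻¹) ⁻¹' U ∈ nhds (1 : Γ) := by
    have hc : Continuous (fun γ : Γ => δ * γ * δ⁻¹) :=
      (continuous_const.mul continuous_id).mul continuous_const
    refine hc.continuousAt.preimage_mem_nhds ?_
    rw [mul_one, mul_inv_cancel]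
    exact hU
  obtain ⟨γ, hγ, h1, h2⟩ := hX _ hV K
  refine ⟨δ * γ * δ⁻¹, hγ, fun j hj => ?_, ?_⟩
  · rw [map_mul, map_mul, map_inv, ← mem_congSub]
    exact (congSub_normal K).conj_mem _ ((mem_congSub _ _).2 (h1 j hj)) _
  · rw [map_mul, map_mul, map_inv]
    exact Lev.conj h2 (φ i δ)

/-- A finite sum of reachable matrices is reachable. -/
theorem Reach.sum {i : ι} {k : ℕ} (hk : 1 ≤ k) {α : Type*} (s : Finset α) (X : α → Matrix (Fin m) (Fin m) (ZMod (p i)))
    (hX : ∀ a ∈ s, Reach p φ i k (X a)) : Reach p φ i k (∑ a ∈ s, X a) := by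
  classical
  induction s using Finset.induction_on with
  | empty =>
    rw [Finset.sum_empty]
    exact Reach.zero p φ i k
  | insert a s ha ih =>
    rw [Finset.sum_insert ha]
    exact Reach.add p φ hk (hX a (Finset.mem_insert_self a s))
      (ih fun b hb => hX b (Finset.mem_insert_of_mem hb))

end WCn
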