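import Pool.Agent.Lib.MP_c2b80f_alC.Defs

/-!
# Rational multiplicative relations (job RelA)

`relQ x y` is the space of rational relations between complex numbers `x i`, `y j` (all nonzero): `(v, w)` belongs to it if some
positive integral multiple of `(v, w)` is integral and is a multiplicative relation `∏ x i ^ c i * ∏ y j ^ d j = 1`.

Everything in this file is elementary. (`add`: multiply the two relations by the other denominator. `smul` by `a / b`: multiply `c`, `d` by `a`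
and `k` by `b`.)
-/

open Matrix

namespace WCn

variable {n m : ℕ}

theorem relA_zero (x : Fin n → ℂˣ) (y : Fin m → ℂˣ) : MRel x y 0 0 := by
  unfold MRel
  simp

theorem relA_add (x : Fin n → ℂˣ) (y : Fin m → ℂˣ) {c c' : Fin n → ℤ} {d d' : Fin m → ℤ} (h : MRel x y c d)
    (h' : MRel x y c' d') : MRel x y (fun i => c i + c' i) (fun j => d j + d' j) := by
  unfold MRel at *
  simp only [_root_.zpow_add, Finset.prod_mul_distrib]
  rw [mul_mul_mul_comm, h, h', mul_one]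

theorem relA_smul (x : Fin n → ℂˣ) (y : Fin m → ℂˣ) {c : Fin n → ℤ} {d : Fin m → ℤ} (h : MRel x y c d) (z : ℤ) :
    MRel x y (fun i => c i * z) (fun j => d j * z) := by
  unfold MRel at *
  simp only [_root_.zpow_mul, Finset.prod_zpow]
  rw [← _root_.mul_zpow, h, _root_.one_zpow]

theorem relA_comp (x : Fin n → ℂˣ) (y : Fin m → ℂˣ) (π : Equiv.Perm (Fin n)) (ρ : Equiv.Perm (Fin m))
    (c : Fin n → ℤ) (d : Fin m → ℤ) : MRel (x ∘ π) (y ∘ ρ) c d ↔ MRel x y (c ∘ π.symm) (d ∘ ρ.symm) := by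
  unfold MRel
  have h1 : ∏ i, (x ∘ π) i ^ c i = ∏ i, x i ^ (c ∘ π.symm) i := by
    rw [← Equiv.prod_comp π fun i => x i ^ (c ∘ π.symm) i]
    refine Finset.prod_congr rfl fun i _ => ?_
    simp
  have h2 : ∏ j, (y ∘ ρ) j ^ d j = ∏ j, y j ^ (d ∘ ρ.symm) j := by
    rw [← Equiv.prod_comp ρ fun j => y j ^ (d ∘ ρ.symm) j]
    refine Finset.prod_congr rfl fun j _ => ?_
    simp
  rw [h1, h2]

/-- The space of rational relations between the `x i` and the `y j`. -/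
def relQ (x : Fin n → ℂˣ) (y : Fin m → ℂˣ) : Submodule ℚ ((Fin n → ℚ) × (Fin m → ℚ)) where
  carrier := {v | ∃ (k : ℕ) (c : Fin n → ℤ) (d : Fin m → ℤ), 0 < k ∧ (∀ i, (c i : ℚ) = k * v.1 i) ∧
    (∀ j, (d j : ℚ) = k * v.2 j) ∧ MRel x y c d}
  add_mem' := by
    rintro v v' ⟨k, c, d, hk, hc, hd, h⟩ ⟨k', c', d', hk', hc', hd', h'⟩
    refine ⟨k * k', fun i => c i * (k' : ℤ) + c' i * (k : ℤ), fun j => d j * (k' : ℤ) + d' j * (k : ℤ),
      Nat.mul_pos hk hk', fun i => ?_, fun j => ?_, relA_add x y (relA_smul x y h _) (relA_smul x y h' _)⟩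
    · have h1 : (v + v').1 i = v.1 i + v'.1 i := rfl
      rw [h1]
      push_cast
      rw [hc, hc']
      ring
    · have h1 : (v + v').2 j = v.2 j + v'.2 j := rfl
      rw [h1]
      push_cast
      rw [hd, hd']
      ring
  zero_mem' := by
    refine ⟨1, 0, 0, Nat.one_pos, fun i => ?_, fun j => ?_, relA_zero x y⟩
    · have h1 : ((0 : (Fin n → ℚ) × (Fin m → ℚ))).1 i = 0 := rfl
      rw [h1]
      simp
    · have h1 : ((0 : (Fin n → ℚ) × (Fin m → ℚ))).2 j = 0 := rfl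
      rw [h1]
      simp
  smul_mem' := by
    rintro q v ⟨k, c, d, hk, hc, hd, h⟩
    have hq : (q.num : ℚ) = q.den * q := (Rat.den_mul_eq_num q).symm
    refine ⟨k * q.den, fun i => c i * q.num, fun j => d j * q.num, Nat.mul_pos hk q.den_pos, fun i => ?_, fun j => ?_,
      relA_smul x y h _⟩
    · have h1 : (q • v).1 i = q * v.1 i := rfl
      rw [h1]
      push_cast
      rw [hc, hq]
      ring
    · have h1 : (q • v).2 j = q * v.2 j := rfl
      rw [h1]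
      push_cast
      rw [hd, hq]
      ring

theorem mem_relQ (x : Fin n → ℂˣ) (y : Fin m → ℂˣ) (v : (Fin n → ℚ) × (Fin m → ℚ)) :
    v ∈ relQ x y ↔ ∃ (k : ℕ) (c : Fin n → ℤ) (d : Fin m → ℤ), 0 < k ∧ (∀ i, (c i : ℚ) = k * v.1 i) ∧
      (∀ j, (d j : ℚ) = k * v.2 j) ∧ MRel x y c d := Iff.rfl

theorem relQ_of_MRel (x : Fin n → ℂˣ) (y : Fin m → ℂˣ) (c : Fin n → ℤ) (d : Fin m → ℤ) (h : MRel x y c d) :
    ((fun i => (c i : ℚ)), (fun j => (d j : ℚ))) ∈ relQ x y := by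
  refine ⟨1, c, d, Nat.one_pos, fun i => ?_, fun j => ?_, h⟩
  · simp
  · simp

/-- Symmetries act on the relations. -/
theorem relQ_relSym (x : Fin n → ℂˣ) (y : Fin m → ℂˣ) (π : Equiv.Perm (Fin n)) (ρ : Equiv.Perm (Fin m))
    (h : RelSym x y π ρ) (v : (Fin n → ℚ) × (Fin m → ℚ)) (hv : v ∈ relQ x y) :
    (v.1 ∘ π.symm, v.2 ∘ ρ.symm) ∈ relQ x y := by
  obtain ⟨k, c, d, hk, hc, hd, h1⟩ := hv
  exact ⟨k, c ∘ π.symm, d ∘ ρ.symm, hk, fun i => hc _, fun j => hd _, (relA_comp x y π ρ c d).1 (h c d h1)⟩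

/-- Compatible real numbers satisfy the rational relations. -/
theorem relQ_compat (x : Fin n → ℂˣ) (y : Fin m → ℂˣ) (u : Fin n → ℝ) (w : Fin m → ℝ) (h : Compat x y u w)
    (v : (Fin n → ℚ) × (Fin m → ℚ)) (hv : v ∈ relQ x y) :
    ∑ i, (v.1 i : ℝ) * u i + ∑ j, (v.2 j : ℝ) * w j = 0 := by
  obtain ⟨k, c, d, hk, hc, hd, h1⟩ := hv
  have h2 := h c d h1
  have hc' : ∀ i, (c i : ℝ) = k * (v.1 i : ℝ) := fun i => by
    have := congrArg (fun q : ℚ => (q : ℝ)) (hc i)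
    push_cast at this
    exact this
  have hd' : ∀ j, (d j : ℝ) = k * (v.2 j : ℝ) := fun j => by
    have := congrArg (fun q : ℚ => (q : ℝ)) (hd j)
    push_cast at this
    exact this
  have h3 : (k : ℝ) * (∑ i, (v.1 i : ℝ) * u i + ∑ j, (v.2 j : ℝ) * w j) = 0 := by
    rw [mul_add, Finset.mul_sum, Finset.mul_sum, ← h2]
    congr 1
    · exact Finset.sum_congr rfl fun i _ => by rw [hc', mul_assoc]
    · exact Finset.sum_congr rfl fun j _ => by rw [hd', mul_assoc]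
  rcases mul_eq_zero.1 h3 with h4 | h4
  · exact absurd h4 (Nat.cast_ne_zero.2 hk.ne')
  · exact h4

/-- The identity is a symmetry, symmetries can be composed, and (finite groups) inverted. -/
theorem relSym_one (x : Fin n → ℂˣ) (y : Fin m → ℂˣ) : RelSym x y 1 1 := fun _ _ h => h

theorem relSym_mul (x : Fin n → ℂˣ) (y : Fin m → ℂˣ) {π π' : Equiv.Perm (Fin n)} {ρ ρ' : Equiv.Perm (Fin m)}
    (h : RelSym x y π ρ) (h' : RelSym x y π' ρ') : RelSym x y (π * π') (ρ * ρ') := by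
  intro c d h1
  have h2 := (relA_comp x y π' ρ' c d).1 (h' c d h1)
  have h3 := (relA_comp x y π ρ _ _).1 (h _ _ h2)
  exact (relA_comp x y (π * π') (ρ * ρ') c d).2 h3

/-- `(π, ρ)⁻¹` is a power of `(π, ρ)`. -/
theorem relSym_inv (x : Fin n → ℂˣ) (y : Fin m → ℂˣ) {π : Equiv.Perm (Fin n)} {ρ : Equiv.Perm (Fin m)}
    (h : RelSym x y π ρ) : RelSym x y π⁻¹ ρ⁻¹ := by
  have h1 : ∀ k : ℕ, RelSym x y (π ^ k) (ρ ^ k) := by
    intro k
    induction k with
    | zero => rw [pow_zero, pow_zero]; exact relSym_one x y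
    | succ k ih => rw [pow_succ, pow_succ]; exact relSym_mul x y ih h
  obtain ⟨N, hN0, hN1, hN2⟩ : ∃ N : ℕ, 0 < N ∧ π ^ N = 1 ∧ ρ ^ N = 1 :=
    ⟨orderOf π * orderOf ρ, Nat.mul_pos (orderOf_pos π) (orderOf_pos ρ),
      by rw [pow_mul, pow_orderOf_eq_one, one_pow], by rw [mul_comm, pow_mul, pow_orderOf_eq_one, one_pow]⟩
  obtain ⟨N', rfl⟩ : ∃ N', N = N' + 1 := ⟨N - 1, by omega⟩
  have h2 : π ^ N' = π⁻¹ := eq_inv_of_mul_eq_one_left (by rw [← pow_succ]; exact hN1)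
  have h3 : ρ ^ N' = ρ⁻¹ := eq_inv_of_mul_eq_one_left (by rw [← pow_succ]; exact hN2)
  rw [← h2, ← h3]
  exact h1 N'

end WCn
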