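import Pool.Agent.Lib.MP_c2b80f_alC.RelA

/-!
# Two-transitive symmetries (job RelD): the hypotheses `hIrr`, `hSchur` of `rel_dim`, `rel_schur` for `SL_m`
-/

open Matrix

namespace WCn

variable {n m : ℕ}

/-- The symmetries of `y` form a two-transitive set of permutations. -/
def TwoTrans (x : Fin n → ℂˣ) (y : Fin m → ℂˣ) : Prop :=
  ∀ j j' l l' : Fin m, j ≠ j' → l ≠ l' → ∃ π ρ, RelSym x y π ρ ∧ ρ j = l ∧ ρ j' = l'

/-- The constant vectors. -/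
def constS (m : ℕ) : Submodule ℚ (Fin m → ℚ) := Submodule.span ℚ {fun _ => 1}

private theorem relD_mem (m : ℕ) (d : Fin m → ℚ) : d ∈ constS m ↔ ∃ a : ℚ, ∀ j, d j = a := by
  unfold constS
  rw [Submodule.mem_span_singleton]
  constructor
  · rintro ⟨a, rfl⟩
    exact ⟨a, fun j => by rw [Pi.smul_apply, smul_eq_mul, mul_one]⟩
  · rintro ⟨a, ha⟩
    exact ⟨a, funext fun j => by rw [Pi.smul_apply, smul_eq_mul, mul_one, ha]⟩

private theorem relD_ne (hm : 2 ≤ m) (j : Fin m) : ∃ j' : Fin m, j' ≠ j := by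
  by_cases h : j.1 = 0
  · exact ⟨⟨1, by omega⟩, fun h2 => by rw [← h2] at h; exact absurd h one_ne_zero⟩
  · exact ⟨⟨0, by omega⟩, fun h2 => by rw [← h2] at h; exact h rfl⟩

/-- Proof. Let `W ≠ constS m`, so there is a nonconstant `d ∈ W`. Let `𝒢` be the (finite) set of the permutations `ρ` which occur in a symmetry
`(π, ρ)`; it is closed under products and inverses (`relSym_mul`, `relSym_inv`). For `j : Fin m` let `𝒢_j = {ρ ∈ 𝒢 | ρ j = j}`. The vector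
`e = ∑ ρ ∈ 𝒢_j, d ∘ ρ.symm ∈ W` has `e j = |𝒢_j| d j`, and `e l = e l'` for all `l, l' ≠ j` (there is `σ ∈ 𝒢_j` with `σ l = l'`, by `h` applied to `(j, l)`, `(j, l')`;
reindex the sum by `ρ ↦ σ ρ`). The sum of the coordinates of `e` is `|𝒢_j| ∑ d`, so `(m - 1) e l = |𝒢_j| ∑_{l' ≠ j} d l'`.
Subtracting a constant vector, `(e j - e l) e_j ∈ W` (`e_j` the basis vector). If `e j = e l` for
every `j` then `(m - 1) d j = ∑_{l' ≠ j} d l'`, that is `m d j = ∑ d`, for all `j`, and `d` would be constant. So some basis vector `e_j ∈ W`, hence all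
(`h` gives transitivity, as `2 ≤ m`), and `W = ⊤`. -/
theorem irr_constS (hm : 2 ≤ m) (x : Fin n → ℂˣ) (y : Fin m → ℂˣ) (h : TwoTrans x y) :
    ∀ W : Submodule ℚ (Fin m → ℚ), constS m ≤ W →
      (∀ π ρ, RelSym x y π ρ → ∀ d ∈ W, d ∘ ρ.symm ∈ W) → W = constS m ∨ W = ⊤ := by
  classical
  intro W hcW hst
  by_cases hW : W ≤ constS m
  · exact Or.inl (le_antisymm hW hcW)
  refine Or.inr ?_
  obtain ⟨d, hd, hdc⟩ := Set.not_subset.1 hW
  have hm0 : (m : ℚ) ≠ 0 := Nat.cast_ne_zero.2 (by omega)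
  -- a coordinate which is not the mean
  have hj : ∃ j, (m : ℚ) * d j ≠ ∑ k, d k := by
    by_contra hcon
    push Not at hcon
    refine hdc ((relD_mem m d).2 ⟨(∑ k, d k) / m, fun j => ?_⟩)
    rw [eq_div_iff hm0, mul_comm]
    exact hcon j
  obtain ⟨j, hj⟩ := hj
  let 𝒢 : Finset (Equiv.Perm (Fin m)) := Finset.univ.filter fun ρ => (∃ π, RelSym x y π ρ) ∧ ρ j = j
  have h𝒢 : ∀ ρ, ρ ∈ 𝒢 ↔ (∃ π, RelSym x y π ρ) ∧ ρ j = j := fun ρ => by
    rw [Finset.mem_filter]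
    exact and_iff_right (Finset.mem_univ _)
  have hsymj : ∀ ρ ∈ 𝒢, ρ.symm j = j := fun ρ hρ => by
    rw [Equiv.symm_apply_eq]
    exact ((h𝒢 ρ).1 hρ).2.symm
  have hone : (1 : Equiv.Perm (Fin m)) ∈ 𝒢 := (h𝒢 1).2 ⟨⟨1, relSym_one x y⟩, rfl⟩
  have hcard : (0 : ℚ) < (𝒢.card : ℚ) := Nat.cast_pos.2 (Finset.card_pos.2 ⟨1, hone⟩)
  obtain ⟨e, he⟩ : ∃ e : Fin m → ℚ, e = ∑ ρ ∈ 𝒢, d ∘ ρ.symm := ⟨_, rfl⟩
  have heW : e ∈ W := by
    rw [he]
    refine Submodule.sum_mem _ fun ρ hρ => ?_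
    obtain ⟨⟨π, hπ⟩, -⟩ := (h𝒢 ρ).1 hρ
    exact hst π ρ hπ d hd
  have heval : ∀ k, e k = ∑ ρ ∈ 𝒢, d (ρ.symm k) := fun k => by
    rw [he, Finset.sum_apply]
    rfl
  have hej : e j = 𝒢.card * d j := by
    rw [heval, Finset.sum_congr rfl fun ρ hρ => by rw [hsymj ρ hρ], Finset.sum_const, nsmul_eq_mul]
  have hell : ∀ l l', l ≠ j → l' ≠ j → e l = e l' := by
    intro l l' hl hl'
    obtain ⟨π, σ, hσ, hσj, hσl⟩ := h j l j l' hl.symm hl'.symm
    rw [heval, heval]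
    have hσ𝒢 : ∀ ρ ∈ 𝒢, σ * ρ ∈ 𝒢 := by
      intro ρ hρ
      obtain ⟨⟨π', hπ'⟩, hρj⟩ := (h𝒢 ρ).1 hρ
      exact (h𝒢 _).2 ⟨⟨π * π', relSym_mul x y hσ hπ'⟩, by rw [Equiv.Perm.mul_apply, hρj, hσj]⟩
    have hσi𝒢 : ∀ ρ ∈ 𝒢, σ⁻¹ * ρ ∈ 𝒢 := by
      intro ρ hρ
      obtain ⟨⟨π', hπ'⟩, hρj⟩ := (h𝒢 ρ).1 hρ
      refine (h𝒢 _).2 ⟨⟨π⁻¹ * π', relSym_mul x y (relSym_inv x y hσ) hπ'⟩, ?_⟩
      rw [Equiv.Perm.mul_apply, hρj, Equiv.Perm.inv_eq_iff_eq]
      exact hσj.symm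
    refine Finset.sum_nbij' (fun ρ => σ * ρ) (fun ρ => σ⁻¹ * ρ) hσ𝒢 hσi𝒢
      (fun ρ _ => inv_mul_cancel_left σ ρ) (fun ρ _ => mul_inv_cancel_left σ ρ) (fun ρ _ => ?_)
    have h5 : (σ * ρ).symm l' = ρ.symm l := by
      rw [Equiv.symm_apply_eq, Equiv.Perm.mul_apply, Equiv.apply_symm_apply]
      exact hσl.symm
    rw [h5]
  obtain ⟨l, hl⟩ := relD_ne hm j
  have hsum : ∑ k, e k = 𝒢.card * ∑ k, d k := by
    simp only [heval]
    rw [Finset.sum_comm]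
    have h1 : ∀ ρ : Equiv.Perm (Fin m), ∑ k, d (ρ.symm k) = ∑ k, d k := fun ρ => Equiv.sum_comp ρ.symm d
    rw [Finset.sum_congr rfl fun ρ _ => h1 ρ, Finset.sum_const, nsmul_eq_mul]
  have hne : e j ≠ e l := by
    intro heq
    have h1 : ∀ k, e k = e j := by
      intro k
      by_cases hk : k = j
      · rw [hk]
      · rw [heq]
        exact hell k l hk hl
    rw [Finset.sum_congr rfl fun k _ => h1 k, Finset.sum_const, Finset.card_univ, Fintype.card_fin,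
      nsmul_eq_mul, hej] at hsum
    refine hj (mul_left_cancel₀ hcard.ne' ?_)
    rw [← hsum]
    ring
  -- the basis vector
  have hb : (Pi.single j 1 : Fin m → ℚ) ∈ W := by
    have h1 : (fun _ => e l : Fin m → ℚ) ∈ W := hcW ((relD_mem m _).2 ⟨e l, fun _ => rfl⟩)
    have h2 := W.smul_mem (e j - e l)⁻¹ (W.sub_mem heW h1)
    have h3 : (e j - e l)⁻¹ • (e - fun _ => e l) = (Pi.single j 1 : Fin m → ℚ) := by
      funext k
      rw [Pi.smul_apply, Pi.sub_apply, smul_eq_mul]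
      by_cases hk : k = j
      · rw [hk, Pi.single_eq_same, inv_mul_cancel₀ (sub_ne_zero.2 hne)]
      · rw [Pi.single_eq_of_ne hk, hell k l hk hl, sub_self, mul_zero]
    rw [h3] at h2
    exact h2
  have hall : ∀ k, (Pi.single k 1 : Fin m → ℚ) ∈ W := by
    intro k
    obtain ⟨k', hk'⟩ := relD_ne hm k
    obtain ⟨π, ρ, hρ, hρj, -⟩ := h j l k k' hl.symm hk'.symm
    have h1 := hst π ρ hρ _ hb
    have h2 : (Pi.single j 1 : Fin m → ℚ) ∘ ρ.symm = Pi.single k 1 := by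
      funext i
      rw [Function.comp_apply, Pi.single_apply, Pi.single_apply]
      by_cases hi : i = k
      · rw [if_pos hi, if_pos (by rw [hi, Equiv.symm_apply_eq, hρj])]
      · rw [if_neg hi, if_neg (fun h3 => hi (by rw [← hρj, ← h3, Equiv.apply_symm_apply]))]
    rw [h2] at h1
    exact h1
  refine eq_top_iff.2 fun a _ => ?_
  rw [pi_eq_sum_univ a]
  refine Submodule.sum_mem _ fun i _ => Submodule.smul_mem _ _ ?_
  have h3 : (fun j => if i = j then (1 : ℚ) else 0) = Pi.single i 1 := by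
    funext j
    rw [Pi.single_apply]
    by_cases hj : i = j
    · rw [if_pos hj, if_pos hj.symm]
    · rw [if_neg hj, if_neg (fun h => hj h.symm)]
  rw [h3]
  exact hall i

/-- Proof. By two-transitivity `D j j = a` for all `j` and `D j l = b` for all `j ≠ l`. If `∑ w j = 0` then `∑ D j l w j w l = a ∑ w j ^ 2 + b ((∑ w j) ^ 2 - ∑ w j ^ 2)
= (a - b) ∑ w j ^ 2`. -/
theorem schur_constS (hm : 2 ≤ m) (x : Fin n → ℂˣ) (y : Fin m → ℂˣ) (h : TwoTrans x y) :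
    ∀ D : Matrix (Fin m) (Fin m) ℚ, (∀ j l, D j l = D l j) →
      (∀ π ρ, RelSym x y π ρ → ∀ j l, D (ρ j) (ρ l) = D j l) → (∀ d ∈ constS m, D *ᵥ d = 0) →
      ∃ β : ℚ, ∀ w : Fin m → ℝ, (∀ d ∈ constS m, ∑ j, (d j : ℝ) * w j = 0) →
        ∑ j, ∑ l, (D j l : ℝ) * w j * w l = β * ∑ j, w j ^ 2 := by
  intro D _ hinv _
  obtain ⟨j0, hj0⟩ : ∃ j0 : Fin m, j0 = ⟨0, by omega⟩ := ⟨_, rfl⟩
  obtain ⟨j1, hj1⟩ := relD_ne hm j0
  have hdiag : ∀ j, D j j = D j0 j0 := by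
    intro j
    obtain ⟨j', hj'⟩ := relD_ne hm j
    obtain ⟨π, ρ, hρ, h1, -⟩ := h j0 j1 j j' hj1.symm hj'.symm
    have h2 := hinv π ρ hρ j0 j0
    rw [h1] at h2
    exact h2
  have hoff : ∀ j l, j ≠ l → D j l = D j0 j1 := by
    intro j l hjl
    obtain ⟨π, ρ, hρ, h1, h2⟩ := h j0 j1 j l hj1.symm hjl
    have h3 := hinv π ρ hρ j0 j1
    rw [h1, h2] at h3
    exact h3
  refine ⟨D j0 j0 - D j0 j1, fun w hw => ?_⟩
  have hw0 : ∑ j, w j = 0 := by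
    have h1 := hw (fun _ => 1) ((relD_mem m _).2 ⟨1, fun _ => rfl⟩)
    rw [← h1]
    exact Finset.sum_congr rfl fun j _ => by rw [Rat.cast_one, one_mul]
  have h1 : ∀ j l, (D j l : ℝ) * w j * w l = (D j0 j1 : ℝ) * (w j * w l) +
      (if j = l then ((D j0 j0 : ℝ) - (D j0 j1 : ℝ)) * (w j * w l) else 0) := by
    intro j l
    by_cases hjl : j = l
    · rw [if_pos hjl, ← hjl, hdiag]
      ring
    · rw [if_neg hjl, hoff j l hjl]
      ring
  simp only [h1]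
  have h2 : ∀ j, ∑ l, ((D j0 j1 : ℝ) * (w j * w l) +
      (if j = l then ((D j0 j0 : ℝ) - (D j0 j1 : ℝ)) * (w j * w l) else 0)) =
      ((D j0 j0 : ℝ) - (D j0 j1 : ℝ)) * w j ^ 2 := by
    intro j
    rw [Finset.sum_add_distrib, ← Finset.mul_sum, ← Finset.mul_sum, hw0, mul_zero, mul_zero, zero_add,
      Finset.sum_ite_eq Finset.univ j, if_pos (Finset.mem_univ j), sq]
  rw [Finset.sum_congr rfl fun j _ => h2 j, ← Finset.mul_sum]
  push_cast
  rfl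

theorem finrank_constS (hm : 1 ≤ m) : Module.finrank ℚ (constS m) = 1 := by
  unfold constS
  refine finrank_span_singleton fun h => ?_
  have h1 := congrFun h ⟨0, by omega⟩
  exact one_ne_zero h1

/-- An integral vector in `constS m` is constant. -/
theorem constS_prod (y : Fin m → ℂˣ) (hy : ∏ j, y j = 1) (d : Fin m → ℤ) (hd : (fun j => (d j : ℚ)) ∈ constS m) :
    ∏ j, y j ^ d j = 1 := by
  obtain ⟨a, ha⟩ := (relD_mem m _).1 hd
  by_cases hm : m = 0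
  · subst hm
    exact Finset.prod_of_isEmpty _
  · obtain ⟨j0, hj0⟩ : ∃ j0 : Fin m, j0 = ⟨0, by omega⟩ := ⟨_, rfl⟩
    have h1 : ∀ j, d j = d j0 := by
      intro j
      have h2 : ((d j : ℤ) : ℚ) = ((d j0 : ℤ) : ℚ) := (ha j).trans (ha j0).symm
      exact_mod_cast h2
    rw [Finset.prod_congr rfl fun j _ => by rw [h1 j], Finset.prod_zpow, hy, _root_.one_zpow]

end WCn
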