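import Pool.Agent.Lib.MP_c2b80f_alC.Defs

/-!
# Sizes of matrices with respect to an absolute value (job SpecA)
-/

open Matrix

namespace WCn

variable {n : ℕ} {K : Subfield ℂ} {N : ℂ → ℝ}

/-- The size of a matrix with respect to `N`. -/
noncomputable def nsz (N : ℂ → ℝ) (M : Matrix (Fin n) (Fin n) ℂ) : ℝ := ∑ i, ∑ j, N (M i j)

/-- All entries are in `K`. -/
def InK (K : Subfield ℂ) (M : Matrix (Fin n) (Fin n) ℂ) : Prop := ∀ i j, M i j ∈ K

theorem AbsOn.neg (hN : AbsOn K N) {a : ℂ} (ha : a ∈ K) : N (-a) = N a := by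
  have h1 : (-1 : ℂ) ∈ K := neg_mem (one_mem K)
  have h2 : N (-1) * N (-1) = 1 := by
    rw [← hN.mul _ h1 _ h1]
    rw [neg_mul_neg, one_mul, hN.one]
  have h3 : N (-1) = 1 := by
    have h4 := hN.nonneg (-1)
    nlinarith
  have h5 : -a = (-1) * a := by ring
  rw [h5, hN.mul _ h1 _ ha, h3, one_mul]

theorem AbsOn.int_le (hN : AbsOn K N) (k : ℤ) : N (k : ℂ) ≤ |(k : ℝ)| := by
  have hnat : ∀ m : ℕ, N (m : ℂ) ≤ (m : ℝ) := by
    intro m
    induction m with
    | zero => simp [hN.zero]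
    | succ m ih =>
      push_cast
      have h1 := hN.add (m : ℂ) (natCast_mem K m) 1 (one_mem K)
      rw [hN.one] at h1
      linarith
  obtain ⟨m, rfl | rfl⟩ := k.eq_nat_or_neg
  · have h1 := hnat m
    rw [Int.cast_natCast, Int.cast_natCast, Nat.abs_cast]
    exact h1
  · have h1 := hnat m
    rw [Int.cast_neg, Int.cast_neg, Int.cast_natCast, Int.cast_natCast, abs_neg, Nat.abs_cast, hN.neg (natCast_mem K m)]
    exact h1

theorem AbsOn.pos (hN : AbsOn K N) {a : ℂ} (ha : a ∈ K) (h0 : a ≠ 0) : 0 < N a := by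
  have h1 : N a * N a⁻¹ = 1 := by
    rw [← hN.mul _ ha _ (inv_mem ha), mul_inv_cancel₀ h0, hN.one]
  rcases (hN.nonneg a).lt_or_eq with h | h
  · exact h
  · rw [← h, zero_mul] at h1
    exact absurd h1 zero_ne_one

theorem AbsOn.sum_le (hN : AbsOn K N) {ι : Type*} (s : Finset ι) (f : ι → ℂ) (hf : ∀ i ∈ s, f i ∈ K) :
    N (∑ i ∈ s, f i) ≤ ∑ i ∈ s, N (f i) := by
  classical
  induction s using Finset.induction_on with
  | empty => simp [hN.zero]
  | insert a s ha ih =>
    rw [Finset.sum_insert ha, Finset.sum_insert ha]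
    have h1 : ∀ i ∈ s, f i ∈ K := fun i hi => hf i (Finset.mem_insert_of_mem hi)
    have h2 := hN.add (f a) (hf a (Finset.mem_insert_self a s)) (∑ i ∈ s, f i) (sum_mem h1)
    have h3 := ih h1
    linarith

theorem AbsOn.pow (hN : AbsOn K N) {a : ℂ} (ha : a ∈ K) (k : ℕ) : N (a ^ k) = N a ^ k := by
  induction k with
  | zero => rw [pow_zero, pow_zero, hN.one]
  | succ k ih => rw [pow_succ, pow_succ, hN.mul _ (pow_mem ha k) _ ha, ih]

theorem AbsOn.prod (hN : AbsOn K N) {ι : Type*} (s : Finset ι) (f : ι → ℂ) (hf : ∀ i ∈ s, f i ∈ K) :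
    N (∏ i ∈ s, f i) = ∏ i ∈ s, N (f i) := by
  classical
  induction s using Finset.induction_on with
  | empty => rw [Finset.prod_empty, Finset.prod_empty, hN.one]
  | insert a s ha ih =>
    rw [Finset.prod_insert ha, Finset.prod_insert ha]
    have h1 : ∀ i ∈ s, f i ∈ K := fun i hi => hf i (Finset.mem_insert_of_mem hi)
    rw [hN.mul (f a) (hf a (Finset.mem_insert_self a s)) (∏ i ∈ s, f i) (prod_mem h1), ih h1]

/-- The usual absolute value. -/
theorem absOn_norm (K : Subfield ℂ) : AbsOn K (fun z => ‖z‖) where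
  nonneg z := norm_nonneg z
  zero := norm_zero
  one := norm_one
  mul a _ b _ := norm_mul a b
  add a _ b _ := norm_add_le a b

theorem nsz_nonneg (hN : AbsOn K N) (A : Matrix (Fin n) (Fin n) ℂ) : 0 ≤ nsz N A := by
  unfold nsz
  exact Finset.sum_nonneg fun i _ => Finset.sum_nonneg fun j _ => hN.nonneg _

theorem nsz_mul (hN : AbsOn K N) {A B : Matrix (Fin n) (Fin n) ℂ} (hA : InK K A) (hB : InK K B) :
    nsz N (A * B) ≤ nsz N A * nsz N B := by
  unfold nsz
  have h1 : ∀ i j, N ((A * B) i j) ≤ ∑ k, N (A i k) * N (B k j) := by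
    intro i j
    rw [Matrix.mul_apply]
    refine (hN.sum_le Finset.univ (fun k => A i k * B k j) (fun k _ => mul_mem (hA i k) (hB k j))).trans ?_
    exact le_of_eq (Finset.sum_congr rfl fun k _ => hN.mul _ (hA i k) _ (hB k j))
  calc ∑ i, ∑ j, N ((A * B) i j) ≤ ∑ i, ∑ j, ∑ k, N (A i k) * N (B k j) :=
        Finset.sum_le_sum fun i _ => Finset.sum_le_sum fun j _ => h1 i j
    _ = ∑ i, ∑ k, N (A i k) * ∑ j, N (B k j) := by
        refine Finset.sum_congr rfl fun i _ => ?_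
        rw [Finset.sum_comm]
        refine Finset.sum_congr rfl fun k _ => ?_
        rw [Finset.mul_sum]
    _ ≤ ∑ i, ∑ k, N (A i k) * ∑ k', ∑ j, N (B k' j) := by
        refine Finset.sum_le_sum fun i _ => Finset.sum_le_sum fun k _ => ?_
        refine mul_le_mul_of_nonneg_left ?_ (hN.nonneg _)
        exact Finset.single_le_sum (f := fun k' => ∑ j, N (B k' j))
          (fun k' _ => Finset.sum_nonneg fun j _ => hN.nonneg _) (Finset.mem_univ k)
    _ = (∑ i, ∑ j, N (A i j)) * ∑ i, ∑ j, N (B i j) := by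
        rw [Finset.sum_mul]
        refine Finset.sum_congr rfl fun i _ => ?_
        rw [Finset.sum_mul]

theorem nsz_one (hN : AbsOn K N) : nsz N (1 : Matrix (Fin n) (Fin n) ℂ) = n := by
  unfold nsz
  have h1 : ∀ i : Fin n, ∑ j, N ((1 : Matrix (Fin n) (Fin n) ℂ) i j) = 1 := by
    intro i
    rw [Finset.sum_eq_single i]
    · rw [Matrix.one_apply_eq, hN.one]
    · intro j _ hj
      rw [Matrix.one_apply_ne (Ne.symm hj), hN.zero]
    · intro h
      exact absurd (Finset.mem_univ i) h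
  rw [Finset.sum_congr rfl fun i _ => h1 i]
  simp

theorem InK.mul {A B : Matrix (Fin n) (Fin n) ℂ} (hA : InK K A) (hB : InK K B) : InK K (A * B) := by
  intro i j
  rw [Matrix.mul_apply]
  exact sum_mem fun k _ => mul_mem (hA i k) (hB k j)

theorem InK.one : InK K (1 : Matrix (Fin n) (Fin n) ℂ) := by
  intro i j
  rw [Matrix.one_apply]
  split_ifs
  · exact one_mem K
  · exact zero_mem K

theorem InK.comb {𝒳 : Finset (Matrix (Fin n) (Fin n) ℂ)} (h𝒳 : ∀ X ∈ 𝒳, InK K X) (c : Matrix (Fin n) (Fin n) ℂ → ℤ) :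
    InK K (comb 𝒳 c) := by
  intro i j
  unfold WCn.comb
  rw [Matrix.sum_apply]
  refine sum_mem fun X hX => ?_
  rw [Matrix.smul_apply]
  exact zsmul_mem (h𝒳 X hX i j) (c X)

end WCn
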