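import Pool.Agent.Lib.MP_c2b80f_alC.SpecA

/-!
# The size of a product of integral combinations (job SpecW)
-/

open Matrix

namespace WCn

variable {n : ℕ} {K : Subfield ℂ} {N : ℂ → ℝ}

/-- `nsz N (∑ X, c X • X) ≤ ∑ X, |c X| nsz N X`, and `nsz N X ≤ n ^ 2 * ∑ a ∈ A₀, N a ≤ n ^ 2 * wt A₀ N`. -/
theorem nsz_comb (hN : AbsOn K N) {𝒳 : Finset (Matrix (Fin n) (Fin n) ℂ)} {A₀ : Finset ℂ} (hA₀ : ∀ a ∈ A₀, a ∈ K)
    (h𝒳 : ∀ X ∈ 𝒳, ∀ i j, X i j ∈ A₀) (c : Matrix (Fin n) (Fin n) ℂ → ℤ) :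
    nsz N (comb 𝒳 c) ≤ (1 + ∑ X ∈ 𝒳, |(c X : ℝ)|) * ((n : ℝ) ^ 2 * wt A₀ N) := by
  have hS0 : 0 ≤ ∑ a ∈ A₀, N a := Finset.sum_nonneg fun a _ => hN.nonneg a
  have hwt0 : 0 ≤ wt A₀ N := by
    unfold wt
    linarith
  have hent : ∀ X ∈ 𝒳, ∀ i j, N (X i j) ≤ wt A₀ N := by
    intro X hX i j
    have h1 : N (X i j) ≤ ∑ a ∈ A₀, N a :=
      Finset.single_le_sum (f := N) (fun a _ => hN.nonneg a) (h𝒳 X hX i j)
    unfold wt
    linarith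
  have hin : ∀ X ∈ 𝒳, ∀ i j, X i j ∈ K := fun X hX i j => hA₀ _ (h𝒳 X hX i j)
  have hc0 : 0 ≤ ∑ X ∈ 𝒳, |(c X : ℝ)| := Finset.sum_nonneg fun X _ => abs_nonneg _
  have hij : ∀ i j, N (comb 𝒳 c i j) ≤ (1 + ∑ X ∈ 𝒳, |(c X : ℝ)|) * wt A₀ N := by
    intro i j
    have h1 : comb 𝒳 c i j = ∑ X ∈ 𝒳, (c X : ℂ) * X i j := by
      unfold comb
      rw [Matrix.sum_apply]
      refine Finset.sum_congr rfl fun X _ => ?_
      rw [Matrix.smul_apply, zsmul_eq_mul]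
    have h2 : ∀ X ∈ 𝒳, (c X : ℂ) * X i j ∈ K := fun X hX => mul_mem (intCast_mem K _) (hin X hX i j)
    rw [h1]
    refine (hN.sum_le 𝒳 _ h2).trans ?_
    have h3 : ∑ X ∈ 𝒳, N ((c X : ℂ) * X i j) ≤ ∑ X ∈ 𝒳, |(c X : ℝ)| * wt A₀ N := by
      refine Finset.sum_le_sum fun X hX => ?_
      rw [hN.mul _ (intCast_mem K _) _ (hin X hX i j)]
      exact mul_le_mul (hN.int_le _) (hent X hX i j) (hN.nonneg _) (abs_nonneg _)
    refine h3.trans ?_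
    rw [← Finset.sum_mul]
    refine mul_le_mul_of_nonneg_right ?_ hwt0
    linarith
  have h4 : nsz N (comb 𝒳 c) ≤ ∑ _i : Fin n, ∑ _j : Fin n, (1 + ∑ X ∈ 𝒳, |(c X : ℝ)|) * wt A₀ N :=
    Finset.sum_le_sum fun i _ => Finset.sum_le_sum fun j _ => hij i j
  refine h4.trans (le_of_eq ?_)
  rw [Finset.sum_const, Finset.sum_const, Finset.card_univ, Fintype.card_fin, nsmul_eq_mul, nsmul_eq_mul]
  ring

/-- The bound for one factor. -/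
private theorem specW_one (hn : 1 ≤ n) (hN : AbsOn K N) {𝒳 : Finset (Matrix (Fin n) (Fin n) ℂ)} {A₀ : Finset ℂ}
    (hA₀ : ∀ a ∈ A₀, a ∈ K) (h𝒳 : ∀ X ∈ 𝒳, ∀ i j, X i j ∈ A₀) (c : Matrix (Fin n) (Fin n) ℂ → ℤ) :
    nsz N (comb 𝒳 c) ≤ Real.exp ((2 + 2 * Real.log n) * Real.log (1 + wt A₀ N) * cst 𝒳 c) := by
  have hS0 : 0 ≤ ∑ a ∈ A₀, N a := Finset.sum_nonneg fun a _ => hN.nonneg a
  have hwt2 : 2 ≤ wt A₀ N := by
    unfold wt
    linarith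
  have hc0 : 0 ≤ ∑ X ∈ 𝒳, |(c X : ℝ)| := Finset.sum_nonneg fun X _ => abs_nonneg _
  have hn0 : (1 : ℝ) ≤ n := by exact_mod_cast hn
  have hW : 1 ≤ Real.log (1 + wt A₀ N) := by
    rw [Real.le_log_iff_exp_le (by linarith)]
    have h1 := Real.exp_one_lt_d9
    linarith
  have hL : 0 ≤ Real.log (1 + ∑ X ∈ 𝒳, |(c X : ℝ)|) := Real.log_nonneg (by linarith)
  have hln : 0 ≤ Real.log (n : ℝ) := Real.log_nonneg hn0
  have h1 : Real.exp (Real.log (1 + ∑ X ∈ 𝒳, |(c X : ℝ)|) + 2 * Real.log n + Real.log (1 + wt A₀ N)) =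
      (1 + ∑ X ∈ 𝒳, |(c X : ℝ)|) * (n : ℝ) ^ 2 * (1 + wt A₀ N) := by
    rw [Real.exp_add, Real.exp_add, Real.exp_log (by linarith), Real.exp_log (by linarith)]
    have h2 : 2 * Real.log (n : ℝ) = Real.log ((n : ℝ) ^ 2) := by
      rw [Real.log_pow]
      norm_num
    rw [h2, Real.exp_log (by positivity)]
  have h3 : nsz N (comb 𝒳 c) ≤
      Real.exp (Real.log (1 + ∑ X ∈ 𝒳, |(c X : ℝ)|) + 2 * Real.log n + Real.log (1 + wt A₀ N)) := by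
    rw [h1]
    refine (nsz_comb hN hA₀ h𝒳 c).trans ?_
    have h4 : 0 ≤ (1 + ∑ X ∈ 𝒳, |(c X : ℝ)|) * (n : ℝ) ^ 2 := by positivity
    nlinarith
  refine h3.trans (Real.exp_le_exp.2 ?_)
  unfold cst
  generalize Real.log (1 + ∑ X ∈ 𝒳, |(c X : ℝ)|) = L at hL ⊢
  generalize Real.log (n : ℝ) = l at hln ⊢
  generalize Real.log (1 + wt A₀ N) = W at hW ⊢
  have h5 : 0 ≤ W - 1 := by linarith
  have h6 : (2 + 2 * l) * W * (1 + L) - (L + 2 * l + W) =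
      W + (2 * (W - 1) + 1) * L + 2 * l * ((W - 1) * (1 + L) + L) := by ring
  have h7 : 0 ≤ W + (2 * (W - 1) + 1) * L + 2 * l * ((W - 1) * (1 + L) + L) := by positivity
  linarith

/-- Induction on `l`: `nsz N (∏ Mₖ) ≤ n * ∏ nsz N Mₖ`, `nsz N Mₖ ≤ exp (log (1 + ∑ |c|) + 2 log n + log (1 + wt))` by `nsz_comb`, and
`1 + wt A₀ N ≥ 3`, `log 3 ≥ 1`, so each exponent is at most `(2 + 2 log n) log (1 + wt A₀ N) cst 𝒳 c`. -/
theorem word_bound (hn : 1 ≤ n) (hN : AbsOn K N) {𝒳 : Finset (Matrix (Fin n) (Fin n) ℂ)} {A₀ : Finset ℂ}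
    (hA₀ : ∀ a ∈ A₀, a ∈ K) (h𝒳 : ∀ X ∈ 𝒳, ∀ i j, X i j ∈ A₀) (l : List (Matrix (Fin n) (Fin n) ℂ → ℤ)) :
    nsz N (l.map (comb 𝒳)).prod ≤
      n * Real.exp ((2 + 2 * Real.log n) * Real.log (1 + wt A₀ N) * (l.map (cst 𝒳)).sum) := by
  have hin : ∀ X ∈ 𝒳, InK K X := fun X hX i j => hA₀ _ (h𝒳 X hX i j)
  have hprod : ∀ l : List (Matrix (Fin n) (Fin n) ℂ → ℤ), InK K (l.map (comb 𝒳)).prod := by
    intro l
    induction l with
    | nil => exact InK.one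
    | cons c l ih =>
      rw [List.map_cons, List.prod_cons]
      exact InK.mul (InK.comb hin c) ih
  induction l with
  | nil =>
    rw [List.map_nil, List.map_nil, List.prod_nil, List.sum_nil, nsz_one hN, mul_zero, Real.exp_zero, mul_one]
  | cons c l ih =>
    rw [List.map_cons, List.map_cons, List.prod_cons, List.sum_cons, mul_add, Real.exp_add]
    refine (nsz_mul hN (InK.comb hin c) (hprod l)).trans ?_
    have h1 := mul_le_mul (specW_one hn hN hA₀ h𝒳 c) ih (nsz_nonneg hN _) (Real.exp_pos _).le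
    refine h1.trans (le_of_eq ?_)
    ring

private theorem specW_mem (S : Subring ℂ) (𝒳 : Finset (Matrix (Fin n) (Fin n) ℂ))
    (h𝒳 : ∀ X ∈ 𝒳, ∀ i j, X i j ∈ S) (l : List (Matrix (Fin n) (Fin n) ℂ → ℤ)) :
    ∀ i j, (l.map (comb 𝒳)).prod i j ∈ S := by
  induction l with
  | nil =>
    intro i j
    rw [List.map_nil, List.prod_nil, Matrix.one_apply]
    split_ifs
    · exact one_mem _
    · exact zero_mem _
  | cons c l ih =>
    intro i j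
    rw [List.map_cons, List.prod_cons, Matrix.mul_apply]
    refine sum_mem fun k _ => mul_mem ?_ (ih k j)
    unfold comb
    rw [Matrix.sum_apply]
    refine sum_mem fun X hX => ?_
    rw [Matrix.smul_apply]
    exact zsmul_mem (h𝒳 X hX i k) _

/-- The product has entries in `K` and in the ring generated by `A₀`. -/
theorem mem_K_of_log (A₀ : Finset ℂ) (hA₀ : ∀ a ∈ A₀, a ∈ K) (𝒳 : Finset (Matrix (Fin n) (Fin n) ℂ))
    (h𝒳 : ∀ X ∈ 𝒳, ∀ i j, X i j ∈ A₀) (l : List (Matrix (Fin n) (Fin n) ℂ → ℤ)) :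
    InK K (l.map (comb 𝒳)).prod ∧ ∀ i j, (l.map (comb 𝒳)).prod i j ∈ Subring.closure (A₀ : Set ℂ) := by
  refine ⟨?_, ?_⟩
  · exact specW_mem K.toSubring 𝒳 (fun X hX i j => hA₀ _ (h𝒳 X hX i j)) l
  · exact specW_mem (Subring.closure (A₀ : Set ℂ)) 𝒳 (fun X hX i j => Subring.subset_closure (h𝒳 X hX i j)) l

end WCn
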